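import Pool.Agent.Helper12.CW.W2X

/-!
Plan W (MP_c75db0): THE CERTIFICATE THEOREM OF THE STAR FRAME. Regions `X a` of vectors before the
syllable `a`, `Y a` of covectors after the syllable `a`.
-/

set_option autoImplicit false
noncomputable section
namespace Pool.Agent.Helper6.MONO.W2

open Matrix Filter Topology

/-- matrix of a syllable -/
def sN (p q r : ℕ) (a : Sy) (x : ℝ) : Mt := sW (phi p) (Kp q) (Kp r) (zx x) (syl a.1 a.2)
/-- its derivative -/
def sNd (p q r : ℕ) (a : Sy) (x : ℝ) : Mt := sWd (phi p) (Kp q) (Kp r) x (syl a.1 a.2)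

theorem sW_repY (φ k1 k2 : ℝ) (z : ℂ) (w : List (Fin 3)) (n : ℕ) :
    sW φ k1 k2 z (List.replicate n w).flatten = sW φ k1 k2 z w ^ n := by
  induction n with
  | zero => simp [sW]
  | succ n ih => rw [List.replicate_succ, List.flatten_cons, sW_append, ih, pow_succ]

theorem bN_pow (p q r : ℕ) (b : SBl) (x : ℝ) : bN p q r b x = sN p q r b.sy x ^ b.n :=
  sW_repY _ _ _ _ _ _

/-- letters are invertible -/
theorem sL_invert (φ k1 k2 : ℝ) (z : ℂ) (n : Fin 3) : ∃ J : Mt, J * sL φ k1 k2 z n = 1 := by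
  have hm := ep_mul φ
  fin_cases n
  · refine ⟨sI0, ?_⟩
    show sI0 * sI0 = 1
    ext i j
    fin_cases i <;> fin_cases j <;> simp [sI0, Matrix.mul_apply, Fin.sum_univ_three]
  · refine ⟨sI1 φ, ?_⟩
    show sI1 φ * sI1 φ = 1
    generalize he : ep φ = e at hm
    generalize hf : star e = f at hm
    ext i j
    fin_cases i <;> fin_cases j <;>
      simp [sI1, he, Matrix.mul_apply, Fin.sum_univ_three]
    · have hf' : (starRingEnd ℂ) e = f := hf
      rw [hf']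
      linear_combination (e * f + 1) * hm
    · have hf' : (starRingEnd ℂ) e = f := hf
      rw [hf']
      linear_combination (e * f + 1) * hm
  · refine ⟨sI2 (sA φ k1 k2 z) (sB φ k1 k2 z), ?_⟩
    show sI2 (sA φ k1 k2 z) (sB φ k1 k2 z) * sI2 (sA φ k1 k2 z) (sB φ k1 k2 z) = 1
    generalize sA φ k1 k2 z = A
    generalize sB φ k1 k2 z = B
    ext i j
    fin_cases i <;> fin_cases j <;>
      simp [sI2, Matrix.mul_apply, Fin.sum_univ_three] <;> ring

theorem sW_invert {φ : ℝ} (_hs : Real.sin φ ≠ 0) (k1 k2 : ℝ) {z : ℂ} (_hz : ‖z‖ = 1)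
    (w : List (Fin 3)) : ∃ J : Mt, J * sW φ k1 k2 z w = 1 := by
  induction w with
  | nil => exact ⟨1, by rw [sW, mul_one]⟩
  | cons n w ih =>
    obtain ⟨J, hJ⟩ := ih
    obtain ⟨J', hJ'⟩ := sL_invert φ k1 k2 z n
    refine ⟨J' * J, ?_⟩
    rw [sW, Matrix.mul_assoc, ← Matrix.mul_assoc J, hJ, one_mul, hJ']

theorem vecMul_norm_le (M : Mt) (C : ℝ) (hC : ∀ i j, ‖M i j‖ ≤ C) (w : V3) :
    ‖Matrix.vecMul w M‖ ≤ 3 * C * ‖w‖ := by
  have h : Matrix.vecMul w M = Mᵀ.mulVec w := by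
    rw [Matrix.mulVec_transpose]
  rw [h]
  exact mul_le' Mᵀ C (fun i j => hC j i) w

/-- the start syllable -/
def a0 : Sy := (false, 2)

theorem exists_path' (p q r : ℕ) (hp : 3 ≤ p) : ∀ (bs : List SBl) (pv : Sy), SyOk p pv →
    (∀ b ∈ bs, b.Ok p q r) → List.IsChain (SBl.Nx p q r) bs → SyNe pv (hdS bs) →
    ∃ (ts : List (TB p q r)) (s' : Sy × Sy), BPath TB.src TB.tgt (pv, hdS bs) ts s' ∧
      ts.map (fun b => b.cur) = bs ∧ s'.2 = a0 ∧ SyOk p s'.1 := by
  intro bs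
  induction bs with
  | nil =>
    intro pv h _ _ _
    exact ⟨[], _, BPath.nil _, rfl, rfl, h⟩
  | cons b bs ih =>
    intro pv h1 h2 h3 h4
    have hb := h2 b (by simp)
    have hbs : ∀ c ∈ bs, c.Ok p q r := fun c hc => h2 c (by simp [hc])
    have hne : SyNe b.sy (hdS bs) := by
      rcases bs with _ | ⟨c, bs⟩
      · rintro ⟨e1, e2⟩
        have e3 : b.sy = (false, 2) := e1
        rw [e3] at e2
        norm_num at e2
      · rw [List.isChain_cons_cons] at h3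
        rintro ⟨e1, e2⟩
        refine h3.1.ne ⟨?_, ?_, e2⟩
        · exact congrArg Prod.fst e1
        · exact congrArg Prod.snd e1
    have hc : List.IsChain (SBl.Nx p q r) bs := by
      rcases bs with _ | ⟨c, bs⟩
      · exact List.isChain_nil
      · rw [List.isChain_cons_cons] at h3
        exact h3.2
    obtain ⟨ts, s', e1, e2, e3, e4⟩ := ih b.sy ⟨hb.k1, hb.kp, hb.ka⟩ hbs hc hne
    refine ⟨⟨pv, b, hdS bs, h1, hb, hd_ok p q r hp bs hbs, h4, hne⟩ :: ts, s', ?_, ?_, e3, e4⟩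
    · exact BPath.cons (src := TB.src) (tgt := TB.tgt)
        (⟨pv, b, hdS bs, h1, hb, hd_ok p q r hp bs hbs, h4, hne⟩ : TB p q r) e1
    · rw [List.map_cons, e2]

theorem cov' (p q r : ℕ) (hp : 3 ≤ p) (hq : 3 ≤ q) (hr : 3 ≤ r) (w : List (Fin 3)) :
    ∃ (h t : List (Fin 3)) (s : Sy × Sy) (bs : List (TB p q r)) (s' : Sy × Sy),
      h.length ≤ p + 1 ∧ t.length ≤ p + 1 ∧ TSt p s ∧ BPath TB.src TB.tgt s bs s' ∧
      (s'.2 = a0 ∧ SyOk p s'.1) ∧
      Eqv p q r w (h ++ (bs.map (fun b => b.cur.wd)).flatten ++ t) := by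
  obtain ⟨h, t, bs, h1, h2, h3, h4, h5⟩ := st_RED p q r hp hq hr w
  have hne : SyNe (false, 2) (hdS bs) := by
    rintro ⟨e1, e2⟩
    norm_num at e2
  obtain ⟨ts, s', e1, e2, e3, e4⟩ := exists_path' p q r hp bs (false, 2) (sy02 p hp) h3 h4 hne
  refine ⟨h, t, ((false, 2), hdS bs), ts, s', h1, h2, ⟨rfl, hd_ok p q r hp bs h3⟩, e1,
    ⟨e3, e4⟩, ?_⟩
  have : ts.map (fun b => b.cur.wd) = bs.map SBl.wd := by
    rw [← e2, List.map_map]
    rfl
  rw [this]
  exact h5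

/-- what has to be checked at one parameter -/
structure SOK (p q r : ℕ) (x : ℝ) (X Y : Sy → Set V3) (G : Sy → Sy → Mt) (U : Fin 3 → V3)
    (L : V3) (bd : ℝ) : Prop where
  inX : ∀ β : TB p q r, ∀ u ∈ X β.prev,
    (sN p q r β.cur.sy x ^ (β.cur.n - 1)).mulVec ((sN p q r β.prev x).mulVec u) ∈ X β.cur.sy
  outY : ∀ β : TB p q r, ∀ w ∈ Y β.next,
    Matrix.vecMul (Matrix.vecMul w (sN p q r β.next x)) (sN p q r β.cur.sy x ^ (β.cur.n - 1)) ∈
      Y β.cur.sy
  gi : ∀ β : TB p q r, ∀ u ∈ X β.prev, ∀ w ∈ Y β.next,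
    0 ≤ ((Matrix.vecMul w (sN p q r β.next x) ⬝ᵥ (bNd p q r β.cur x +
      G β.cur.sy β.next * bN p q r β.cur x - bN p q r β.cur x * G β.prev β.cur.sy).mulVec
        ((sN p q r β.prev x).mulVec u)) *
      star (Matrix.vecMul w (sN p q r β.next x) ⬝ᵥ (bN p q r β.cur x).mulVec
        ((sN p q r β.prev x).mulVec u))).re
  stX : ∀ i, U i ∈ X a0
  stY : ∀ b, SyOk p b → ∀ w ∈ Y b, ∀ i,
    ‖w‖ ≤ bd * ‖Matrix.vecMul w (sN p q r b x) ⬝ᵥ (sN p q r a0 x).mulVec (U i)‖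
  enY : L ∈ Y a0
  enX : ∀ b, SyOk p b → ∀ u ∈ X b,
    ‖u‖ ≤ bd * ‖Matrix.vecMul L (sN p q r a0 x) ⬝ᵥ (sN p q r b x).mulVec u‖

/-- THE CERTIFICATE THEOREM OF THE STAR FRAME, moving start vectors and final functional -/
theorem star_certM {p q r : ℕ} (hp : 3 ≤ p) (hq : 3 ≤ q) (hr : 3 ≤ r) {a b : ℝ} (ha : -2 < a)
    (hab : a < b) (hb : b < 2) (X Y : Sy → ℝ → Set V3) (G : Sy → Sy → ℝ → Mt)
    (U U' : Fin 3 → ℝ → V3) (L L' : ℝ → V3) (bd g : ℝ)
    (hG : ∀ c d, ∀ x ∈ Set.Ioo a b, ∀ i j, ‖G c d x i j‖ ≤ g)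
    (hU : ∀ x ∈ Set.Icc a b, LinearIndependent ℂ (fun i => U i x))
    (hUd : ∀ i, ∀ x ∈ Set.Icc a b, ∀ j, HasDerivAt (fun x => U i x j) (U' i x j) x)
    (hLd : ∀ x ∈ Set.Icc a b, ∀ j, HasDerivAt (fun x => L x j) (L' x j) x)
    (hUn : ∀ i, ∀ x ∈ Set.Icc a b, ‖U i x‖ ≤ g ∧ ‖U' i x‖ ≤ g)
    (hLn : ∀ x ∈ Set.Icc a b, ‖L x‖ ≤ g ∧ ‖L' x‖ ≤ g)
    (h : ∀ x ∈ Set.Ioo a b, SOK p q r x (fun a => X a x) (fun a => Y a x) (fun a b => G a b x)
      (fun i => U i x) (L x) bd) : Win p q r a b := by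
  intro x y hx hxy hy
  have hs := phi_sin hp
  have c0 : cw p q r 0 = 2 * Real.cos (phi p) := rfl
  have c1 : cw p q r 1 = Kp q := rfl
  have c2 : cw p q r 2 = Kp r := rfl
  have hzn : ∀ x ∈ Set.Icc a b, ‖zx x‖ = 1 := fun x hx =>
    zx_norm (by linarith [hx.1]) (by linarith [hx.2])
  have hne : ∀ x : ℝ, a ≤ x → zx x ≠ -1 := by
    intro x hx h
    have := zx_re x
    rw [h] at this
    simp at this
    linarith
  set K := sK (phi p) (Kp q) (Kp r) with hK
  -- bounds of the syllables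
  obtain ⟨C, hC0, hC⟩ := sW_bound (phi p) (Kp q) (Kp r) ha hb
    ((List.range (p + 1)).flatMap (fun k => [syl false k, syl true k]))
  have hCs : ∀ s : Sy, SyOk p s → ∀ x ∈ Set.Icc a b, ∀ i j, ‖sN p q r s x i j‖ ≤ C ∧
      ‖sNd p q r s x i j‖ ≤ C := by
    intro s hs x hx i j
    refine hC (syl s.1 s.2) ?_ x hx i j
    rw [List.mem_flatMap]
    refine ⟨s.2, List.mem_range.2 (by have := hs.2.1; omega), ?_⟩
    obtain ⟨s1, s2⟩ := s
    cases s1 <;> simp
  have ha0 : SyOk p a0 := ⟨by decide, by show 2 ≤ p; omega, fun h => absurd h (by decide)⟩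
  have hgg : ∀ y : ℝ, y ≤ g → y ≤ |g| := fun y h => h.trans (le_abs_self g)
  set g2 : ℝ := |g| + 6 * C * |g| with hg2
  have hg20 : 0 ≤ g2 := by positivity
  have two : ∀ y z : ℝ, y ≤ 3 * C * |g| → z ≤ 3 * C * |g| → y + z ≤ g2 := fun y z h1 h2 => by
    have := abs_nonneg g
    linarith
  have t1 : ∀ y : ℝ, y ≤ 3 * C * |g| → y ≤ g2 := fun y h1 => by
    have := abs_nonneg g
    have : 0 ≤ 3 * C * |g| := by positivity
    linarith
  have hsNd : ∀ s : Sy, ∀ x ∈ Set.Icc a b, ∀ i j,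
      HasDerivAt (fun x => sN p q r s x i j) (sNd p q r s x i j) x := fun s x hx i j =>
    sW_deriv _ _ _ (by linarith [hx.1]) (by linarith [hx.2]) _ i j
  obtain ⟨D, hD0, hD⟩ := win_cmpF (c := cw p q r) hab (src := TB.src) (tgt := TB.tgt)
    (fun β : TB p q r => β.cur.wd)
    (fun β x => bN p q r β.cur x) (fun β x => bNd p q r β.cur x)
    (fun β x hx i j => sW_deriv _ _ _ (by linarith [hx.1]) (by linarith [hx.2]) _ i j)
    (fun _ x => sV (phi p) (Kp q) (Kp r) (zx x)) K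
    (fun _ x hx X => by
      have h1 := sU_le hs (Kp q) (Kp r) (hzn x hx) ((sV (phi p) (Kp q) (Kp r) (zx x)).mulVec X)
      rwa [sU_sV hs] at h1)
    (fun β x hx => ⟨1, by simp, fun X => by
      rw [one_smul]
      have := sW_link (c := cw p q r) hs c0 (hzn x hx) β.cur.wd X
      rw [c1, c2] at this
      exact this⟩)
    (fun _ x hx X => sV_le _ _ _ (hzn x hx) X)
    (fun s x => ⟨{v | ∃ u ∈ X s.1 x, v = (sN p q r s.1 x).mulVec u},
      {v | ∃ w ∈ Y s.2 x, v = Matrix.vecMul w (sN p q r s.2 x)}, G s.1 s.2 x⟩)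
    (fun β x hx => by
      have hn := β.okc.n1
      have hk := h x hx
      have e1 : bN p q r β.cur x = sN p q r β.cur.sy x * sN p q r β.cur.sy x ^ (β.cur.n - 1) := by
        rw [bN_pow, ← pow_succ']
        congr 1
        omega
      have e2 : bN p q r β.cur x = sN p q r β.cur.sy x ^ (β.cur.n - 1) * sN p q r β.cur.sy x := by
        rw [bN_pow, ← pow_succ]
        congr 1
        omega
      refine ⟨?_, ?_, ?_⟩
      · rintro v ⟨u, hu, rfl⟩
        refine ⟨_, hk.inX β u hu, ?_⟩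
        show (bN p q r β.cur x).mulVec _ = _
        rw [e1, ← Matrix.mulVec_mulVec]
        rfl
      · rintro v ⟨w, hw, rfl⟩
        refine ⟨_, hk.outY β w hw, ?_⟩
        show Matrix.vecMul _ (bN p q r β.cur x) = _
        rw [e2, ← Matrix.vecMul_vecMul]
        rfl
      · rintro v ⟨u, hu, rfl⟩ v' ⟨w, hw, rfl⟩
        exact hk.gi β u hu w hw)
    (|bd| * (1 + 3 * C)) g2
    (fun s x hx i j => (hG _ _ x hx i j).trans ((le_abs_self g).trans (by
      have h3 : 0 ≤ 6 * C * |g| := by positivity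
      linarith)))
    (TSt p)
    (fun s i x => sU (phi p) (Kp q) (Kp r) (zx x) ((sN p q r a0 x).mulVec (U i x)))
    (fun s i x => (sN p q r a0 x).mulVec (U i x))
    (fun s i x => (sNd p q r a0 x).mulVec (U i x) + (sN p q r a0 x).mulVec (U' i x))
    (fun s _ i x _ => sV_sU hs _ _ _ _)
    (fun s _ i x hx j => by
      have e1 : (fun x => (sN p q r a0 x).mulVec (U i x) j) = fun x =>
          sN p q r a0 x j 0 * U i x 0 + sN p q r a0 x j 1 * U i x 1 +
            sN p q r a0 x j 2 * U i x 2 := by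
        funext y
        rw [Matrix.mulVec, dotProduct, Fin.sum_univ_three]
      have e2 : ((sNd p q r a0 x).mulVec (U i x) + (sN p q r a0 x).mulVec (U' i x)) j =
          (sNd p q r a0 x j 0 * U i x 0 + sN p q r a0 x j 0 * U' i x 0) +
          (sNd p q r a0 x j 1 * U i x 1 + sN p q r a0 x j 1 * U' i x 1) +
          (sNd p q r a0 x j 2 * U i x 2 + sN p q r a0 x j 2 * U' i x 2) := by
        rw [Pi.add_apply, Matrix.mulVec, Matrix.mulVec, dotProduct, dotProduct,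
          Fin.sum_univ_three, Fin.sum_univ_three]
        ring
      rw [e1, e2]
      exact (((hsNd _ x hx j 0).mul (hUd i x hx 0)).add
        ((hsNd _ x hx j 1).mul (hUd i x hx 1))).add ((hsNd _ x hx j 2).mul (hUd i x hx 2)))
    (fun s hs i x hx => ⟨U i x, by rw [hs.1]; exact (h x hx).stX i, by rw [hs.1]; rfl⟩)
    (fun s hs i x hx w hw => by
      obtain ⟨w', hw', rfl⟩ := hw
      have h1 := (h x hx).stY s.2 hs.2 w' hw' i
      have h2 := vecMul_norm_le (sN p q r s.2 x) C (fun i j =>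
        (hCs s.2 hs.2 x (Set.Ioo_subset_Icc_self hx) i j).1) w'
      have h3 : ‖w'‖ ≤ |bd| * ‖Matrix.vecMul w' (sN p q r s.2 x) ⬝ᵥ
          (sN p q r a0 x).mulVec (U i x)‖ :=
        h1.trans (mul_le_mul_of_nonneg_right (le_abs_self bd) (norm_nonneg _))
      refine h2.trans ?_
      calc 3 * C * ‖w'‖ ≤ 3 * C * (|bd| * ‖Matrix.vecMul w' (sN p q r s.2 x) ⬝ᵥ
          (sN p q r a0 x).mulVec (U i x)‖) := mul_le_mul_of_nonneg_left h3 (by positivity)
        _ ≤ |bd| * (1 + 3 * C) * ‖Matrix.vecMul w' (sN p q r s.2 x) ⬝ᵥ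
          (sN p q r a0 x).mulVec (U i x)‖ := by
            have : 0 ≤ |bd| * ‖Matrix.vecMul w' (sN p q r s.2 x) ⬝ᵥ
              (sN p q r a0 x).mulVec (U i x)‖ := by positivity
            nlinarith)
    (fun s hs i x hx => by
      have h1 := mul_le' (sN p q r a0 x) C (fun i j => (hCs a0 ha0 x hx i j).1) (U i x)
      have h2 := mul_le' (sNd p q r a0 x) C (fun i j => (hCs a0 ha0 x hx i j).2) (U i x)
      have h3 := mul_le' (sN p q r a0 x) C (fun i j => (hCs a0 ha0 x hx i j).1) (U' i x)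
      obtain ⟨u1, u2⟩ := hUn i x hx
      have k1 : 3 * C * ‖U i x‖ ≤ 3 * C * |g| :=
        mul_le_mul_of_nonneg_left (hgg _ u1) (by positivity)
      have k2 : 3 * C * ‖U' i x‖ ≤ 3 * C * |g| :=
        mul_le_mul_of_nonneg_left (hgg _ u2) (by positivity)
      exact ⟨t1 _ (h1.trans k1), (norm_add_le _ _).trans (two _ _ (h2.trans k1) (h3.trans k2))⟩)
    (fun s => s.2 = a0 ∧ SyOk p s.1)
    (fun s x => Matrix.vecMul (L x) (sN p q r a0 x))
    (fun s x => Matrix.vecMul (L x) (sNd p q r a0 x) + Matrix.vecMul (L' x) (sN p q r a0 x))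
    (fun s _ x hx j => by
      have e1 : (fun x => Matrix.vecMul (L x) (sN p q r a0 x) j) = fun x =>
          L x 0 * sN p q r a0 x 0 j + L x 1 * sN p q r a0 x 1 j +
            L x 2 * sN p q r a0 x 2 j := by
        funext y
        rw [Matrix.vecMul, dotProduct, Fin.sum_univ_three]
      have e2 : (Matrix.vecMul (L x) (sNd p q r a0 x) +
          Matrix.vecMul (L' x) (sN p q r a0 x)) j =
          (L' x 0 * sN p q r a0 x 0 j + L x 0 * sNd p q r a0 x 0 j) +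
          (L' x 1 * sN p q r a0 x 1 j + L x 1 * sNd p q r a0 x 1 j) +
          (L' x 2 * sN p q r a0 x 2 j + L x 2 * sNd p q r a0 x 2 j) := by
        rw [Pi.add_apply, Matrix.vecMul, Matrix.vecMul, dotProduct, dotProduct,
          Fin.sum_univ_three, Fin.sum_univ_three]
        ring
      rw [e1, e2]
      exact (((hLd x hx 0).mul (hsNd _ x hx 0 j)).add ((hLd x hx 1).mul (hsNd _ x hx 1 j))).add
        ((hLd x hx 2).mul (hsNd _ x hx 2 j)))
    (fun s hs x hx => ⟨L x, by rw [hs.1]; exact (h x hx).enY, by rw [hs.1]⟩)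
    (fun s hs x hx v hv => by
      obtain ⟨u, hu, rfl⟩ := hv
      have h1 := (h x hx).enX s.1 hs.2 u hu
      have h2 := mul_le' (sN p q r s.1 x) C (fun i j =>
        (hCs s.1 hs.2 x (Set.Ioo_subset_Icc_self hx) i j).1) u
      have h3 : ‖u‖ ≤ |bd| * ‖Matrix.vecMul (L x) (sN p q r a0 x) ⬝ᵥ
          (sN p q r s.1 x).mulVec u‖ :=
        h1.trans (mul_le_mul_of_nonneg_right (le_abs_self bd) (norm_nonneg _))
      refine h2.trans ?_
      calc 3 * C * ‖u‖ ≤ 3 * C * (|bd| * ‖Matrix.vecMul (L x) (sN p q r a0 x) ⬝ᵥ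
          (sN p q r s.1 x).mulVec u‖) := mul_le_mul_of_nonneg_left h3 (by positivity)
        _ ≤ |bd| * (1 + 3 * C) * ‖Matrix.vecMul (L x) (sN p q r a0 x) ⬝ᵥ
          (sN p q r s.1 x).mulVec u‖ := by
            have : 0 ≤ |bd| * ‖Matrix.vecMul (L x) (sN p q r a0 x) ⬝ᵥ
              (sN p q r s.1 x).mulVec u‖ := by positivity
            nlinarith)
    (fun s hs x hx => by
      have h1 := vecMul_norm_le (sN p q r a0 x) C (fun i j => (hCs a0 ha0 x hx i j).1) (L x)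
      have h2 := vecMul_norm_le (sNd p q r a0 x) C (fun i j => (hCs a0 ha0 x hx i j).2) (L x)
      have h3 := vecMul_norm_le (sN p q r a0 x) C (fun i j => (hCs a0 ha0 x hx i j).1) (L' x)
      obtain ⟨u1, u2⟩ := hLn x hx
      have k1 : 3 * C * ‖L x‖ ≤ 3 * C * |g| :=
        mul_le_mul_of_nonneg_left (hgg _ u1) (by positivity)
      have k2 : 3 * C * ‖L' x‖ ≤ 3 * C * |g| :=
        mul_le_mul_of_nonneg_left (hgg _ u2) (by positivity)
      exact ⟨t1 _ (h1.trans k1), (norm_add_le _ _).trans (two _ _ (h2.trans k1) (h3.trans k2))⟩)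
    hx hxy hy
  have hxI : x ∈ Set.Icc a b := ⟨hx, hxy.trans hy⟩
  have hyI : y ∈ Set.Icc a b := ⟨hx.trans hxy, hy⟩
  have := st_TFIN p
  refine nc_of_words st_WIG st_INV hp hq hr (hzn x hxI) (hzn y hyI) (hne x hx)
    (hne y (hx.trans hxy)) (ι := {s // TSt p s})
    (fun s w => ∃ (bs : List (TB p q r)) (s' : Sy × Sy), BPath TB.src TB.tgt s.1 bs s' ∧
      (s'.2 = a0 ∧ SyOk p s'.1) ∧ w = (bs.map (fun b => b.cur.wd)).flatten) (p + 1)
    (fun w => ?_) (fun s i => sU (phi p) (Kp q) (Kp r) (zx x) ((sN p q r a0 x).mulVec (U i x)))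
    (fun s i => sU (phi p) (Kp q) (Kp r) (zx y) ((sN p q r a0 y).mulVec (U i y))) (fun s => ?_) D ?_
  · obtain ⟨h, t, s, bs, s', h1, h2, h3, h4, h5, h6⟩ := cov' p q r hp hq hr w
    exact ⟨h, (bs.map (fun b => b.cur.wd)).flatten, t, ⟨s, h3⟩, h1, h2, ⟨bs, s', h4, h5, rfl⟩, h6⟩
  · have hU := hU x hxI
    rw [Fintype.linearIndependent_iff] at hU ⊢
    intro k hk
    have h1 := congrArg (sV (phi p) (Kp q) (Kp r) (zx x)).mulVec hk
    rw [Matrix.mulVec_zero, Matrix.mulVec_sum] at h1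
    have h2 : (sN p q r a0 x).mulVec (∑ i, k i • U i x) = 0 := by
      rw [Matrix.mulVec_sum, ← h1]
      refine Finset.sum_congr rfl (fun i _ => ?_)
      rw [Matrix.mulVec_smul, Matrix.mulVec_smul, sV_sU hs]
    refine hU k ?_
    obtain ⟨J, hJ⟩ := sW_invert hs (Kp q) (Kp r) (hzn x hxI) (syl a0.1 a0.2)
    have h3 := congrArg J.mulVec h2
    rw [Matrix.mulVec_zero, Matrix.mulVec_mulVec] at h3
    have h4 : J * sN p q r a0 x = 1 := hJ
    rw [h4, Matrix.one_mulVec] at h3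
    exact h3
  · rintro s w ⟨bs, s', hp', hf', rfl⟩ i
    exact hD s.1 s.2 bs s' hp' hf' i

/-- constant start vectors and final functional -/
theorem star_cert {p q r : ℕ} (hp : 3 ≤ p) (hq : 3 ≤ q) (hr : 3 ≤ r) {a b : ℝ} (ha : -2 < a)
    (hab : a < b) (hb : b < 2) (X Y : Sy → ℝ → Set V3) (G : Sy → Sy → ℝ → Mt) (U : Fin 3 → V3)
    (L : V3) (bd g : ℝ) (hG : ∀ c d, ∀ x ∈ Set.Ioo a b, ∀ i j, ‖G c d x i j‖ ≤ g)
    (hU : LinearIndependent ℂ U)
    (h : ∀ x ∈ Set.Ioo a b, SOK p q r x (fun a => X a x) (fun a => Y a x) (fun a b => G a b x)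
      U L bd) : Win p q r a b := by
  have h0 : 0 ≤ ∑ i, ‖U i‖ := Finset.sum_nonneg (fun _ _ => norm_nonneg _)
  have hi : ∀ i, ‖U i‖ ≤ ∑ i, ‖U i‖ := fun i =>
    Finset.single_le_sum (f := fun i => ‖U i‖) (fun _ _ => norm_nonneg _) (Finset.mem_univ i)
  have ha' := abs_nonneg g
  have hl := norm_nonneg L
  refine star_certM hp hq hr ha hab hb X Y G (fun i _ => U i) (fun _ _ => 0) (fun _ => L)
    (fun _ => 0) bd (|g| + ‖L‖ + ∑ i, ‖U i‖) (fun c d x hx i j => (hG c d x hx i j).trans ?_)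
    (fun _ _ => hU) (fun i x _ j => hasDerivAt_const x _) (fun x _ j => hasDerivAt_const x _)
    (fun i x _ => ⟨?_, ?_⟩) (fun x _ => ⟨?_, ?_⟩) h
  · have := le_abs_self g
    linarith
  · have := hi i
    linarith
  · rw [norm_zero]
    linarith
  · linarith
  · rw [norm_zero]
    linarith

end Pool.Agent.Helper6.MONO.W2
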