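import Pool.Agent.Helper12.CW.W2U
import Pool.Agent.Helper12.CW.W2Y
import Pool.Agent.Helper93.CW.KJ
import Pool.Agent.Helper26.CW.Runs

/-!
Plan W (MP_c75db0): the normalised star frame, hermitian form `J = diag (1, 1, -1)`. Definitions,
the certificate at one parameter, statements of the rows.

`v` is the polar vector of the letter `2` in the frame, `v'` a positive multiple of its derivative
in the direction of increasing `x`. A block is `c * M` with `c = rfJ 1 v` and `M = S (c S)^(n-1)`.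
-/

set_option autoImplicit false
noncomputable section
namespace Pool.Agent.Helper6.MONO.W2

open Matrix

/-- the form -/
def J1 : Mt := !![1, 0, 0; 0, 1, 0; 0, 0, -1]

/-- null vectors with `K ≥ 0` -/
def NZ (K : Mt) : Set V3 := {u | 0 ≤ hr K u ∧ hr J1 u = 0}

/-- inverse syllable -/
def syi (p : ℕ) (s : Sy) : Sy := if s.2 % 2 = 1 ∨ s.2 = p then s else (!s.1, s.2)

/-- `S (c S)^m`, `S` the element `(a, k)` of the star -/
def nM (φ : ℝ) (v : V3) (a : Bool) (k : ℕ) : ℕ → Mt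
  | 0 => sDm φ a k
  | m + 1 => nM φ v a k m * (rfJ 1 v * sDm φ a k)

/-- its derivative -/
def nMd (φ : ℝ) (v vd : V3) (a : Bool) (k : ℕ) : ℕ → Mt
  | 0 => 0
  | m + 1 => nMd φ v vd a k m * (rfJ 1 v * sDm φ a k) +
      nM φ v a k m * (rfd 1 0 v vd * sDm φ a k)

/-- the matrix of a block is `c * bM` -/
def bM (p : ℕ) (v : V3) (b : SBl) : Mt := nM (phi p) v b.a b.k (b.n - 1)
def bMd (p : ℕ) (v vd : V3) (b : SBl) : Mt := nMd (phi p) v vd b.a b.k (b.n - 1)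

/-- the letter `2` times its derivative -/
def nG (v vd : V3) : Mt := rfJ 1 v * rfd 1 0 v vd

/-- the left side of the test: `D = M'`, gauges `S` (before) and `S'` (after) -/
def nX (v vd : V3) (M D S S' : Mt) : Mt :=
  D + (1 / 2 : ℂ) • (nG v vd * M - M * nG v vd) + M * S * rfJ 1 v - rfJ 1 v * S' * M

/-- the test -/
def NT (K1 K2 X M : Mt) : Prop := ∀ u ∈ NZ K1, ∀ y ∈ NZ K2,
  0 ≤ (brJ 1 (X.mulVec u) y * star (brJ 1 (M.mulVec u) y)).re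

/-- a system of blocks with the types of the neighbouring syllables -/
structure BSys (p q r : ℕ) where
  B : Type
  prev : B → Sy
  cur : B → SBl
  next : B → Sy
  a0 : Sy
  ok0 : SyOk p a0
  okp : ∀ β, SyOk p (prev β)
  okc : ∀ β, SyOk p (cur β).sy ∧ 1 ≤ (cur β).n
  okn : ∀ β, SyOk p (next β)
  rev : ∀ β, ∃ β', prev β' = syi p (next β) ∧ next β' = syi p (prev β) ∧
    (cur β').sy = syi p (cur β).sy ∧ (cur β').n = (cur β).n
  cov : ∀ w : List (Fin 3), ∃ (h t : List (Fin 3)) (s : Sy × Sy) (bs : List B) (s' : Sy × Sy),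
    h.length ≤ p + 1 ∧ t.length ≤ p + 1 ∧ s.1 = a0 ∧ SyOk p s.2 ∧
    BPath (fun β => (prev β, (cur β).sy)) (fun β => ((cur β).sy, next β)) s bs s' ∧
    s'.2 = a0 ∧ SyOk p s'.1 ∧ Eqv p q r w (h ++ (bs.map (fun b => (cur b).wd)).flatten ++ t)

/-- THE CERTIFICATE AT ONE PARAMETER. `K s`: form of the vectors after the syllable `s`,
`S s t`: gauge between `s` and `t`, `U i`: start vectors, `y0`: final vector -/
structure SNK {p q r : ℕ} (Y : BSys p q r) (v vd : V3) (K : Sy → Mt) (S : Sy → Sy → Mt)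
    (U : Fin 3 → V3) (y0 : V3) (bd : ℝ) : Prop where
  inn : ∀ β : Y.B, ∀ u ∈ NZ (K (Y.prev β)),
    0 ≤ hr (K (Y.cur β).sy) ((rfJ 1 v).mulVec ((bM p v (Y.cur β)).mulVec u))
  gi : ∀ β : Y.B, NT (K (Y.prev β)) (K (syi p (Y.next β)))
    (nX v vd (bM p v (Y.cur β)) (bMd p v vd (Y.cur β)) (S (Y.prev β) (Y.cur β).sy)
      (S (Y.cur β).sy (Y.next β))) (bM p v (Y.cur β))
  stU : ∀ i, U i ∈ NZ (K Y.a0)
  doU : ∀ b, SyOk p b → ∀ y ∈ NZ (K b), ∀ i, ‖y‖ ≤ bd * ‖brJ 1 ((rfJ 1 v).mulVec (U i)) y‖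
  enY : y0 ∈ NZ (K (syi p Y.a0))
  doY : ∀ b, SyOk p b → ∀ u ∈ NZ (K b), ‖u‖ ≤ bd * ‖brJ 1 ((rfJ 1 v).mulVec u) y0‖

/-! ### runs of reflections, `k` odd -/

/-- product of the polar vectors of the letter `2` and of the reflection `(a, k)` -/
def nc (φ : ℝ) (v : V3) (a : Bool) (k : ℕ) : ℂ := v 0 + v 1 * star (ev φ a k)

/-- the polar vector of the reflection times the product -/
def ns (φ : ℝ) (v : V3) (a : Bool) (k : ℕ) : V3 := nc φ v a k • ![1, ev φ a k, 0]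

/-- the same with the vector `vd` in place of `v` -/
def nsd (φ : ℝ) (vd : V3) (a : Bool) (k : ℕ) : V3 := nc φ vd a k • ![1, ev φ a k, 0]

/-- the matrix of a run up to a positive factor: `w = |nc|²`, `s = nc • (1, e, 0)` -/
def nR (w ρ : ℝ) (s v : V3) : Mt :=
  Matrix.of (fun i j => (s i - ρ * v i) * ![star (s 0 - ρ * v 0), star (s 1 - ρ * v 1),
      -star (s 2 - ρ * v 2)] j) - ((w + ρ ^ 2 - w * ρ : ℝ) : ℂ) • 1

/-- derivative of `nR` for fixed `ρ` -/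
def nRd (wd ρ : ℝ) (s sd v vd : V3) : Mt :=
  Matrix.of (fun i j => (sd i - ρ * vd i) * ![star (s 0 - ρ * v 0), star (s 1 - ρ * v 1),
      -star (s 2 - ρ * v 2)] j + (s i - ρ * v i) * ![star (sd 0 - ρ * vd 0),
      star (sd 1 - ρ * vd 1), -star (sd 2 - ρ * vd 2)] j) - ((wd - wd * ρ : ℝ) : ℂ) • 1

/-- minus the derivative of `nR` in `ρ` -/
def nRr (w ρ : ℝ) (s v : V3) : Mt :=
  Matrix.of (fun i j => v i * ![star (s 0 - ρ * v 0), star (s 1 - ρ * v 1),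
      -star (s 2 - ρ * v 2)] j + (s i - ρ * v i) * ![star (v 0), star (v 1), -star (v 2)] j) +
    ((2 * ρ - w : ℝ) : ℂ) • 1

/-- `ρ_n = κ U_(n-1) / U_n` as a function of `w = κ²` -/
def rn (w : ℝ) : ℕ → ℝ
  | 0 => 0
  | 1 => 0
  | n + 2 => w / (w - rn w (n + 1))

/-- `- d ρ_n / d w` -/
def h2 (w : ℝ) : ℕ → ℝ
  | 0 => 0
  | 1 => 0
  | n + 2 => (rn w (n + 1) + w * h2 w (n + 1)) / (w - rn w (n + 1)) ^ 2

/-- `d / d w log (U_n / κ)²` -/
def h1 (w : ℝ) : ℕ → ℝ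
  | 0 => 0
  | 1 => -(1 / w)
  | n + 2 => h1 w (n + 1) + 2 * (1 + h2 w (n + 1)) / (w - rn w (n + 1)) - 1 / w

/-- ROW NR1: the matrix of a run of `m + 1` reflections and its derivative -/
def ST_NR1 : Prop := ∀ (φ : ℝ) (v vd : V3) (a : Bool) (k m : ℕ), k % 2 = 1 → nc φ v a k ≠ 0 →
  brJ 1 v v = 2 → (brJ 1 vd v).re = 0 → (∀ i, 1 ≤ i → i ≤ m + 1 → 0 < Us ‖nc φ v a k‖ i) →
  let w := ‖nc φ v a k‖ ^ 2
  let wd := 2 * (nc φ vd a k * star (nc φ v a k)).re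
  let s := ns φ v a k
  let sd := nsd φ vd a k
  let σ := Us ‖nc φ v a k‖ (m + 1) ^ 2 / w
  nM φ v a k m = ((-σ : ℝ) : ℂ) • nR w (rn w (m + 1)) s v ∧
  nMd φ v vd a k m = ((-σ : ℝ) : ℂ) • (nRd wd (rn w (m + 1)) s sd v vd +
    ((wd : ℝ) : ℂ) • (((h1 w (m + 1) : ℝ) : ℂ) • nR w (rn w (m + 1)) s v +
      ((h2 w (m + 1) : ℝ) : ℂ) • nRr w (rn w (m + 1)) s v))

/-- ROW NR2: range for `κ ≥ 2` -/
def ST_NR2 : Prop := ∀ (w : ℝ) (n : ℕ), 4 ≤ w → 1 ≤ n → 0 < Us (Real.sqrt w) n ∧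
  rn w n = Real.sqrt w * Us (Real.sqrt w) (n - 1) / Us (Real.sqrt w) n ∧
  0 ≤ rn w n ∧ rn w n < rn w (n + 1) ∧ 0 < w + rn w n ^ 2 - w * rn w n ∧ 2 * rn w n ≤ w ∧
  0 ≤ h2 w n ∧ h1 w n ≤ h1 w (n + 1) ∧ (3 ≤ n → 3 * h2 w n ≤ h1 w n)

/-- ROW NR3: range for `κ = 2 cos (π / M)` -/
def ST_NR3 : Prop := ∀ (M n : ℕ), 3 ≤ M → 1 ≤ n → 2 * n ≤ M → 0 < Us (Kp M) n ∧
  rn (Kp M ^ 2) n = Kp M * Us (Kp M) (n - 1) / Us (Kp M) n ∧
  0 ≤ rn (Kp M ^ 2) n ∧ 2 * rn (Kp M ^ 2) n ≤ Kp M ^ 2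

/-- ROW KAP: the products for `x ≥ xA` -/
def ST_KAP : Prop := ∀ (p q r : ℕ), 3 ≤ p → p ≤ q → q ≤ r → ∀ x : ℝ, xA p q r ≤ x → x < 2 →
  ∀ (a : Bool) (k : ℕ), SyOk p (a, k) → k % 2 = 1 →
  (k = 1 → ‖cj (phi p) (Kp q) (Kp r) a k x‖ = (if a then Kp q else Kp r) ∧
    kjd (phi p) (Kp q) (Kp r) a k x = 0) ∧
  (3 ≤ k → 2 ≤ ‖cj (phi p) (Kp q) (Kp r) a k x‖ ∧ 0 ≤ kjd (phi p) (Kp q) (Kp r) a k x)

/-- ROW TPO: the form is indefinite on `x ≥ xA` -/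
def ST_TPO : Prop := ∀ (p q r : ℕ), 3 ≤ p → p ≤ q → q ≤ r → 4 ≤ r → ∀ x : ℝ, xA p q r ≤ x →
  x < 2 → 0 < tt (phi p) (Kp q) (Kp r) x

/-- hermitian form on covectors `y^* J` -/
def cvK (K : Mt) : Mt := Matrix.of (fun i j => ![1, 1, -1] i * ![1, 1, -1] j * K j i)

/-- ROW NTF: the test from an inequality between forms on tensors -/
def ST_NTF : Prop := ∀ (K1 K2 X M P Q H1 H2 : Mt) (c : ℝ), 0 ≤ c → RV K1 → RV Q → RV H1 →
  (∀ w, 0 ≤ hr P w) → (∀ u, 0 ≤ hr Q u) →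
  (∀ t : Fin 3 → Fin 3 → ℂ, (tf P K1 t).re + (tf (cvK K2) Q t).re + c * (tf (cvK K2) K1 t).re +
    (tf J1 H1 t).re + (tf H2 J1 t).re ≤ (lt X t * star (lt M t)).re) → NT K1 K2 X M

/-- ROW NTC: the test for the reversed block (gauges with the symmetry of the reversal). With
`A^+ = J A^* J`: `M^+` and `X^+` give the same test with the ends exchanged -/
def ST_NTC : Prop := ∀ (K1 K2 X M : Mt), NT K1 K2 X M →
  NT K2 K1 (J1 * X.conjTranspose * J1) (J1 * M.conjTranspose * J1)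

/-- the equation `rn.eq_def`, made here once -/
theorem eqn_rn_eq_def : True := by
  have h := @rn.eq_def
  trivial

/-- the equation `h1.eq_def`, made here once -/
theorem eqn_h1_eq_def : True := by
  have h := @h1.eq_def
  trivial

/-- the equation `h2.eq_def`, made here once -/
theorem eqn_h2_eq_def : True := by
  have h := @h2.eq_def
  trivial

end Pool.Agent.Helper6.MONO.W2
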