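import Pool.Agent.Helper12.CW.NF6

/-!
Plan W (MP_c75db0): the certificate at one parameter from a list of items. Part 2: the parts of the
blocks (rotations, exact runs, pieces of the run families).
-/

set_option autoImplicit false
noncomputable section
namespace Pool.Agent.Helper6.MONO.W2

open Matrix

/-- `κ²` of a reflection -/
def nW (φ : ℝ) (v : V3) (g : Sy) : ℝ := ‖nc φ v g.1 g.2‖ ^ 2
/-- its derivative -/
def nWd (φ : ℝ) (v vd : V3) (g : Sy) : ℝ := 2 * (nc φ vd g.1 g.2 * star (nc φ v g.1 g.2)).re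

/-- the matrix of a run (up to a factor) -/
def rM (φ : ℝ) (v : V3) (g : Sy) (ρ : ℝ) : Mt := nR (nW φ v g) ρ (ns φ v g.1 g.2) v
def rMr (φ : ℝ) (v : V3) (g : Sy) (ρ : ℝ) : Mt := nRr (nW φ v g) ρ (ns φ v g.1 g.2) v
/-- its derivative -/
def rD (φ : ℝ) (v vd : V3) (g : Sy) (ρ a1 a2 : ℝ) : Mt :=
  nRd (nWd φ v vd g) ρ (ns φ v g.1 g.2) (nsd φ vd g.1 g.2) v vd +
    ((nWd φ v vd g : ℝ) : ℂ) • (((a1 : ℝ) : ℂ) • rM φ v g ρ + ((a2 : ℝ) : ℂ) • rMr φ v g ρ)

theorem nR_eq (w ρ : ℝ) (s v : V3) : nR w ρ s v =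
    1 - rfJ 1 (s - (ρ : ℂ) • v) - ((w + ρ ^ 2 - w * ρ : ℝ) : ℂ) • 1 := by
  ext i j
  fin_cases j <;> simp [nR, rfJ]

theorem nRd_eq (wd ρ : ℝ) (s sd v vd : V3) : nRd wd ρ s sd v vd =
    -rfd 1 0 (s - (ρ : ℂ) • v) (sd - (ρ : ℂ) • vd) - ((wd - wd * ρ : ℝ) : ℂ) • 1 := by
  ext i j
  fin_cases j <;> simp [nRd, rfd]

theorem nRr_eq (w ρ : ℝ) (s v : V3) : nRr w ρ s v =
    -rfd 1 0 (s - (ρ : ℂ) • v) v + ((2 * ρ - w : ℝ) : ℂ) • 1 := by
  ext i j
  fin_cases j <;> simp [nRr, rfd]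

theorem adJ_rM (φ : ℝ) (v : V3) (g : Sy) (ρ : ℝ) : adJ (rM φ v g ρ) = rM φ v g ρ := by
  unfold rM
  rw [nR_eq, adJ_sub, adJ_sub, adJ_one, adJ_rfJ, adJ_smul, adJ_one]

theorem adJ_rMr (φ : ℝ) (v : V3) (g : Sy) (ρ : ℝ) : adJ (rMr φ v g ρ) = rMr φ v g ρ := by
  unfold rMr
  rw [nRr_eq, adJ_add, adJ_neg, adJ_rfd, adJ_smul, adJ_one]

theorem adJ_rD (φ : ℝ) (v vd : V3) (g : Sy) (ρ a1 a2 : ℝ) :
    adJ (rD φ v vd g ρ a1 a2) = rD φ v vd g ρ a1 a2 := by
  unfold rD
  rw [nRd_eq, adJ_add, adJ_sub, adJ_neg, adJ_rfd, adJ_smul, adJ_one, adJ_smul, adJ_add, adJ_smul,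
    adJ_smul, adJ_rM, adJ_rMr]

/-! ### linearity of the test -/

/-- the value of the test -/
def tv (X M : Mt) (u y : V3) : ℝ := (brJ 1 (X.mulVec u) y * star (brJ 1 (M.mulVec u) y)).re

theorem tv_add (X Y M : Mt) (u y : V3) : tv (X + Y) M u y = tv X M u y + tv Y M u y := by
  unfold tv
  rw [Matrix.add_mulVec, brJ_add_left, add_mul, Complex.add_re]

theorem tv_smul (r : ℝ) (X M : Mt) (u y : V3) : tv ((r : ℂ) • X) M u y = r * tv X M u y := by
  unfold tv
  rw [Matrix.smul_mulVec, brJ_smul_left, mul_assoc, Complex.re_ofReal_mul]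

theorem tv_self (M : Mt) (u y : V3) : 0 ≤ tv M M u y := by
  unfold tv
  have h : brJ 1 (M.mulVec u) y * star (brJ 1 (M.mulVec u) y) =
      ((‖brJ 1 (M.mulVec u) y‖ ^ 2 : ℝ) : ℂ) := nsq _
  rw [h, Complex.ofReal_re]
  positivity

theorem nX_add (v vd : V3) (M D D' S S' : Mt) :
    nX v vd M (D + D') S S' = nX v vd M D S S' + D' := by
  unfold nX
  abel

theorem nX_smul (v vd : V3) (r : ℝ) (M D S S' : Mt) :
    nX v vd ((r : ℂ) • M) ((r : ℂ) • D) S S' = (r : ℂ) • nX v vd M D S S' := by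
  unfold nX
  simp only [smul_add, smul_sub, mul_smul_comm, smul_mul_assoc]
  rw [smul_comm (1 / 2 : ℂ) (r : ℂ), smul_comm (1 / 2 : ℂ) (r : ℂ)]

theorem NT_smul {K1 K2 X M : Mt} (r : ℝ) (H : NT K1 K2 X M) :
    NT K1 K2 ((r : ℂ) • X) ((r : ℂ) • M) := by
  intro u hu y hy
  have h := H u hu y hy
  rw [Matrix.smul_mulVec, Matrix.smul_mulVec, brJ_smul_left, brJ_smul_left, star_mul']
  have e : star ((r : ℝ) : ℂ) = ((r : ℝ) : ℂ) := Complex.conj_ofReal r
  rw [e]
  have e2 : (r : ℂ) * brJ 1 (X.mulVec u) y * ((r : ℂ) * star (brJ 1 (M.mulVec u) y)) =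
      ((r * r : ℝ) : ℂ) * (brJ 1 (X.mulVec u) y * star (brJ 1 (M.mulVec u) y)) := by
    push_cast
    ring
  rw [e2, Complex.re_ofReal_mul]
  exact mul_nonneg (mul_self_nonneg r) h

/-! ### parts -/

/-- the parts of the blocks over a syllable: rotation; run of length `n`; for `k = 1` piece `i` of
the family; for `k ≥ 3` piece `i` of the tail with the three tests; runs of the rotations of
length 2: exact, piece `i` of the tail -/
inductive Prt
  | rot
  | ex (n : ℕ)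
  | pc (i : ℕ)
  | v0 (i : ℕ)
  | v1 (i : ℕ)
  | rc (i : ℕ)
  | bx (n : ℕ)
  | bt (i : ℕ)
  deriving DecidableEq

/-- numbers of pieces: `N g` for the reflections, `gb`: runs of the rotations of length 2 are
blocks, `nB` exact ones and `NB` pieces of the tail -/
structure NPar where
  N : Sy → ℕ
  gb : Bool
  nB : ℕ
  NB : ℕ

/-- real parameters of the families at a point: break points, scale, lower bound of `h1`, ratio,
condition of a piece of the tail of the rotations -/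
structure RPar where
  τ : Sy → ℕ → ℝ
  ch : Sy → ℝ
  H : Sy → ℝ
  rr : ℝ
  bc : ℕ → ℕ → Prop

/-- the statement of an item -/
def sat (R : RPar) (φ : ℝ) (v vd : V3) (g : Sy) (P : Prt) (K1 K2 S S' : Mt) : Prop :=
  match P with
  | Prt.rot => NT K1 K2 (nX v vd (sDm φ g.1 g.2) 0 S S') (sDm φ g.1 g.2)
  | Prt.ex n => NT K1 K2 (nX v vd (rM φ v g (rn (nW φ v g) n))
      (rD φ v vd g (rn (nW φ v g) n) (h1 (nW φ v g) n) (h2 (nW φ v g) n)) S S')
      (rM φ v g (rn (nW φ v g) n))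
  | Prt.pc i => ∀ t : ℝ, R.τ g i ≤ t → t ≤ R.τ g (i + 1) →
      NT K1 K2 (nX v vd (rM φ v g (t * R.ch g)) (rD φ v vd g (t * R.ch g) 0 0) S S')
        (rM φ v g (t * R.ch g))
  | Prt.v0 i => ∀ t : ℝ, R.τ g i ≤ t → t ≤ R.τ g (i + 1) →
      NT K1 K2 (nX v vd (rM φ v g (t * R.ch g)) (rD φ v vd g (t * R.ch g) (R.H g) 0) S S')
        (rM φ v g (t * R.ch g))
  | Prt.v1 i => ∀ t : ℝ, R.τ g i ≤ t → t ≤ R.τ g (i + 1) →
      NT K1 K2 (nX v vd (rM φ v g (t * R.ch g)) (rD φ v vd g (t * R.ch g) (R.H g)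
        (R.rr * R.H g)) S S') (rM φ v g (t * R.ch g))
  | Prt.rc i => ∀ t : ℝ, R.τ g i ≤ t → t ≤ R.τ g (i + 1) →
      NT K1 K2 (rM φ v g (t * R.ch g) + ((R.rr : ℝ) : ℂ) • rMr φ v g (t * R.ch g))
        (rM φ v g (t * R.ch g))
  | Prt.bx n => NT K1 K2 (nX v vd (nM φ v g.1 g.2 (n - 1)) (nMd φ v vd g.1 g.2 (n - 1)) S S')
      (nM φ v g.1 g.2 (n - 1))
  | Prt.bt i => ∀ n : ℕ, R.bc i n →
      NT K1 K2 (nX v vd (nM φ v g.1 g.2 (n - 1)) (nMd φ v vd g.1 g.2 (n - 1)) S S')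
        (nM φ v g.1 g.2 (n - 1))

/-- number of exact runs -/
def nEx : ℕ := 5

/-- the parts which are needed -/
def prts (N : NPar) (g : Sy) : List Prt :=
  if g.2 % 2 = 0 then
    if N.gb = true ∧ g.2 = 2 then (List.range N.nB).map (fun n => Prt.bx (n + 1)) ++
      (List.range N.NB).map Prt.bt
    else [Prt.rot]
  else if g.2 = 1 then (List.range (N.N g)).map Prt.pc
  else (List.range nEx).map (fun n => Prt.ex (n + 1)) ++ (List.range (N.N g)).map Prt.v0 ++
    (List.range (N.N g)).map Prt.v1 ++ (List.range (N.N g)).map Prt.rc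

theorem sat_mono {R : RPar} {φ : ℝ} {v vd : V3} {g : Sy} {P : Prt} {K1 K2 K1' K2' S S' : Mt}
    (H : sat R φ v vd g P K1 K2 S S') (a1 : NZ K1' ⊆ NZ K1) (a2 : NZ K2' ⊆ NZ K2) :
    sat R φ v vd g P K1' K2' S S' := by
  cases P with
  | rot => exact NT.mono H a1 a2
  | ex n => exact NT.mono H a1 a2
  | pc i => exact fun t b1 b2 => NT.mono (H t b1 b2) a1 a2
  | v0 i => exact fun t b1 b2 => NT.mono (H t b1 b2) a1 a2
  | v1 i => exact fun t b1 b2 => NT.mono (H t b1 b2) a1 a2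
  | rc i => exact fun t b1 b2 => NT.mono (H t b1 b2) a1 a2
  | bx n => exact NT.mono H a1 a2
  | bt i => exact fun n b => NT.mono (H n b) a1 a2

/-- reversal of an item -/
theorem sat_rev {N : NPar} {R : RPar} {p : ℕ} (hp : 3 ≤ p) {v vd : V3} (h : brJ 1 v v = 2)
    (h' : (brJ 1 vd v).re = 0) {g : Sy} {P : Prt} (hP : P ∈ prts N g) {K1 K2 S S' : Mt}
    (H : sat R (phi p) v vd (syi p g) P K1 K2 S S') :
    sat R (phi p) v vd g P K2 K1 (-adJ S') (-adJ S) := by
  have self : ∀ (M D : Mt), adJ M = M → adJ D = D → NT K1 K2 (nX v vd M D S S') M →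
      NT K2 K1 (nX v vd M D (-adJ S') (-adJ S)) M := by
    intro M D e1 e2 h3
    have h4 := NT.rev h h' h3
    rwa [e1, e2] at h4
  have run : ∀ n : ℕ, NT K1 K2 (nX v vd (nM (phi p) v (syi p g).1 (syi p g).2 n)
      (nMd (phi p) v vd (syi p g).1 (syi p g).2 n) S S') (nM (phi p) v (syi p g).1 (syi p g).2 n) →
      NT K2 K1 (nX v vd (nM (phi p) v g.1 g.2 n) (nMd (phi p) v vd g.1 g.2 n) (-adJ S') (-adJ S))
        (nM (phi p) v g.1 g.2 n) := by
    intro n h3
    have h4 := NT.rev h h' h3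
    rw [adJ_nM hp, adJ_nMd hp, syi_syi] at h4
    exact h4
  by_cases hg : g.2 % 2 = 0
  · have hP' : P = Prt.rot ∨ (∃ n, P = Prt.bx n) ∨ ∃ i, P = Prt.bt i := by
      unfold prts at hP
      rw [if_pos hg] at hP
      split_ifs at hP
      · rw [List.mem_append, List.mem_map, List.mem_map] at hP
        rcases hP with ⟨n, _, h5⟩ | ⟨n, _, h5⟩
        · exact Or.inr (Or.inl ⟨_, h5.symm⟩)
        · exact Or.inr (Or.inr ⟨_, h5.symm⟩)
      · exact Or.inl (by simpa using hP)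
    rcases hP' with rfl | ⟨n, rfl⟩ | ⟨i, rfl⟩
    · have h3 := NT.rev h h' H
      rw [adJ_zero, adJ_sDm hp, syi_syi] at h3
      exact h3
    · exact run _ H
    · exact fun n b => run _ (H n b)
  · have hs : syi p g = g := syi_of_odd p g (by omega)
    rw [hs] at H
    cases P with
    | rot =>
      exfalso
      unfold prts at hP
      rw [if_neg hg] at hP
      split_ifs at hP
      · simp at hP
      · simp at hP
    | bx n =>
      exfalso
      unfold prts at hP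
      rw [if_neg hg] at hP
      split_ifs at hP
      · simp at hP
      · simp at hP
    | bt n =>
      exfalso
      unfold prts at hP
      rw [if_neg hg] at hP
      split_ifs at hP
      · simp at hP
      · simp at hP
    | ex n => exact self _ _ (adJ_rM _ _ _ _) (adJ_rD _ _ _ _ _ _ _) H
    | pc i => exact fun t b1 b2 => self _ _ (adJ_rM _ _ _ _) (adJ_rD _ _ _ _ _ _ _) (H t b1 b2)
    | v0 i => exact fun t b1 b2 => self _ _ (adJ_rM _ _ _ _) (adJ_rD _ _ _ _ _ _ _) (H t b1 b2)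
    | v1 i => exact fun t b1 b2 => self _ _ (adJ_rM _ _ _ _) (adJ_rD _ _ _ _ _ _ _) (H t b1 b2)
    | rc i =>
      intro t b1 b2
      have h3 := st_NTC K1 K2 _ _ (H t b1 b2)
      have e1 : J1 * (rM (phi p) v g (t * R.ch g)).conjTranspose * J1 =
          rM (phi p) v g (t * R.ch g) := adJ_rM _ _ _ _
      have e2 : J1 * (rM (phi p) v g (t * R.ch g) +
          ((R.rr : ℝ) : ℂ) • rMr (phi p) v g (t * R.ch g)).conjTranspose * J1 =
          rM (phi p) v g (t * R.ch g) + ((R.rr : ℝ) : ℂ) • rMr (phi p) v g (t * R.ch g) := by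
        show adJ _ = _
        rw [adJ_add, adJ_smul, adJ_rM, adJ_rMr]
      rw [e1, e2] at h3
      exact h3

/-- facts at the point -/
structure PtF (p q r : ℕ) (v vd : V3) (N : NPar) (R : RPar) : Prop where
  two : brJ 1 v v = 2
  tan : (brJ 1 vd v).re = 0
  k1 : ∀ a, ‖nc (phi p) v a 1‖ = Kp (mqr q r a) ∧ nWd (phi p) v vd (a, 1) = 0
  k3 : ∀ g : Sy, SyOk p g → g.2 % 2 = 1 → 3 ≤ g.2 →
    2 ≤ ‖nc (phi p) v g.1 g.2‖ ∧ 0 ≤ nWd (phi p) v vd g
  c1 : ∀ a, R.ch (a, 1) = nW (phi p) v (a, 1) / 2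
  t1 : ∀ a, 0 < N.N (a, 1) ∧ R.τ (a, 1) 0 ≤ 0 ∧ 1 ≤ R.τ (a, 1) (N.N (a, 1))
  c3 : ∀ g : Sy, SyOk p g → g.2 % 2 = 1 → 3 ≤ g.2 → 0 < R.ch g ∧
    nW (phi p) v g + R.ch g ^ 2 - nW (phi p) v g * R.ch g ≤ 0
  t3 : ∀ g : Sy, SyOk p g → g.2 % 2 = 1 → 3 ≤ g.2 → 0 < N.N g ∧
    R.τ g 0 * R.ch g ≤ rn (nW (phi p) v g) (nEx + 1) ∧ 1 ≤ R.τ g (N.N g)
  H3 : ∀ g : Sy, SyOk p g → g.2 % 2 = 1 → 3 ≤ g.2 → 0 < R.H g ∧
    R.H g ≤ h1 (nW (phi p) v g) (nEx + 1)
  rr : 1 / 3 ≤ R.rr
  bcov : N.gb = true → ∀ n, N.nB < n → ∃ i < N.NB, R.bc i n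

theorem pieceN {τ : ℕ → ℝ} {t : ℝ} (h0 : τ 0 ≤ t) : ∀ N : ℕ, 0 < N → t ≤ τ N →
    ∃ i < N, τ i ≤ t ∧ t ≤ τ (i + 1) := by
  intro N
  induction N with
  | zero => intro h; omega
  | succ N ih =>
    intro _ hN
    rcases Nat.eq_zero_or_pos N with rfl | hN0
    · exact ⟨0, by omega, h0, hN⟩
    rcases le_total t (τ N) with h | h
    · obtain ⟨i, h1, h2, h3⟩ := ih hN0 h
      exact ⟨i, by omega, h2, h3⟩
    · exact ⟨N, by omega, h, hN⟩

/-- monotonicity of `ρ_n` and `h1` -/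
theorem rn_mono {w : ℝ} (hw : 4 ≤ w) {m n : ℕ} (hm : 1 ≤ m) (h : m ≤ n) :
    rn w m ≤ rn w n ∧ h1 w m ≤ h1 w n := by
  induction n, h using Nat.le_induction with
  | base => exact ⟨le_rfl, le_rfl⟩
  | succ n hn ih =>
    obtain ⟨_, _, _, a1, _, _, _, a2, _⟩ := st_NR2 w n hw (by omega)
    exact ⟨ih.1.trans a1.le, ih.2.trans a2⟩

/-- ALL BLOCKS OVER A SYLLABLE -/
theorem NT_all (hNR1 : ST_NR1) {p q r : ℕ} (hq : 3 ≤ q) (hr : 3 ≤ r) {v vd : V3}
    {N : NPar} {R : RPar} (F : PtF p q r v vd N R) {g : Sy} (hg : SyOk p g) {K1 K2 S S' : Mt}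
    (H : ∀ P ∈ prts N g, sat R (phi p) v vd g P K1 K2 S S') {n : ℕ} (hn : 1 ≤ n)
    (hev : g.2 % 2 = 0 → ¬ (N.gb = true ∧ g.2 = 2) → n = 1) (hrun : g.2 = 1 → 2 * n + 1 ≤ mqr q r g.1) :
    NT K1 K2 (nX v vd (nM (phi p) v g.1 g.2 (n - 1)) (nMd (phi p) v vd g.1 g.2 (n - 1)) S S')
      (nM (phi p) v g.1 g.2 (n - 1)) := by
  by_cases he : g.2 % 2 = 0
  · by_cases hb : N.gb = true ∧ g.2 = 2
    · by_cases hnB : n ≤ N.nB
      · exact H (Prt.bx n) (by
          unfold prts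
          rw [if_pos he, if_pos hb, List.mem_append, List.mem_map]
          exact Or.inl ⟨n - 1, List.mem_range.2 (by omega), by
            have : n - 1 + 1 = n := by omega
            rw [this]⟩)
      · obtain ⟨i, hi, hb'⟩ := F.bcov hb.1 n (by omega)
        exact H (Prt.bt i) (by
          unfold prts
          rw [if_pos he, if_pos hb, List.mem_append, List.mem_map, List.mem_map]
          exact Or.inr ⟨i, List.mem_range.2 hi, rfl⟩) n hb'
    · have hn1 := hev he hb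
      subst hn1
      exact H Prt.rot (by unfold prts; rw [if_pos he, if_neg hb]; simp)
  have ho : g.2 % 2 = 1 := by omega
  set w := nW (phi p) v g with hw
  set κ := ‖nc (phi p) v g.1 g.2‖ with hκ
  have hwκ : w = κ ^ 2 := rfl
  -- positivity of the Chebyshev numbers
  have key : (∀ i, 1 ≤ i → i ≤ n → 0 < Us κ i) → 0 < κ →
      NT K1 K2 (nX v vd (rM (phi p) v g (rn w n)) (rD (phi p) v vd g (rn w n) (h1 w n) (h2 w n))
        S S') (rM (phi p) v g (rn w n)) →
      NT K1 K2 (nX v vd (nM (phi p) v g.1 g.2 (n - 1)) (nMd (phi p) v vd g.1 g.2 (n - 1)) S S')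
        (nM (phi p) v g.1 g.2 (n - 1)) := by
    intro hU hκ0 hNT
    have hnc : nc (phi p) v g.1 g.2 ≠ 0 := by
      intro h0
      rw [hκ, h0, norm_zero] at hκ0
      exact lt_irrefl _ hκ0
    have en : n - 1 + 1 = n := by omega
    obtain ⟨e1, e2⟩ := hNR1 (phi p) v vd g.1 g.2 (n - 1) ho hnc F.two F.tan (by rw [en]; exact hU)
    rw [en] at e1 e2
    rw [e1, e2]
    have h3 := NT_smul (-(Us κ n ^ 2 / w)) hNT
    rw [← nX_smul] at h3
    exact h3
  rcases Nat.eq_or_lt_of_le (show 1 ≤ g.2 by omega) with h1' | h1'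
  · -- runs of the stars
    have hk : g.2 = 1 := h1'.symm
    have hM : 3 ≤ mqr q r g.1 := by unfold mqr; split_ifs <;> assumption
    have hge : g = (g.1, 1) := by rw [← hk]
    have hrn := hrun hk
    obtain ⟨k1, k2⟩ := F.k1 g.1
    have hκM : κ = Kp (mqr q r g.1) := by
      rw [hκ, hk]
      exact k1
    have hwd : nWd (phi p) v vd g = 0 := by rw [hge]; exact k2
    have hU : ∀ i, 1 ≤ i → i ≤ n → 0 < Us κ i := by
      intro i hi1 hi2
      rw [hκM]
      exact (st_NR3 (mqr q r g.1) i hM hi1 (by omega)).1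
    have hκ0 : 0 < κ := by
      have := hU 1 le_rfl hn
      rw [hκM]
      have e : Kp (mqr q r g.1) = 2 * Real.cos (phi (mqr q r g.1)) := rfl
      rw [e]
      have := (kp_cos hM).1
      positivity
    obtain ⟨_, _, a1, a2⟩ := st_NR3 (mqr q r g.1) n hM hn (by omega)
    rw [← hκM, ← hwκ] at a1 a2
    have hw0 : 0 < w := by rw [hwκ]; positivity
    obtain ⟨b1, b2, b3⟩ := F.t1 g.1
    rw [← hge] at b1 b2 b3
    have hc : R.ch g = w / 2 := by
      have h5 := F.c1 g.1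
      rw [← hge] at h5
      exact h5
    have ht0 : R.τ g 0 ≤ rn w n / (w / 2) := b2.trans (by positivity)
    have ht1 : rn w n / (w / 2) ≤ R.τ g (N.N g) := by
      refine le_trans ?_ b3
      rw [div_le_one (by positivity)]
      linarith
    obtain ⟨i, hi, t1, t2⟩ := pieceN ht0 _ b1 ht1
    have hpc := H (Prt.pc i) (by
      unfold prts
      rw [if_neg he, if_pos hk, List.mem_map]
      exact ⟨i, List.mem_range.2 hi, rfl⟩) _ t1 t2
    have eρ : rn w n / (w / 2) * R.ch g = rn w n := by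
      rw [hc]
      field_simp
    rw [eρ] at hpc
    refine key hU hκ0 ?_
    have eD : rD (phi p) v vd g (rn w n) (h1 w n) (h2 w n) = rD (phi p) v vd g (rn w n) 0 0 := by
      unfold rD
      rw [hwd]
      simp
    rw [eD]
    exact hpc
  · -- the other reflections
    have hk3 : 3 ≤ g.2 := by omega
    obtain ⟨k1, k2⟩ := F.k3 g hg ho hk3
    have hw4 : 4 ≤ w := by rw [hwκ]; nlinarith
    have hκs : Real.sqrt w = κ := by
      rw [hwκ]
      exact Real.sqrt_sq (by linarith)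
    have hU : ∀ i, 1 ≤ i → i ≤ n → 0 < Us κ i := by
      intro i hi1 _
      rw [← hκs]
      exact (st_NR2 w i hw4 hi1).1
    refine key hU (by linarith) ?_
    have hne : g.2 ≠ 1 := by omega
    have mem : ∀ P : Prt, P ∈ (List.range nEx).map (fun n => Prt.ex (n + 1)) ++
        (List.range (N.N g)).map Prt.v0 ++ (List.range (N.N g)).map Prt.v1 ++
        (List.range (N.N g)).map Prt.rc → P ∈ prts N g := by
      intro P hP
      unfold prts
      rw [if_neg he, if_neg hne]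
      exact hP
    by_cases hn5 : n ≤ nEx
    · refine H (Prt.ex n) (mem _ ?_)
      simp only [List.mem_append, List.mem_map, List.mem_range]
      exact Or.inl (Or.inl (Or.inl ⟨n - 1, by omega, by
        have : n - 1 + 1 = n := by omega
        rw [this]⟩))
    · have hn6 : nEx + 1 ≤ n := by omega
      obtain ⟨_, _, r0, _, rP, r2, a0, _, a3⟩ := st_NR2 w n hw4 hn
      have a3 := a3 (by unfold nEx at hn6; omega)
      obtain ⟨m1, m2⟩ := rn_mono hw4 (show 1 ≤ nEx + 1 by omega) hn6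
      obtain ⟨c0, cq⟩ := F.c3 g hg ho hk3
      obtain ⟨N0, τ0, τ1⟩ := F.t3 g hg ho hk3
      obtain ⟨H0, H1⟩ := F.H3 g hg ho hk3
      have hrr := F.rr
      -- `ρ_n ≤ ch`
      have hle : rn w n ≤ R.ch g := by
        by_contra hc
        push Not at hc
        have : w + rn w n ^ 2 - w * rn w n ≤ w + R.ch g ^ 2 - w * R.ch g := by nlinarith
        linarith
      have ht0 : R.τ g 0 ≤ rn w n / R.ch g := by
        rw [le_div_iff₀ c0]
        exact τ0.trans m1
      have ht1 : rn w n / R.ch g ≤ R.τ g (N.N g) := by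
        refine le_trans ?_ τ1
        rw [div_le_one c0]
        exact hle
      obtain ⟨i, hi, t1, t2⟩ := pieceN ht0 _ N0 ht1
      have eρ : rn w n / R.ch g * R.ch g = rn w n := by field_simp
      have q0 := H (Prt.v0 i) (mem _ (by
        simp only [List.mem_append, List.mem_map, List.mem_range]
        exact Or.inl (Or.inl (Or.inr ⟨i, hi, rfl⟩)))) _ t1 t2
      have q1 := H (Prt.v1 i) (mem _ (by
        simp only [List.mem_append, List.mem_map, List.mem_range]
        exact Or.inl (Or.inr ⟨i, hi, rfl⟩))) _ t1 t2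
      have q2 := H (Prt.rc i) (mem _ (by
        simp only [List.mem_append, List.mem_map, List.mem_range]
        exact Or.inr ⟨i, hi, rfl⟩)) _ t1 t2
      rw [eρ] at q0 q1 q2
      intro u hu y hy
      have f0 := q0 u hu y hy
      have f1 := q1 u hu y hy
      have f2 := q2 u hu y hy
      have lin : ∀ b1 b2 : ℝ, tv (nX v vd (rM (phi p) v g (rn w n))
          (rD (phi p) v vd g (rn w n) b1 b2) S S') (rM (phi p) v g (rn w n)) u y =
          tv (nX v vd (rM (phi p) v g (rn w n)) (nRd (nWd (phi p) v vd g) (rn w n)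
            (ns (phi p) v g.1 g.2) (nsd (phi p) vd g.1 g.2) v vd) S S')
            (rM (phi p) v g (rn w n)) u y + nWd (phi p) v vd g *
          (b1 * tv (rM (phi p) v g (rn w n)) (rM (phi p) v g (rn w n)) u y +
            b2 * tv (rMr (phi p) v g (rn w n)) (rM (phi p) v g (rn w n)) u y) := by
        intro b1 b2
        unfold rD
        rw [nX_add, tv_add, tv_smul, tv_add, tv_smul, tv_smul]
      have g0 : 0 ≤ tv (nX v vd (rM (phi p) v g (rn w n))
          (rD (phi p) v vd g (rn w n) (R.H g) 0) S S') (rM (phi p) v g (rn w n)) u y := f0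
      have g1 : 0 ≤ tv (nX v vd (rM (phi p) v g (rn w n))
          (rD (phi p) v vd g (rn w n) (R.H g) (R.rr * R.H g)) S S')
          (rM (phi p) v g (rn w n)) u y := f1
      have g2 : 0 ≤ tv (rM (phi p) v g (rn w n) + ((R.rr : ℝ) : ℂ) • rMr (phi p) v g (rn w n))
          (rM (phi p) v g (rn w n)) u y := f2
      show 0 ≤ tv _ _ u y
      rw [lin] at g0 g1 ⊢
      rw [tv_add, tv_smul] at g2
      have gs := tv_self (rM (phi p) v g (rn w n)) u y
      set A := tv (nX v vd (rM (phi p) v g (rn w n)) (nRd (nWd (phi p) v vd g) (rn w n)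
            (ns (phi p) v g.1 g.2) (nsd (phi p) vd g.1 g.2) v vd) S S')
            (rM (phi p) v g (rn w n)) u y with hA
      set B := tv (rM (phi p) v g (rn w n)) (rM (phi p) v g (rn w n)) u y with hB
      set C := tv (rMr (phi p) v g (rn w n)) (rM (phi p) v g (rn w n)) u y with hC
      set D := nWd (phi p) v vd g with hD
      have hh : R.H g ≤ h1 w n := H1.trans m2
      have hh0 : 0 < h1 w n := lt_of_lt_of_le H0 hh
      have hr0 : 0 < R.rr := by linarith
      -- `t = h2 / (rr * h1)`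
      have hb : h2 w n ≤ R.rr * h1 w n := by nlinarith
      have s0 : 0 ≤ A + D * (h1 w n * B) := by
        have : D * (R.H g * B + 0 * C) ≤ D * (h1 w n * B) := by
          refine mul_le_mul_of_nonneg_left ?_ k2
          nlinarith
        linarith
      have s1 : 0 ≤ A + D * (h1 w n * (B + R.rr * C)) := by
        have e : D * (R.H g * B + R.rr * R.H g * C) ≤ D * (h1 w n * (B + R.rr * C)) := by
          refine mul_le_mul_of_nonneg_left ?_ k2
          nlinarith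
        linarith
      have hden : 0 < R.rr * h1 w n := by positivity
      have t0' : 0 ≤ h2 w n / (R.rr * h1 w n) := by positivity
      have t1' : h2 w n / (R.rr * h1 w n) ≤ 1 := by rw [div_le_one hden]; exact hb
      have e : A + D * (h1 w n * B + h2 w n * C) =
          (1 - h2 w n / (R.rr * h1 w n)) * (A + D * (h1 w n * B)) +
          h2 w n / (R.rr * h1 w n) * (A + D * (h1 w n * (B + R.rr * C))) := by
        field_simp
        ring
      rw [e]
      have := mul_nonneg (show 0 ≤ 1 - h2 w n / (R.rr * h1 w n) by linarith) s0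
      have := mul_nonneg t0' s1
      linarith

end Pool.Agent.Helper6.MONO.W2
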