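import Pool.Agent.Helper12.CW.NFA

/-!
Plan W (MP_c75db0): facts of the point `x ≥ x_A` in the coordinates `(W, a, b)`.
-/

set_option autoImplicit false
noncomputable section
namespace Pool.Agent.Helper6.MONO.W2

open Matrix Filter Topology Pool.Agent.Helper12.NK

/-- norm of the polar vector -/
theorem vC_two {p : ℕ} {W a b : ℝ} (hR : 0 < W ^ 2 - cX p W a b ^ 2 - cY p a b ^ 2)
    (hW : 2 ≤ W) : brJ 1 (vC p W a b) (vC p W a b) = 2 := by
  have hR' : 0 < cR p W a b := Real.sqrt_pos.2 hR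
  have hR2 : cR p W a b ^ 2 = W ^ 2 - cX p W a b ^ 2 - cY p a b ^ 2 := Real.sq_sqrt hR.le
  have hB0 : 0 < (W + cR p W a b) / 2 := by linarith
  have hB' : 0 < cB p W a b := Real.sqrt_pos.2 hB0
  have hB2 : cB p W a b ^ 2 = (W + cR p W a b) / 2 := Real.sq_sqrt hB0.le
  have hT : Real.sqrt (W - 2) ^ 2 = W - 2 := Real.sq_sqrt (by linarith)
  have hZ : ‖cZ p W a b‖ ^ 2 = cX p W a b ^ 2 + cY p a b ^ 2 := by
    rw [← Complex.normSq_eq_norm_sq, Complex.normSq_apply]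
    show cX p W a b * cX p W a b + cY p a b * cY p a b = _
    ring
  have n0 : ‖vC p W a b 0‖ ^ 2 = ‖cZ p W a b‖ ^ 2 / (4 * cB p W a b ^ 2) := by
    show ‖-(ep (phi p) * star (cZ p W a b)) / (2 * (cB p W a b : ℂ))‖ ^ 2 = _
    rw [norm_div, norm_neg, norm_mul, norm_star, ep_norm, norm_mul, Complex.norm_real,
      Real.norm_eq_abs, abs_of_pos hB']
    have : ‖(2 : ℂ)‖ = 2 := by norm_num
    rw [this]
    field_simp
    norm_num
  have e : brJ 1 (vC p W a b) (vC p W a b) = ((‖vC p W a b 0‖ ^ 2 + cB p W a b ^ 2 -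
      Real.sqrt (W - 2) ^ 2 : ℝ) : ℂ) := by
    show vC p W a b 0 * star (vC p W a b 0) + (cB p W a b : ℂ) * star (cB p W a b : ℂ) -
      ((1 : ℝ) : ℂ) * (((Real.sqrt (W - 2) : ℝ) : ℂ) * star ((Real.sqrt (W - 2) : ℝ) : ℂ)) = _
    have k : ∀ t : ℝ, star (t : ℂ) = (t : ℂ) := fun t => Complex.conj_ofReal t
    rw [nsq, k, k]
    push_cast
    ring
  rw [e, n0, hZ, hT, hB2]
  have h5 : (cX p W a b ^ 2 + cY p a b ^ 2) / (4 * ((W + cR p W a b) / 2)) +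
      (W + cR p W a b) / 2 - (W - 2) = 2 := by
    have h6 : cX p W a b ^ 2 + cY p a b ^ 2 = (W - cR p W a b) * (W + cR p W a b) := by
      linear_combination hR2
    rw [h6]
    have h7 : W + cR p W a b ≠ 0 := by
      have : 0 < W + cR p W a b := by linarith
      exact this.ne'
    field_simp
    ring
  rw [h5]
  norm_num

theorem vC_tan {p : ℕ} {W a b : ℝ} (hR : 0 < W ^ 2 - cX p W a b ^ 2 - cY p a b ^ 2)
    (hW : 2 < W) : (brJ 1 (wC p W a b) (vC p W a b)).re = 0 := by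
  have d1 := brJ_deriv (v := fun W => vC p W a b) (fun i => vC_deriv hR hW i)
  have c : Continuous (fun W => W ^ 2 - cX p W a b ^ 2 - cY p a b ^ 2) := by
    unfold cX
    fun_prop
  have d2 : HasDerivAt (fun W => brJ 1 (vC p W a b) (vC p W a b)) 0 W := by
    refine (hasDerivAt_const W (2 : ℂ)).congr_of_eventuallyEq ?_
    filter_upwards [c.continuousAt.eventually (lt_mem_nhds hR), lt_mem_nhds hW] with t h1 h2
    exact vC_two h1 h2.le
  have e := d1.unique d2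
  rw [← brJ_star (wC p W a b) (vC p W a b)] at e
  have e' := congrArg Complex.re e
  have e3 : (star (brJ 1 (wC p W a b) (vC p W a b))).re =
    (brJ 1 (wC p W a b) (vC p W a b)).re := rfl
  rw [Complex.add_re, e3, Complex.zero_re] at e'
  linarith

theorem nc_nv (p q r : ℕ) (η : ℂ) (τ x : ℝ) (a : Bool) (k : ℕ) :
    nc (phi p) (nv p q r η τ x) a k = η * cj (phi p) (Kp q) (Kp r) a k x := by
  unfold nc nv cj
  rw [nP_mulVec]
  show η * vv (phi p) (Kp q) (Kp r) x 0 + η * vv (phi p) (Kp q) (Kp r) x 1 *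
    star (ev (phi p) a k) = _
  have e0 : vv (phi p) (Kp q) (Kp r) x 0 = sA (phi p) (Kp q) (Kp r) (zx x) := rfl
  have e1 : vv (phi p) (Kp q) (Kp r) x 1 = sB (phi p) (Kp q) (Kp r) (zx x) := rfl
  rw [e0, e1]
  ring

theorem nc_smul (φ : ℝ) (c : ℂ) (v : V3) (a : Bool) (k : ℕ) :
    nc φ (c • v) a k = c * nc φ v a k := by
  unfold nc
  rw [Pi.smul_apply, Pi.smul_apply, smul_eq_mul, smul_eq_mul]
  ring

/-- the products and their derivatives -/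
theorem nW_cj {p q r : ℕ} (hp : 3 ≤ p) (hq : 3 ≤ q) (hr : 3 ≤ r) {x : ℝ} (h1 : -2 < x)
    (h2 : x < 2) (ht : 0 < tt (phi p) (Kp q) (Kp r) x) (a : Bool) (k : ℕ) :
    ‖nc (phi p) (vC p (cW p q r x) (Kp q ^ 2) (Kp r ^ 2)) a k‖ =
      ‖cj (phi p) (Kp q) (Kp r) a k x‖ ∧
    nWd (phi p) (vC p (cW p q r x) (Kp q ^ 2) (Kp r ^ 2))
      (wC p (cW p q r x) (Kp q ^ 2) (Kp r ^ 2)) (a, k) * ttd (phi p) (Kp q) (Kp r) x =
      2 * (cjd (phi p) (Kp r) a k x * star (cj (phi p) (Kp q) (Kp r) a k x)).re := by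
  have eqn : ∀ t : ℝ, -2 < t → t < 2 → 0 < tt (phi p) (Kp q) (Kp r) t →
      ‖nc (phi p) (vC p (cW p q r t) (Kp q ^ 2) (Kp r ^ 2)) a k‖ =
      ‖cj (phi p) (Kp q) (Kp r) a k t‖ := by
    intro t k1 k2 k3
    obtain ⟨e1, e2⟩ := nv_vC hp hq hr k1 k2 k3
    rw [← e2, nc_nv, norm_mul, e1, one_mul]
  refine ⟨eqn x h1 h2 ht, ?_⟩
  have hW2 : 2 < cW p q r x := by
    unfold cW
    linarith
  have hR2 := (cS_pos hp hq hr h1 h2).2
  -- derivative of the frame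
  set D := ttd (phi p) (Kp q) (Kp r) x with hD
  have dv : ∀ i, HasDerivAt (fun x => vC p (cW p q r x) (Kp q ^ 2) (Kp r ^ 2) i)
      ((D : ℂ) * wC p (cW p q r x) (Kp q ^ 2) (Kp r ^ 2) i) x := by
    intro i
    have k1 := vC_deriv hR2 hW2 i
    have k2 := cW_deriv (p := p) (q := q) (r := r) h1 h2
    have k3 : HasDerivAt (fun x => vC p (cW p q r x) (Kp q ^ 2) (Kp r ^ 2) i)
        (D • wC p (cW p q r x) (Kp q ^ 2) (Kp r ^ 2) i) x :=
      HasDerivAt.scomp (g₁ := fun W => vC p W (Kp q ^ 2) (Kp r ^ 2) i) x k1 k2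
    exact k3
  have dn : HasDerivAt (fun x => nc (phi p) (vC p (cW p q r x) (Kp q ^ 2) (Kp r ^ 2)) a k)
      ((D : ℂ) * nc (phi p) (wC p (cW p q r x) (Kp q ^ 2) (Kp r ^ 2)) a k) x := by
    have h := (dv 0).add ((dv 1).mul_const (star (ev (phi p) a k)))
    refine h.congr_deriv ?_
    unfold nc
    ring
  have dc : HasDerivAt (fun x => cj (phi p) (Kp q) (Kp r) a k x) (cjd (phi p) (Kp r) a k x) x :=
    (sA_deriv (phi p) (Kp q) (Kp r) h1 h2).add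
      ((sB_deriv (phi p) (Kp q) (Kp r) h1 h2).mul_const (star (ev (phi p) a k)))
  have d1 := dn.norm_sq
  have d2 := dc.norm_sq
  have ct := (tt_deriv (phi p) (Kp q) (Kp r) h1 h2).continuousAt
  have op : ∀ᶠ t in 𝓝 x, 0 < tt (phi p) (Kp q) (Kp r) t :=
    ct.eventually (lt_mem_nhds ht)
  have ev : (fun x => ‖nc (phi p) (vC p (cW p q r x) (Kp q ^ 2) (Kp r ^ 2)) a k‖ ^ 2) =ᶠ[𝓝 x]
      fun x => ‖cj (phi p) (Kp q) (Kp r) a k x‖ ^ 2 := by
    filter_upwards [isOpen_Ioo.mem_nhds (show x ∈ Set.Ioo (-2 : ℝ) 2 from ⟨h1, h2⟩), op]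
      with t k1 k2
    rw [eqn t k1.1 k1.2 k2]
  have e := d1.unique (d2.congr_of_eventuallyEq ev)
  have inn : ∀ c c' : ℂ, inner ℝ c c' = (c' * star c).re := by
    intro c c'
    rw [Complex.inner]
    rfl
  rw [inn, inn] at e
  unfold nWd
  rw [← e, mul_assoc ((D : ℝ) : ℂ), Complex.re_ofReal_mul]
  ring

/-- FACTS OF A POINT -/
theorem ptF_k {p q r : ℕ} (hp : 3 ≤ p) (hpq : p ≤ q) (hqr : q ≤ r) (hr4 : 4 ≤ r) {x : ℝ}
    (hxA : xA p q r ≤ x) (hx2 : x < 2) :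
    0 < tt (phi p) (Kp q) (Kp r) x ∧ -2 < x ∧
    brJ 1 (vC p (cW p q r x) (Kp q ^ 2) (Kp r ^ 2)) (vC p (cW p q r x) (Kp q ^ 2) (Kp r ^ 2)) = 2 ∧
    (brJ 1 (wC p (cW p q r x) (Kp q ^ 2) (Kp r ^ 2))
      (vC p (cW p q r x) (Kp q ^ 2) (Kp r ^ 2))).re = 0 ∧
    (∀ a, ‖nc (phi p) (vC p (cW p q r x) (Kp q ^ 2) (Kp r ^ 2)) a 1‖ = Kp (mqr q r a) ∧
      nWd (phi p) (vC p (cW p q r x) (Kp q ^ 2) (Kp r ^ 2))
        (wC p (cW p q r x) (Kp q ^ 2) (Kp r ^ 2)) (a, 1) = 0) ∧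
    ∀ g : Sy, SyOk p g → g.2 % 2 = 1 → 3 ≤ g.2 →
      2 ≤ ‖nc (phi p) (vC p (cW p q r x) (Kp q ^ 2) (Kp r ^ 2)) g.1 g.2‖ ∧
      0 ≤ nWd (phi p) (vC p (cW p q r x) (Kp q ^ 2) (Kp r ^ 2))
        (wC p (cW p q r x) (Kp q ^ 2) (Kp r ^ 2)) g := by
  have hq : 3 ≤ q := hp.trans hpq
  have hr : 3 ≤ r := hq.trans hqr
  have h1 : -2 < x := lt_of_lt_of_le (xA_gt hp hq hqr) hxA
  have ht := st_TPO p q r hp hpq hqr hr4 x hxA hx2
  have hW2 : 2 < cW p q r x := by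
    unfold cW
    linarith
  have hR2 := (cS_pos hp hq hr h1 hx2).2
  obtain ⟨hd, hD0⟩ := ttd_pos hp hq hr h1 hx2
  rw [← hd] at hD0
  refine ⟨ht, h1, vC_two hR2 hW2.le, vC_tan hR2 hW2, ?_, ?_⟩
  · intro a
    have hsy : SyOk p (a, 1) := ⟨le_rfl, by show 1 ≤ p; omega, fun _ => by show 1 < p; omega⟩
    obtain ⟨k1, _⟩ := st_KAP p q r hp hpq hqr x hxA hx2 a 1 hsy (by norm_num)
    obtain ⟨e1, e2⟩ := k1 rfl
    obtain ⟨n1, n2⟩ := nW_cj hp hq hr h1 hx2 ht a 1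
    have hK : (if a then Kp q else Kp r) = Kp (mqr q r a) := by
      unfold mqr
      split_ifs <;> rfl
    refine ⟨by rw [n1, e1, hK], ?_⟩
    have hc0 : 0 < ‖cj (phi p) (Kp q) (Kp r) a 1 x‖ := by
      have hM : 3 ≤ mqr q r a := by unfold mqr; split_ifs <;> assumption
      rw [e1, hK]
      have e : Kp (mqr q r a) = 2 * Real.cos (phi (mqr q r a)) := rfl
      rw [e]
      have := (kp_cos hM).1
      positivity
    have e3 : (cjd (phi p) (Kp r) a 1 x * star (cj (phi p) (Kp q) (Kp r) a 1 x)).re = 0 := by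
      unfold kjd at e2
      rcases div_eq_zero_iff.1 e2 with h | h
      · exact h
      · exact absurd h hc0.ne'
    rw [e3, mul_zero] at n2
    exact (mul_eq_zero.1 n2).resolve_right hD0.ne'
  · intro g hg ho h3
    obtain ⟨_, k1⟩ := st_KAP p q r hp hpq hqr x hxA hx2 g.1 g.2 hg ho
    obtain ⟨e1, e2⟩ := k1 h3
    obtain ⟨n1, n2⟩ := nW_cj hp hq hr h1 hx2 ht g.1 g.2
    refine ⟨by rw [n1]; exact e1, ?_⟩
    have hc0 : 0 < ‖cj (phi p) (Kp q) (Kp r) g.1 g.2 x‖ := by linarith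
    have e3 : 0 ≤ (cjd (phi p) (Kp r) g.1 g.2 x *
        star (cj (phi p) (Kp q) (Kp r) g.1 g.2 x)).re := by
      unfold kjd at e2
      have := mul_nonneg e2 hc0.le
      rwa [div_mul_cancel₀ _ hc0.ne'] at this
    have e4 : 0 ≤ nWd (phi p) (vC p (cW p q r x) (Kp q ^ 2) (Kp r ^ 2))
        (wC p (cW p q r x) (Kp q ^ 2) (Kp r ^ 2)) (g.1, g.2) * ttd (phi p) (Kp q) (Kp r) x := by
      rw [n2]
      positivity
    exact nonneg_of_mul_nonneg_left e4 hD0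

end Pool.Agent.Helper6.MONO.W2
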