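import Pool.Agent.Helper12.CW.GN4
import Pool.Agent.Helper91.BX.S
import Pool.Agent.Helper93.CW.NR1

/-!
Plan W (MP_c75db0): A PIECE FROM THE ITEMS AT ALL ITS POINTS.
-/

set_option autoImplicit false
noncomputable section
namespace Pool.Agent.Helper6.MONO.W2.TY

open Matrix Filter Topology Pool.Agent.Helper12.NKT
open Pool.Agent.Helper91.BX (Sb Bx ParS Rg sr PcG PcV WB xv)
open Pool.Agent.Helper90.KMT (PT)

/-- the start syllable -/
def a0g (gb : Bool) : Sy := Bool.rec (false, 2) (false, 4) gb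

/-- EVERYTHING THE TESTS HAVE TO GIVE AT A POINT -/
def PtA {γ δ ε : Type} (D : CovD γ δ ε) (S0 : Mt) (X : ℕ → Mt) (U : Fin 3 → V3) (y0 : V3)
    (bd : ℝ) (q r : ℕ) (x : ℝ) : Prop :=
  ∃ (R : RPar) (K : ℕ → Mt),
    PtK D (vC D.p (cW D.p q r x) (Kp q ^ 2) (Kp r ^ 2)) R ∧
    PtI D (vC D.p (cW D.p q r x) (Kp q ^ 2) (Kp r ^ 2))
      (wC D.p (cW D.p q r x) (Kp q ^ 2) (Kp r ^ 2)) R K S0 X ∧
    PtS D (vC D.p (cW D.p q r x) (Kp q ^ 2) (Kp r ^ 2)) K (a0g D.gb) U y0 bd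

/-- a window from its points -/
theorem win_ptA {γ δ ε : Type} {D : CovD γ δ ε} {q r : ℕ} (hp : 3 ≤ D.p)
    (hpq : D.p ≤ q) (hqr : q ≤ r) (hr4 : 4 ≤ r) (hgb : D.gb = true → 4 ≤ D.p)
    (hD : ck D = true) {a b : ℝ} (hA : xA D.p q r ≤ a) (hab : a < b) (hb : b < 2)
    (S0 : Mt) (X : ℕ → Mt) (U : Fin 3 → V3) (hU : LinearIndependent ℂ U) (y0 : V3) (bd : ℝ)
    (h : ∀ x ∈ Set.Ioo a b, PtA D S0 X U y0 bd q r x) : Win D.p q r a b := by
  have hq : 3 ≤ q := hp.trans hpq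
  have hr : 3 ≤ r := hq.trans hqr
  rcases hg : D.gb with _ | _
  · refine win_itemsK st_NR1 hp hpq hqr hr4 (Y := bsys1 D.p q r hp hq hr)
      (by rw [hg]; exact bsys1_pr D.p q r hp hq hr) hD hA hab hb S0 X U hU y0 bd
      (fun x hx => ?_)
    obtain ⟨R, K, h1, h2, h3⟩ := h x hx
    rw [hg] at h3
    exact ⟨R, K, h1, h2, h3⟩
  · have h4 := hgb hg
    refine win_itemsK st_NR1 hp hpq hqr hr4 (Y := bsys2 D.p q r h4 hq hr)
      (by rw [hg]; exact bsys2_pr D.p q r h4 hq hr) hD hA hab hb S0 X U hU y0 bd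
      (fun x hx => ?_)
    obtain ⟨R, K, h1, h2, h3⟩ := h x hx
    rw [hg] at h3
    exact ⟨R, K, h1, h2, h3⟩

/-- the condition on the numbers of the box which excludes `r = 3` -/
def r4T (p A0 ra S0 rs : Nat) : Bool :=
  Nat.ble 4 p || (Nat.blt (281474976710656 + ra) A0 || Nat.blt rs S0)

theorem r4_ok {p A0 A1 ra S0 S1 rs : ℕ} (hp : 3 ≤ p) (h : r4T p A0 ra S0 rs = true) {q r : ℕ}
    (hpq : p ≤ q) (hqr : q ≤ r) (ha : Rg (Kp q ^ 2) A0 A1 ra) (hs : Rg (sr q r) S0 S1 rs) :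
    4 ≤ r := by
  by_contra hc
  have hr3 : r = 3 := by omega
  have hq3 : q = 3 := by omega
  have hp3 : p = 3 := by omega
  subst hr3 hq3 hp3
  have e1 : Kp 3 ^ 2 = 1 := by
    have : Kp 3 = 2 * Real.cos (Real.pi / (3 : ℕ)) := rfl
    rw [this]
    push_cast
    rw [Real.cos_pi_div_three]
    norm_num
  unfold r4T at h
  rw [Bool.or_eq_true, Bool.or_eq_true] at h
  rcases h with h | h | h
  · exact absurd h (by decide)
  · rw [Nat.blt_eq] at h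
    obtain ⟨m, h1, _, h3⟩ := ha
    rw [e1, mul_one] at h3
    have h4 : (281474976710656 : ℝ) + ra < A0 := by exact_mod_cast h
    have h5 := (abs_le.1 h3).1
    norm_num at h5
    linarith
  · rw [Nat.blt_eq] at h
    obtain ⟨m, h1, _, h3⟩ := hs
    have e2 : sr 3 3 = 0 := by
      unfold sr
      rw [sub_self, zero_div]
    rw [e2, mul_zero] at h3
    have h4 : (rs : ℝ) < S0 := by exact_mod_cast h
    have h5 := (abs_le.1 h3).1
    linarith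

/-- **A PIECE FROM ITS POINTS** -/
theorem pcG_of {γ δ ε : Type} {D : CovD γ δ ε} (hp : 3 ≤ D.p) (hgb : D.gb = true → 4 ≤ D.p)
    (hD : ck D = true) {Q : ℕ → ℕ → ℝ → Prop} {m : ℝ} {A0 A1 ra s0 s1 rs : ℕ} {S : Sb} {w w' : ℕ}
    (h4 : r4T D.p A0 ra s0 rs = true) (S0 : Mt) (X : ℕ → Mt) (U : Fin 3 → V3)
    (hU : LinearIndependent ℂ U) (y0 : V3) (bd : ℝ)
    (h : ∀ (q r : ℕ) (x : ℝ) (t : ℕ → ℝ), D.p ≤ q → q ≤ r → 4 ≤ r → -2 < x → x < 2 → x < m →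
      xA D.p q r ≤ x → Q q r x → PT 3 t → ParS D.p q r S ⟨A0, A1, ra, s0, s1, rs, w, w'⟩ x t →
      PtA D S0 X U y0 bd q r x) :
    PcG Q D.p m A0 A1 ra s0 s1 rs S w S w' := by
  intro q r hpq hqr ha hs a b h1 hab h2 hbm hA g0 g1 hQ
  have hr4 := r4_ok hp h4 hpq hqr ha hs
  have hq : 3 ≤ q := hp.trans hpq
  have hr : 3 ≤ r := hq.trans hqr
  refine win_ptA hp hpq hqr hr4 hgb hD hA hab h2 S0 X U hU y0 bd (fun x hx => ?_)
  obtain ⟨k0, k1⟩ := Pool.Agent.Helper91.BX.W_range hp hq hr (by linarith [hx.1])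
    (by linarith [hx.2]) (g0.trans hx.1.le) (hx.2.le.trans g1)
  have hw : Rg (cW D.p q r x - WB S D.p q r) w w' 0 := by
    have k0' : (w : ℝ) / 2 ^ 48 ≤ cW D.p q r x - WB S D.p q r := by linarith
    have k1' : cW D.p q r x - WB S D.p q r ≤ (w' : ℝ) / 2 ^ 48 := by linarith
    rw [div_le_iff₀ (by positivity)] at k0'
    rw [le_div_iff₀ (by positivity)] at k1'
    exact Rg.of_mem (by linarith) (by linarith)
  obtain ⟨t, ht, hpar, _⟩ := Pool.Agent.Helper91.BX.parS_ex (D := 3)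
    (B := ⟨A0, A1, ra, s0, s1, rs, w, w'⟩) (by norm_num) ha hs hw le_rfl zero_le_one
  exact h q r x t hpq hqr hr4 (by linarith [hx.1]) (by linarith [hx.2]) (by linarith [hx.2])
    (hA.trans hx.1.le) (hQ x hx.1 hx.2) ht hpar

end Pool.Agent.Helper6.MONO.W2.TY
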