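import Pool.Agent.Helper95.CW.NB1

/-!
Runs of a rotation of length 2 (MP_c75db0, plan W): `chS h n / n` is increasing for `h ≥ 1`, so the
bound `n ≤ e chS h n` of the tail needs to be tested at its first length only.
-/

set_option autoImplicit false
noncomputable section
namespace Pool.Agent.Helper6.MONO.W2

theorem chC_ge2 {h : ℝ} (hh : 1 ≤ h) (n : ℕ) : chS h n ≤ n * chC h n := by
  induction n with
  | zero => simp [chS_zero]
  | succ n ih =>
    have h0 : (0 : ℝ) ≤ n := Nat.cast_nonneg n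
    have h1 : 0 ≤ chS h n := h0.trans (chS_ge hh n)
    have h2 := chC_pos hh n
    rw [chS_succ, chC_succ]
    push_cast
    have h3 : 0 ≤ (h ^ 2 - 1) * chS h n := mul_nonneg (by nlinarith) h1
    have h4 : 0 ≤ ((n : ℝ) + 1) * ((h ^ 2 - 1) * chS h n) := mul_nonneg (by linarith) h3
    have h5 : h * chS h n ≤ h * (n * chC h n) := mul_le_mul_of_nonneg_left ih (by linarith)
    have h6 : 0 ≤ (h - 1) * chC h n := mul_nonneg (by linarith) h2.le
    nlinarith

theorem chS_step {h : ℝ} (hh : 1 ≤ h) (n : ℕ) :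
    ((n + 1 : ℕ) : ℝ) * chS h n ≤ n * chS h (n + 1) := by
  have h0 : (0 : ℝ) ≤ n := Nat.cast_nonneg n
  have h1 : 0 ≤ chS h n := h0.trans (chS_ge hh n)
  have h2 := chC_ge2 hh n
  rw [chS_succ]
  push_cast
  have h3 : 0 ≤ (n : ℝ) * ((h - 1) * chS h n) := mul_nonneg h0 (mul_nonneg (by linarith) h1)
  nlinarith

/-- `chS h n / n` IS INCREASING -/
theorem chS_div {h : ℝ} (hh : 1 ≤ h) {m n : ℕ} (hm : 1 ≤ m) (hmn : m ≤ n) :
    (n : ℝ) * chS h m ≤ m * chS h n := by
  induction n, hmn using Nat.le_induction with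
  | base => exact le_rfl
  | succ n hmn ih =>
    have hn : (0 : ℝ) < n := by exact_mod_cast (show 0 < n by omega)
    have h1 := chS_step hh n
    have h2 : 0 < chS h n := chS_pos hh (by omega)
    have hm0 : (0 : ℝ) < m := by exact_mod_cast (show 0 < m by omega)
    have h3 : 0 < chS h m := chS_pos hh hm
    have k1 : (n : ℝ) * (((n + 1 : ℕ) : ℝ) * chS h m) ≤ ((n + 1 : ℕ) : ℝ) * (m * chS h n) := by
      have := mul_le_mul_of_nonneg_left ih (Nat.cast_nonneg (α := ℝ) (n + 1))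
      linarith
    have k2 : (m : ℝ) * (((n + 1 : ℕ) : ℝ) * chS h n) ≤ m * (n * chS h (n + 1)) :=
      mul_le_mul_of_nonneg_left h1 hm0.le
    have k3 : (n : ℝ) * (((n + 1 : ℕ) : ℝ) * chS h m) ≤ n * (m * chS h (n + 1)) := by linarith
    exact le_of_mul_le_mul_left k3 hn

/-- THE BOUND OF `n / chS h n` IN THE TAIL -/
theorem eta_le {h : ℝ} (hh : 1 ≤ h) {m n : ℕ} (hm : 1 ≤ m) (hmn : m ≤ n) {e : ℝ}
    (he : (m : ℝ) ≤ e * chS h m) : (n : ℝ) ≤ e * chS h n := by
  have h1 := chS_div hh hm hmn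
  have h2 : 0 < chS h m := chS_pos hh hm
  have h3 : 0 < chS h n := chS_pos hh (hm.trans hmn)
  have h4 : (n : ℝ) * chS h m ≤ (e * chS h n) * chS h m := by
    have := mul_le_mul_of_nonneg_right he h3.le
    linarith
  exact le_of_mul_le_mul_right h4 h2

theorem eta_norm {h : ℝ} (hh : 1 ≤ h) {m n : ℕ} (hm : 1 ≤ m) (hmn : m ≤ n) {e : ℝ}
    (he : (m : ℝ) ≤ e * chS h m) {q : ℂ} (hq : ‖q‖ = 1 / chS h n) : ‖(n : ℂ) * q‖ ≤ e := by
  rw [norm_mul, hq, Complex.norm_natCast, mul_one_div, div_le_iff₀ (chS_pos hh (hm.trans hmn))]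
  exact eta_le hh hm hmn he

end Pool.Agent.Helper6.MONO.W2
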