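import Pool.Agent.Helper12.CW.NF5
import Pool.Agent.Helper47.CW.Bsys2

/-!
Plan W (MP_c75db0): the certificate theorem of the normalised star frame for block systems with
general types.
-/

set_option autoImplicit false
noncomputable section
namespace Pool.Agent.Helper6.MONO.W2

open Matrix Filter Topology

/-- a system of blocks with types -/
structure GSys (p q r : ℕ) where
  Q : Type
  B : Type
  prev : B → Q
  cur : B → SBl
  cq : B → Q
  next : B → Q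
  inv : Q → Q
  a0 : Q
  Ok : Q → Prop
  fin : Finite {s // Ok s}
  okc : ∀ β, 1 ≤ (cur β).n
  oki : ∀ s, Ok s → Ok (inv s)
  rev : ∀ β, ∃ β', prev β' = inv (next β) ∧ cq β' = inv (cq β) ∧
    (cur β').sy = syi p (cur β).sy ∧ (cur β').n = (cur β).n
  cov : ∀ w : List (Fin 3), ∃ (h t : List (Fin 3)) (s : Q × Q) (bs : List B) (s' : Q × Q),
    h.length ≤ p + 1 ∧ t.length ≤ p + 1 ∧ s.1 = a0 ∧ Ok s.2 ∧
    BPath (fun β => (prev β, cq β)) (fun β => (cq β, next β)) s bs s' ∧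
    s'.2 = a0 ∧ Ok s'.1 ∧ Eqv p q r w (h ++ (bs.map (fun b => (cur b).wd)).flatten ++ t)

/-- THE CERTIFICATE AT ONE PARAMETER. `K s`: form of the vectors after the type `s`,
`S s t`: gauge between `s` and `t`, `U i`: start vectors, `y0`: final vector -/
structure SNG {p q r : ℕ} (Y : GSys p q r) (v vd : V3) (K : Y.Q → Mt) (S : Y.Q → Y.Q → Mt)
    (U : Fin 3 → V3) (y0 : V3) (bd : ℝ) : Prop where
  inn : ∀ β : Y.B, ∀ u ∈ NZ (K (Y.prev β)),
    0 ≤ hr (K (Y.cq β)) ((rfJ 1 v).mulVec ((bM p v (Y.cur β)).mulVec u))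
  gi : ∀ β : Y.B, NT (K (Y.prev β)) (K (Y.inv (Y.next β)))
    (nX v vd (bM p v (Y.cur β)) (bMd p v vd (Y.cur β)) (S (Y.prev β) (Y.cq β))
      (S (Y.cq β) (Y.next β))) (bM p v (Y.cur β))
  stU : ∀ i, U i ∈ NZ (K Y.a0)
  doU : ∀ b, Y.Ok b → ∀ y ∈ NZ (K b), ∀ i, ‖y‖ ≤ bd * ‖brJ 1 ((rfJ 1 v).mulVec (U i)) y‖
  enY : y0 ∈ NZ (K (Y.inv Y.a0))
  doY : ∀ b, Y.Ok b → ∀ u ∈ NZ (K b), ‖u‖ ≤ bd * ‖brJ 1 ((rfJ 1 v).mulVec u) y0‖

/-- THE BLOCK: all conditions at one parameter -/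
theorem SNG.bok {p q r : ℕ} (hp : 3 ≤ p) {Y : GSys p q r} {v v' : V3} {δ : ℝ} (hδ : 0 < δ)
    {K : Y.Q → Mt} {S : Y.Q → Y.Q → Mt} {U : Fin 3 → V3} {y0 : V3} {bd : ℝ}
    (h : brJ 1 v v = 2) (h' : (brJ 1 v' v).re = 0)
    (H : SNG Y v ((δ : ℂ) • v') K S U y0 bd) (β : Y.B) :
    BOK ⟨NZ (K (Y.prev β)), {w | ∃ y ∈ NZ (K (Y.inv (Y.cq β))), w = cvv ((rfJ 1 v).mulVec y)},
        nGa v v' δ (S (Y.prev β) (Y.cq β))⟩
      ⟨NZ (K (Y.cq β)), {w | ∃ y ∈ NZ (K (Y.inv (Y.next β))), w = cvv ((rfJ 1 v).mulVec y)},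
        nGa v v' δ (S (Y.cq β) (Y.next β))⟩
      (rfJ 1 v * bM p v (Y.cur β)) (rfd 1 0 v v' * bM p v (Y.cur β) +
        rfJ 1 v * bMd p v v' (Y.cur β)) := by
  refine ⟨fun u hu => ⟨?_, ?_⟩, ?_, ?_⟩
  · rw [← Matrix.mulVec_mulVec]
    exact H.inn β u hu
  · rw [← Matrix.mulVec_mulVec, hr_J1, rfJ_uni h]
    show (brJ 1 ((nM (phi p) v _ _ _).mulVec u) ((nM (phi p) v _ _ _).mulVec u)).re = 0
    rw [nM_uni (phi p) h, ← hr_J1]
    exact hu.2
  · rintro w ⟨y, hy, rfl⟩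
    obtain ⟨β', r1, r2, r3, r4⟩ := Y.rev β
    have hy' : y ∈ NZ (K (Y.prev β')) := by rw [r1]; exact hy
    have hM : bM p v (Y.cur β') = nM (phi p) v (syi p (Y.cur β).sy).1 (syi p (Y.cur β).sy).2
        ((Y.cur β).n - 1) := by
      unfold bM
      rw [r4, ← r3]
      rfl
    have h1 := H.inn β' y hy'
    rw [r2] at h1
    refine ⟨(rfJ 1 v).mulVec ((bM p v (Y.cur β')).mulVec y), ⟨h1, ?_⟩, ?_⟩
    · rw [hr_J1, rfJ_uni h]
      show (brJ 1 ((nM (phi p) v _ _ _).mulVec y) ((nM (phi p) v _ _ _).mulVec y)).re = 0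
      rw [nM_uni (phi p) h, ← hr_J1]
      exact hy.2
    · apply vec_ext
      intro u
      rw [← Matrix.dotProduct_mulVec, cvv_dot, cvv_dot, rfJ_sq h, ← Matrix.mulVec_mulVec,
        rfJ_uni h, hM]
      exact nM_adj hp v (Y.cur β).sy _ u y
  · rintro u hu w ⟨y, hy, rfl⟩
    have h1 := H.gi β u hu y hy
    have e : bMd p v ((δ : ℂ) • v') (Y.cur β) = (δ : ℂ) • bMd p v v' (Y.cur β) :=
      nMd_smul _ _ _ _ _ _ _
    rw [e] at h1
    have h2 := nX_eq h h' hδ.ne' (bM p v (Y.cur β)) (bMd p v v' (Y.cur β))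
      (S (Y.prev β) (Y.cq β)) (S (Y.cq β) (Y.next β))
    have adj : ∀ X : Mt, cvv ((rfJ 1 v).mulVec y) ⬝ᵥ X.mulVec u =
        brJ 1 ((rfJ 1 v * X).mulVec u) y := by
      intro X
      rw [cvv_dot, ← rfJ_adj, Matrix.mulVec_mulVec]
    show 0 ≤ ((cvv ((rfJ 1 v).mulVec y) ⬝ᵥ ((rfd 1 0 v v' * bM p v (Y.cur β) +
        rfJ 1 v * bMd p v v' (Y.cur β)) +
        nGa v v' δ (S (Y.cq β) (Y.next β)) * (rfJ 1 v * bM p v (Y.cur β)) -
        (rfJ 1 v * bM p v (Y.cur β)) * nGa v v' δ (S (Y.prev β) (Y.cq β))).mulVec u) *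
      star (cvv ((rfJ 1 v).mulVec y) ⬝ᵥ (rfJ 1 v * bM p v (Y.cur β)).mulVec u)).re
    rw [adj, adj, h2, ← Matrix.mul_assoc, rfJ_sqM h, Matrix.one_mul, Matrix.smul_mulVec,
      brJ_smul_left, mul_assoc, Complex.re_ofReal_mul]
    exact mul_nonneg (inv_nonneg.2 hδ.le) h1

theorem fin_StG {p q r : ℕ} (Y : GSys p q r) :
    Finite {s : Y.Q × Y.Q // s.1 = Y.a0 ∧ Y.Ok s.2} := by
  have := Y.fin
  refine Finite.of_injective (β := {s // Y.Ok s}) (fun s => ⟨s.1.2, s.2.2⟩) ?_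
  rintro ⟨⟨s1, s2⟩, h1, h2⟩ ⟨⟨t1, t2⟩, h3, h4⟩ h
  have e : s2 = t2 := congrArg (fun s => s.1) h
  have h1' : s1 = Y.a0 := h1
  have h3' : t1 = Y.a0 := h3
  subst h1' h3' e
  rfl

/-- THE CERTIFICATE THEOREM OF THE NORMALISED STAR FRAME -/
theorem star_certG {p q r : ℕ} (hp : 3 ≤ p) (hq : 3 ≤ q) (hr : 3 ≤ r) (Y : GSys p q r) {a b : ℝ}
    (ha : -2 < a) (hab : a < b) (hb : b < 2)
    -- the frame
    (η : ℝ → ℂ) (τ : ℝ → ℝ) (v' : ℝ → V3) (T : ℝ) (hT : 1 ≤ T)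
    (hη : ∀ x ∈ Set.Icc a b, ‖η x‖ = 1)
    (hτ : ∀ x ∈ Set.Icc a b, 1 / T ≤ τ x ∧ τ x ≤ T ∧ τ x ^ 2 = tt (phi p) (Kp q) (Kp r) x)
    (hv : ∀ x ∈ Set.Icc a b, ∀ i,
      HasDerivAt (fun x => nv p q r (η x) (τ x) x i) (v' x i) x)
    (hvb : ∀ x ∈ Set.Icc a b, ‖nv p q r (η x) (τ x) x‖ ≤ T ∧ ‖v' x‖ ≤ T)
    -- the data
    (δ : ℝ → ℝ) (hδ : ∀ x ∈ Set.Ioo a b, 0 < δ x)
    (K : ℝ → Y.Q → Mt) (S : ℝ → Y.Q → Y.Q → Mt)
    (hS : ∀ x ∈ Set.Ioo a b, ∀ e f i j, ‖S x e f i j‖ ≤ T * δ x)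
    (U : Fin 3 → V3) (hU : LinearIndependent ℂ U) (y0 : V3) (bd : ℝ)
    (h : ∀ x ∈ Set.Ioo a b, SNG Y (nv p q r (η x) (τ x) x) ((δ x : ℂ) • v' x) (K x) (S x) U y0 bd) :
    Win p q r a b := by
  intro x y hx hxy hy
  have hs := phi_sin hp
  have c0 : cw p q r 0 = 2 * Real.cos (phi p) := rfl
  have c1 : cw p q r 1 = Kp q := rfl
  have c2 : cw p q r 2 = Kp r := rfl
  have hzn : ∀ x ∈ Set.Icc a b, ‖zx x‖ = 1 := fun x hx =>
    zx_norm (by linarith [hx.1]) (by linarith [hx.2])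
  have hne : ∀ x : ℝ, a ≤ x → zx x ≠ -1 := by
    intro x hx h
    have := zx_re x
    rw [h] at this
    simp at this
    linarith
  have hT0 : 0 < T := by linarith
  have hτ0 : ∀ x ∈ Set.Icc a b, 0 < τ x := fun x hx =>
    lt_of_lt_of_le (by positivity) (hτ x hx).1
  set v : ℝ → V3 := fun x => nv p q r (η x) (τ x) x with hvdef
  have h2 : ∀ x ∈ Set.Icc a b, brJ 1 (v x) (v x) = 2 := fun x hx => nv_two (hη x hx) (hτ x hx).2.2
  have h2' : ∀ x ∈ Set.Ioo a b, (brJ 1 (v' x) (v x)).re = 0 := by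
    intro x hx
    have d1 := brJ_deriv (v := v) (hv x (Set.Ioo_subset_Icc_self hx))
    have d2 : HasDerivAt (fun x => brJ 1 (v x) (v x)) 0 x := by
      refine (hasDerivAt_const x (2 : ℂ)).congr_of_eventuallyEq ?_
      filter_upwards [isOpen_Ioo.mem_nhds hx] with t ht
      exact h2 t (Set.Ioo_subset_Icc_self ht)
    have e := d1.unique d2
    rw [← brJ_star (v' x) (v x)] at e
    have e' := congrArg Complex.re e
    have e3 : (star (brJ 1 (v' x) (v x))).re = (brJ 1 (v' x) (v x)).re := rfl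
    rw [Complex.add_re, e3, Complex.zero_re] at e'
    linarith
  have hcd : ∀ x ∈ Set.Icc a b, ∀ i j, HasDerivAt (fun x => rfJ 1 (v x) i j)
      (rfd 1 0 (v x) (v' x) i j) x := fun x hx =>
    rfJ_deriv (hasDerivAt_const x 1) (hv x hx)
  set K0 := sK (phi p) (Kp q) (Kp r) with hK0
  have hK00 : 0 ≤ K0 := by
    have := sa_nonneg (phi p) (Kp q) (Kp r)
    rw [hK0]
    unfold sK
    positivity
  set BD : ℝ := 3 * (1 + T * T) * |bd| + |bd| with hBD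
  have hBD1 : |bd| ≤ BD := by
    have : 0 ≤ 3 * (1 + T * T) * |bd| := by positivity
    linarith
  have hBD2 : 3 * (1 + T * T) * |bd| ≤ BD := by
    have := abs_nonneg bd
    linarith
  have hcM : ∀ x ∈ Set.Icc a b, ∀ u : V3, ‖(rfJ 1 (v x)).mulVec u‖ ≤ 3 * (1 + T * T) * ‖u‖ :=
    fun x hx u => mul_le' _ _ (rfJ_le (hvb x hx).1) u
  have hcM' : ∀ x ∈ Set.Icc a b, ∀ u : V3, ‖(rfd 1 0 (v x) (v' x)).mulVec u‖ ≤
      3 * (2 * (T * T)) * ‖u‖ :=
    fun x hx u => mul_le' _ _ (rfd_le (hvb x hx).1 (hvb x hx).2) u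
  set g : ℝ := (1 / 2 * (3 * ((1 + T * T) * (2 * (T * T)))) + 3 * (T * (1 + T * T))) +
    (∑ i, ‖U i‖) + (3 * (1 + T * T) * ‖y0‖ + 3 * (2 * (T * T)) * ‖y0‖) with hg
  have hsum : 0 ≤ ∑ i, ‖U i‖ := Finset.sum_nonneg (fun _ _ => norm_nonneg _)
  have gp1 : 0 ≤ 1 / 2 * (3 * ((1 + T * T) * (2 * (T * T)))) + 3 * (T * (1 + T * T)) := by
    positivity
  have gp2 : 0 ≤ 3 * (1 + T * T) * ‖y0‖ := by positivity
  have gp3 : 0 ≤ 3 * (2 * (T * T)) * ‖y0‖ := by positivity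
  have g0 : 0 ≤ g := by linarith
  -- the window theorem with final states
  obtain ⟨D, hD0, hD⟩ := win_cmpF (c := cw p q r) hab
    (src := fun β : Y.B => (Y.prev β, Y.cq β))
    (tgt := fun β : Y.B => (Y.cq β, Y.next β))
    (fun β => (Y.cur β).wd)
    (fun β x => rfJ 1 (v x) * bM p (v x) (Y.cur β))
    (fun β x => rfd 1 0 (v x) (v' x) * bM p (v x) (Y.cur β) +
      rfJ 1 (v x) * bMd p (v x) (v' x) (Y.cur β))
    (fun β x hx i j => mul_deriv (hcd x hx)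
      (nM_deriv (phi p) (hv x hx) (Y.cur β).a (Y.cur β).k ((Y.cur β).n - 1)) i j)
    (fun _ x => nP (η x) (τ x) * sV (phi p) (Kp q) (Kp r) (zx x)) (T * K0)
    (fun _ x hx X => by
      have e1 := sU_le hs (Kp q) (Kp r) (hzn x hx) ((sV (phi p) (Kp q) (Kp r) (zx x)).mulVec X)
      rw [sU_sV hs] at e1
      have e2 := nP_ge (hη x hx) (hτ x hx).1 hT ((sV (phi p) (Kp q) (Kp r) (zx x)).mulVec X)
      rw [← Matrix.mulVec_mulVec]
      calc ‖X‖ ≤ K0 * ‖(sV (phi p) (Kp q) (Kp r) (zx x)).mulVec X‖ := e1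
        _ ≤ K0 * (T * ‖(nP (η x) (τ x)).mulVec ((sV (phi p) (Kp q) (Kp r) (zx x)).mulVec X)‖) :=
          mul_le_mul_of_nonneg_left e2 hK00
        _ = _ := by ring)
    (fun β x hx => ⟨1, by simp, fun X => by
      rw [one_smul]
      have e1 := sW_link (c := cw p q r) hs c0 (hzn x hx) (Y.cur β).wd X
      rw [c1, c2] at e1
      have e2 := nP_bN (p := p) (q := q) (r := r) (hη x hx) (hτ x hx).2.2 (Y.cur β) (Y.okc β)
      have e3 : (rfJ 1 (v x) * bM p (v x) (Y.cur β)) * nP (η x) (τ x) =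
          nP (η x) (τ x) * bN p q r (Y.cur β) x := e2.symm
      show (rfJ 1 (v x) * bM p (v x) (Y.cur β)).mulVec
        ((nP (η x) (τ x) * sV (phi p) (Kp q) (Kp r) (zx x)).mulVec X) =
        (nP (η x) (τ x) * sV (phi p) (Kp q) (Kp r) (zx x)).mulVec
          (gact (wG (cw p q r) (zx x)) (Y.cur β).wd X)
      rw [Matrix.mulVec_mulVec, ← Matrix.mul_assoc, e3, Matrix.mul_assoc,
        ← Matrix.mulVec_mulVec, ← Matrix.mulVec_mulVec]
      rw [← Matrix.mulVec_mulVec]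
      exact congrArg _ e1⟩)
    (fun _ x hx X => by
      rw [← Matrix.mulVec_mulVec]
      have e1 := sV_le (phi p) (Kp q) (Kp r) (hzn x hx) X
      have e2 := nP_le (hη x hx) (hτ0 x hx).le (hτ x hx).2.1 hT
        ((sV (phi p) (Kp q) (Kp r) (zx x)).mulVec X)
      calc _ ≤ T * ‖(sV (phi p) (Kp q) (Kp r) (zx x)).mulVec X‖ := e2
        _ ≤ T * (K0 * ‖X‖) := mul_le_mul_of_nonneg_left e1 hT0.le
        _ = _ := by ring)
    (fun s x => ⟨NZ (K x s.1), {w | ∃ y ∈ NZ (K x (Y.inv s.2)), w = cvv ((rfJ 1 (v x)).mulVec y)},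
      nGa (v x) (v' x) (δ x) (S x s.1 s.2)⟩)
    (fun β x hx => SNG.bok hp (hδ x hx) (h2 x (Set.Ioo_subset_Icc_self hx)) (h2' x hx)
      (h x hx) β)
    BD g
    (fun s x hx i j => by
      have hxI := Set.Ioo_subset_Icc_self hx
      have hd := hδ x hx
      have k1 : ‖nG (v x) (v' x) i j‖ ≤ 3 * ((1 + T * T) * (2 * (T * T))) :=
        mat_mul_le (rfJ_le (hvb x hxI).1) (rfd_le (hvb x hxI).1 (hvb x hxI).2) i j
      have k2 : ‖(S x s.1 s.2 * rfJ 1 (v x)) i j‖ ≤ 3 * ((T * δ x) * (1 + T * T)) :=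
        mat_mul_le (hS x hx s.1 s.2) (rfJ_le (hvb x hxI).1) i j
      show ‖((1 / 2 : ℂ) • nG (v x) (v' x) -
        (((δ x)⁻¹ : ℝ) : ℂ) • (S x s.1 s.2 * rfJ 1 (v x))) i j‖ ≤ g
      rw [Matrix.sub_apply, Matrix.smul_apply, Matrix.smul_apply, smul_eq_mul, smul_eq_mul]
      refine (norm_sub_le _ _).trans ?_
      rw [norm_mul, norm_mul, Complex.norm_real, Real.norm_eq_abs, abs_of_pos (inv_pos.2 hd)]
      have k3 : ‖(1 / 2 : ℂ)‖ = 1 / 2 := by norm_num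
      rw [k3]
      have k4 : (δ x)⁻¹ * ‖(S x s.1 s.2 * rfJ 1 (v x)) i j‖ ≤ 3 * (T * (1 + T * T)) := by
        calc _ ≤ (δ x)⁻¹ * (3 * ((T * δ x) * (1 + T * T))) :=
              mul_le_mul_of_nonneg_left k2 (inv_nonneg.2 hd.le)
          _ = 3 * (T * (1 + T * T)) * ((δ x)⁻¹ * δ x) := by ring
          _ = _ := by rw [inv_mul_cancel₀ hd.ne', mul_one]
      linarith)
    (fun s => s.1 = Y.a0 ∧ Y.Ok s.2)
    (fun s i x => sU (phi p) (Kp q) (Kp r) (zx x)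
      ![star (η x) * U i 0, star (η x) * U i 1, ((τ x : ℝ) : ℂ)⁻¹ * U i 2])
    (fun s i x => U i) (fun s i x => 0)
    (fun s _ i x hx => by
      rw [← Matrix.mulVec_mulVec, sV_sU hs, nP_inv (hη x hx) (hτ0 x hx).ne'])
    (fun s _ i x hx j => hasDerivAt_const x _)
    (fun s hs i x hx => by
      show U i ∈ NZ (K x s.1)
      rw [hs.1]
      exact (h x hx).stU i)
    (fun s hs i x hx w hw => by
      obtain ⟨y, hy, rfl⟩ := hw
      have hxI := Set.Ioo_subset_Icc_self hx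
      have k1 := (h x hx).doU (Y.inv s.2) (Y.oki _ hs.2) y hy i
      have k2 : cvv ((rfJ 1 (v x)).mulVec y) ⬝ᵥ U i = brJ 1 ((rfJ 1 (v x)).mulVec (U i)) y := by
        rw [cvv_dot, rfJ_adj]
      rw [k2, cvv_norm]
      have k3 := hcM x hxI y
      calc _ ≤ 3 * (1 + T * T) * ‖y‖ := k3
        _ ≤ 3 * (1 + T * T) * (|bd| * ‖brJ 1 ((rfJ 1 (v x)).mulVec (U i)) y‖) := by
            refine mul_le_mul_of_nonneg_left (k1.trans ?_) (by positivity)
            exact mul_le_mul_of_nonneg_right (le_abs_self bd) (norm_nonneg _)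
        _ = (3 * (1 + T * T) * |bd|) * ‖brJ 1 ((rfJ 1 (v x)).mulVec (U i)) y‖ := by ring
        _ ≤ _ := mul_le_mul_of_nonneg_right hBD2 (norm_nonneg _))
    (fun s _ i x hx => by
      have k := Finset.single_le_sum (f := fun i => ‖U i‖) (fun _ _ => norm_nonneg _)
        (Finset.mem_univ i)
      have k' : ‖U i‖ ≤ ∑ i, ‖U i‖ := k
      refine ⟨by linarith, ?_⟩
      rw [norm_zero]
      exact g0)
    (fun s => s.2 = Y.a0 ∧ Y.Ok s.1)
    (fun s x => cvv ((rfJ 1 (v x)).mulVec y0))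
    (fun s x => cvv ((rfd 1 0 (v x) (v' x)).mulVec y0))
    (fun s _ x hx j => by
      have e0 : ∀ j, HasDerivAt (fun x => (rfJ 1 (v x)).mulVec y0 j)
          ((rfd 1 0 (v x) (v' x)).mulVec y0 j) x := by
        intro j
        have e1 : (fun x => (rfJ 1 (v x)).mulVec y0 j) = fun x =>
            rfJ 1 (v x) j 0 * y0 0 + rfJ 1 (v x) j 1 * y0 1 + rfJ 1 (v x) j 2 * y0 2 := by
          funext y
          rw [Matrix.mulVec, dotProduct, Fin.sum_univ_three]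
        have e2 : (rfd 1 0 (v x) (v' x)).mulVec y0 j = rfd 1 0 (v x) (v' x) j 0 * y0 0 +
            rfd 1 0 (v x) (v' x) j 1 * y0 1 + rfd 1 0 (v x) (v' x) j 2 * y0 2 := by
          rw [Matrix.mulVec, dotProduct, Fin.sum_univ_three]
        rw [e1, e2]
        exact (((hcd x hx j 0).mul_const _).add ((hcd x hx j 1).mul_const _)).add
          ((hcd x hx j 2).mul_const _)
      have e3 : ∀ j, HasDerivAt (fun x => star ((rfJ 1 (v x)).mulVec y0 j))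
          (star ((rfd 1 0 (v x) (v' x)).mulVec y0 j)) x := fun j => star_deriv (e0 j)
      rcases fin3 j with rfl | rfl | rfl
      · exact e3 0
      · exact e3 1
      · exact (e3 2).neg)
    (fun s hs x hx => by
      refine ⟨y0, ?_, rfl⟩
      show y0 ∈ NZ (K x (Y.inv s.2))
      rw [hs.1]
      exact (h x hx).enY)
    (fun s hs x hx u hu => by
      have k1 := (h x hx).doY s.1 hs.2 u hu
      have k2 : cvv ((rfJ 1 (v x)).mulVec y0) ⬝ᵥ u = brJ 1 ((rfJ 1 (v x)).mulVec u) y0 := by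
        rw [cvv_dot, rfJ_adj]
      rw [k2]
      refine k1.trans ?_
      exact mul_le_mul_of_nonneg_right ((le_abs_self bd).trans hBD1) (norm_nonneg _))
    (fun s _ x hx => by
      rw [cvv_norm, cvv_norm]
      have k1 := hcM x hx y0
      have k2 := hcM' x hx y0
      exact ⟨by linarith, by linarith⟩)
    hx hxy hy
  have hxI : x ∈ Set.Icc a b := ⟨hx, hxy.trans hy⟩
  have hyI : y ∈ Set.Icc a b := ⟨hx.trans hxy, hy⟩
  have := fin_StG Y
  refine nc_of_words st_WIG st_INV hp hq hr (hzn x hxI) (hzn y hyI) (hne x hx)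
    (hne y (hx.trans hxy)) (ι := {s : Y.Q × Y.Q // s.1 = Y.a0 ∧ Y.Ok s.2})
    (fun s w => ∃ (bs : List Y.B) (s' : Y.Q × Y.Q),
      BPath (fun β => (Y.prev β, Y.cq β)) (fun β => (Y.cq β, Y.next β)) s.1 bs s' ∧
      (s'.2 = Y.a0 ∧ Y.Ok s'.1) ∧ w = (bs.map (fun b => (Y.cur b).wd)).flatten) (p + 1)
    (fun w => ?_)
    (fun s i => sU (phi p) (Kp q) (Kp r) (zx x)
      ![star (η x) * U i 0, star (η x) * U i 1, ((τ x : ℝ) : ℂ)⁻¹ * U i 2])
    (fun s i => sU (phi p) (Kp q) (Kp r) (zx y)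
      ![star (η y) * U i 0, star (η y) * U i 1, ((τ y : ℝ) : ℂ)⁻¹ * U i 2]) (fun s => ?_) D ?_
  · obtain ⟨h, t, s, bs, s', h1, h2, h3, h3', h4, h5, h5', h6⟩ := Y.cov w
    exact ⟨h, (bs.map (fun b => (Y.cur b).wd)).flatten, t, ⟨s, h3, h3'⟩, h1, h2,
      ⟨bs, s', h4, ⟨h5, h5'⟩, rfl⟩, h6⟩
  · rw [Fintype.linearIndependent_iff] at hU ⊢
    intro k hk
    have e1 := congrArg (nP (η x) (τ x) * sV (phi p) (Kp q) (Kp r) (zx x)).mulVec hk
    rw [Matrix.mulVec_zero, Matrix.mulVec_sum] at e1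
    refine hU k ?_
    rw [← e1]
    refine Finset.sum_congr rfl (fun i _ => ?_)
    rw [Matrix.mulVec_smul, ← Matrix.mulVec_mulVec, sV_sU hs, nP_inv (hη x hxI) (hτ0 x hxI).ne']
  · rintro s w ⟨bs, s', hp', hf', rfl⟩ i
    exact hD s.1 s.2 bs s' hp' hf' i



/-- THE CERTIFICATE THEOREM in the coordinates `(W, a, b)` -/
theorem star_certGC {p q r : ℕ} (hp : 3 ≤ p) (hq : 3 ≤ q) (hr : 3 ≤ r) (Y : GSys p q r) {a b : ℝ}
    (ha : -2 < a) (hab : a < b) (hb : b < 2)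
    (htt : ∀ x ∈ Set.Icc a b, 0 < tt (phi p) (Kp q) (Kp r) x)
    (K : ℝ → Y.Q → Mt) (S : ℝ → Y.Q → Y.Q → Mt) (g : ℝ)
    (hS : ∀ x ∈ Set.Ioo a b, ∀ e f i j, ‖S x e f i j‖ ≤ g)
    (U : Fin 3 → V3) (hU : LinearIndependent ℂ U) (y0 : V3) (bd : ℝ)
    (h : ∀ x ∈ Set.Ioo a b, SNG Y (vC p (cW p q r x) (Kp q ^ 2) (Kp r ^ 2))
      (wC p (cW p q r x) (Kp q ^ 2) (Kp r ^ 2)) (K x) (S x) U y0 bd) : Win p q r a b := by
  have hI : ∀ x ∈ Set.Icc a b, -2 < x ∧ x < 2 := fun x hx =>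
    ⟨by linarith [hx.1], by linarith [hx.2]⟩
  have hW2 : ∀ x ∈ Set.Icc a b, 2 < cW p q r x := fun x hx => by
    have := htt x hx
    unfold cW
    linarith
  have hft : ∀ x ∈ Set.Icc a b, 0 < ft p q r x := fun x hx => Real.sqrt_pos.2 (htt x hx)
  have hR : ∀ x ∈ Set.Icc a b, 0 < cR p (cW p q r x) (Kp q ^ 2) (Kp r ^ 2) := fun x hx =>
    (cS_pos hp hq hr (hI x hx).1 (hI x hx).2).1
  have hR2 : ∀ x ∈ Set.Icc a b, 0 < cW p q r x ^ 2 -
      cX p (cW p q r x) (Kp q ^ 2) (Kp r ^ 2) ^ 2 - cY p (Kp q ^ 2) (Kp r ^ 2) ^ 2 := fun x hx =>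
    (cS_pos hp hq hr (hI x hx).1 (hI x hx).2).2
  have hB : ∀ x ∈ Set.Icc a b, 0 < cB p (cW p q r x) (Kp q ^ 2) (Kp r ^ 2) := fun x hx =>
    Real.sqrt_pos.2 (by linarith [hR x hx, hW2 x hx])
  -- derivative
  set D : ℝ := Kp p * Kp q * Kp r / (4 * Real.sin (phi p) ^ 2) with hD
  have hd : ∀ x ∈ Set.Icc a b, ttd (phi p) (Kp q) (Kp r) x = D ∧ 0 < D := fun x hx =>
    ttd_pos hp hq hr (hI x hx).1 (hI x hx).2
  have hD0 : 0 < D := (hd a ⟨le_rfl, hab.le⟩).2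
  have dv : ∀ x ∈ Set.Icc a b, ∀ i, HasDerivAt
      (fun x => nv p q r (cE p q r x) (ft p q r x) x i)
      ((D : ℂ) * wC p (cW p q r x) (Kp q ^ 2) (Kp r ^ 2) i) x := by
    intro x hx i
    obtain ⟨h1, h2⟩ := hI x hx
    have k1 := vC_deriv (hR2 x hx) (hW2 x hx) i
    have k2 := cW_deriv (p := p) (q := q) (r := r) h1 h2
    rw [(hd x hx).1] at k2
    have k3 : HasDerivAt (fun x => vC p (cW p q r x) (Kp q ^ 2) (Kp r ^ 2) i)
        (D • wC p (cW p q r x) (Kp q ^ 2) (Kp r ^ 2) i) x :=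
      HasDerivAt.scomp (g₁ := fun W => vC p W (Kp q ^ 2) (Kp r ^ 2) i) x k1 k2
    have k4 : D • wC p (cW p q r x) (Kp q ^ 2) (Kp r ^ 2) i =
        (D : ℂ) * wC p (cW p q r x) (Kp q ^ 2) (Kp r ^ 2) i := rfl
    rw [k4] at k3
    refine k3.congr_of_eventuallyEq ?_
    have ct := (tt_deriv (phi p) (Kp q) (Kp r) h1 h2).continuousAt
    have op : ∀ᶠ t in 𝓝 x, 0 < tt (phi p) (Kp q) (Kp r) t :=
      ct.eventually (lt_mem_nhds (htt x hx))
    filter_upwards [isOpen_Ioo.mem_nhds (show x ∈ Set.Ioo (-2 : ℝ) 2 from ⟨h1, h2⟩), op]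
      with t ht ht2
    exact congrFun (nv_vC hp hq hr ht.1 ht.2 ht2).2 i
  -- continuity
  have cW' : ContinuousOn (fun x => cW p q r x) (Set.Icc a b) := fun x hx =>
    (cW_deriv (hI x hx).1 (hI x hx).2).continuousAt.continuousWithinAt
  have ct : ContinuousOn (fun x => ft p q r x) (Set.Icc a b) := fun x hx =>
    ((tt_deriv (phi p) (Kp q) (Kp r) (hI x hx).1 (hI x hx).2).continuousAt.sqrt).continuousWithinAt
  have cti : ContinuousOn (fun x => (ft p q r x)⁻¹) (Set.Icc a b) :=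
    ct.inv₀ (fun x hx => (hft x hx).ne')
  have cv : ContinuousOn (fun x => nv p q r (cE p q r x) (ft p q r x) x) (Set.Icc a b) := by
    rw [continuousOn_pi]
    intro i x hx
    exact (dv x hx i).continuousAt.continuousWithinAt
  have cX' : ContinuousOn (fun x => cX p (cW p q r x) (Kp q ^ 2) (Kp r ^ 2)) (Set.Icc a b) := by
    unfold cX
    exact (((continuousOn_const.mul cW').sub continuousOn_const).sub
      continuousOn_const).div_const _
  have cR' : ContinuousOn (fun x => cR p (cW p q r x) (Kp q ^ 2) (Kp r ^ 2)) (Set.Icc a b) := by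
    unfold cR
    exact (((cW'.pow 2).sub (cX'.pow 2)).sub continuousOn_const).sqrt
  have cB' : ContinuousOn (fun x => cB p (cW p q r x) (Kp q ^ 2) (Kp r ^ 2)) (Set.Icc a b) := by
    unfold cB
    exact ((cW'.add cR').div_const _).sqrt
  have cRd' : ContinuousOn (fun x => cRd p (cW p q r x) (Kp q ^ 2) (Kp r ^ 2)) (Set.Icc a b) := by
    unfold cRd
    exact (cW'.sub (cX'.mul continuousOn_const)).div cR' (fun x hx => (hR x hx).ne')
  have cBd' : ContinuousOn (fun x => cBd p (cW p q r x) (Kp q ^ 2) (Kp r ^ 2)) (Set.Icc a b) := by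
    unfold cBd
    exact (continuousOn_const.add cRd').div (continuousOn_const.mul cB')
      (fun x hx => by have := hB x hx; positivity)
  have cBc : ContinuousOn (fun x => ((cB p (cW p q r x) (Kp q ^ 2) (Kp r ^ 2) : ℝ) : ℂ))
      (Set.Icc a b) := Complex.continuous_ofReal.comp_continuousOn cB'
  have cBdc : ContinuousOn (fun x => ((cBd p (cW p q r x) (Kp q ^ 2) (Kp r ^ 2) : ℝ) : ℂ))
      (Set.Icc a b) := Complex.continuous_ofReal.comp_continuousOn cBd'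
  have cZ' : ContinuousOn (fun x => star (cZ p (cW p q r x) (Kp q ^ 2) (Kp r ^ 2)))
      (Set.Icc a b) := by
    have e : (fun x => star (cZ p (cW p q r x) (Kp q ^ 2) (Kp r ^ 2))) = fun x =>
        ((cX p (cW p q r x) (Kp q ^ 2) (Kp r ^ 2) : ℝ) : ℂ) -
          ((cY p (Kp q ^ 2) (Kp r ^ 2) : ℝ) : ℂ) * Complex.I := by
      funext x
      exact star_cZ _ _ _ _
    rw [e]
    exact (Complex.continuous_ofReal.comp_continuousOn cX').sub continuousOn_const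
  have hBc : ∀ x ∈ Set.Icc a b, ((cB p (cW p q r x) (Kp q ^ 2) (Kp r ^ 2) : ℝ) : ℂ) ≠ 0 :=
    fun x hx => by exact_mod_cast (hB x hx).ne'
  have cf : ContinuousOn (fun x => wC p (cW p q r x) (Kp q ^ 2) (Kp r ^ 2)) (Set.Icc a b) := by
    rw [continuousOn_pi]
    intro i
    fin_cases i
    · exact (continuousOn_const.mul ((continuousOn_const.div (continuousOn_const.mul cBc)
        (fun x hx => mul_ne_zero two_ne_zero (hBc x hx))).sub ((cZ'.mul cBdc).div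
        (continuousOn_const.mul (cBc.pow 2))
        (fun x hx => mul_ne_zero two_ne_zero (pow_ne_zero 2 (hBc x hx)))))).neg
    · exact cBdc
    · refine Complex.continuous_ofReal.comp_continuousOn (ContinuousOn.div continuousOn_const
        (continuousOn_const.mul (cW'.sub continuousOn_const).sqrt) (fun x hx => ?_))
      have : 0 < Real.sqrt (cW p q r x - 2) := Real.sqrt_pos.2 (by linarith [hW2 x hx])
      positivity
  obtain ⟨C1, p1, h1⟩ := bd_of_cont cti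
  obtain ⟨C2, p2, h2⟩ := bd_of_cont ct
  obtain ⟨C3, p3, h3⟩ := bd_of_cont cv
  obtain ⟨C4, p4, h4⟩ := bd_of_cont cf
  have pg := abs_nonneg g
  have q1 : 0 ≤ D * C4 := mul_nonneg hD0.le p4
  have q2 : 0 ≤ |g| * D := mul_nonneg pg hD0.le
  set T : ℝ := 1 + C1 + C2 + C3 + D * C4 + |g| * D with hT
  have hT1 : 1 ≤ T := by linarith
  refine star_certG hp hq hr Y ha hab hb (fun x => cE p q r x) (fun x => ft p q r x)
    (fun x => (D : ℂ) • wC p (cW p q r x) (Kp q ^ 2) (Kp r ^ 2)) T hT1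
    (fun x hx => (nv_vC hp hq hr (hI x hx).1 (hI x hx).2 (htt x hx)).1)
    (fun x hx => ⟨?_, ?_, ?_⟩)
    (fun x hx i => dv x hx i)
    (fun x hx => ⟨?_, ?_⟩) (fun _ => D⁻¹) (fun x hx => inv_pos.2 hD0) K S
    (fun x hx e f i j => ?_) U hU y0 bd (fun x hx => ?_)
  · have k := h1 x hx
    rw [Real.norm_eq_abs, abs_of_pos (inv_pos.2 (hft x hx))] at k
    have k2 : (ft p q r x)⁻¹ ≤ T := by linarith
    rw [one_div]
    exact inv_le_of_inv_le₀ (hft x hx) k2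
  · have k := h2 x hx
    rw [Real.norm_eq_abs, abs_of_pos (hft x hx)] at k
    linarith
  · exact Real.sq_sqrt (htt x hx).le
  · have k := h3 x hx
    linarith
  · rw [norm_smul, Complex.norm_real, Real.norm_eq_abs, abs_of_pos hD0]
    have k := mul_le_mul_of_nonneg_left (h4 x hx) hD0.le
    linarith
  · have k2 : |g| * D ≤ T := by linarith
    calc ‖S x e f i j‖ ≤ g := hS x hx e f i j
      _ ≤ |g| := le_abs_self g
      _ = (|g| * D) * D⁻¹ := by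
          rw [mul_assoc, mul_inv_cancel₀ hD0.ne', mul_one]
      _ ≤ T * D⁻¹ := mul_le_mul_of_nonneg_right k2 (inv_pos.2 hD0).le
  · have hx' := Set.Ioo_subset_Icc_self hx
    rw [(nv_vC hp hq hr (hI x hx').1 (hI x hx').2 (htt x hx')).2, smul_smul]
    have e : ((D⁻¹ : ℝ) : ℂ) * (D : ℂ) = 1 := by
      rw [← Complex.ofReal_mul, inv_mul_cancel₀ hD0.ne', Complex.ofReal_one]
    rw [e, one_smul]
    exact h x hx

end Pool.Agent.Helper6.MONO.W2
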