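import Pool.Agent.Helper12.CW.GN0

/-!
Plan W (MP_c75db0): run-length types: the system of blocks with the classes of the run lengths.
-/

set_option autoImplicit false
noncomputable section
namespace Pool.Agent.Helper6.MONO.W2

open Matrix Filter Topology

/-- class of a run length -/
def cls (mx : Sy → ℕ) (g : Sy) (n : ℕ) : ℕ := min (n - 1) (mx g)

/-- admissible type -/
def TyOk (p : ℕ) (mx : Sy → ℕ) (s : Sy × ℕ) : Prop := SyOk p s.1 ∧ s.2 ≤ mx s.1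

theorem fin_Ty (p : ℕ) {mx : Sy → ℕ} (hb : ∀ g, mx g ≤ 3) : Finite {s // TyOk p mx s} := by
  have h1 : Finite {s : Sy // SyOk p s} := by
    have := fin_St p (false, 2)
    refine Finite.of_injective (β := {s : Sy × Sy // s.1 = (false, 2) ∧ SyOk p s.2})
      (fun s => ⟨((false, 2), s.1), rfl, s.2⟩) ?_
    rintro ⟨s, hs⟩ ⟨t, ht⟩ h
    have e : s = t := congrArg (fun s => s.1.2) h
    subst e
    rfl
  refine Finite.of_injective (β := {s : Sy // SyOk p s} × Fin 4)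
    (fun s => (⟨s.1.1, s.2.1⟩, ⟨s.1.2, by have := s.2.2; have := hb s.1.1; omega⟩)) ?_
  rintro ⟨⟨s1, s2⟩, h1, h2⟩ ⟨⟨t1, t2⟩, h3, h4⟩ h
  have e1 : s1 = t1 := congrArg (fun s => s.1.1) h
  have e2 : s2 = t2 := congrArg (fun s => (s.2 : ℕ)) h
  subst e1 e2
  rfl

/-- lift of a path -/
theorem lift_path {p q r : ℕ} (Y : BSys p q r) (mx : Sy → ℕ) :
    ∀ {s s' : Sy × Sy} {bs : List Y.B},
    BPath (fun β => (Y.prev β, (Y.cur β).sy)) (fun β => ((Y.cur β).sy, Y.next β)) s bs s' →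
    ∀ f f' : ℕ, f ≤ mx s.1 → f' ≤ mx s'.2 → ∃ c ≤ mx s.2, ∃ c' ≤ mx s'.1,
    ∃ bs' : List {b : Y.B × ℕ × ℕ // b.2.1 ≤ mx (Y.prev b.1) ∧ b.2.2 ≤ mx (Y.next b.1)},
    BPath (fun b => ((Y.prev b.1.1, b.1.2.1),
        ((Y.cur b.1.1).sy, cls mx (Y.cur b.1.1).sy (Y.cur b.1.1).n)))
      (fun b => (((Y.cur b.1.1).sy, cls mx (Y.cur b.1.1).sy (Y.cur b.1.1).n),
        (Y.next b.1.1, b.1.2.2)))
      ((s.1, f), (s.2, c)) bs' ((s'.1, c'), (s'.2, f')) ∧ bs'.map (fun b => b.1.1) = bs := by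
  intro s s' bs h
  induction h with
  | nil s =>
    intro f f' hf hf'
    exact ⟨f', hf', f, hf, [], BPath.nil _, rfl⟩
  | cons b h ih =>
    intro f f' hf hf'
    obtain ⟨c, hc, c', hc', bs', h1, h2⟩ := ih (cls mx (Y.cur b).sy (Y.cur b).n) f'
      (min_le_right _ _) hf'
    exact ⟨cls mx (Y.cur b).sy (Y.cur b).n, min_le_right _ _, c', hc',
      ⟨(b, f, c), hf, hc⟩ :: bs', BPath.cons (src := fun b : {b : Y.B × ℕ × ℕ //
        b.2.1 ≤ mx (Y.prev b.1) ∧ b.2.2 ≤ mx (Y.next b.1)} => ((Y.prev b.1.1, b.1.2.1),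
        ((Y.cur b.1.1).sy, cls mx (Y.cur b.1.1).sy (Y.cur b.1.1).n)))
      (tgt := fun b => (((Y.cur b.1.1).sy, cls mx (Y.cur b.1.1).sy (Y.cur b.1.1).n),
        (Y.next b.1.1, b.1.2.2))) ⟨(b, f, c), hf, hc⟩ h1, by rw [List.map_cons, h2]⟩

/-- THE SYSTEM WITH RUN-LENGTH TYPES -/
def gsys {p q r : ℕ} (Y : BSys p q r) (mx : Sy → ℕ) (hb : ∀ g, mx g ≤ 3)
    (hs : ∀ g, mx (syi p g) = mx g) : GSys p q r where
  Q := Sy × ℕ
  B := {b : Y.B × ℕ × ℕ // b.2.1 ≤ mx (Y.prev b.1) ∧ b.2.2 ≤ mx (Y.next b.1)}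
  prev := fun b => (Y.prev b.1.1, b.1.2.1)
  cur := fun b => Y.cur b.1.1
  cq := fun b => ((Y.cur b.1.1).sy, cls mx (Y.cur b.1.1).sy (Y.cur b.1.1).n)
  next := fun b => (Y.next b.1.1, b.1.2.2)
  inv := fun s => (syi p s.1, s.2)
  a0 := (Y.a0, 0)
  Ok := TyOk p mx
  fin := fin_Ty p hb
  okc := fun b => (Y.okc b.1.1).2
  oki := fun s h => ⟨syi_okN h.1, by
    show s.2 ≤ mx (syi p s.1)
    rw [hs]
    exact h.2⟩
  rev := fun b => by
    obtain ⟨β', r1, r2, r3, r4⟩ := Y.rev b.1.1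
    refine ⟨⟨(β', b.1.2.2, b.1.2.1), ?_, ?_⟩, ?_, ?_, r3, r4⟩
    · show b.1.2.2 ≤ mx (Y.prev β')
      rw [r1, hs]
      exact b.2.2
    · show b.1.2.1 ≤ mx (Y.next β')
      rw [r2, hs]
      exact b.2.1
    · show (Y.prev β', b.1.2.2) = (syi p (Y.next b.1.1), b.1.2.2)
      rw [r1]
    · show ((Y.cur β').sy, cls mx (Y.cur β').sy (Y.cur β').n) =
        (syi p (Y.cur b.1.1).sy, cls mx (Y.cur b.1.1).sy (Y.cur b.1.1).n)
      unfold cls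
      rw [r3, r4, hs]
  cov := fun w => by
    obtain ⟨h, t, s, bs, s', h1, h2, h3, h4, h5, h6, h7, h8⟩ := Y.cov w
    obtain ⟨c, hc, c', hc', bs', k1, k2⟩ := lift_path Y mx h5 0 0 (Nat.zero_le _) (Nat.zero_le _)
    refine ⟨h, t, ((s.1, 0), (s.2, c)), bs', ((s'.1, c'), (s'.2, 0)), h1, h2, ?_, ⟨h4, hc⟩, k1, ?_,
      ⟨h7, hc'⟩, ?_⟩
    · show (s.1, 0) = (Y.a0, 0)
      rw [h3]
    · show (s'.2, 0) = (Y.a0, 0)
      rw [h6]
    · have e : bs'.map (fun b => (Y.cur b.1.1).wd) = bs.map (fun b => (Y.cur b).wd) := by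
        rw [← k2, List.map_map]
        rfl
      rw [e]
      exact h8

end Pool.Agent.Helper6.MONO.W2
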