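import Pool.Agent.Helper12.CW.NF7

/-!
Plan W (MP_c75db0): the certificate at one parameter from a list of items. Part 3: invariance
items, data and the cover test.
-/

set_option autoImplicit false
noncomputable section
namespace Pool.Agent.Helper6.MONO.W2

open Matrix

/-! ### invariance -/

/-- null vectors with `K1 ≥ 0` have images with `Kt ≥ 0` -/
def IN (K1 Kt : Mt) (v : V3) (M : Mt) : Prop :=
  ∀ u ∈ NZ K1, 0 ≤ hr Kt ((rfJ 1 v).mulVec (M.mulVec u))

/-- the statement of an invariance item -/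
def sati (R : RPar) (φ : ℝ) (v : V3) (g : Sy) (P : Prt) (K1 Kt : Mt) : Prop :=
  match P with
  | Prt.rot => IN K1 Kt v (sDm φ g.1 g.2)
  | Prt.ex n => IN K1 Kt v (rM φ v g (rn (nW φ v g) n))
  | Prt.pc i => ∀ t : ℝ, R.τ g i ≤ t → t ≤ R.τ g (i + 1) → IN K1 Kt v (rM φ v g (t * R.ch g))
  | Prt.v0 i => ∀ t : ℝ, R.τ g i ≤ t → t ≤ R.τ g (i + 1) → IN K1 Kt v (rM φ v g (t * R.ch g))
  | Prt.v1 _ => True
  | Prt.rc _ => True
  | Prt.bx n => IN K1 Kt v (nM φ v g.1 g.2 (n - 1))
  | Prt.bt i => ∀ n : ℕ, R.bc i n → IN K1 Kt v (nM φ v g.1 g.2 (n - 1))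

/-- the parts which are needed for the invariance -/
def prtsi (N : NPar) (g : Sy) : List Prt :=
  if g.2 % 2 = 0 then
    if N.gb = true ∧ g.2 = 2 then (List.range N.nB).map (fun n => Prt.bx (n + 1)) ++
      (List.range N.NB).map Prt.bt
    else [Prt.rot]
  else if g.2 = 1 then (List.range (N.N g)).map Prt.pc
  else (List.range nEx).map (fun n => Prt.ex (n + 1)) ++ (List.range (N.N g)).map Prt.v0

theorem hr_csmul (K : Mt) (c : ℂ) (u : V3) : hr K (c • u) = ‖c‖ ^ 2 * hr K u := by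
  unfold hr hv
  have e : (∑ i, ∑ j, star ((c • u) i) * K i j * (c • u) j) =
      ((‖c‖ ^ 2 : ℝ) : ℂ) * ∑ i, ∑ j, star (u i) * K i j * u j := by
    rw [Finset.mul_sum]
    refine Finset.sum_congr rfl (fun i _ => ?_)
    rw [Finset.mul_sum]
    refine Finset.sum_congr rfl (fun j _ => ?_)
    rw [← nsq c, Pi.smul_apply, Pi.smul_apply, smul_eq_mul, smul_eq_mul, star_mul']
    ring
  rw [e, Complex.re_ofReal_mul]

theorem IN_smul {K1 Kt : Mt} {v : V3} {M : Mt} (r : ℝ) (H : IN K1 Kt v M) :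
    IN K1 Kt v ((r : ℂ) • M) := by
  intro u hu
  rw [Matrix.smul_mulVec, Matrix.mulVec_smul, hr_csmul]
  exact mul_nonneg (by positivity) (H u hu)

theorem sati_mono {R : RPar} {φ : ℝ} {v : V3} {g : Sy} {P : Prt} {K1 Kt K1' : Mt}
    (H : sati R φ v g P K1 Kt) (a1 : NZ K1' ⊆ NZ K1) : sati R φ v g P K1' Kt := by
  cases P with
  | rot => exact fun u hu => H u (a1 hu)
  | ex n => exact fun u hu => H u (a1 hu)
  | pc i => exact fun t b1 b2 u hu => H t b1 b2 u (a1 hu)
  | v0 i => exact fun t b1 b2 u hu => H t b1 b2 u (a1 hu)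
  | v1 i => exact H
  | rc i => exact H
  | bx n => exact fun u hu => H u (a1 hu)
  | bt i => exact fun n b u hu => H n b u (a1 hu)

/-- ALL BLOCKS OVER A SYLLABLE, INVARIANCE -/
theorem IN_all (hNR1 : ST_NR1) {p q r : ℕ} (hq : 3 ≤ q) (hr : 3 ≤ r) {v vd : V3}
    {N : NPar} {R : RPar} (F : PtF p q r v vd N R) {g : Sy} (hg : SyOk p g) {K1 Kt : Mt}
    (H : ∀ P ∈ prtsi N g, sati R (phi p) v g P K1 Kt) {n : ℕ} (hn : 1 ≤ n)
    (hev : g.2 % 2 = 0 → ¬ (N.gb = true ∧ g.2 = 2) → n = 1)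
    (hrun : g.2 = 1 → 2 * n + 1 ≤ mqr q r g.1) :
    IN K1 Kt v (nM (phi p) v g.1 g.2 (n - 1)) := by
  by_cases he : g.2 % 2 = 0
  · by_cases hb : N.gb = true ∧ g.2 = 2
    · by_cases hnB : n ≤ N.nB
      · exact H (Prt.bx n) (by
          unfold prtsi
          rw [if_pos he, if_pos hb, List.mem_append, List.mem_map]
          exact Or.inl ⟨n - 1, List.mem_range.2 (by omega), by
            have : n - 1 + 1 = n := by omega
            rw [this]⟩)
      · obtain ⟨i, hi, hb'⟩ := F.bcov hb.1 n (by omega)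
        exact H (Prt.bt i) (by
          unfold prtsi
          rw [if_pos he, if_pos hb, List.mem_append, List.mem_map, List.mem_map]
          exact Or.inr ⟨i, List.mem_range.2 hi, rfl⟩) n hb'
    · have hn1 := hev he hb
      subst hn1
      exact H Prt.rot (by unfold prtsi; rw [if_pos he, if_neg hb]; simp)
  have ho : g.2 % 2 = 1 := by omega
  set w := nW (phi p) v g with hw
  set κ := ‖nc (phi p) v g.1 g.2‖ with hκ
  have hwκ : w = κ ^ 2 := rfl
  have key : (∀ i, 1 ≤ i → i ≤ n → 0 < Us κ i) → 0 < κ →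
      IN K1 Kt v (rM (phi p) v g (rn w n)) →
      IN K1 Kt v (nM (phi p) v g.1 g.2 (n - 1)) := by
    intro hU hκ0 hNT
    have hnc : nc (phi p) v g.1 g.2 ≠ 0 := by
      intro h0
      rw [hκ, h0, norm_zero] at hκ0
      exact lt_irrefl _ hκ0
    have en : n - 1 + 1 = n := by omega
    obtain ⟨e1, _⟩ := hNR1 (phi p) v vd g.1 g.2 (n - 1) ho hnc F.two F.tan (by rw [en]; exact hU)
    rw [en] at e1
    rw [e1]
    exact IN_smul (-(Us κ n ^ 2 / w)) hNT
  rcases Nat.eq_or_lt_of_le (show 1 ≤ g.2 by omega) with h1' | h1'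
  · -- runs of the stars
    have hk : g.2 = 1 := h1'.symm
    have hM : 3 ≤ mqr q r g.1 := by unfold mqr; split_ifs <;> assumption
    have hge : g = (g.1, 1) := by rw [← hk]
    have hrn := hrun hk
    obtain ⟨k1, _⟩ := F.k1 g.1
    have hκM : κ = Kp (mqr q r g.1) := by
      rw [hκ, hk]
      exact k1
    have hU : ∀ i, 1 ≤ i → i ≤ n → 0 < Us κ i := by
      intro i hi1 hi2
      rw [hκM]
      exact (st_NR3 (mqr q r g.1) i hM hi1 (by omega)).1
    have hκ0 : 0 < κ := by
      rw [hκM]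
      have e : Kp (mqr q r g.1) = 2 * Real.cos (phi (mqr q r g.1)) := rfl
      rw [e]
      have := (kp_cos hM).1
      positivity
    obtain ⟨_, _, a1, a2⟩ := st_NR3 (mqr q r g.1) n hM hn (by omega)
    rw [← hκM, ← hwκ] at a1 a2
    have hw0 : 0 < w := by rw [hwκ]; positivity
    obtain ⟨b1, b2, b3⟩ := F.t1 g.1
    rw [← hge] at b1 b2 b3
    have hc : R.ch g = w / 2 := by
      have h5 := F.c1 g.1
      rw [← hge] at h5
      exact h5
    have ht0 : R.τ g 0 ≤ rn w n / (w / 2) := b2.trans (by positivity)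
    have ht1 : rn w n / (w / 2) ≤ R.τ g (N.N g) := by
      refine le_trans ?_ b3
      rw [div_le_one (by positivity)]
      linarith
    obtain ⟨i, hi, t1, t2⟩ := pieceN ht0 _ b1 ht1
    have hpc := H (Prt.pc i) (by
      unfold prtsi
      rw [if_neg he, if_pos hk, List.mem_map]
      exact ⟨i, List.mem_range.2 hi, rfl⟩) _ t1 t2
    have eρ : rn w n / (w / 2) * R.ch g = rn w n := by
      rw [hc]
      field_simp
    rw [eρ] at hpc
    exact key hU hκ0 hpc
  · have hk3 : 3 ≤ g.2 := by omega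
    obtain ⟨k1, _⟩ := F.k3 g hg ho hk3
    have hw4 : 4 ≤ w := by rw [hwκ]; nlinarith
    have hκs : Real.sqrt w = κ := by
      rw [hwκ]
      exact Real.sqrt_sq (by linarith)
    have hU : ∀ i, 1 ≤ i → i ≤ n → 0 < Us κ i := by
      intro i hi1 _
      rw [← hκs]
      exact (st_NR2 w i hw4 hi1).1
    refine key hU (by linarith) ?_
    have hne : g.2 ≠ 1 := by omega
    have mem : ∀ P : Prt, P ∈ (List.range nEx).map (fun n => Prt.ex (n + 1)) ++
        (List.range (N.N g)).map Prt.v0 → P ∈ prtsi N g := by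
      intro P hP
      unfold prtsi
      rw [if_neg he, if_neg hne]
      exact hP
    by_cases hn5 : n ≤ nEx
    · refine H (Prt.ex n) (mem _ ?_)
      simp only [List.mem_append, List.mem_map, List.mem_range]
      exact Or.inl ⟨n - 1, by omega, by
        have : n - 1 + 1 = n := by omega
        rw [this]⟩
    · have hn6 : nEx + 1 ≤ n := by omega
      obtain ⟨_, _, r0, _, rP, r2, _, _, _⟩ := st_NR2 w n hw4 hn
      obtain ⟨m1, _⟩ := rn_mono hw4 (show 1 ≤ nEx + 1 by omega) hn6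
      obtain ⟨c0, cq⟩ := F.c3 g hg ho hk3
      obtain ⟨N0, τ0, τ1⟩ := F.t3 g hg ho hk3
      have hle : rn w n ≤ R.ch g := by
        by_contra hc
        push Not at hc
        have : w + rn w n ^ 2 - w * rn w n ≤ w + R.ch g ^ 2 - w * R.ch g := by nlinarith
        linarith
      have ht0 : R.τ g 0 ≤ rn w n / R.ch g := by
        rw [le_div_iff₀ c0]
        exact τ0.trans m1
      have ht1 : rn w n / R.ch g ≤ R.τ g (N.N g) := by
        refine le_trans ?_ τ1
        rw [div_le_one c0]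
        exact hle
      obtain ⟨i, hi, t1, t2⟩ := pieceN ht0 _ N0 ht1
      have eρ : rn w n / R.ch g * R.ch g = rn w n := by field_simp
      have q0 := H (Prt.v0 i) (mem _ (by
        simp only [List.mem_append, List.mem_map, List.mem_range]
        exact Or.inr ⟨i, hi, rfl⟩)) _ t1 t2
      rw [eρ] at q0
      exact q0

end Pool.Agent.Helper6.MONO.W2
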