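import Pool.Agent.Helper26.CW.Nr
import Pool.Agent.Helper26.CW.Runs

/-!
Plan W (MP_c75db0): sharp upper end of the ratio of a run of a star, `2 n + 1 ≤ M`.
-/

set_option autoImplicit false
noncomputable section
namespace Pool.Agent.Helper6.MONO.W2

/-- the ratio for `2 n + 1 ≤ M` -/
theorem rn_kap {M n : ℕ} (hM : 3 ≤ M) (hn : 1 ≤ n) (h : 2 * n + 1 ≤ M) :
    rn (Kp M ^ 2) n ≤ Kp M ^ 2 - Kp M := by
  obtain ⟨m, rfl⟩ : ∃ m, n = m + 1 := ⟨n - 1, by omega⟩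
  obtain ⟨p1, p2, _, _⟩ := st_NR3 M (m + 1) hM hn (by omega)
  rw [Nat.add_sub_cancel] at p2
  have hM' : (3 : ℝ) ≤ M := by exact_mod_cast hM
  have hMp : (0 : ℝ) < M := by linarith
  have hpi := Real.pi_pos
  obtain ⟨θ, hθ⟩ : ∃ θ, θ = Real.pi / M := ⟨_, rfl⟩
  have hθ0 : 0 < θ := by rw [hθ]; positivity
  have hMθ : (M : ℝ) * θ = Real.pi := by rw [hθ]; field_simp
  have hθ1 : θ < Real.pi := by nlinarith
  have hs : 0 < Real.sin θ := Real.sin_pos_of_pos_of_lt_pi hθ0 hθ1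
  have hK : Kp M = 2 * Real.cos θ := by rw [hθ]; rfl
  have hK0 : 0 < Kp M := by
    rw [hK]
    have : 0 < Real.cos θ := by
      apply Real.cos_pos_of_mem_Ioo
      constructor <;> nlinarith
    positivity
  have hnM' : 2 * ((m : ℝ) + 1) + 1 ≤ M := by exact_mod_cast h
  have hm0 : (0 : ℝ) ≤ m := Nat.cast_nonneg m
  obtain ⟨_, h2⟩ := Us_sin θ m
  obtain ⟨_, h3⟩ := Us_sin θ (m + 1)
  rw [← hK] at h2 h3
  have e1 : ((m + 1 : ℕ) : ℝ) * θ = (2 * (m + 1) + 1) * θ / 2 - θ / 2 := by push_cast; ring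
  have e2 : ((m + 1 + 1 : ℕ) : ℝ) * θ = (2 * (m + 1) + 1) * θ / 2 + θ / 2 := by push_cast; ring
  have h4 : 0 ≤ Real.sin (((m + 1 + 1 : ℕ) : ℝ) * θ) - Real.sin (((m + 1 : ℕ) : ℝ) * θ) := by
    rw [e1, e2, Real.sin_add, Real.sin_sub]
    have c1 : 0 ≤ Real.cos ((2 * (m + 1) + 1) * θ / 2) := by
      apply Real.cos_nonneg_of_mem_Icc
      constructor <;> nlinarith
    have c2 : 0 ≤ Real.sin (θ / 2) :=
      Real.sin_nonneg_of_nonneg_of_le_pi (by linarith) (by linarith)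
    nlinarith [mul_nonneg c1 c2]
  have h5 : Us (Kp M) (m + 1) ≤ Us (Kp M) (m + 1 + 1) := by
    rw [← h2, ← h3, ← mul_sub] at h4
    have := nonneg_of_mul_nonneg_right h4 hs
    linarith
  have h6 : Us (Kp M) (m + 1 + 1) = Kp M * Us (Kp M) (m + 1) - Us (Kp M) m := rfl
  rw [p2, div_le_iff₀ p1]
  nlinarith

/-- an affine lower bound of the root from the ends -/
theorem sqrt_chord {w0 w1 w a b : ℝ} (h0 : 0 ≤ w0) (hw : w0 ≤ w) (hw1 : w ≤ w1)
    (e0 : (a * w0 + b) ^ 2 ≤ w0) (e1 : (a * w1 + b) ^ 2 ≤ w1) : a * w + b ≤ Real.sqrt w := by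
  have k0 : a * w0 + b ≤ Real.sqrt w0 := Real.le_sqrt_of_sq_le e0
  have k1 : a * w1 + b ≤ Real.sqrt w1 := Real.le_sqrt_of_sq_le e1
  rcases eq_or_lt_of_le (hw.trans hw1) with h | h
  · have : w = w0 := le_antisymm (by rw [h]; exact hw1) hw
    rw [this]
    exact k0
  · have hd : 0 < w1 - w0 := by linarith
    have m0 : w0 ∈ Set.Ici (0 : ℝ) := h0
    have m1 : w1 ∈ Set.Ici (0 : ℝ) := h0.trans h.le
    have a0 : 0 ≤ (w1 - w) / (w1 - w0) := div_nonneg (by linarith) hd.le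
    have a1 : 0 ≤ (w - w0) / (w1 - w0) := div_nonneg (by linarith) hd.le
    have hc := Real.strictConcaveOn_sqrt.concaveOn.2 m0 m1 a0 a1 (by field_simp; ring)
    simp only [smul_eq_mul] at hc
    have e : (w1 - w) / (w1 - w0) * w0 + (w - w0) / (w1 - w0) * w1 = w := by
      field_simp
      ring
    rw [e] at hc
    refine le_trans ?_ hc
    have h7 := mul_le_mul_of_nonneg_left k0 a0
    have h8 := mul_le_mul_of_nonneg_left k1 a1
    refine le_trans (le_of_eq ?_) (add_le_add h7 h8)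
    field_simp
    ring

end Pool.Agent.Helper6.MONO.W2
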