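import Pool.Agent.Helper12.CW.GN1
import Pool.Agent.Helper12.CW.NF8
import Pool.Agent.Helper12.CW.NRK

/-!
Plan W (MP_c75db0): run-length types: the parts of a type, all blocks of a type.
-/

set_option autoImplicit false
noncomputable section
namespace Pool.Agent.Helper6.MONO.W2

open Matrix Filter Topology

/-- the parts of a type; `nx` exact runs, `hz`: no parts `v1` -/
def prtsT (N : NPar) (nx : ℕ) (hz : Bool) (m : ℕ) (g : Sy) (f : ℕ) : List Prt :=
  if g.2 % 2 = 0 then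
    if N.gb = true ∧ g.2 = 2 then
      if m ≤ f then ((List.range N.nB).filter (fun n => m ≤ n)).map (fun n => Prt.bx (n + 1)) ++
        (List.range N.NB).map Prt.bt
      else [Prt.bx (f + 1)]
    else [Prt.rot]
  else if m ≤ f then
    if g.2 = 1 then (List.range (N.N g)).map Prt.pc
    else ((List.range nx).filter (fun n => m ≤ n)).map (fun n => Prt.ex (n + 1)) ++
      (List.range (N.N g)).map Prt.v0 ++
      (if hz = true then [] else (List.range (N.N g)).map Prt.v1) ++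
      (List.range (N.N g)).map Prt.rc
  else [Prt.ex (f + 1)]

/-- the parts of a type for the invariance; `nQ` pieces from the break point `oQ` -/
def prtsU (N : NPar) (nQ oQ nx m : ℕ) (g : Sy) (f : ℕ) : List Prt :=
  if g.2 % 2 = 0 then
    if N.gb = true ∧ g.2 = 2 then
      if m ≤ f then ((List.range N.nB).filter (fun n => m ≤ n)).map (fun n => Prt.bx (n + 1)) ++
        (List.range N.NB).map Prt.bt
      else [Prt.bx (f + 1)]
    else [Prt.rot]
  else if m ≤ f then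
    if g.2 = 1 then (List.range nQ).map (fun i => Prt.pc (oQ + i))
    else ((List.range nx).filter (fun n => m ≤ n)).map (fun n => Prt.ex (n + 1)) ++
      (List.range nQ).map (fun i => Prt.v0 (oQ + i))
  else [Prt.ex (f + 1)]

/-- facts at the point, with types -/
structure PtG (p q r : ℕ) (v vd : V3) (N : NPar) (R : RPar) (mx nx : Sy → ℕ) (hz : Sy → Bool)
    (Qi Oi : Sy → ℕ) : Prop where
  n2 : ∀ g : Sy, SyOk p g → g.2 % 2 = 1 → 3 ≤ g.2 → 1 ≤ nx g
  two : brJ 1 v v = 2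
  tan : (brJ 1 vd v).re = 0
  k1 : ∀ a, ‖nc (phi p) v a 1‖ = Kp (mqr q r a) ∧ nWd (phi p) v vd (a, 1) = 0
  k3 : ∀ g : Sy, SyOk p g → g.2 % 2 = 1 → 3 ≤ g.2 →
    2 ≤ ‖nc (phi p) v g.1 g.2‖ ∧ 0 ≤ nWd (phi p) v vd g
  c1 : ∀ a, 0 < R.ch (a, 1)
  t1 : ∀ a, 0 < N.N (a, 1) ∧
    R.τ (a, 1) 0 * R.ch (a, 1) ≤ rn (nW (phi p) v (a, 1)) (mx (a, 1) + 1) ∧
    nW (phi p) v (a, 1) - ‖nc (phi p) v a 1‖ ≤ R.τ (a, 1) (N.N (a, 1)) * R.ch (a, 1)
  s1 : ∀ a, 0 < Qi (a, 1) ∧
    R.τ (a, 1) (Oi (a, 1)) * R.ch (a, 1) ≤ rn (nW (phi p) v (a, 1)) (mx (a, 1) + 1) ∧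
    nW (phi p) v (a, 1) - ‖nc (phi p) v a 1‖ ≤
      R.τ (a, 1) (Oi (a, 1) + Qi (a, 1)) * R.ch (a, 1)
  c3 : ∀ g : Sy, SyOk p g → g.2 % 2 = 1 → 3 ≤ g.2 → 0 < R.ch g ∧
    nW (phi p) v g + R.ch g ^ 2 - nW (phi p) v g * R.ch g ≤ 0
  t3 : ∀ g : Sy, SyOk p g → g.2 % 2 = 1 → 3 ≤ g.2 → 0 < N.N g ∧
    R.τ g 0 * R.ch g ≤ rn (nW (phi p) v g) (nx g + 1) ∧ 1 ≤ R.τ g (N.N g)
  s3 : ∀ g : Sy, SyOk p g → g.2 % 2 = 1 → 3 ≤ g.2 → 0 < Qi g ∧
    R.τ g (Oi g) * R.ch g ≤ rn (nW (phi p) v g) (nx g + 1) ∧ 1 ≤ R.τ g (Oi g + Qi g)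
  H3 : ∀ g : Sy, SyOk p g → g.2 % 2 = 1 → 3 ≤ g.2 → 0 ≤ R.H g ∧
    R.H g ≤ h1 (nW (phi p) v g) (nx g + 1)
  h0 : ∀ g : Sy, SyOk p g → g.2 % 2 = 1 → 3 ≤ g.2 → hz g = true → R.H g = 0
  rr : 1 / 3 ≤ R.rr
  bcov : N.gb = true → ∀ n, N.nB < n → ∃ i < N.NB, R.bc i n

/-- `ρ_n` increases for the runs of the stars -/
theorem rn_mono1 {M : ℕ} (hM : 3 ≤ M) {m n : ℕ} (hm : 1 ≤ m) (h : m ≤ n) (hn : 2 * n ≤ M) :
    rn (Kp M ^ 2) m ≤ rn (Kp M ^ 2) n := by
  have hK : 0 < Kp M ^ 2 := by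
    have e : Kp M = 2 * Real.cos (phi M) := rfl
    have := (kp_cos hM).1
    rw [e]
    positivity
  have step : ∀ n : ℕ, 2 * (n + 2) ≤ M → rn (Kp M ^ 2) (n + 1) ≤ rn (Kp M ^ 2) (n + 2) := by
    intro n
    induction n with
    | zero =>
      intro _
      show (0 : ℝ) ≤ Kp M ^ 2 / (Kp M ^ 2 - 0)
      rw [sub_zero]
      positivity
    | succ n ih =>
      intro h2
      have h3 := ih (by omega)
      obtain ⟨_, _, _, a2⟩ := st_NR3 M (n + 2) hM (by omega) (by omega)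
      obtain ⟨_, _, _, a3⟩ := st_NR3 M (n + 1) hM (by omega) (by omega)
      show Kp M ^ 2 / (Kp M ^ 2 - rn (Kp M ^ 2) (n + 1)) ≤
        Kp M ^ 2 / (Kp M ^ 2 - rn (Kp M ^ 2) (n + 2))
      exact div_le_div_of_nonneg_left hK.le (by linarith) (by linarith)
  induction n, h using Nat.le_induction with
  | base => exact le_rfl
  | succ n hmn ih =>
    obtain ⟨k, rfl⟩ : ∃ k, n = k + 1 := ⟨n - 1, by omega⟩
    exact (ih (by omega)).trans (step k (by omega))

/-- one exact run -/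
theorem NT_one (hNR1 : ST_NR1) {p : ℕ} {v vd : V3} (two : brJ 1 v v = 2)
    (tan : (brJ 1 vd v).re = 0) {g : Sy} (ho : g.2 % 2 = 1) {K1 K2 S S' : Mt} {n : ℕ}
    (hn : 1 ≤ n) (hU : ∀ i, 1 ≤ i → i ≤ n → 0 < Us ‖nc (phi p) v g.1 g.2‖ i)
    (hκ : 0 < ‖nc (phi p) v g.1 g.2‖)
    (H : NT K1 K2 (nX v vd (rM (phi p) v g (rn (nW (phi p) v g) n))
      (rD (phi p) v vd g (rn (nW (phi p) v g) n) (h1 (nW (phi p) v g) n)
        (h2 (nW (phi p) v g) n)) S S') (rM (phi p) v g (rn (nW (phi p) v g) n))) :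
    NT K1 K2 (nX v vd (nM (phi p) v g.1 g.2 (n - 1)) (nMd (phi p) v vd g.1 g.2 (n - 1)) S S')
      (nM (phi p) v g.1 g.2 (n - 1)) := by
  have hnc : nc (phi p) v g.1 g.2 ≠ 0 := by
    intro h0
    rw [h0, norm_zero] at hκ
    exact lt_irrefl _ hκ
  have en : n - 1 + 1 = n := by omega
  obtain ⟨e1, e2⟩ := hNR1 (phi p) v vd g.1 g.2 (n - 1) ho hnc two tan (by rw [en]; exact hU)
  rw [en] at e1 e2
  rw [e1, e2]
  have h3 := NT_smul (-(Us ‖nc (phi p) v g.1 g.2‖ n ^ 2 / nW (phi p) v g)) H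
  rw [← nX_smul] at h3
  exact h3

theorem IN_one (hNR1 : ST_NR1) {p : ℕ} {v vd : V3} (two : brJ 1 v v = 2)
    (tan : (brJ 1 vd v).re = 0) {g : Sy} (ho : g.2 % 2 = 1) {K1 Kt : Mt} {n : ℕ}
    (hn : 1 ≤ n) (hU : ∀ i, 1 ≤ i → i ≤ n → 0 < Us ‖nc (phi p) v g.1 g.2‖ i)
    (hκ : 0 < ‖nc (phi p) v g.1 g.2‖)
    (H : IN K1 Kt v (rM (phi p) v g (rn (nW (phi p) v g) n))) :
    IN K1 Kt v (nM (phi p) v g.1 g.2 (n - 1)) := by
  have hnc : nc (phi p) v g.1 g.2 ≠ 0 := by
    intro h0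
    rw [h0, norm_zero] at hκ
    exact lt_irrefl _ hκ
  have en : n - 1 + 1 = n := by omega
  obtain ⟨e1, _⟩ := hNR1 (phi p) v vd g.1 g.2 (n - 1) ho hnc two tan (by rw [en]; exact hU)
  rw [en] at e1
  rw [e1]
  exact IN_smul (-(Us ‖nc (phi p) v g.1 g.2‖ n ^ 2 / nW (phi p) v g)) H

section
variable {p q r : ℕ} {v vd : V3} {N : NPar} {R : RPar} {mx nx Qi Oi : Sy → ℕ} {hz : Sy → Bool}

/-- positivity for the stars -/
theorem PtG.U1 (F : PtG p q r v vd N R mx nx hz Qi Oi) (hq : 3 ≤ q) (hr : 3 ≤ r) {g : Sy} (hk : g.2 = 1)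
    {n : ℕ} (hn : 2 * n + 1 ≤ mqr q r g.1) :
    (∀ i, 1 ≤ i → i ≤ n → 0 < Us ‖nc (phi p) v g.1 g.2‖ i) ∧ 0 < ‖nc (phi p) v g.1 g.2‖ ∧
    ‖nc (phi p) v g.1 g.2‖ = Kp (mqr q r g.1) ∧ 3 ≤ mqr q r g.1 := by
  have hM : 3 ≤ mqr q r g.1 := by unfold mqr; split_ifs <;> assumption
  obtain ⟨k1, _⟩ := F.k1 g.1
  have hκM : ‖nc (phi p) v g.1 g.2‖ = Kp (mqr q r g.1) := by
    rw [hk]
    exact k1
  refine ⟨fun i hi1 hi2 => ?_, ?_, hκM, hM⟩
  · rw [hκM]
    exact (st_NR3 (mqr q r g.1) i hM hi1 (by omega)).1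
  · rw [hκM]
    have e : Kp (mqr q r g.1) = 2 * Real.cos (phi (mqr q r g.1)) := rfl
    rw [e]
    have := (kp_cos hM).1
    positivity

/-- positivity for the other reflections -/
theorem PtG.U3 (F : PtG p q r v vd N R mx nx hz Qi Oi) {g : Sy} (hg : SyOk p g) (ho : g.2 % 2 = 1)
    (hk3 : 3 ≤ g.2) : (∀ i, 1 ≤ i → 0 < Us ‖nc (phi p) v g.1 g.2‖ i) ∧
    0 < ‖nc (phi p) v g.1 g.2‖ ∧ 4 ≤ nW (phi p) v g := by
  obtain ⟨k1, _⟩ := F.k3 g hg ho hk3
  have hwκ : nW (phi p) v g = ‖nc (phi p) v g.1 g.2‖ ^ 2 := rfl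
  have hw4 : 4 ≤ nW (phi p) v g := by rw [hwκ]; nlinarith
  have hκs : Real.sqrt (nW (phi p) v g) = ‖nc (phi p) v g.1 g.2‖ := by
    rw [hwκ]
    exact Real.sqrt_sq (by linarith)
  refine ⟨fun i hi1 => ?_, by linarith, hw4⟩
  rw [← hκs]
  exact (st_NR2 _ i hw4 hi1).1

/-- the piece of a run of a star, `m` pieces from the break point `o` -/
theorem PtG.pc (F : PtG p q r v vd N R mx nx hz Qi Oi) (hq : 3 ≤ q) (hr : 3 ≤ r) {g : Sy}
    (hk : g.2 = 1) {n : ℕ} (hn : 2 * n + 1 ≤ mqr q r g.1) (hm : mx g + 1 ≤ n) {o m : ℕ}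
    (T : 0 < m ∧ R.τ g o * R.ch g ≤ rn (nW (phi p) v g) (mx g + 1) ∧
      nW (phi p) v g - ‖nc (phi p) v g.1 1‖ ≤ R.τ g (o + m) * R.ch g) : ∃ i < m, ∃ t : ℝ,
    R.τ g (o + i) ≤ t ∧ t ≤ R.τ g (o + i + 1) ∧ t * R.ch g = rn (nW (phi p) v g) n := by
  have hge : g = (g.1, 1) := by rw [← hk]
  obtain ⟨_, hκ0, hκM, hM⟩ := F.U1 hq hr hk hn
  have hwκ : nW (phi p) v g = ‖nc (phi p) v g.1 g.2‖ ^ 2 := rfl
  have a2 := rn_kap hM (show 1 ≤ n by omega) hn
  have a3 := rn_mono1 hM (show 1 ≤ mx g + 1 by omega) hm (by omega)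
  rw [← hκM, ← hwκ] at a2 a3
  obtain ⟨b1, b2, b3⟩ := T
  have b4 : ‖nc (phi p) v g.1 1‖ = ‖nc (phi p) v g.1 g.2‖ := by rw [hk]
  rw [b4] at b3
  have hc0 : 0 < R.ch g := by
    have h5 := F.c1 g.1
    rw [← hge] at h5
    exact h5
  have ht0 : R.τ g o ≤ rn (nW (phi p) v g) n / R.ch g := by
    rw [le_div_iff₀ hc0]
    exact b2.trans a3
  have ht1 : rn (nW (phi p) v g) n / R.ch g ≤ R.τ g (o + m) := by
    rw [div_le_iff₀ hc0]
    exact a2.trans b3
  obtain ⟨i, hi, t1, t2⟩ := pieceN (τ := fun i => R.τ g (o + i)) ht0 _ b1 ht1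
  exact ⟨i, hi, _, t1, t2, by field_simp⟩

/-- the piece of a long run, `m` pieces from the break point `o` -/
theorem PtG.tl (F : PtG p q r v vd N R mx nx hz Qi Oi) {g : Sy} (hg : SyOk p g)
    (ho : g.2 % 2 = 1) (hk3 : 3 ≤ g.2) {n : ℕ} (hn6 : nx g + 1 ≤ n) {o m : ℕ}
    (T : 0 < m ∧ R.τ g o * R.ch g ≤ rn (nW (phi p) v g) (nx g + 1) ∧ 1 ≤ R.τ g (o + m)) :
    ∃ i < m, ∃ t : ℝ,
    R.τ g (o + i) ≤ t ∧ t ≤ R.τ g (o + i + 1) ∧ t * R.ch g = rn (nW (phi p) v g) n := by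
  obtain ⟨_, hκ0, hw4⟩ := F.U3 hg ho hk3
  obtain ⟨_, _, r0, _, rP, r2, _, _, _⟩ := st_NR2 _ n hw4 (by omega)
  obtain ⟨m1, _⟩ := rn_mono hw4 (show 1 ≤ nx g + 1 by omega) hn6
  obtain ⟨c0, cq⟩ := F.c3 g hg ho hk3
  obtain ⟨N0, τ0, τ1⟩ := T
  have hle : rn (nW (phi p) v g) n ≤ R.ch g := by
    by_contra hc
    push Not at hc
    have : nW (phi p) v g + rn (nW (phi p) v g) n ^ 2 - nW (phi p) v g * rn (nW (phi p) v g) n ≤
        nW (phi p) v g + R.ch g ^ 2 - nW (phi p) v g * R.ch g := by nlinarith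
    linarith
  have ht0 : R.τ g o ≤ rn (nW (phi p) v g) n / R.ch g := by
    rw [le_div_iff₀ c0]
    exact τ0.trans m1
  have ht1 : rn (nW (phi p) v g) n / R.ch g ≤ R.τ g (o + m) := by
    refine le_trans ?_ τ1
    rw [div_le_one c0]
    exact hle
  obtain ⟨i, hi, t1, t2⟩ := pieceN (τ := fun i => R.τ g (o + i)) ht0 _ N0 ht1
  exact ⟨i, hi, _, t1, t2, by field_simp⟩

/-- runs of two reflections -/
theorem h_two {w : ℝ} (hw : 0 < w) : h1 w 2 = 0 ∧ h2 w 2 = 0 := by
  have e1 : h1 w 2 = -(1 / w) + 2 * (1 + 0) / (w - 0) - 1 / w := rfl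
  have e2 : h2 w 2 = (0 + w * 0) / (w - 0) ^ 2 := rfl
  rw [e1, e2]
  constructor
  · rw [sub_zero]
    ring
  · simp

/-- `h1` is not negative for `n ≥ 2` -/
theorem h1_nn {w : ℝ} (hw : 4 ≤ w) {n : ℕ} (hn : 2 ≤ n) : 0 ≤ h1 w n := by
  have := (rn_mono hw (show 1 ≤ 2 by norm_num) hn).2
  rwa [(h_two (by linarith)).1] at this

/-- the test of a long run from the two vertices and the recession direction -/
theorem NT_vert {p : ℕ} {v vd : V3} {g : Sy} {w : ℝ} (hwd : 0 ≤ nWd (phi p) v vd g) {R : RPar} (hrr : 1 / 3 ≤ R.rr) (H0 : 0 ≤ R.H g)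
    {n : ℕ} (hh : R.H g ≤ h1 w n) (h20 : 0 ≤ h2 w n) (h23 : 3 * h2 w n ≤ h1 w n)
    {K1 K2 S S' : Mt} {ρ : ℝ}
    (q0 : NT K1 K2 (nX v vd (rM (phi p) v g ρ) (rD (phi p) v vd g ρ (R.H g) 0) S S')
      (rM (phi p) v g ρ))
    (q1 : NT K1 K2 (nX v vd (rM (phi p) v g ρ) (rD (phi p) v vd g ρ (R.H g)
      (R.rr * R.H g)) S S') (rM (phi p) v g ρ))
    (q2 : NT K1 K2 (rM (phi p) v g ρ + ((R.rr : ℝ) : ℂ) • rMr (phi p) v g ρ)
      (rM (phi p) v g ρ)) :
    NT K1 K2 (nX v vd (rM (phi p) v g ρ) (rD (phi p) v vd g ρ (h1 w n) (h2 w n)) S S')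
      (rM (phi p) v g ρ) := by
  intro u hu y hy
  have lin : ∀ b1 b2 : ℝ, tv (nX v vd (rM (phi p) v g ρ)
      (rD (phi p) v vd g ρ b1 b2) S S') (rM (phi p) v g ρ) u y =
      tv (nX v vd (rM (phi p) v g ρ) (nRd (nWd (phi p) v vd g) ρ
        (ns (phi p) v g.1 g.2) (nsd (phi p) vd g.1 g.2) v vd) S S')
        (rM (phi p) v g ρ) u y + nWd (phi p) v vd g *
      (b1 * tv (rM (phi p) v g ρ) (rM (phi p) v g ρ) u y +
        b2 * tv (rMr (phi p) v g ρ) (rM (phi p) v g ρ) u y) := by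
    intro b1 b2
    unfold rD
    rw [nX_add, tv_add, tv_smul, tv_add, tv_smul, tv_smul]
  have g0 : 0 ≤ tv (nX v vd (rM (phi p) v g ρ)
      (rD (phi p) v vd g ρ (R.H g) 0) S S') (rM (phi p) v g ρ) u y := q0 u hu y hy
  have g1 : 0 ≤ tv (nX v vd (rM (phi p) v g ρ)
      (rD (phi p) v vd g ρ (R.H g) (R.rr * R.H g)) S S')
      (rM (phi p) v g ρ) u y := q1 u hu y hy
  have g2 : 0 ≤ tv (rM (phi p) v g ρ + ((R.rr : ℝ) : ℂ) • rMr (phi p) v g ρ)
      (rM (phi p) v g ρ) u y := q2 u hu y hy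
  show 0 ≤ tv _ _ u y
  rw [lin] at g0 g1 ⊢
  rw [tv_add, tv_smul] at g2
  have gs := tv_self (rM (phi p) v g ρ) u y
  set A := tv (nX v vd (rM (phi p) v g ρ) (nRd (nWd (phi p) v vd g) ρ
        (ns (phi p) v g.1 g.2) (nsd (phi p) vd g.1 g.2) v vd) S S')
        (rM (phi p) v g ρ) u y with hA
  set B := tv (rM (phi p) v g ρ) (rM (phi p) v g ρ) u y with hB
  set C := tv (rMr (phi p) v g ρ) (rM (phi p) v g ρ) u y with hC
  set D := nWd (phi p) v vd g with hD
  rcases le_or_gt (h1 w n) 0 with hh0 | hh0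
  · have e1 : h1 w n = 0 := by linarith
    have e2 : h2 w n = 0 := by linarith
    have e3 : R.H g = 0 := by linarith
    rw [e3] at g0
    rw [e1, e2]
    exact g0
  have hr0 : 0 < R.rr := by linarith
  have hb : h2 w n ≤ R.rr * h1 w n := by nlinarith
  have s0 : 0 ≤ A + D * (h1 w n * B) := by
    have : D * (R.H g * B + 0 * C) ≤ D * (h1 w n * B) := by
      refine mul_le_mul_of_nonneg_left ?_ hwd
      nlinarith
    linarith
  have s1 : 0 ≤ A + D * (h1 w n * (B + R.rr * C)) := by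
    have e : D * (R.H g * B + R.rr * R.H g * C) ≤ D * (h1 w n * (B + R.rr * C)) := by
      refine mul_le_mul_of_nonneg_left ?_ hwd
      nlinarith
    linarith
  have hden : 0 < R.rr * h1 w n := by positivity
  have t0' : 0 ≤ h2 w n / (R.rr * h1 w n) := by positivity
  have t1' : h2 w n / (R.rr * h1 w n) ≤ 1 := by rw [div_le_one hden]; exact hb
  have e : A + D * (h1 w n * B + h2 w n * C) =
      (1 - h2 w n / (R.rr * h1 w n)) * (A + D * (h1 w n * B)) +
      h2 w n / (R.rr * h1 w n) * (A + D * (h1 w n * (B + R.rr * C))) := by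
    field_simp
    ring
  rw [e]
  have := mul_nonneg (show 0 ≤ 1 - h2 w n / (R.rr * h1 w n) by linarith) s0
  have := mul_nonneg t0' s1
  linarith

/-- ALL BLOCKS OF A TYPE -/
theorem NT_allT (hNR1 : ST_NR1) (F : PtG p q r v vd N R mx nx hz Qi Oi) (hq : 3 ≤ q) (hr : 3 ≤ r) {g : Sy}
    (hg : SyOk p g) {K1 K2 S S' : Mt} {n : ℕ} (hn : 1 ≤ n)
    (H : ∀ P ∈ prtsT N (nx g) (hz g) (mx g) g (cls mx g n), sat R (phi p) v vd g P K1 K2 S S')
    (hev : g.2 % 2 = 0 → ¬ (N.gb = true ∧ g.2 = 2) → n = 1)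
    (hrun : g.2 = 1 → 2 * n + 1 ≤ mqr q r g.1) :
    NT K1 K2 (nX v vd (nM (phi p) v g.1 g.2 (n - 1)) (nMd (phi p) v vd g.1 g.2 (n - 1)) S S')
      (nM (phi p) v g.1 g.2 (n - 1)) := by
  have hcl : cls mx g n = min (n - 1) (mx g) := rfl
  by_cases he : g.2 % 2 = 0
  · by_cases hb : N.gb = true ∧ g.2 = 2
    · by_cases hm : mx g ≤ n - 1
      · have hcl' : cls mx g n = mx g := by rw [hcl]; omega
        rw [hcl'] at H
        by_cases hnB : n ≤ N.nB
        · exact H (Prt.bx n) (by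
            unfold prtsT
            rw [if_pos he, if_pos hb, if_pos le_rfl, List.mem_append, List.mem_map]
            refine Or.inl ⟨n - 1, List.mem_filter.2 ⟨List.mem_range.2 (by omega), by simpa using hm⟩,
              by
              have : n - 1 + 1 = n := by omega
              rw [this]⟩)
        · obtain ⟨i, hi, hb'⟩ := F.bcov hb.1 n (by omega)
          exact H (Prt.bt i) (by
            unfold prtsT
            rw [if_pos he, if_pos hb, if_pos le_rfl, List.mem_append, List.mem_map, List.mem_map]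
            exact Or.inr ⟨i, List.mem_range.2 hi, rfl⟩) n hb'
      · have hcl' : cls mx g n = n - 1 := by rw [hcl]; omega
        rw [hcl'] at H
        exact H (Prt.bx n) (by
          unfold prtsT
          rw [if_pos he, if_pos hb, if_neg hm]
          have : n - 1 + 1 = n := by omega
          rw [this]
          exact List.mem_singleton.2 rfl)
    · have hn1 := hev he hb
      subst hn1
      exact H Prt.rot (by unfold prtsT; rw [if_pos he, if_neg hb]; simp)
  have ho : g.2 % 2 = 1 := by omega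
  rcases Nat.eq_or_lt_of_le (show 1 ≤ g.2 by omega) with h1' | h1'
  · -- runs of the stars
    have hk : g.2 = 1 := h1'.symm
    have hge : g = (g.1, 1) := by rw [← hk]
    have hrn := hrun hk
    obtain ⟨hU, hκ0, hκM, hM⟩ := F.U1 hq hr hk hrn
    refine NT_one hNR1 F.two F.tan ho hn hU hκ0 ?_
    by_cases hm : mx g ≤ n - 1
    · have hcl' : cls mx g n = mx g := by rw [hcl]; omega
      rw [hcl'] at H
      have T1 := F.t1 g.1
      rw [← hge] at T1
      obtain ⟨i, hi, t, t1, t2, eρ⟩ := F.pc hq hr hk hrn (by omega) (o := 0) (m := N.N g)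
        ⟨T1.1, T1.2.1, by rw [Nat.zero_add]; exact T1.2.2⟩
      rw [Nat.zero_add] at t1 t2
      have hpc := H (Prt.pc i) (by
        unfold prtsT
        rw [if_neg he, if_pos le_rfl, if_pos hk, List.mem_map]
        exact ⟨i, List.mem_range.2 hi, rfl⟩) _ t1 t2
      rw [eρ] at hpc
      have hwd : nWd (phi p) v vd g = 0 := by rw [hge]; exact (F.k1 g.1).2
      have eD : rD (phi p) v vd g (rn (nW (phi p) v g) n) (h1 (nW (phi p) v g) n)
          (h2 (nW (phi p) v g) n) = rD (phi p) v vd g (rn (nW (phi p) v g) n) 0 0 := by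
        unfold rD
        rw [hwd]
        simp
      rw [eD]
      exact hpc
    · have hcl' : cls mx g n = n - 1 := by rw [hcl]; omega
      rw [hcl'] at H
      exact H (Prt.ex n) (by
        unfold prtsT
        rw [if_neg he, if_neg hm]
        have : n - 1 + 1 = n := by omega
        rw [this]
        exact List.mem_singleton.2 rfl)
  · -- the other reflections
    have hk3 : 3 ≤ g.2 := by omega
    obtain ⟨hU, hκ0, hw4⟩ := F.U3 hg ho hk3
    refine NT_one hNR1 F.two F.tan ho hn (fun i h1 _ => hU i h1) hκ0 ?_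
    have hne : g.2 ≠ 1 := by omega
    by_cases hm : mx g ≤ n - 1
    · have hcl' : cls mx g n = mx g := by rw [hcl]; omega
      rw [hcl'] at H
      have mem : ∀ P : Prt, P ∈ ((List.range (nx g)).filter (fun n => mx g ≤ n)).map
          (fun n => Prt.ex (n + 1)) ++ (List.range (N.N g)).map Prt.v0 ++
          (if hz g = true then [] else (List.range (N.N g)).map Prt.v1) ++
          (List.range (N.N g)).map Prt.rc →
          P ∈ prtsT N (nx g) (hz g) (mx g) g (mx g) := by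
        intro P hP
        unfold prtsT
        rw [if_neg he, if_pos le_rfl, if_neg hne]
        exact hP
      by_cases hn5 : n ≤ nx g
      · refine H (Prt.ex n) (mem _ ?_)
        simp only [List.mem_append, List.mem_map, List.mem_range, List.mem_filter]
        exact Or.inl (Or.inl (Or.inl ⟨n - 1, ⟨by omega, by simpa using hm⟩, by
          have : n - 1 + 1 = n := by omega
          rw [this]⟩))
      · have hn6 : nx g + 1 ≤ n := by omega
        have T3 := F.t3 g hg ho hk3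
        obtain ⟨i, hi, t, t1, t2, eρ⟩ := F.tl hg ho hk3 hn6 (o := 0) (m := N.N g)
          ⟨T3.1, T3.2.1, by rw [Nat.zero_add]; exact T3.2.2⟩
        rw [Nat.zero_add] at t1 t2
        have q0 := H (Prt.v0 i) (mem _ (by
          simp only [List.mem_append, List.mem_map, List.mem_range]
          exact Or.inl (Or.inl (Or.inr ⟨i, hi, rfl⟩)))) _ t1 t2
        have q1 : NT K1 K2 (nX v vd (rM (phi p) v g (t * R.ch g)) (rD (phi p) v vd g (t * R.ch g)
            (R.H g) (R.rr * R.H g)) S S') (rM (phi p) v g (t * R.ch g)) := by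
          cases hzg : hz g with
          | true =>
            have e := F.h0 g hg ho hk3 hzg
            have q0' : NT K1 K2 (nX v vd (rM (phi p) v g (t * R.ch g))
                (rD (phi p) v vd g (t * R.ch g) (R.H g) 0) S S')
                (rM (phi p) v g (t * R.ch g)) := q0
            rw [e] at q0'
            rw [e, mul_zero]
            exact q0'
          | false =>
            exact H (Prt.v1 i) (mem _ (by
              rw [hzg, if_neg Bool.false_ne_true]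
              simp only [List.mem_append, List.mem_map, List.mem_range]
              exact Or.inl (Or.inr ⟨i, hi, rfl⟩))) _ t1 t2
        have q2 := H (Prt.rc i) (mem _ (by
          simp only [List.mem_append, List.mem_map, List.mem_range]
          exact Or.inr ⟨i, hi, rfl⟩)) _ t1 t2
        rw [eρ] at q0 q1 q2
        obtain ⟨_, _, r0, _, rP, r2, a0, _, a3⟩ := st_NR2 _ n hw4 hn
        have a3 : 3 * h2 (nW (phi p) v g) n ≤ h1 (nW (phi p) v g) n := by
          have hx := F.n2 g hg ho hk3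
          rcases Nat.eq_or_lt_of_le (show 2 ≤ n by omega) with e | e
          · rw [← e, (h_two (by linarith)).1, (h_two (by linarith)).2, mul_zero]
          · exact a3 (by omega)
        obtain ⟨_, m2⟩ := rn_mono hw4 (show 1 ≤ nx g + 1 by omega) hn6
        obtain ⟨H0, H1⟩ := F.H3 g hg ho hk3
        exact NT_vert (F.k3 g hg ho hk3).2 F.rr H0 (H1.trans m2) a0 a3 q0 q1 q2
    · have hcl' : cls mx g n = n - 1 := by rw [hcl]; omega
      rw [hcl'] at H
      exact H (Prt.ex n) (by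
        unfold prtsT
        rw [if_neg he, if_neg hm]
        have : n - 1 + 1 = n := by omega
        rw [this]
        exact List.mem_singleton.2 rfl)

/-- ALL BLOCKS OF A TYPE, INVARIANCE -/
theorem IN_allT (hNR1 : ST_NR1) (F : PtG p q r v vd N R mx nx hz Qi Oi) (hq : 3 ≤ q) (hr : 3 ≤ r) {g : Sy}
    (hg : SyOk p g) {K1 Kt : Mt} {n : ℕ} (hn : 1 ≤ n)
    (H : ∀ P ∈ prtsU N (Qi g) (Oi g) (nx g) (mx g) g (cls mx g n), sati R (phi p) v g P K1 Kt)
    (hev : g.2 % 2 = 0 → ¬ (N.gb = true ∧ g.2 = 2) → n = 1)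
    (hrun : g.2 = 1 → 2 * n + 1 ≤ mqr q r g.1) :
    IN K1 Kt v (nM (phi p) v g.1 g.2 (n - 1)) := by
  have hcl : cls mx g n = min (n - 1) (mx g) := rfl
  by_cases he : g.2 % 2 = 0
  · by_cases hb : N.gb = true ∧ g.2 = 2
    · by_cases hm : mx g ≤ n - 1
      · have hcl' : cls mx g n = mx g := by rw [hcl]; omega
        rw [hcl'] at H
        by_cases hnB : n ≤ N.nB
        · exact H (Prt.bx n) (by
            unfold prtsU
            rw [if_pos he, if_pos hb, if_pos le_rfl, List.mem_append, List.mem_map]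
            refine Or.inl ⟨n - 1, List.mem_filter.2 ⟨List.mem_range.2 (by omega), by simpa using hm⟩,
              by
              have : n - 1 + 1 = n := by omega
              rw [this]⟩)
        · obtain ⟨i, hi, hb'⟩ := F.bcov hb.1 n (by omega)
          exact H (Prt.bt i) (by
            unfold prtsU
            rw [if_pos he, if_pos hb, if_pos le_rfl, List.mem_append, List.mem_map, List.mem_map]
            exact Or.inr ⟨i, List.mem_range.2 hi, rfl⟩) n hb'
      · have hcl' : cls mx g n = n - 1 := by rw [hcl]; omega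
        rw [hcl'] at H
        exact H (Prt.bx n) (by
          unfold prtsU
          rw [if_pos he, if_pos hb, if_neg hm]
          have : n - 1 + 1 = n := by omega
          rw [this]
          exact List.mem_singleton.2 rfl)
    · have hn1 := hev he hb
      subst hn1
      exact H Prt.rot (by unfold prtsU; rw [if_pos he, if_neg hb]; simp)
  have ho : g.2 % 2 = 1 := by omega
  rcases Nat.eq_or_lt_of_le (show 1 ≤ g.2 by omega) with h1' | h1'
  · -- runs of the stars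
    have hk : g.2 = 1 := h1'.symm
    have hrn := hrun hk
    obtain ⟨hU, hκ0, hκM, hM⟩ := F.U1 hq hr hk hrn
    refine IN_one hNR1 F.two F.tan ho hn hU hκ0 ?_
    by_cases hm : mx g ≤ n - 1
    · have hcl' : cls mx g n = mx g := by rw [hcl]; omega
      rw [hcl'] at H
      have hge : g = (g.1, 1) := by rw [← hk]
      have T1 := F.s1 g.1
      rw [← hge] at T1
      obtain ⟨i, hi, t, t1, t2, eρ⟩ := F.pc hq hr hk hrn (by omega) T1
      have hpc := H (Prt.pc (Oi g + i)) (by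
        unfold prtsU
        rw [if_neg he, if_pos le_rfl, if_pos hk, List.mem_map]
        exact ⟨i, List.mem_range.2 hi, rfl⟩) _ t1 t2
      rw [eρ] at hpc
      exact hpc
    · have hcl' : cls mx g n = n - 1 := by rw [hcl]; omega
      rw [hcl'] at H
      exact H (Prt.ex n) (by
        unfold prtsU
        rw [if_neg he, if_neg hm]
        have : n - 1 + 1 = n := by omega
        rw [this]
        exact List.mem_singleton.2 rfl)
  · -- the other reflections
    have hk3 : 3 ≤ g.2 := by omega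
    obtain ⟨hU, hκ0, hw4⟩ := F.U3 hg ho hk3
    refine IN_one hNR1 F.two F.tan ho hn (fun i h1 _ => hU i h1) hκ0 ?_
    have hne : g.2 ≠ 1 := by omega
    by_cases hm : mx g ≤ n - 1
    · have hcl' : cls mx g n = mx g := by rw [hcl]; omega
      rw [hcl'] at H
      have mem : ∀ P : Prt, P ∈ ((List.range (nx g)).filter (fun n => mx g ≤ n)).map
          (fun n => Prt.ex (n + 1)) ++ (List.range (Qi g)).map (fun i => Prt.v0 (Oi g + i)) →
          P ∈ prtsU N (Qi g) (Oi g) (nx g) (mx g) g (mx g) := by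
        intro P hP
        unfold prtsU
        rw [if_neg he, if_pos le_rfl, if_neg hne]
        exact hP
      by_cases hn5 : n ≤ nx g
      · refine H (Prt.ex n) (mem _ ?_)
        simp only [List.mem_append, List.mem_map, List.mem_range, List.mem_filter]
        exact Or.inl ⟨n - 1, ⟨by omega, by simpa using hm⟩, by
          have : n - 1 + 1 = n := by omega
          rw [this]⟩
      · have hn6 : nx g + 1 ≤ n := by omega
        obtain ⟨i, hi, t, t1, t2, eρ⟩ := F.tl hg ho hk3 hn6 (F.s3 g hg ho hk3)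
        have q0 := H (Prt.v0 (Oi g + i)) (mem _ (by
          simp only [List.mem_append, List.mem_map, List.mem_range]
          exact Or.inr ⟨i, hi, rfl⟩)) _ t1 t2
        rw [eρ] at q0
        exact q0
    · have hcl' : cls mx g n = n - 1 := by rw [hcl]; omega
      rw [hcl'] at H
      exact H (Prt.ex n) (by
        unfold prtsU
        rw [if_neg he, if_neg hm]
        have : n - 1 + 1 = n := by omega
        rw [this]
        exact List.mem_singleton.2 rfl)

end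

end Pool.Agent.Helper6.MONO.W2
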