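/-!
Plan W (MP_c75db0): data of the star frame certificate with run-length types and the cover test,
kernel side (no imports).

Codes. Syllable `(a, k)`: `2 k + a` (the admissible codes are `2 .. 2 p`, `p ≤ 15`). Type (syllable,
class `f` of the run length `n`, `f = min (n - 1) mx`): code of the syllable `+ 32 f`, `f ≤ 3`.
Parts: `8 i + kind`, kinds 0 `rot`, 1 `ex i`, 2 `pc i`, 3 `v0 i`, 4 `v1 i`, 5 `rc i`, 6 `bx i`,
7 `bt i`.
-/

set_option autoImplicit false
namespace Pool.Agent.Helper12.NKT

/-- a form: members (bit `c` for the type of code `c`), its spread (bit `128 c`), class of the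
gauge (255: members of any class, only for the parts `rc` and the invariance), included forms with
hints -/
structure Fm (ε : Type) where
  me : Nat
  sp : Nat
  cl : Nat
  inc : List (Nat × ε)

/-- a type: its form, class of the gauge, number of pieces `n + 256 m` (of the syllable, entry of
the class 0): the items use the break points `0 .. n`; the invariance items the same if `m = 0`,
else the break points `n + 1 .. n + 1 + m` -/
structure Le where
  F : Nat
  gc : Nat
  nP : Nat

/-- the items over a type (code `g`): part, pairs of forms with hints -/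
structure Lt (γ : Type) where
  g : Nat
  ps : List (Nat × List (Nat × Nat × γ))

/-- the invariance items over a type: part, forms with hints -/
structure Lt1 (δ : Type) where
  g : Nat
  ps : List (Nat × List (Nat × δ))

/-- data of a certificate; `mx`: largest class of a syllable, `nx`: number of exact runs of a
letter (default 5), plus 16 if there are no parts `v1` (the number `H` of the letter is 0), index =
code of the syllable -/
structure CovD (γ δ ε : Type) where
  p : Nat
  gb : Bool
  nB : Nat
  NB : Nat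
  mx : List Nat
  fm : List (Fm ε)
  le : List Le
  it : List (Lt γ)
  i1 : List (Lt1 δ)
  nx : List Nat

/-- inverse syllable -/
def siC (p c : Nat) : Nat :=
  if (c / 2) % 2 == 1 || c / 2 == p then c else if c % 2 == 0 then c + 1 else c - 1

/-- inverse type -/
def siT (p c : Nat) : Nat := siC p (c % 32) + 32 * (c / 32)

/-- the syllable is not followed by itself -/
def gpC (gb : Bool) (c : Nat) : Bool := (c / 2) % 2 == 1 || (gb && c / 2 == 2)

/-- bits moved from `n` to `128 n` -/
def spr (m : Nat) : Nat → Nat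
  | 0 => 0
  | n + 1 => spr m n + (if m.testBit n then 2 ^ (128 * n) else 0)

/-- the set of the numbers `< n` with `f` -/
def mkM (f : Nat → Bool) : Nat → Nat
  | 0 => 0
  | n + 1 => mkM f n + (if f n then 2 ^ n else 0)

/-- codes of the parts `i < n` of a kind -/
def rgC (k : Nat) : Nat → List Nat
  | 0 => []
  | n + 1 => (8 * n + k) :: rgC k n

/-- codes of the parts `m + 1 .. n` of a kind -/
def rgE (k m : Nat) : Nat → List Nat
  | 0 => []
  | n + 1 => if Nat.ble m n then (8 * (n + 1) + k) :: rgE k m n else []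

/-- codes of the parts `o ≤ i < o + n` of a kind -/
def rgO (k o : Nat) : Nat → List Nat
  | 0 => []
  | n + 1 => (8 * (o + n) + k) :: rgO k o n

/-- number of pieces (code of the syllable) -/
def nPc (le : List Le) (c : Nat) : Nat := Nat.mod (le.getD c ⟨0, 0, 0⟩).nP 256

/-- number of own pieces of the invariance -/
def nQe (le : List Le) (c : Nat) : Nat := Nat.div (le.getD c ⟨0, 0, 0⟩).nP 256

/-- number of pieces and first break point of the invariance -/
def nQc (le : List Le) (c : Nat) : Nat := if Nat.beq (nQe le c) 0 then nPc le c else nQe le c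
def oQc (le : List Le) (c : Nat) : Nat := if Nat.beq (nQe le c) 0 then 0 else nPc le c + 1

/-- largest class -/
def mxC (mx : List Nat) (c : Nat) : Nat := mx.getD c 0

/-- number of exact runs -/
def nxC (nx : List Nat) (c : Nat) : Nat := Nat.mod (nx.getD c 5) 16

/-- no parts `v1` -/
def hzC (nx : List Nat) (c : Nat) : Bool := Nat.ble 16 (nx.getD c 5)

/-- codes of the parts of a type; `m`: largest class, `c`: code of the syllable, `f`: class -/
def prC (gb : Bool) (nB NB nP nx : Nat) (hz : Bool) (m c f : Nat) : List Nat :=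
  if (c / 2) % 2 == 0 then
    (if gb && c / 2 == 2 then
      (if Nat.ble m f then rgE 6 m nB ++ rgC 7 NB else [8 * (f + 1) + 6]) else [0])
  else if Nat.ble m f then
    (if c / 2 == 1 then rgC 2 nP
    else rgE 1 m nx ++ rgC 3 nP ++ (if hz then [] else rgC 4 nP) ++ rgC 5 nP)
  else [8 * (f + 1) + 1]

/-- codes of the parts for the invariance -/
def prD (gb : Bool) (nB NB nQ oQ nx m c f : Nat) : List Nat :=
  if (c / 2) % 2 == 0 then
    (if gb && c / 2 == 2 then
      (if Nat.ble m f then rgE 6 m nB ++ rgC 7 NB else [8 * (f + 1) + 6]) else [0])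
  else if Nat.ble m f then
    (if c / 2 == 1 then rgO 2 oQ nQ
    else rgE 1 m nx ++ rgO 3 oQ nQ)
  else [8 * (f + 1) + 1]

/-- default form -/
def dfF {ε : Type} : Fm ε := ⟨0, 0, 0, []⟩

/-- a form without its members, if it belongs to no class -/
def fmSt {ε : Type} (f : Fm ε) : Fm ε := if Nat.beq f.cl 255 then ⟨0, 0, f.cl, f.inc⟩ else f
def fmStl {ε : Type} (fm : List (Fm ε)) : List (Fm ε) := fm.map fmSt

/-- rectangles of a list of pairs -/
def rcs {γ ε : Type} (fm : List (Fm ε)) : List (Nat × Nat × γ) → Nat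
  | [] => 0
  | e :: l => ((fm.getD e.1 dfF).sp * (fm.getD e.2.1 dfF).me) ||| rcs fm l

/-- rectangles of a list of pairs, exchanged -/
def rcr {γ ε : Type} (fm : List (Fm ε)) : List (Nat × Nat × γ) → Nat
  | [] => 0
  | e :: l => ((fm.getD e.2.1 dfF).sp * (fm.getD e.1 dfF).me) ||| rcr fm l

/-- rectangles of the part `P` -/
def rps {γ ε : Type} (fm : List (Fm ε)) (P : Nat) : List (Nat × List (Nat × Nat × γ)) → Nat
  | [] => 0
  | e :: l => if e.1 == P then rcs fm e.2 ||| rps fm P l else rps fm P l

def rpr {γ ε : Type} (fm : List (Fm ε)) (P : Nat) : List (Nat × List (Nat × Nat × γ)) → Nat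
  | [] => 0
  | e :: l => if e.1 == P then rcr fm e.2 ||| rpr fm P l else rpr fm P l

/-- rectangles of the part `P` of the type `c` -/
def rls {γ ε : Type} (p : Nat) (fm : List (Fm ε)) (c P : Nat) : List (Lt γ) → Nat
  | [] => 0
  | e :: l => (if e.g == c then rps fm P e.ps else 0) |||
      ((if e.g == siT p c then rpr fm P e.ps else 0) ||| rls p fm c P l)

/-- code of a type -/
def vt (p : Nat) (mx : List Nat) (t : Nat) : Bool :=
  Nat.ble 2 (t % 32) && Nat.ble (t % 32) (2 * p) && Nat.ble (t / 32) (mxC mx (t % 32))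

/-- types of the previous block of a block over the syllable `c` -/
def nd1 (p : Nat) (gb : Bool) (mx : List Nat) (c : Nat) : Nat :=
  mkM (fun s => vt p mx s && !(gpC gb c && s % 32 == c)) 128

/-- what is needed -/
def need (p : Nat) (gb : Bool) (mx : List Nat) (c : Nat) : Nat :=
  spr (nd1 p gb mx c) 128 * mkM (fun t => vt p mx t && !(gpC gb c && t % 32 == siC p c)) 128

/-- cover test for one type: syllable `c`, class `f` -/
def ck2c {γ δ ε : Type} (D : CovD γ δ ε) (nd c f : Nat) : Bool :=
  (prC D.gb D.nB D.NB (nPc D.le c) (nxC D.nx c) (hzC D.nx c) (mxC D.mx c) c f).all fun P =>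
    Nat.beq (Nat.land nd (rls D.p (if Nat.beq (P % 8) 5 then D.fm else fmStl D.fm) (c + 32 * f) P
      D.it)) nd

/-- members of a list of forms -/
def mcs {δ ε : Type} (fm : List (Fm ε)) : List (Nat × δ) → Nat
  | [] => 0
  | e :: l => (fm.getD e.1 dfF).me ||| mcs fm l

def mps {δ ε : Type} (fm : List (Fm ε)) (P : Nat) : List (Nat × List (Nat × δ)) → Nat
  | [] => 0
  | e :: l => if e.1 == P then mcs fm e.2 ||| mps fm P l else mps fm P l

def mls {δ ε : Type} (fm : List (Fm ε)) (c P : Nat) : List (Lt1 δ) → Nat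
  | [] => 0
  | e :: l => (if e.g == c then mps fm P e.ps else 0) ||| mls fm c P l

/-- cover test for the invariance over one type -/
def ck1c {γ δ ε : Type} (D : CovD γ δ ε) (nd c f : Nat) : Bool :=
  (prD D.gb D.nB D.NB (nQc D.le c) (oQc D.le c) (nxC D.nx c) (mxC D.mx c) c f).all fun P =>
    Nat.beq (Nat.land nd (mls D.fm (c + 32 * f) P D.i1)) nd

/-- the types `c < n` are members of the form `i` only if it contains their forms, or a form `< i`
with this member, and has their class or none -/
def mem1 {ε : Type} (le : List Le) (fm : List (Fm ε)) (i : Nat) (f : Fm ε) : Nat → Bool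
  | 0 => true
  | c + 1 => (if f.me.testBit c then
      ((Nat.beq f.cl 255 || Nat.beq (le.getD c ⟨0, 0, 0⟩).gc f.cl) &&
        (Nat.beq (le.getD c ⟨0, 0, 0⟩).F i ||
        f.inc.any fun e => Nat.beq e.1 (le.getD c ⟨0, 0, 0⟩).F ||
          (Nat.blt e.1 i && (fm.getD e.1 dfF).me.testBit c))) else true) && mem1 le fm i f c

/-- test of the forms -/
def ck3 {ε : Type} (le : List Le) (fm : List (Fm ε)) : Nat → List (Fm ε) → Bool
  | _, [] => true
  | i, f :: l => (Nat.blt f.me (2 ^ 128) && Nat.beq f.sp (spr f.me 128) && mem1 le fm i f 128) &&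
      ck3 le fm (i + 1) l

/-- all syllables `2 .. n + 1` -/
def allC (f : Nat → Bool) : Nat → Bool
  | 0 => true
  | n + 1 => f (n + 2) && allC f n

/-- all classes `0 .. n` -/
def allF (f : Nat → Bool) : Nat → Bool
  | 0 => f 0
  | n + 1 => f (n + 1) && allF f n

/-- the syllables have pieces -/
def posC (le : List Le) (c : Nat) : Bool := (c / 2) % 2 == 0 || Nat.blt 0 (nPc le c)

/-- conditions for the largest class and the number of exact runs -/
def mxOk {γ δ ε : Type} (D : CovD γ δ ε) (c : Nat) : Bool :=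
  Nat.ble (mxC D.mx c) 3 && Nat.beq (mxC D.mx (siC D.p c)) (mxC D.mx c) &&
    (gpC D.gb c || Nat.beq (mxC D.mx c) 0) && Nat.ble 1 (nxC D.nx c)

noncomputable section

/-! ### the same test in a form which is fast in the kernel (`helper56`)

The members of the forms, the forms and the classes of the types are packed in numbers (digits of
`128` and `16` bits), the bits of a number are enumerated from the top with `log2`. -/

/-- digits of `w` bits -/
def pkL {α : Type} (w : Nat) (g : α → Nat) (l : List α) : Nat :=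
  List.rec (motive := fun _ => Nat) (nat_lit 0)
    (fun a _ ih => Nat.add (g a) (Nat.shiftLeft ih w)) l

/-- the digit `i`; `k = 2 ^ w - 1` -/
def dgL (w k P i : Nat) : Nat := Nat.land (Nat.shiftRight P (Nat.mul w i)) k

/-- lazy -/
def an (a b : Bool) : Bool := Bool.rec (motive := fun _ => Bool) false b a
def orr (a b : Bool) : Bool := Bool.rec (motive := fun _ => Bool) b true a

def bsF (f : Nat → Bool) (ih : Nat → Bool) (m c : Nat) : Bool :=
  an (f c) (ih (Nat.sub m (Nat.shiftLeft (nat_lit 1) c)))
/-- all bits of `m` (at most `n` of them) have `f` -/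
def btF (f : Nat → Bool) (n : Nat) : Nat → Bool :=
  Nat.rec (motive := fun _ => Nat → Bool) (fun m => Nat.beq m (nat_lit 0))
    (fun _ ih m => Nat.rec (motive := fun _ => Bool) true
      (fun k _ => bsF f ih (Nat.succ k) (Nat.log2 (Nat.succ k))) m) n

def ssF (ih : Nat → Nat) (m c : Nat) : Nat :=
  Nat.add (Nat.shiftLeft (nat_lit 1) (Nat.mul (nat_lit 128) c))
    (ih (Nat.sub m (Nat.shiftLeft (nat_lit 1) c)))
/-- the spread of `m < 2 ^ n` -/
def spF (n : Nat) : Nat → Nat :=
  Nat.rec (motive := fun _ => Nat → Nat) (fun _ => nat_lit 0)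
    (fun _ ih m => Nat.rec (motive := fun _ => Nat) (nat_lit 0)
      (fun k _ => ssF ih (Nat.succ k) (Nat.log2 (Nat.succ k))) m) n

/-- members of the form `i` -/
def mF (PM i : Nat) : Nat :=
  dgL (nat_lit 128) (nat_lit 340282366920938463463374607431768211455) PM i
/-- form or class of the type `c` -/
def gF (P c : Nat) : Nat := dgL (nat_lit 16) (nat_lit 65535) P c

/-- members of the included forms `< i` -/
def uF {ε : Type} (PM i : Nat) (l : List (Nat × ε)) : Nat :=
  List.rec (motive := fun _ => Nat) (nat_lit 0)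
    (fun e _ ih => cond (Nat.ble (Nat.succ e.1) i) (Nat.lor (mF PM e.1) ih) ih) l
/-- the form `F` is included -/
def iF {ε : Type} (F : Nat) (l : List (Nat × ε)) : Bool :=
  List.rec (motive := fun _ => Bool) false (fun e _ ih => orr (Nat.beq e.1 F) ih) l

/-- members with the type's form `i` or an included form -/
def f1F {ε : Type} (PF i : Nat) (l : List (Nat × ε)) (c : Nat) : Bool :=
  orr (Nat.beq (gF PF c) i) (iF (gF PF c) l)
/-- `a` without the bits of `b` -/
def xF (a b : Nat) : Nat := Nat.xor a (Nat.land a b)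

/-- test of the form `i` -/
def fF {ε : Type} (PF PG PM i : Nat) (f : Fm ε) : Bool :=
  an (Nat.ble f.me (nat_lit 340282366920938463463374607431768211455))
    (an (Nat.beq f.sp (spF (nat_lit 128) f.me))
      (an (orr (Nat.beq f.cl (nat_lit 255))
          (btF (fun c => Nat.beq (gF PG c) f.cl) (nat_lit 128) f.me))
        (btF (f1F PF i f.inc) (nat_lit 128) (xF f.me (uF PM i f.inc)))))
/-- test of the forms `i`, `i + 1`, .. -/
def ck3F {ε : Type} (PF PG PM : Nat) (l : List (Fm ε)) : Nat → Bool :=
  List.rec (motive := fun _ => Nat → Bool) (fun _ => true)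
    (fun f _ ih i => an (fF PF PG PM i f) (ih (Nat.succ i))) l

/-- the digits of the types fit -/
def lcF (l : List Le) : Bool :=
  List.rec (motive := fun _ => Bool) true
    (fun e _ ih => an (Nat.ble e.F (nat_lit 65535)) (an (Nat.ble e.gc (nat_lit 65535)) ih)) l

/-- rectangle of the forms `i`, `j` -/
def rF (PM i j : Nat) : Nat := Nat.mul (spF (nat_lit 128) (mF PM i)) (mF PM j)
def rcsF {γ : Type} (PM : Nat) (l : List (Nat × Nat × γ)) : Nat :=
  List.rec (motive := fun _ => Nat) (nat_lit 0) (fun e _ ih => Nat.lor (rF PM e.1 e.2.1) ih) l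
def rcrF {γ : Type} (PM : Nat) (l : List (Nat × Nat × γ)) : Nat :=
  List.rec (motive := fun _ => Nat) (nat_lit 0) (fun e _ ih => Nat.lor (rF PM e.2.1 e.1) ih) l
/-- the entries with the code `P` of a list, `g` their number -/
def pF {α : Type} (g : α → Nat) (P : Nat) (l : List (Nat × α)) : Nat :=
  List.rec (motive := fun _ => Nat) (nat_lit 0)
    (fun e _ ih => cond (Nat.beq e.1 P) (Nat.lor (g e.2) ih) ih) l
/-- the parts of the first entry with the code `c` -/
def ndF {γ : Type} (c : Nat) (l : List (Lt γ)) : List (Nat × List (Nat × Nat × γ)) :=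
  List.rec (motive := fun _ => List (Nat × List (Nat × Nat × γ))) []
    (fun e _ ih => cond (Nat.beq e.g c) e.ps ih) l
def n1F {γ : Type} (c : Nat) (l : List (Lt1 γ)) : List (Nat × List (Nat × γ)) :=
  List.rec (motive := fun _ => List (Nat × List (Nat × γ))) []
    (fun e _ ih => cond (Nat.beq e.g c) e.ps ih) l
def mcF {δ : Type} (PM : Nat) (l : List (Nat × δ)) : Nat :=
  List.rec (motive := fun _ => Nat) (nat_lit 0) (fun e _ ih => Nat.lor (mF PM e.1) ih) l

/-- `b` contains `a` -/
def inF (a b : Nat) : Bool := Nat.beq (Nat.land a b) a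

def q2F {γ : Type} (PM PN nd : Nat) (a b : List (Nat × List (Nat × Nat × γ))) (P : Nat) : Bool :=
  inF nd (Nat.lor (pF (rcsF (cond (Nat.beq (Nat.mod P (nat_lit 8)) (nat_lit 5)) PM PN)) P a)
    (pF (rcrF (cond (Nat.beq (Nat.mod P (nat_lit 8)) (nat_lit 5)) PM PN)) P b))
/-- cover test for one type -/
def ck2F {γ δ ε : Type} (D : CovD γ δ ε) (PM PN nd c f : Nat) : Bool :=
  (prC D.gb D.nB D.NB (nPc D.le c) (nxC D.nx c) (hzC D.nx c) (mxC D.mx c) c f).all
    (q2F PM PN nd (ndF (c + 32 * f) D.it) (ndF (siT D.p (c + 32 * f)) D.it))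
def q1F {δ : Type} (PM nd : Nat) (a : List (Nat × List (Nat × δ))) (P : Nat) : Bool :=
  inF nd (pF (mcF PM) P a)
/-- cover test for the invariance over one type -/
def ck1F {γ δ ε : Type} (D : CovD γ δ ε) (PM nd c f : Nat) : Bool :=
  (prD D.gb D.nB D.NB (nQc D.le c) (oQc D.le c) (nxC D.nx c) (mxC D.mx c) c f).all
    (q1F PM nd (n1F (c + 32 * f) D.i1))

/-- the types `V` without those of the syllable `c`, if `g` -/
def vF (V : Nat) (g : Bool) (c : Nat) : Nat :=
  cond g (xF V (Nat.shiftLeft (nat_lit 79228162532711081671548469249) c)) V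
/-- what is needed -/
def nF (V : Nat) (g : Bool) (c c' : Nat) : Nat :=
  Nat.mul (spF (nat_lit 128) (vF V g c)) (vF V g c')

/-- one syllable -/
def ckcF {γ δ ε : Type} (D : CovD γ δ ε) (V PM PN c : Nat) : Bool :=
  mxOk D c && posC D.le c &&
    allF (ck1F D PM (vF V (gpC D.gb c) c) c) (mxC D.mx c) &&
    allF (ck2F D PM PN (nF V (gpC D.gb c) c (siC D.p c)) c) (mxC D.mx c)

/-- members of a form which belongs to a class -/
def mcl {ε : Type} (f : Fm ε) : Nat := cond (Nat.beq f.cl (nat_lit 255)) (nat_lit 0) f.me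

/-- THE COVER TEST -/
def ck {γ δ ε : Type} (D : CovD γ δ ε) : Bool :=
  Nat.ble 1 D.p && Nat.ble D.p 15 &&
    (lcF D.le && ck3F (pkL (nat_lit 16) Le.F D.le) (pkL (nat_lit 16) Le.gc D.le)
      (pkL (nat_lit 128) Fm.me D.fm) D.fm (nat_lit 0)) &&
    allC (ckcF D (mkM (vt D.p D.mx) 128) (pkL (nat_lit 128) Fm.me D.fm)
      (pkL (nat_lit 128) mcl D.fm)) (2 * D.p - 1)

end

end Pool.Agent.Helper12.NKT
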