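import Pool.Agent.Helper12.CW.GN2
import Pool.Agent.Helper12.CW.NKT

/-!
Plan W (MP_c75db0): run-length types: the cover test is sound.
-/

set_option autoImplicit false
noncomputable section
namespace Pool.Agent.Helper6.MONO.W2.TY

open Matrix Pool.Agent.Helper12.NKT

/-! ### bits -/

theorem spr_lt (m n : ℕ) {x : ℕ} (hx : x < 2 ^ 128) : spr m n * x < 2 ^ (128 * n) := by
  induction n with
  | zero => simp [spr]
  | succ n ih =>
    have e : 2 ^ (128 * (n + 1)) = 2 ^ (128 * n) * 2 ^ 128 := by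
      rw [← pow_add]
      congr 1
    have h0 : spr m (n + 1) = spr m n + (if m.testBit n then 2 ^ (128 * n) else 0) := rfl
    have h1 : (if m.testBit n then 2 ^ (128 * n) else 0) ≤ 2 ^ (128 * n) := by
      split_ifs
      · exact le_rfl
      · exact Nat.zero_le _
    have h3 : 0 < 2 ^ (128 * n) := by positivity
    rw [e, h0, add_mul]
    calc spr m n * x + (if m.testBit n then 2 ^ (128 * n) else 0) * x
        ≤ spr m n * x + 2 ^ (128 * n) * x := by
          have := Nat.mul_le_mul_right x h1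
          omega
      _ < 2 ^ (128 * n) * 1 + 2 ^ (128 * n) * x := by omega
      _ = 2 ^ (128 * n) * (1 + x) := by ring
      _ ≤ 2 ^ (128 * n) * 2 ^ 128 := Nat.mul_le_mul_left _ (by omega)

theorem spr_bit (m n : ℕ) {x : ℕ} (hx : x < 2 ^ 128) (s t : ℕ) (ht : t < 128) :
    (spr m n * x).testBit (128 * s + t) = (decide (s < n) && m.testBit s && x.testBit t) := by
  induction n with
  | zero => simp [spr]
  | succ n ih =>
    have h0 : spr m (n + 1) * x = 2 ^ (128 * n) * (if m.testBit n then x else 0) + spr m n * x := by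
      show (spr m n + (if m.testBit n then 2 ^ (128 * n) else 0)) * x = _
      split_ifs <;> ring
    rw [h0, Nat.testBit_two_pow_mul_add _ (spr_lt m n hx)]
    by_cases hs : s < n
    · rw [if_pos (by omega), ih]
      have : s < n + 1 := by omega
      simp [hs, this]
    · rw [if_neg (by omega)]
      by_cases hs2 : s = n
      · subst hs2
        have e : 128 * s + t - 128 * s = t := by omega
        rw [e]
        by_cases hb : m.testBit s
        · simp [hb]
        · simp [hb]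
      · have h4 : ¬ s < n + 1 := by omega
        have e : (if m.testBit n then x else 0).testBit (128 * s + t - 128 * n) = false := by
          apply Nat.testBit_lt_two_pow
          have h5 : (if m.testBit n then x else 0) ≤ x := by split_ifs <;> omega
          refine lt_of_le_of_lt h5 (lt_of_lt_of_le hx (Nat.pow_le_pow_right (by norm_num) ?_))
          omega
        rw [e]
        simp [h4]

theorem mkM_lt (f : ℕ → Bool) (n : ℕ) : mkM f n < 2 ^ n := by
  induction n with
  | zero => simp [mkM]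
  | succ n ih =>
    have h0 : mkM f (n + 1) = mkM f n + (if f n then 2 ^ n else 0) := rfl
    rw [h0, pow_succ]
    split_ifs <;> omega

theorem mkM_bit (f : ℕ → Bool) (n t : ℕ) : (mkM f n).testBit t = (decide (t < n) && f t) := by
  induction n with
  | zero => simp [mkM]
  | succ n ih =>
    have h0 : mkM f (n + 1) = 2 ^ n * (if f n then 1 else 0) + mkM f n := by
      show mkM f n + (if f n then 2 ^ n else 0) = _
      split_ifs <;> ring
    rw [h0, Nat.testBit_two_pow_mul_add _ (mkM_lt f n)]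
    by_cases ht : t < n
    · have : t < n + 1 := by omega
      rw [if_pos ht, ih]
      simp [ht, this]
    · rw [if_neg ht]
      by_cases ht2 : t = n
      · subst ht2
        by_cases hf : f t <;> simp [hf]
      · have h4 : ¬ t < n + 1 := by omega
        have e : (if f n then 1 else 0).testBit (t - n) = false := by
          have h6 : t - n ≠ 0 := by omega
          split_ifs
          · exact Nat.testBit_lt_two_pow (Nat.one_lt_two_pow h6)
          · simp
        rw [e]
        simp [h4]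

/-! ### codes -/

def sc (s : Sy) : ℕ := 2 * s.2 + s.1.toNat
def cs (c : ℕ) : Sy := (c % 2 == 1, c / 2)
/-- code of a type -/
def tc (t : Sy × ℕ) : ℕ := sc t.1 + 32 * t.2

theorem cs_sc (s : Sy) : cs (sc s) = s := by
  obtain ⟨a, k⟩ := s
  cases a <;> simp [cs, sc] <;> omega

theorem sc_cs (c : ℕ) : sc (cs c) = c := by
  rcases Nat.mod_two_eq_zero_or_one c with h | h
  · simp [cs, sc, h]
    omega
  · simp [cs, sc, h]
    omega

theorem sc_inj {s t : Sy} (h : sc s = sc t) : s = t := by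
  rw [← cs_sc s, ← cs_sc t, h]

theorem sc_b {p : ℕ} {s : Sy} (h : SyOk p s) : 2 ≤ sc s ∧ sc s ≤ 2 * p := by
  obtain ⟨a, k⟩ := s
  obtain ⟨h1, h2, h3⟩ := h
  have h1 : 1 ≤ k := h1
  have h2 : k ≤ p := h2
  have h3 : a = true → k < p := h3
  cases a
  · simp only [sc, Bool.toNat_false]
    omega
  · have := h3 rfl
    simp only [sc, Bool.toNat_true]
    omega

theorem sc_ok {p c : ℕ} (h1 : 2 ≤ c) (h2 : c ≤ 2 * p) : SyOk p (cs c) := by
  refine ⟨?_, ?_, ?_⟩
  · show 1 ≤ c / 2
    omega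
  · show c / 2 ≤ p
    omega
  · intro h
    have : c % 2 = 1 := by simpa [cs] using h
    show c / 2 < p
    omega

theorem sc_div (s : Sy) : sc s / 2 = s.2 := by
  obtain ⟨a, k⟩ := s
  cases a <;> simp [sc] <;> omega

theorem tc_mod {p : ℕ} (hp : p ≤ 15) {t : Sy × ℕ} (h : SyOk p t.1) :
    tc t % 32 = sc t.1 ∧ tc t / 32 = t.2 := by
  obtain ⟨h1, h2⟩ := sc_b h
  unfold tc
  omega

theorem siC_sc (p : ℕ) (s : Sy) : siC p (sc s) = sc (syi p s) := by
  obtain ⟨a, k⟩ := s
  unfold siC
  rw [sc_div]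
  by_cases h1 : k % 2 = 1 ∨ k = p
  · have e : syi p (a, k) = (a, k) := by
      unfold syi
      rw [if_pos h1]
    have e2 : ((k % 2 == 1 || k == p) : Bool) = true := by
      rcases h1 with h | h <;> simp [h]
    rw [e, if_pos e2]
  · push Not at h1
    have e : syi p (a, k) = (!a, k) := by
      unfold syi
      rw [if_neg (by tauto)]
    have e2 : ¬ ((k % 2 == 1 || k == p) : Bool) = true := by
      simp [h1.1, h1.2]
    rw [e, if_neg e2]
    cases a
    · have h3 : sc (false, k) % 2 = 0 := by simp [sc]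
      rw [if_pos (by simp [h3])]
      simp [sc]
    · have h3 : sc (true, k) % 2 = 1 := by
        simp only [sc, Bool.toNat_true]
        omega
      rw [if_neg (by simp [h3])]
      simp [sc]

theorem siT_tc {p : ℕ} (hp : p ≤ 15) {t : Sy × ℕ} (h : SyOk p t.1) :
    siT p (tc t) = tc (syi p t.1, t.2) := by
  obtain ⟨h1, h2⟩ := tc_mod hp h
  unfold siT
  rw [h1, h2, siC_sc]
  rfl

/-- the syllable is not followed by itself -/
def gp (gb : Bool) (s : Sy) : Prop := s.2 % 2 = 1 ∨ (gb = true ∧ s.2 = 2)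

theorem gpC_sc (gb : Bool) (s : Sy) : gpC gb (sc s) = true ↔ gp gb s := by
  unfold gpC gp
  rw [sc_div]
  simp

/-- part of a code -/
def Pd (c : ℕ) : Prt :=
  match c % 8 with
  | 0 => Prt.rot
  | 1 => Prt.ex (c / 8)
  | 2 => Prt.pc (c / 8)
  | 3 => Prt.v0 (c / 8)
  | 4 => Prt.v1 (c / 8)
  | 5 => Prt.rc (c / 8)
  | 6 => Prt.bx (c / 8)
  | _ => Prt.bt (c / 8)

/-- code of a part -/
def Pc : Prt → ℕ
  | Prt.rot => 0
  | Prt.ex i => 8 * i + 1
  | Prt.pc i => 8 * i + 2
  | Prt.v0 i => 8 * i + 3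
  | Prt.v1 i => 8 * i + 4
  | Prt.rc i => 8 * i + 5
  | Prt.bx i => 8 * i + 6
  | Prt.bt i => 8 * i + 7

theorem Pd_Pc (P : Prt) : Pd (Pc P) = P := by
  cases P with
  | rot => rfl
  | ex i =>
    have e1 : (8 * i + 1) % 8 = 1 := by omega
    have e2 : (8 * i + 1) / 8 = i := by omega
    simp [Pd, Pc, e1, e2]
  | pc i =>
    have e1 : (8 * i + 2) % 8 = 2 := by omega
    have e2 : (8 * i + 2) / 8 = i := by omega
    simp [Pd, Pc, e1, e2]
  | v0 i =>
    have e1 : (8 * i + 3) % 8 = 3 := by omega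
    have e2 : (8 * i + 3) / 8 = i := by omega
    simp [Pd, Pc, e1, e2]
  | v1 i =>
    have e1 : (8 * i + 4) % 8 = 4 := by omega
    have e2 : (8 * i + 4) / 8 = i := by omega
    simp [Pd, Pc, e1, e2]
  | rc i =>
    have e1 : (8 * i + 5) % 8 = 5 := by omega
    have e2 : (8 * i + 5) / 8 = i := by omega
    simp [Pd, Pc, e1, e2]
  | bx i =>
    have e1 : (8 * i + 6) % 8 = 6 := by omega
    have e2 : (8 * i + 6) / 8 = i := by omega
    simp [Pd, Pc, e1, e2]
  | bt i =>
    have e1 : (8 * i + 7) % 8 = 7 := by omega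
    have e2 : (8 * i + 7) / 8 = i := by omega
    simp [Pd, Pc, e1, e2]

theorem mem_rgC (k n i : ℕ) (h : i < n) : 8 * i + k ∈ rgC k n := by
  induction n with
  | zero => omega
  | succ n ih =>
    rcases Nat.lt_succ_iff_lt_or_eq.1 h with h | h
    · exact List.mem_cons_of_mem _ (ih h)
    · subst h
      exact List.mem_cons_self

theorem mem_rgO (k o n i : ℕ) (h : i < n) : 8 * (o + i) + k ∈ rgO k o n := by
  induction n with
  | zero => omega
  | succ n ih =>
    rcases Nat.lt_succ_iff_lt_or_eq.1 h with h | h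
    · exact List.mem_cons_of_mem _ (ih h)
    · subst h
      exact List.mem_cons_self

theorem mem_rgE (k m n i : ℕ) (h : i < n) (hm : m ≤ i) : 8 * (i + 1) + k ∈ rgE k m n := by
  induction n with
  | zero => omega
  | succ n ih =>
    have hb : Nat.ble m n = true := Nat.ble_eq_true_of_le (by omega)
    unfold rgE
    rw [if_pos hb]
    rcases Nat.lt_succ_iff_lt_or_eq.1 h with h | h
    · exact List.mem_cons_of_mem _ (ih h)
    · subst h
      exact List.mem_cons_self

/-! ### parts of the data -/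

/-- numbers of pieces -/
def cpar {γ δ ε : Type} (D : CovD γ δ ε) : NPar := ⟨fun g => nPc D.le (sc g), D.gb, D.nB, D.NB⟩
/-- largest classes -/
def cmx {γ δ ε : Type} (D : CovD γ δ ε) (g : Sy) : ℕ := mxC D.mx (sc g)

/-- numbers of exact runs -/
def cnx {γ δ ε : Type} (D : CovD γ δ ε) (g : Sy) : ℕ := nxC D.nx (sc g)
/-- number of pieces and first break point of the invariance -/
def cqi {γ δ ε : Type} (D : CovD γ δ ε) (g : Sy) : ℕ := nQc D.le (sc g)
def coi {γ δ ε : Type} (D : CovD γ δ ε) (g : Sy) : ℕ := oQc D.le (sc g)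
/-- no parts `v1` -/
def chz {γ δ ε : Type} (D : CovD γ δ ε) (g : Sy) : Bool := hzC D.nx (sc g)

theorem ble_iff (m f : ℕ) : Nat.ble m f = true ↔ m ≤ f :=
  ⟨Nat.le_of_ble_eq_true, Nat.ble_eq_true_of_le⟩

theorem mem_prC {γ δ ε : Type} {D : CovD γ δ ε} {g : Sy} {nx m f : ℕ} {hz : Bool} {P : Prt}
    (h : P ∈ prtsT (cpar D) nx hz m g f) :
    Pc P ∈ prC D.gb D.nB D.NB (nPc D.le (sc g)) nx hz m (sc g) f := by
  unfold prC
  rw [sc_div]
  unfold prtsT at h
  by_cases he : g.2 % 2 = 0
  · rw [if_pos he] at h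
    rw [if_pos (by simp [he])]
    by_cases hb : D.gb = true ∧ g.2 = 2
    · have hb' : (cpar D).gb = true ∧ g.2 = 2 := hb
      rw [if_pos hb'] at h
      rw [if_pos (by simp [hb.1, hb.2])]
      by_cases hm : m ≤ f
      · rw [if_pos hm, List.mem_append, List.mem_map, List.mem_map] at h
        rw [if_pos ((ble_iff m f).2 hm), List.mem_append]
        rcases h with ⟨n, hn, rfl⟩ | ⟨n, hn, rfl⟩
        · obtain ⟨h1, h2⟩ := List.mem_filter.1 hn
          exact Or.inl (mem_rgE 6 _ _ n (List.mem_range.1 h1) (by simpa using h2))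
        · exact Or.inr (mem_rgC 7 _ n (List.mem_range.1 hn))
      · rw [if_neg hm, List.mem_singleton] at h
        rw [if_neg (by rw [ble_iff]; exact hm), h]
        exact List.mem_singleton.2 rfl
    · have hb' : ¬ ((cpar D).gb = true ∧ g.2 = 2) := hb
      rw [if_neg hb'] at h
      rw [if_neg (by
        intro hc
        apply hb
        simpa using hc)]
      rw [List.mem_singleton] at h
      subst h
      exact List.mem_singleton.2 rfl
  · rw [if_neg he] at h
    rw [if_neg (by simp [he])]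
    by_cases hm : m ≤ f
    · rw [if_pos hm] at h
      rw [if_pos ((ble_iff m f).2 hm)]
      by_cases hk : g.2 = 1
      · rw [if_pos hk, List.mem_map] at h
        rw [if_pos (by simp [hk])]
        obtain ⟨n, hn, rfl⟩ := h
        exact mem_rgC 2 _ n (List.mem_range.1 hn)
      · rw [if_neg hk] at h
        rw [if_neg (by simp [hk])]
        rw [List.mem_append, List.mem_append, List.mem_append] at h ⊢
        rcases h with ((h | h) | h) | h
        · obtain ⟨n, hn, rfl⟩ := List.mem_map.1 h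
          obtain ⟨h1, h2⟩ := List.mem_filter.1 hn
          exact Or.inl (Or.inl (Or.inl (mem_rgE 1 _ _ n (List.mem_range.1 h1)
            (by simpa using h2))))
        · obtain ⟨n, hn, rfl⟩ := List.mem_map.1 h
          exact Or.inl (Or.inl (Or.inr (mem_rgC 3 _ n (List.mem_range.1 hn))))
        · refine Or.inl (Or.inr ?_)
          cases hz with
          | true =>
            rw [if_pos rfl] at h
            exact absurd h (by simp)
          | false =>
            rw [if_neg Bool.false_ne_true] at h ⊢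
            obtain ⟨n, hn, rfl⟩ := List.mem_map.1 h
            exact mem_rgC 4 _ n (List.mem_range.1 hn)
        · obtain ⟨n, hn, rfl⟩ := List.mem_map.1 h
          exact Or.inr (mem_rgC 5 _ n (List.mem_range.1 hn))
    · rw [if_neg hm, List.mem_singleton] at h
      rw [if_neg (by rw [ble_iff]; exact hm), h]
      exact List.mem_singleton.2 rfl

theorem mem_prD {γ δ ε : Type} {D : CovD γ δ ε} {g : Sy} {nQ oQ nx m f : ℕ} {P : Prt}
    (h : P ∈ prtsU (cpar D) nQ oQ nx m g f) :
    Pc P ∈ prD D.gb D.nB D.NB nQ oQ nx m (sc g) f := by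
  unfold prD
  rw [sc_div]
  unfold prtsU at h
  by_cases he : g.2 % 2 = 0
  · rw [if_pos he] at h
    rw [if_pos (by simp [he])]
    by_cases hb : D.gb = true ∧ g.2 = 2
    · have hb' : (cpar D).gb = true ∧ g.2 = 2 := hb
      rw [if_pos hb'] at h
      rw [if_pos (by simp [hb.1, hb.2])]
      by_cases hm : m ≤ f
      · rw [if_pos hm, List.mem_append, List.mem_map, List.mem_map] at h
        rw [if_pos ((ble_iff m f).2 hm), List.mem_append]
        rcases h with ⟨n, hn, rfl⟩ | ⟨n, hn, rfl⟩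
        · obtain ⟨h1, h2⟩ := List.mem_filter.1 hn
          exact Or.inl (mem_rgE 6 _ _ n (List.mem_range.1 h1) (by simpa using h2))
        · exact Or.inr (mem_rgC 7 _ n (List.mem_range.1 hn))
      · rw [if_neg hm, List.mem_singleton] at h
        rw [if_neg (by rw [ble_iff]; exact hm), h]
        exact List.mem_singleton.2 rfl
    · have hb' : ¬ ((cpar D).gb = true ∧ g.2 = 2) := hb
      rw [if_neg hb'] at h
      rw [if_neg (by
        intro hc
        apply hb
        simpa using hc)]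
      rw [List.mem_singleton] at h
      subst h
      exact List.mem_singleton.2 rfl
  · rw [if_neg he] at h
    rw [if_neg (by simp [he])]
    by_cases hm : m ≤ f
    · rw [if_pos hm] at h
      rw [if_pos ((ble_iff m f).2 hm)]
      by_cases hk : g.2 = 1
      · rw [if_pos hk, List.mem_map] at h
        rw [if_pos (by simp [hk])]
        obtain ⟨n, hn, rfl⟩ := h
        exact mem_rgO 2 _ _ n (List.mem_range.1 hn)
      · rw [if_neg hk] at h
        rw [if_neg (by simp [hk])]
        simp only [List.mem_append, List.mem_map] at h ⊢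
        rcases h with ⟨n, hn, rfl⟩ | ⟨n, hn, rfl⟩
        · obtain ⟨h1, h2⟩ := List.mem_filter.1 hn
          exact Or.inl (mem_rgE 1 _ _ n (List.mem_range.1 h1) (by simpa using h2))
        · exact Or.inr (mem_rgO 3 _ _ n (List.mem_range.1 hn))
    · rw [if_neg hm, List.mem_singleton] at h
      rw [if_neg (by rw [ble_iff]; exact hm), h]
      exact List.mem_singleton.2 rfl

/-! ### forms -/

/-- facts of a form -/
def FmOk {ε : Type} (le : List Le) (fm : List (Fm ε)) (i : ℕ) (f : Fm ε) : Prop :=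
  f.me < 2 ^ 128 ∧ f.sp = spr f.me 128 ∧ ∀ c < 128, f.me.testBit c = true →
    (f.cl = 255 ∨ (le.getD c ⟨0, 0, 0⟩).gc = f.cl) ∧
    ((le.getD c ⟨0, 0, 0⟩).F = i ∨ ∃ e ∈ f.inc, e.1 = (le.getD c ⟨0, 0, 0⟩).F ∨
      (e.1 < i ∧ (fm.getD e.1 dfF).me.testBit c = true))

theorem mem1_sound {ε : Type} {le : List Le} {fm : List (Fm ε)} {i : ℕ} {f : Fm ε} {n : ℕ}
    (h : mem1 le fm i f n = true) : ∀ c < n, f.me.testBit c = true →
    (f.cl = 255 ∨ (le.getD c ⟨0, 0, 0⟩).gc = f.cl) ∧
    ((le.getD c ⟨0, 0, 0⟩).F = i ∨ ∃ e ∈ f.inc, e.1 = (le.getD c ⟨0, 0, 0⟩).F ∨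
      (e.1 < i ∧ (fm.getD e.1 dfF).me.testBit c = true)) := by
  induction n with
  | zero => intro c hc; omega
  | succ n ih =>
    intro c hc hb
    unfold mem1 at h
    rw [Bool.and_eq_true] at h
    rcases Nat.lt_succ_iff_lt_or_eq.1 hc with hc | hc
    · exact ih h.2 c hc hb
    · subst hc
      have h1 := h.1
      rw [if_pos hb, Bool.and_eq_true, Bool.or_eq_true, Bool.or_eq_true, List.any_eq_true] at h1
      refine ⟨h1.1.imp Nat.eq_of_beq_eq_true Nat.eq_of_beq_eq_true, ?_⟩
      rcases h1.2 with h2 | ⟨e, he, h2⟩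
      · exact Or.inl (Nat.eq_of_beq_eq_true h2)
      · rw [Bool.or_eq_true, Bool.and_eq_true] at h2
        refine Or.inr ⟨e, he, h2.imp Nat.eq_of_beq_eq_true fun h3 => ⟨?_, h3.2⟩⟩
        have := h3.1
        simpa [Nat.blt] using this

theorem ck3_sound {ε : Type} {le : List Le} {fm : List (Fm ε)} :
    ∀ (l : List (Fm ε)) (i : ℕ), ck3 le fm i l = true →
    ∀ j, FmOk le fm (i + j) (l.getD j dfF) := by
  have h0 : ∀ i, FmOk le fm i dfF := by
    intro i
    refine ⟨by simp [dfF], ?_, ?_⟩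
    · have : ∀ n, spr 0 n = 0 := by
        intro n
        induction n with
        | zero => rfl
        | succ n ih => simp [spr, ih]
      show (0 : ℕ) = spr 0 128
      rw [this]
    · intro c _ hc
      simp [dfF] at hc
  intro l
  induction l with
  | nil => intro i _ j; exact h0 _
  | cons f l ih =>
    intro i h j
    unfold ck3 at h
    rw [Bool.and_eq_true, Bool.and_eq_true, Bool.and_eq_true] at h
    cases j with
    | zero =>
      refine ⟨?_, Nat.eq_of_beq_eq_true h.1.1.2, mem1_sound h.1.2⟩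
      have := h.1.1.1
      simpa [Nat.blt] using this
    | succ j =>
      have := ih (i + 1) h.2 j
      have e : i + 1 + j = i + (j + 1) := by omega
      rw [e] at this
      simpa using this

theorem allC_sound {f : ℕ → Bool} : ∀ {n : ℕ}, allC f n = true → ∀ c, 2 ≤ c → c < n + 2 →
    f c = true := by
  intro n
  induction n with
  | zero => intro _ c _ _; omega
  | succ n ih =>
    intro h c h1 h2
    unfold allC at h
    rw [Bool.and_eq_true] at h
    by_cases hc : c = n + 2
    · rw [hc]; exact h.1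
    · exact ih h.2 c h1 (by omega)

theorem allF_sound {f : ℕ → Bool} : ∀ {n : ℕ}, allF f n = true → ∀ c, c ≤ n → f c = true := by
  intro n
  induction n with
  | zero =>
    intro h c hc
    have e : c = 0 := by omega
    rw [e]
    exact h
  | succ n ih =>
    intro h c h1
    unfold allF at h
    rw [Bool.and_eq_true] at h
    by_cases hc : c = n + 1
    · rw [hc]; exact h.1
    · exact ih h.2 c (by omega)

/-! ### cover -/

theorem rcs_bit {γ ε : Type} {fm : List (Fm ε)} {j : ℕ} : ∀ {l : List (ℕ × ℕ × γ)},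
    (rcs fm l).testBit j = true → ∃ e ∈ l,
      ((fm.getD e.1 dfF).sp * (fm.getD e.2.1 dfF).me).testBit j = true := by
  intro l
  induction l with
  | nil => intro h; simp [rcs] at h
  | cons e l ih =>
    intro h
    have h' : (((fm.getD e.1 dfF).sp * (fm.getD e.2.1 dfF).me) ||| rcs fm l).testBit j = true := h
    rw [Nat.testBit_or, Bool.or_eq_true] at h'
    rcases h' with h' | h'
    · exact ⟨e, by simp, h'⟩
    · obtain ⟨e', he', h2⟩ := ih h'
      exact ⟨e', by simp [he'], h2⟩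

theorem rcr_bit {γ ε : Type} {fm : List (Fm ε)} {j : ℕ} : ∀ {l : List (ℕ × ℕ × γ)},
    (rcr fm l).testBit j = true → ∃ e ∈ l,
      ((fm.getD e.2.1 dfF).sp * (fm.getD e.1 dfF).me).testBit j = true := by
  intro l
  induction l with
  | nil => intro h; simp [rcr] at h
  | cons e l ih =>
    intro h
    have h' : (((fm.getD e.2.1 dfF).sp * (fm.getD e.1 dfF).me) ||| rcr fm l).testBit j = true := h
    rw [Nat.testBit_or, Bool.or_eq_true] at h'
    rcases h' with h' | h'
    · exact ⟨e, by simp, h'⟩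
    · obtain ⟨e', he', h2⟩ := ih h'
      exact ⟨e', by simp [he'], h2⟩

theorem rps_bit {γ ε : Type} {fm : List (Fm ε)} {P j : ℕ} :
    ∀ {l : List (ℕ × List (ℕ × ℕ × γ))}, (rps fm P l).testBit j = true →
      ∃ Q ∈ l, Q.1 = P ∧ ∃ e ∈ Q.2,
        ((fm.getD e.1 dfF).sp * (fm.getD e.2.1 dfF).me).testBit j = true := by
  intro l
  induction l with
  | nil => intro h; simp [rps] at h
  | cons e l ih =>
    intro h
    unfold rps at h
    split_ifs at h with hc
    · rw [Nat.testBit_or, Bool.or_eq_true] at h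
      rcases h with h | h
      · exact ⟨e, by simp, by simpa using hc, rcs_bit h⟩
      · obtain ⟨Q, h1, h2⟩ := ih h
        exact ⟨Q, by simp [h1], h2⟩
    · obtain ⟨Q, h1, h2⟩ := ih h
      exact ⟨Q, by simp [h1], h2⟩

theorem rpr_bit {γ ε : Type} {fm : List (Fm ε)} {P j : ℕ} :
    ∀ {l : List (ℕ × List (ℕ × ℕ × γ))}, (rpr fm P l).testBit j = true →
      ∃ Q ∈ l, Q.1 = P ∧ ∃ e ∈ Q.2,
        ((fm.getD e.2.1 dfF).sp * (fm.getD e.1 dfF).me).testBit j = true := by
  intro l
  induction l with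
  | nil => intro h; simp [rpr] at h
  | cons e l ih =>
    intro h
    unfold rpr at h
    split_ifs at h with hc
    · rw [Nat.testBit_or, Bool.or_eq_true] at h
      rcases h with h | h
      · exact ⟨e, by simp, by simpa using hc, rcr_bit h⟩
      · obtain ⟨Q, h1, h2⟩ := ih h
        exact ⟨Q, by simp [h1], h2⟩
    · obtain ⟨Q, h1, h2⟩ := ih h
      exact ⟨Q, by simp [h1], h2⟩

theorem rls_bit {γ ε : Type} {p : ℕ} {fm : List (Fm ε)} {c P j : ℕ} :
    ∀ {l : List (Lt γ)}, (rls p fm c P l).testBit j = true →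
      ∃ L ∈ l, ∃ Q ∈ L.ps, Q.1 = P ∧ ∃ e ∈ Q.2,
        (L.g = c ∧ ((fm.getD e.1 dfF).sp * (fm.getD e.2.1 dfF).me).testBit j = true) ∨
        (L.g = siT p c ∧
          ((fm.getD e.2.1 dfF).sp * (fm.getD e.1 dfF).me).testBit j = true) := by
  intro l
  induction l with
  | nil => intro h; simp [rls] at h
  | cons L l ih =>
    intro h
    unfold rls at h
    rw [Nat.testBit_or, Nat.testBit_or, Bool.or_eq_true, Bool.or_eq_true] at h
    rcases h with h | h | h
    · split_ifs at h with hc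
      · obtain ⟨Q, h1, h2, e, h3, h4⟩ := rps_bit h
        exact ⟨L, by simp, Q, h1, h2, e, h3, Or.inl ⟨by simpa using hc, h4⟩⟩
      · simp at h
    · split_ifs at h with hc
      · obtain ⟨Q, h1, h2, e, h3, h4⟩ := rpr_bit h
        exact ⟨L, by simp, Q, h1, h2, e, h3, Or.inr ⟨by simpa using hc, h4⟩⟩
      · simp at h
    · obtain ⟨L', h1, h2⟩ := ih h
      exact ⟨L', by simp [h1], h2⟩

theorem mcs_bit {δ ε : Type} {fm : List (Fm ε)} {j : ℕ} : ∀ {l : List (ℕ × δ)},
    (mcs fm l).testBit j = true → ∃ e ∈ l, (fm.getD e.1 dfF).me.testBit j = true := by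
  intro l
  induction l with
  | nil => intro h; simp [mcs] at h
  | cons e l ih =>
    intro h
    have h' : ((fm.getD e.1 dfF).me ||| mcs fm l).testBit j = true := h
    rw [Nat.testBit_or, Bool.or_eq_true] at h'
    rcases h' with h' | h'
    · exact ⟨e, by simp, h'⟩
    · obtain ⟨e', he', h2⟩ := ih h'
      exact ⟨e', by simp [he'], h2⟩

theorem mps_bit {δ ε : Type} {fm : List (Fm ε)} {P j : ℕ} :
    ∀ {l : List (ℕ × List (ℕ × δ))}, (mps fm P l).testBit j = true →
      ∃ Q ∈ l, Q.1 = P ∧ ∃ e ∈ Q.2, (fm.getD e.1 dfF).me.testBit j = true := by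
  intro l
  induction l with
  | nil => intro h; simp [mps] at h
  | cons e l ih =>
    intro h
    unfold mps at h
    split_ifs at h with hc
    · rw [Nat.testBit_or, Bool.or_eq_true] at h
      rcases h with h | h
      · exact ⟨e, by simp, by simpa using hc, mcs_bit h⟩
      · obtain ⟨Q, h1, h2⟩ := ih h
        exact ⟨Q, by simp [h1], h2⟩
    · obtain ⟨Q, h1, h2⟩ := ih h
      exact ⟨Q, by simp [h1], h2⟩

theorem mls_bit {δ ε : Type} {fm : List (Fm ε)} {c P j : ℕ} :
    ∀ {l : List (Lt1 δ)}, (mls fm c P l).testBit j = true →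
      ∃ L ∈ l, L.g = c ∧ ∃ Q ∈ L.ps, Q.1 = P ∧ ∃ e ∈ Q.2,
        (fm.getD e.1 dfF).me.testBit j = true := by
  intro l
  induction l with
  | nil => intro h; simp [mls] at h
  | cons L l ih =>
    intro h
    unfold mls at h
    rw [Nat.testBit_or, Bool.or_eq_true] at h
    rcases h with h | h
    · split_ifs at h with hc
      · exact ⟨L, by simp, by simpa using hc, mps_bit h⟩
      · simp at h
    · obtain ⟨L', h1, h2⟩ := ih h
      exact ⟨L', by simp [h1], h2⟩

theorem fmStl_get {ε : Type} (fm : List (Fm ε)) (i : ℕ) :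
    (fmStl fm).getD i dfF = fmSt (fm.getD i dfF) := by
  unfold fmStl
  induction fm generalizing i with
  | nil => rfl
  | cons f l ih =>
    cases i with
    | zero => rfl
    | succ i => simpa using ih i

theorem fmSt_bit {ε : Type} {f g : Fm ε} {j : ℕ}
    (h : ((fmSt f).sp * (fmSt g).me).testBit j = true) :
    f.cl ≠ 255 ∧ g.cl ≠ 255 ∧ (f.sp * g.me).testBit j = true := by
  by_cases hf : f.cl = 255
  · have e : (fmSt f).sp = 0 := by
      unfold fmSt
      rw [hf]
      rfl
    rw [e, Nat.zero_mul] at h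
    simp at h
  by_cases hg : g.cl = 255
  · have e : (fmSt g).me = 0 := by
      unfold fmSt
      rw [hg]
      rfl
    rw [e, Nat.mul_zero] at h
    simp at h
  have key : ∀ f : Fm ε, f.cl ≠ 255 → fmSt f = f := by
    intro f hf
    unfold fmSt
    rw [if_neg]
    intro h
    exact hf (Nat.eq_of_beq_eq_true h)
  rw [key f hf, key g hg] at h
  exact ⟨hf, hg, h⟩

/-- the part is a recession part -/
def isR : Prt → Bool
  | Prt.rc _ => true
  | _ => false

theorem isR_Pc (P : Prt) : isR P = Nat.beq (Pc P % 8) 5 := by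
  have key : ∀ i k : ℕ, k < 8 → (8 * i + k) % 8 = k := fun i k hk => by omega
  cases P with
  | rot => rfl
  | ex i => show false = Nat.beq ((8 * i + 1) % 8) 5; rw [key i 1 (by norm_num)]; rfl
  | pc i => show false = Nat.beq ((8 * i + 2) % 8) 5; rw [key i 2 (by norm_num)]; rfl
  | v0 i => show false = Nat.beq ((8 * i + 3) % 8) 5; rw [key i 3 (by norm_num)]; rfl
  | v1 i => show false = Nat.beq ((8 * i + 4) % 8) 5; rw [key i 4 (by norm_num)]; rfl
  | rc i => show true = Nat.beq ((8 * i + 5) % 8) 5; rw [key i 5 (by norm_num)]; rfl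
  | bx i => show false = Nat.beq ((8 * i + 6) % 8) 5; rw [key i 6 (by norm_num)]; rfl
  | bt i => show false = Nat.beq ((8 * i + 7) % 8) 5; rw [key i 7 (by norm_num)]; rfl

/-! ### the fast form of the test -/

theorem an_t {a b : Bool} (h : an a b = true) : a = true ∧ b = true := by
  cases a
  · exact absurd h (by show ¬ (false = true); simp)
  · exact ⟨rfl, h⟩

theorem orr_t {a b : Bool} (h : orr a b = true) : a = true ∨ b = true := by
  cases a
  · exact Or.inr h
  · exact Or.inl rfl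

theorem pkL_dg {α : Type} {w : ℕ} {g : α → ℕ} {d : α} (hd : g d = 0) :
    ∀ (l : List α), (∀ a ∈ l, g a < 2 ^ w) → ∀ i,
      dgL w (2 ^ w - 1) (pkL w g l) i = g (l.getD i d) := by
  intro l
  induction l with
  | nil =>
    intro _ i
    have e : (([] : List α).getD i d) = d := by simp
    rw [e, hd]
    show (0 >>> (w * i)) &&& (2 ^ w - 1) = 0
    simp
  | cons a l ih =>
    intro h i
    have ha : g a < 2 ^ w := h a (by simp)
    have e0 : pkL w g (a :: l) = g a + 2 ^ w * pkL w g l := by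
      show g a + (pkL w g l <<< w) = _
      rw [Nat.shiftLeft_eq, mul_comm]
    cases i with
    | zero =>
      show (pkL w g (a :: l) >>> (w * 0)) &&& (2 ^ w - 1) = g a
      rw [Nat.mul_zero, Nat.shiftRight_zero, Nat.and_two_pow_sub_one_eq_mod, e0,
        Nat.add_mul_mod_self_left, Nat.mod_eq_of_lt ha]
    | succ i =>
      have e1 : (a :: l).getD (i + 1) d = l.getD i d := by simp
      rw [e1, ← ih (fun b hb => h b (by simp [hb])) i]
      show (pkL w g (a :: l) >>> (w * (i + 1))) &&& (2 ^ w - 1)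
        = (pkL w g l >>> (w * i)) &&& (2 ^ w - 1)
      have e2 : w * (i + 1) = w + w * i := by ring
      rw [e2, Nat.shiftRight_add, Nat.shiftRight_eq_div_pow (pkL w g (a :: l)) w, e0,
        Nat.add_mul_div_left _ _ (by positivity), Nat.div_eq_of_lt ha, Nat.zero_add]

/-- removal of the top bit -/
theorem top_bit {m : ℕ} (hm : m ≠ 0) :
    m - 2 ^ m.log2 < 2 ^ m.log2 ∧ m = 2 ^ m.log2 + (m - 2 ^ m.log2) ∧
      ∀ c, m.testBit c = (decide (c = m.log2) || (m - 2 ^ m.log2).testBit c) := by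
  have h1 : 2 ^ m.log2 ≤ m := Nat.log2_self_le hm
  have h2 : m < 2 ^ (m.log2 + 1) := Nat.lt_log2_self
  rw [pow_succ] at h2
  have h3 : m - 2 ^ m.log2 < 2 ^ m.log2 := by omega
  have h4 : m = 2 ^ m.log2 + (m - 2 ^ m.log2) := by omega
  refine ⟨h3, h4, fun c => ?_⟩
  generalize hk : m.log2 = k at *
  generalize hm' : m - 2 ^ k = m' at *
  have h5 : m = 2 ^ k * 1 + m' := by omega
  rw [h5, Nat.testBit_two_pow_mul_add _ h3]
  by_cases hc : c < k
  · rw [if_pos hc]
    have : ¬ c = k := by omega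
    simp [this]
  · rw [if_neg hc]
    have h6 : m'.testBit c = false :=
      Nat.testBit_lt_two_pow (lt_of_lt_of_le h3 (Nat.pow_le_pow_right (by norm_num) (by omega)))
    rw [h6, Bool.or_false]
    by_cases he : c = k
    · subst he
      simp
    · have h7 : c - k ≠ 0 := by omega
      have h8 : (1 : ℕ).testBit (c - k) = false := Nat.testBit_lt_two_pow (Nat.one_lt_two_pow h7)
      rw [h8]
      simp [he]

theorem btF_ok {f : ℕ → Bool} : ∀ (n m : ℕ), btF f n m = true → ∀ c, m.testBit c = true →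
    f c = true := by
  intro n
  induction n with
  | zero =>
    intro m h c hc
    have h0 : m = 0 := Nat.eq_of_beq_eq_true h
    rw [h0] at hc
    simp at hc
  | succ n ih =>
    intro m h c hc
    cases m with
    | zero => simp at hc
    | succ k =>
      obtain ⟨h1, h2⟩ := an_t (a := f (Nat.log2 (Nat.succ k)))
        (b := btF f n (Nat.sub (Nat.succ k) (Nat.shiftLeft 1 (Nat.log2 (Nat.succ k))))) h
      have e : Nat.shiftLeft 1 (Nat.log2 (Nat.succ k)) = 2 ^ Nat.log2 (Nat.succ k) := by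
        show 1 <<< Nat.log2 (Nat.succ k) = _
        rw [Nat.shiftLeft_eq, Nat.one_mul]
      rw [e] at h2
      have h3 := (top_bit (Nat.succ_ne_zero k)).2.2 c
      have hc' : (Nat.succ k).testBit c = true := hc
      rw [h3, Bool.or_eq_true, decide_eq_true_eq] at hc'
      rcases hc' with hc' | hc'
      · rw [hc']; exact h1
      · exact ih _ h2 c hc'

theorem spr_same {m m' : ℕ} : ∀ {N : ℕ}, (∀ k < N, m.testBit k = m'.testBit k) →
    spr m N = spr m' N := by
  intro N
  induction N with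
  | zero => intro _; rfl
  | succ N ih =>
    intro h
    show spr m N + _ = spr m' N + _
    rw [ih fun k hk => h k (by omega), h N (by omega)]

theorem spr_top {m m' c : ℕ} (h1 : ∀ k, m.testBit k = (decide (k = c) || m'.testBit k))
    (h2 : m'.testBit c = false) : ∀ {N : ℕ}, c < N → spr m N = 2 ^ (128 * c) + spr m' N := by
  intro N
  induction N with
  | zero => intro h; omega
  | succ N ih =>
    intro h
    show spr m N + (if m.testBit N then 2 ^ (128 * N) else 0)
      = 2 ^ (128 * c) + (spr m' N + (if m'.testBit N then 2 ^ (128 * N) else 0))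
    by_cases hc : N = c
    · subst hc
      have e1 : spr m N = spr m' N := spr_same fun k hk => by
        have : ¬ k = N := by omega
        rw [h1 k]
        simp [this]
      have e2 : m.testBit N = true := by rw [h1 N]; simp
      rw [e1, e2, h2]
      simp [add_comm]
    · have e2 : m.testBit N = m'.testBit N := by rw [h1 N]; simp [hc]
      rw [ih (by omega), e2]
      ring

theorem spr_zero (N : ℕ) : spr 0 N = 0 := by
  induction N with
  | zero => rfl
  | succ N ih => simp [spr, ih]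

theorem spF_ok : ∀ (n m N : ℕ), n ≤ N → m < 2 ^ n → spF n m = spr m N := by
  intro n
  induction n with
  | zero =>
    intro m N _ hm
    have h0 : m = 0 := by simpa using hm
    rw [h0, spr_zero]
    rfl
  | succ n ih =>
    intro m N hN hm
    cases m with
    | zero => rw [spr_zero]; rfl
    | succ k =>
      obtain ⟨h1, h2, h3⟩ := top_bit (Nat.succ_ne_zero k)
      have hc : (Nat.succ k).log2 < n + 1 := (Nat.log2_lt (Nat.succ_ne_zero k)).2 hm
      have e : Nat.shiftLeft 1 (Nat.log2 (Nat.succ k)) = 2 ^ Nat.log2 (Nat.succ k) := by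
        show 1 <<< Nat.log2 (Nat.succ k) = _
        rw [Nat.shiftLeft_eq, Nat.one_mul]
      have e2 : Nat.shiftLeft 1 (128 * Nat.log2 (Nat.succ k))
          = 2 ^ (128 * Nat.log2 (Nat.succ k)) := by
        show 1 <<< (128 * Nat.log2 (Nat.succ k)) = _
        rw [Nat.shiftLeft_eq, Nat.one_mul]
      have e3 : spF (n + 1) (Nat.succ k)
          = Nat.shiftLeft 1 (128 * Nat.log2 (Nat.succ k))
            + spF n (Nat.succ k - Nat.shiftLeft 1 (Nat.log2 (Nat.succ k))) := rfl
      rw [e3, e, e2]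
      have h4 : (Nat.succ k - 2 ^ Nat.log2 (Nat.succ k)).testBit (Nat.log2 (Nat.succ k)) = false :=
        Nat.testBit_lt_two_pow h1
      rw [spr_top h3 h4 (show Nat.log2 (Nat.succ k) < N by omega)]
      rw [ih _ N (by omega) (lt_of_lt_of_le h1 (Nat.pow_le_pow_right (by norm_num) (by omega)))]

theorem xF_bit (a b j : ℕ) : (xF a b).testBit j = (a.testBit j && !b.testBit j) := by
  show (a ^^^ (a &&& b)).testBit j = _
  rw [Nat.testBit_xor, Nat.testBit_and]
  cases a.testBit j <;> cases b.testBit j <;> rfl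

theorem inF_mono {a b c : ℕ} (h : inF a b = true)
    (hbc : ∀ j, b.testBit j = true → c.testBit j = true) : Nat.beq (Nat.land a c) a = true := by
  have h1 : a &&& b = a := Nat.eq_of_beq_eq_true h
  have h2 : a &&& c = a := by
    apply Nat.eq_of_testBit_eq
    intro j
    rw [Nat.testBit_and]
    by_cases ha : a.testBit j = true
    · have h3 : (a &&& b).testBit j = true := by rw [h1]; exact ha
      rw [Nat.testBit_and, Bool.and_eq_true] at h3
      rw [ha, hbc j h3.2]
      rfl
    · rw [Bool.not_eq_true] at ha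
      rw [ha]
      rfl
  show Nat.beq (a &&& c) a = true
  rw [h2]
  exact Nat.beq_refl a

section

variable {ε : Type} {le : List Le} {fm : List (Fm ε)}

theorem lcF_ok : ∀ {l : List Le}, lcF l = true → ∀ e ∈ l, e.F < 2 ^ 16 ∧ e.gc < 2 ^ 16 := by
  intro l
  induction l with
  | nil => intro _ e he; cases he
  | cons a l ih =>
    intro h e he
    obtain ⟨h1, h2⟩ := an_t (a := Nat.ble a.F 65535)
      (b := an (Nat.ble a.gc 65535) (lcF l)) h
    obtain ⟨h3, h4⟩ := an_t h2
    rcases List.mem_cons.1 he with rfl | he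
    · exact ⟨lt_of_le_of_lt (Nat.le_of_ble_eq_true h1) (by norm_num),
        lt_of_le_of_lt (Nat.le_of_ble_eq_true h3) (by norm_num)⟩
    · exact ih h4 e he

theorem gF_F (h : lcF le = true) (c : ℕ) :
    gF (pkL 16 Le.F le) c = (le.getD c ⟨0, 0, 0⟩).F :=
  pkL_dg (w := 16) (g := Le.F) (d := ⟨0, 0, 0⟩) rfl le (fun e he => (lcF_ok h e he).1) c

theorem gF_gc (h : lcF le = true) (c : ℕ) :
    gF (pkL 16 Le.gc le) c = (le.getD c ⟨0, 0, 0⟩).gc :=
  pkL_dg (w := 16) (g := Le.gc) (d := ⟨0, 0, 0⟩) rfl le (fun e he => (lcF_ok h e he).2) c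

theorem mF_me (h : ∀ f ∈ fm, f.me < 2 ^ 128) (i : ℕ) :
    mF (pkL 128 Fm.me fm) i = (fm.getD i dfF).me :=
  pkL_dg (w := 128) (g := Fm.me) (d := dfF) rfl fm h i

theorem mcl_eq (f : Fm ε) : mcl f = (fmSt f).me := by
  unfold mcl fmSt
  cases h : Nat.beq f.cl 255
  · rfl
  · rfl

theorem mcl_le (f : Fm ε) : mcl f ≤ f.me := by
  unfold mcl
  cases h : Nat.beq f.cl 255
  · exact le_rfl
  · exact Nat.zero_le _

theorem mF_mcl (h : ∀ f ∈ fm, f.me < 2 ^ 128) (i : ℕ) :
    mF (pkL 128 mcl fm) i = (fmSt (fm.getD i dfF)).me := by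
  rw [← mcl_eq]
  exact pkL_dg (w := 128) (g := mcl) (d := dfF) rfl fm
    (fun f hf => lt_of_le_of_lt (mcl_le f) (h f hf)) i

theorem uF_bit {PM i j : ℕ} : ∀ {l : List (ℕ × ε)}, (uF PM i l).testBit j = true →
    ∃ e ∈ l, e.1 < i ∧ (mF PM e.1).testBit j = true := by
  intro l
  induction l with
  | nil => intro h; simp [uF] at h
  | cons a l ih =>
    intro h
    have e0 : uF PM i (a :: l)
        = cond (Nat.ble (Nat.succ a.1) i) (mF PM a.1 ||| uF PM i l) (uF PM i l) := rfl
    rw [e0] at h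
    cases hb : Nat.ble (Nat.succ a.1) i with
    | false =>
      rw [hb] at h
      obtain ⟨e, he, h2⟩ := ih h
      exact ⟨e, by simp [he], h2⟩
    | true =>
      rw [hb] at h
      have h' : (mF PM a.1 ||| uF PM i l).testBit j = true := h
      rw [Nat.testBit_or, Bool.or_eq_true] at h'
      rcases h' with h' | h'
      · exact ⟨a, by simp, Nat.le_of_ble_eq_true hb, h'⟩
      · obtain ⟨e, he, h2⟩ := ih h'
        exact ⟨e, by simp [he], h2⟩

theorem iF_ok {F : ℕ} : ∀ {l : List (ℕ × ε)}, iF F l = true → ∃ e ∈ l, e.1 = F := by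
  intro l
  induction l with
  | nil => intro h; exact absurd h (by show ¬ (false = true); simp)
  | cons a l ih =>
    intro h
    rcases orr_t (a := Nat.beq a.1 F) (b := iF F l) h with h | h
    · exact ⟨a, by simp, Nat.eq_of_beq_eq_true h⟩
    · obtain ⟨e, he, h2⟩ := ih h
      exact ⟨e, by simp [he], h2⟩

theorem me_lt_of_ck3F {PF PG PM : ℕ} : ∀ {l : List (Fm ε)} {i : ℕ},
    ck3F PF PG PM l i = true → ∀ f ∈ l, f.me < 2 ^ 128 := by
  intro l
  induction l with
  | nil => intro i _ f hf; cases hf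
  | cons a l ih =>
    intro i h f hf
    obtain ⟨h1, h2⟩ := an_t (a := fF PF PG PM i a) (b := ck3F PF PG PM l (Nat.succ i)) h
    rcases List.mem_cons.1 hf with rfl | hf
    · obtain ⟨h3, _⟩ := an_t h1
      exact lt_of_le_of_lt (Nat.le_of_ble_eq_true h3) (by norm_num)
    · exact ih h2 f hf

theorem fF_ok (hle : lcF le = true) (hfm : ∀ f ∈ fm, f.me < 2 ^ 128) {i : ℕ} {f : Fm ε}
    (h : fF (pkL 16 Le.F le) (pkL 16 Le.gc le) (pkL 128 Fm.me fm) i f = true) :
    FmOk le fm i f := by
  obtain ⟨h1, h2⟩ := an_t h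
  obtain ⟨h3, h4⟩ := an_t h2
  obtain ⟨h5, h6⟩ := an_t h4
  have hme : f.me < 2 ^ 128 :=
    lt_of_le_of_lt (Nat.le_of_ble_eq_true h1) (by norm_num)
  have hsp : f.sp = spr f.me 128 := by
    have e := Nat.eq_of_beq_eq_true h3
    rw [e]
    exact spF_ok 128 f.me 128 le_rfl hme
  refine ⟨hme, hsp, fun c _ hc => ⟨?_, ?_⟩⟩
  · rcases orr_t h5 with h5 | h5
    · exact Or.inl (Nat.eq_of_beq_eq_true h5)
    · have k := btF_ok _ _ h5 c hc
      have k2 : gF (pkL 16 Le.gc le) c = f.cl := Nat.eq_of_beq_eq_true k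
      rw [gF_gc hle] at k2
      exact Or.inr k2
  · by_cases hu : (uF (pkL 128 Fm.me fm) i f.inc).testBit c = true
    · obtain ⟨e, he, h7, h8⟩ := uF_bit hu
      rw [mF_me hfm] at h8
      exact Or.inr ⟨e, he, Or.inr ⟨h7, h8⟩⟩
    · rw [Bool.not_eq_true] at hu
      have k := btF_ok _ _ h6 c (by rw [xF_bit, hc, hu]; rfl)
      rcases orr_t k with k | k
      · have k2 : gF (pkL 16 Le.F le) c = i := Nat.eq_of_beq_eq_true k
        rw [gF_F hle] at k2
        exact Or.inl k2
      · obtain ⟨e, he, h7⟩ := iF_ok k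
        rw [gF_F hle] at h7
        exact Or.inr ⟨e, he, Or.inl h7⟩

theorem ck3F_ok (hle : lcF le = true) (hfm : ∀ f ∈ fm, f.me < 2 ^ 128) :
    ∀ (l : List (Fm ε)) (i : ℕ),
    ck3F (pkL 16 Le.F le) (pkL 16 Le.gc le) (pkL 128 Fm.me fm) l i = true →
    ∀ j, FmOk le fm (i + j) (l.getD j dfF) := by
  have h0 : ∀ i, FmOk le fm i dfF := by
    intro i
    refine ⟨by simp [dfF], ?_, ?_⟩
    · show (0 : ℕ) = spr 0 128
      rw [spr_zero]
    · intro c _ hc
      simp [dfF] at hc
  intro l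
  induction l with
  | nil => intro i _ j; exact h0 _
  | cons f l ih =>
    intro i h j
    obtain ⟨h1, h2⟩ := an_t (b := ck3F (pkL 16 Le.F le) (pkL 16 Le.gc le)
      (pkL 128 Fm.me fm) l (Nat.succ i)) h
    cases j with
    | zero => exact fF_ok hle hfm h1
    | succ j =>
      have := ih (Nat.succ i) h2 j
      have e : Nat.succ i + j = i + (j + 1) := by
        show i + 1 + j = _
        omega
      rw [e] at this
      simpa using this

/-- the products of the forms of `fm'` -/
def RF (PM : ℕ) (fm' : List (Fm ε)) : Prop :=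
  ∀ i j, rF PM i j = (fm'.getD i dfF).sp * (fm'.getD j dfF).me

theorem RF_me (h : ∀ i, FmOk le fm i (fm.getD i dfF)) (hm : ∀ f ∈ fm, f.me < 2 ^ 128) :
    RF (pkL 128 Fm.me fm) fm := by
  intro i j
  show spF 128 (mF (pkL 128 Fm.me fm) i) * mF (pkL 128 Fm.me fm) j = _
  rw [mF_me hm, mF_me hm, spF_ok 128 _ 128 le_rfl (h i).1, ← (h i).2.1]

theorem RF_cl (h : ∀ i, FmOk le fm i (fm.getD i dfF)) (hm : ∀ f ∈ fm, f.me < 2 ^ 128) :
    RF (pkL 128 mcl fm) (fmStl fm) := by
  intro i j
  show spF 128 (mF (pkL 128 mcl fm) i) * mF (pkL 128 mcl fm) j = _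
  rw [mF_mcl hm, mF_mcl hm, fmStl_get, fmStl_get]
  have h1 : (fmSt (fm.getD i dfF)).me < 2 ^ 128 := by
    rw [← mcl_eq]
    exact lt_of_le_of_lt (mcl_le _) (h i).1
  rw [spF_ok 128 _ 128 le_rfl h1]
  have h2 : spr (fmSt (fm.getD i dfF)).me 128 = (fmSt (fm.getD i dfF)).sp := by
    unfold fmSt
    by_cases hc : Nat.beq (fm.getD i dfF).cl 255 = true
    · rw [if_pos hc]
      exact spr_zero 128
    · rw [if_neg hc]
      exact (h i).2.1.symm
  rw [h2]

theorem rcsF_eq {γ : Type} {PM : ℕ} {fm' : List (Fm ε)} (h : RF PM fm') :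
    ∀ (l : List (ℕ × ℕ × γ)), rcsF PM l = rcs fm' l := by
  intro l
  induction l with
  | nil => rfl
  | cons e l ih =>
    show rF PM e.1 e.2.1 ||| rcsF PM l = _ ||| rcs fm' l
    rw [ih, h]

theorem rcrF_eq {γ : Type} {PM : ℕ} {fm' : List (Fm ε)} (h : RF PM fm') :
    ∀ (l : List (ℕ × ℕ × γ)), rcrF PM l = rcr fm' l := by
  intro l
  induction l with
  | nil => rfl
  | cons e l ih =>
    show rF PM e.2.1 e.1 ||| rcrF PM l = _ ||| rcr fm' l
    rw [ih, h]

theorem mcF_eq {δ : Type} (hm : ∀ f ∈ fm, f.me < 2 ^ 128) : ∀ (l : List (ℕ × δ)),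
    mcF (pkL 128 Fm.me fm) l = mcs fm l := by
  intro l
  induction l with
  | nil => rfl
  | cons e l ih =>
    show mF (pkL 128 Fm.me fm) e.1 ||| mcF (pkL 128 Fm.me fm) l = _ ||| mcs fm l
    rw [ih, mF_me hm]

theorem beq_dec (a b : ℕ) : Nat.beq a b = (a == b) := by
  cases h : Nat.beq a b
  · have : ¬ a = b := fun e => by rw [e, Nat.beq_refl] at h; exact Bool.noConfusion h
    simp [this]
  · have : a = b := Nat.eq_of_beq_eq_true h
    simp [this]

theorem pF_rps {γ : Type} {fm' : List (Fm ε)} {g : List (ℕ × ℕ × γ) → ℕ}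
    (h : ∀ l, g l = rcs fm' l) (P : ℕ) : ∀ (l : List (ℕ × List (ℕ × ℕ × γ))),
    pF g P l = rps fm' P l := by
  intro l
  induction l with
  | nil => rfl
  | cons e l ih =>
    have e0 : pF g P (e :: l) = cond (Nat.beq e.1 P) (g e.2 ||| pF g P l) (pF g P l) := rfl
    have e1 : rps fm' P (e :: l)
        = if (e.1 == P) = true then rcs fm' e.2 ||| rps fm' P l else rps fm' P l := rfl
    rw [e0, e1, ih, beq_dec, h]
    cases (e.1 == P) <;> rfl

theorem pF_rpr {γ : Type} {fm' : List (Fm ε)} {g : List (ℕ × ℕ × γ) → ℕ}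
    (h : ∀ l, g l = rcr fm' l) (P : ℕ) : ∀ (l : List (ℕ × List (ℕ × ℕ × γ))),
    pF g P l = rpr fm' P l := by
  intro l
  induction l with
  | nil => rfl
  | cons e l ih =>
    have e0 : pF g P (e :: l) = cond (Nat.beq e.1 P) (g e.2 ||| pF g P l) (pF g P l) := rfl
    have e1 : rpr fm' P (e :: l)
        = if (e.1 == P) = true then rcr fm' e.2 ||| rpr fm' P l else rpr fm' P l := rfl
    rw [e0, e1, ih, beq_dec, h]
    cases (e.1 == P) <;> rfl

theorem pF_mps {δ : Type} {g : List (ℕ × δ) → ℕ} (h : ∀ l, g l = mcs fm l) (P : ℕ) :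
    ∀ (l : List (ℕ × List (ℕ × δ))), pF g P l = mps fm P l := by
  intro l
  induction l with
  | nil => rfl
  | cons e l ih =>
    have e0 : pF g P (e :: l) = cond (Nat.beq e.1 P) (g e.2 ||| pF g P l) (pF g P l) := rfl
    have e1 : mps fm P (e :: l)
        = if (e.1 == P) = true then mcs fm e.2 ||| mps fm P l else mps fm P l := rfl
    rw [e0, e1, ih, beq_dec, h]
    cases (e.1 == P) <;> rfl

theorem rls_of {γ : Type} {p c P j : ℕ} {fm' : List (Fm ε)} : ∀ {l : List (Lt γ)},
    ((rps fm' P (ndF c l)).testBit j = true ∨ (rpr fm' P (ndF (siT p c) l)).testBit j = true) →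
    (rls p fm' c P l).testBit j = true := by
  intro l
  induction l with
  | nil =>
    intro h
    rcases h with h | h
    · have h' : (rps (γ := γ) fm' P []).testBit j = true := h
      simp [rps] at h'
    · have h' : (rpr (γ := γ) fm' P []).testBit j = true := h
      simp [rpr] at h'
  | cons L l ih =>
    intro h
    unfold rls
    rw [Nat.testBit_or, Nat.testBit_or, Bool.or_eq_true, Bool.or_eq_true]
    have e1 : ∀ c, ndF c (L :: l) = cond (Nat.beq L.g c) L.ps (ndF c l) := fun _ => rfl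
    rcases h with h | h
    · rw [e1, beq_dec] at h
      cases hb : (L.g == c) with
      | true =>
        rw [hb] at h
        left
        rw [if_pos rfl]
        exact h
      | false =>
        rw [hb] at h
        exact Or.inr (Or.inr (ih (Or.inl h)))
    · rw [e1, beq_dec] at h
      cases hb : (L.g == siT p c) with
      | true =>
        rw [hb] at h
        right
        left
        rw [if_pos rfl]
        exact h
      | false =>
        rw [hb] at h
        exact Or.inr (Or.inr (ih (Or.inr h)))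

theorem mls_of {δ : Type} {c P j : ℕ} : ∀ {l : List (Lt1 δ)},
    (mps fm P (n1F c l)).testBit j = true → (mls fm c P l).testBit j = true := by
  intro l
  induction l with
  | nil =>
    intro h
    have h' : (mps (δ := δ) fm P []).testBit j = true := h
    simp [mps] at h'
  | cons L l ih =>
    intro h
    unfold mls
    rw [Nat.testBit_or, Bool.or_eq_true]
    have e1 : n1F c (L :: l) = cond (Nat.beq L.g c) L.ps (n1F c l) := rfl
    rw [e1, beq_dec] at h
    cases hb : (L.g == c) with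
    | true =>
      rw [hb] at h
      left
      rw [if_pos rfl]
      exact h
    | false =>
      rw [hb] at h
      exact Or.inr (ih h)

end

theorem k4_bit : ∀ c < 32, ∀ t < 128,
    (Nat.shiftLeft 79228162532711081671548469249 c).testBit t = (t % 32 == c) := by
  decide +kernel

theorem vF_eq {p : ℕ} {mx : List ℕ} {g : Bool} {c : ℕ} (hc : c < 32) :
    vF (mkM (vt p mx) 128) g c = mkM (fun s => vt p mx s && !(g && s % 32 == c)) 128 := by
  apply Nat.eq_of_testBit_eq
  intro j
  rw [mkM_bit]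
  cases g with
  | false =>
    show (mkM (vt p mx) 128).testBit j = _
    rw [mkM_bit]
    simp
  | true =>
    show (xF (mkM (vt p mx) 128) (Nat.shiftLeft 79228162532711081671548469249 c)).testBit j = _
    rw [xF_bit, mkM_bit]
    by_cases hj : j < 128
    · rw [k4_bit c hc j hj]
      simp [hj]
    · simp [hj]

theorem nF_eq {p : ℕ} {mx : List ℕ} {gb : Bool} {c : ℕ} (hc : c < 32) (hc' : siC p c < 32) :
    nF (mkM (vt p mx) 128) (gpC gb c) c (siC p c) = need p gb mx c := by
  show spF 128 (vF (mkM (vt p mx) 128) (gpC gb c) c)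
    * vF (mkM (vt p mx) 128) (gpC gb c) (siC p c) = _
  rw [vF_eq hc, vF_eq hc', spF_ok 128 _ 128 le_rfl (mkM_lt _ 128)]
  rfl

theorem siC_lt {p c : ℕ} (hp : p ≤ 15) (hc : 2 ≤ c) (h2 : c ≤ 2 * p) : siC p c < 32 := by
  unfold siC
  split_ifs <;> omega

theorem ckcF_ok {γ δ ε : Type} {D : CovD γ δ ε} (hp : D.p ≤ 15)
    (h : ∀ i, FmOk D.le D.fm i (D.fm.getD i dfF)) (hm : ∀ f ∈ D.fm, f.me < 2 ^ 128) {c : ℕ}
    (h1 : 2 ≤ c) (h2 : c ≤ 2 * D.p)
    (hk : ckcF D (mkM (vt D.p D.mx) 128) (pkL 128 Fm.me D.fm) (pkL 128 mcl D.fm) c = true) :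
    mxOk D c = true ∧ posC D.le c = true ∧
      allF (ck1c D (nd1 D.p D.gb D.mx c) c) (mxC D.mx c) = true ∧
      allF (ck2c D (need D.p D.gb D.mx c) c) (mxC D.mx c) = true := by
  unfold ckcF at hk
  rw [Bool.and_eq_true, Bool.and_eq_true, Bool.and_eq_true] at hk
  obtain ⟨⟨⟨k1, k2⟩, k3⟩, k4⟩ := hk
  have allF_mono : ∀ {f g : ℕ → Bool}, (∀ n, f n = true → g n = true) →
      ∀ {n : ℕ}, allF f n = true → allF g n = true := by
    intro f g hfg n
    induction n with
    | zero => exact hfg 0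
    | succ n ih =>
      intro h
      unfold allF at h ⊢
      rw [Bool.and_eq_true] at h ⊢
      exact ⟨hfg _ h.1, ih h.2⟩
  refine ⟨k1, k2, allF_mono (fun f hf => ?_) k3, allF_mono (fun f hf => ?_) k4⟩
  · unfold ck1F at hf
    unfold ck1c
    rw [List.all_eq_true] at hf ⊢
    intro P hP
    refine inF_mono (b := pF (mcF (pkL 128 Fm.me D.fm)) P (n1F (c + 32 * f) D.i1)) ?_
      (fun j hj => ?_)
    · have e : nd1 D.p D.gb D.mx c = vF (mkM (vt D.p D.mx) 128) (gpC D.gb c) c := by
        rw [vF_eq (by omega)]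
        rfl
      rw [e]
      exact hf P hP
    · rw [pF_mps (mcF_eq hm) P] at hj
      exact mls_of hj
  · unfold ck2F at hf
    unfold ck2c
    rw [List.all_eq_true] at hf ⊢
    intro P hP
    have k5 := hf P hP
    unfold q2F at k5
    rw [nF_eq (by omega) (siC_lt hp h1 h2)] at k5
    have key : ∀ (PM : ℕ) (fm' : List (Fm ε)), RF PM fm' →
        inF (need D.p D.gb D.mx c)
          (pF (rcsF PM) P (ndF (c + 32 * f) D.it) |||
            pF (rcrF PM) P (ndF (siT D.p (c + 32 * f)) D.it)) = true →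
        Nat.beq (Nat.land (need D.p D.gb D.mx c) (rls D.p fm' (c + 32 * f) P D.it))
          (need D.p D.gb D.mx c) = true := by
      intro PM fm' hR h5
      refine inF_mono h5 (fun j hj => ?_)
      rw [pF_rps (rcsF_eq hR) P, pF_rpr (rcrF_eq hR) P, Nat.testBit_or, Bool.or_eq_true] at hj
      exact rls_of hj
    by_cases h8 : Nat.beq (P % 8) 5 = true
    · have e8 : Nat.beq (Nat.mod P 8) 5 = true := h8
      rw [if_pos h8]
      refine key (pkL 128 Fm.me D.fm) D.fm (RF_me h hm) ?_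
      have k6 := k5
      rw [e8] at k6
      exact k6
    · have e8 : Nat.beq (Nat.mod P 8) 5 = false := by
        rw [Bool.not_eq_true] at h8
        exact h8
      rw [if_neg h8]
      refine key (pkL 128 mcl D.fm) (fmStl D.fm) (RF_cl h hm) ?_
      have k6 := k5
      rw [e8] at k6
      exact k6

/-- consequences of the test -/
structure CkOk {γ δ ε : Type} (D : CovD γ δ ε) : Prop where
  p15 : D.p ≤ 15
  fm : ∀ i, FmOk D.le D.fm i (D.fm.getD i dfF)
  pos : ∀ g, SyOk D.p g → g.2 % 2 = 1 → 0 < (cpar D).N g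
  poq : ∀ g, SyOk D.p g → g.2 % 2 = 1 → 0 < cqi D g
  mx3 : ∀ g, SyOk D.p g → cmx D g ≤ 3 ∧ cmx D (syi D.p g) = cmx D g
  nx2 : ∀ g, SyOk D.p g → 1 ≤ cnx D g
  c1 : ∀ g, SyOk D.p g → ∀ f ≤ cmx D g, ∀ P ∈ prtsU (cpar D) (cqi D g) (coi D g) (cnx D g)
    (cmx D g) g f,
    ∀ s, TyOk D.p (cmx D) s → ¬ (s.1 = g ∧ gp D.gb g) →
    ∃ L ∈ D.i1, L.g = tc (g, f) ∧ ∃ Q ∈ L.ps, Pd Q.1 = P ∧ ∃ e ∈ Q.2,
      (D.fm.getD e.1 dfF).me.testBit (tc s) = true
  c2 : ∀ g, SyOk D.p g → ∀ f ≤ cmx D g, ∀ P ∈ prtsT (cpar D) (cnx D g) (chz D g) (cmx D g) g f,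
    ∀ s, TyOk D.p (cmx D) s → ¬ (s.1 = g ∧ gp D.gb g) →
    ∀ t, TyOk D.p (cmx D) t → ¬ (t.1 = syi D.p g ∧ gp D.gb g) →
    ∃ L ∈ D.it, ∃ Q ∈ L.ps, Pd Q.1 = P ∧ ∃ e ∈ Q.2,
      (isR P = true ∨ ((D.fm.getD e.1 dfF).cl ≠ 255 ∧ (D.fm.getD e.2.1 dfF).cl ≠ 255)) ∧
      ((L.g = tc (g, f) ∧ (D.fm.getD e.1 dfF).me.testBit (tc s) = true ∧
        (D.fm.getD e.2.1 dfF).me.testBit (tc t) = true) ∨
      (L.g = tc (syi D.p g, f) ∧ (D.fm.getD e.1 dfF).me.testBit (tc t) = true ∧
        (D.fm.getD e.2.1 dfF).me.testBit (tc s) = true))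

theorem ck_sound {γ δ ε : Type} {D : CovD γ δ ε} (h : ck D = true) : CkOk D := by
  unfold ck at h
  rw [Bool.and_eq_true, Bool.and_eq_true, Bool.and_eq_true, Bool.and_eq_true] at h
  obtain ⟨⟨⟨hp1, hp15⟩, hle, h3⟩, hall⟩ := h
  have hp1 : 1 ≤ D.p := Nat.le_of_ble_eq_true hp1
  have hp15 : D.p ≤ 15 := Nat.le_of_ble_eq_true hp15
  have hme : ∀ f ∈ D.fm, f.me < 2 ^ 128 := me_lt_of_ck3F h3
  have hfm : ∀ i, FmOk D.le D.fm i (D.fm.getD i dfF) := fun i => by
    have := ck3F_ok hle hme D.fm 0 h3 i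
    rwa [Nat.zero_add] at this
  have hc : ∀ g, SyOk D.p g → mxOk D (sc g) = true ∧ posC D.le (sc g) = true ∧
      allF (ck1c D (nd1 D.p D.gb D.mx (sc g)) (sc g)) (mxC D.mx (sc g)) = true ∧
      allF (ck2c D (need D.p D.gb D.mx (sc g)) (sc g)) (mxC D.mx (sc g)) = true := by
    intro g hg
    obtain ⟨k1, k2⟩ := sc_b hg
    exact ckcF_ok hp15 hfm hme k1 k2 (allC_sound hall (sc g) k1 (by omega))
  have land : ∀ a b j : ℕ, Nat.beq (Nat.land a b) a = true → a.testBit j = true →
      b.testBit j = true := by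
    intro a b j h1 h2
    have h3 : a &&& b = a := Nat.eq_of_beq_eq_true h1
    rw [← h3, Nat.testBit_and, Bool.and_eq_true] at h2
    exact h2.2
  have hmx : ∀ g, SyOk D.p g → cmx D g ≤ 3 ∧ cmx D (syi D.p g) = cmx D g := by
    intro g hg
    have h1 := (hc g hg).1
    unfold mxOk at h1
    rw [Bool.and_eq_true, Bool.and_eq_true, Bool.and_eq_true, siC_sc] at h1
    exact ⟨Nat.le_of_ble_eq_true h1.1.1.1, Nat.eq_of_beq_eq_true h1.1.1.2⟩
  have hnx : ∀ g, SyOk D.p g → 1 ≤ cnx D g := by
    intro g hg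
    have h1 := (hc g hg).1
    unfold mxOk at h1
    rw [Bool.and_eq_true] at h1
    exact Nat.le_of_ble_eq_true h1.2
  have tb : ∀ s, TyOk D.p (cmx D) s → tc s < 128 ∧ vt D.p D.mx (tc s) = true := by
    intro s hs
    obtain ⟨k1, k2⟩ := sc_b hs.1
    obtain ⟨k3, k4⟩ := tc_mod hp15 hs.1
    have k5 := (hmx s.1 hs.1).1
    have k6 := hs.2
    refine ⟨by omega, ?_⟩
    unfold vt
    rw [k3, k4, Bool.and_eq_true, Bool.and_eq_true, ble_iff, ble_iff, ble_iff]
    exact ⟨⟨k1, k2⟩, k6⟩
  have nb : ∀ g, SyOk D.p g → ∀ s, TyOk D.p (cmx D) s → ¬ (s.1 = g ∧ gp D.gb g) →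
      (nd1 D.p D.gb D.mx (sc g)).testBit (tc s) = true := by
    intro g hg s hs hne
    obtain ⟨t1, t2⟩ := tb s hs
    unfold nd1
    rw [mkM_bit]
    have k4 : (gpC D.gb (sc g) && tc s % 32 == sc g) = false := by
      by_contra hcon
      rw [Bool.not_eq_false, Bool.and_eq_true] at hcon
      have e1 : tc s % 32 = sc g := by simpa using hcon.2
      rw [(tc_mod hp15 hs.1).1] at e1
      exact hne ⟨sc_inj e1, (gpC_sc _ _).1 hcon.1⟩
    rw [k4, t2]
    simp [t1]
  have hpos : ∀ g, SyOk D.p g → g.2 % 2 = 1 → 0 < nPc D.le (sc g) := by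
    intro g hg ho
    have h1 := (hc g hg).2.1
    unfold posC at h1
    rw [sc_div] at h1
    have h2 : ¬ (g.2 % 2 == 0) = true := by simp [ho]
    rw [Bool.or_eq_true] at h1
    rcases h1 with h1 | h1
    · exact absurd h1 h2
    · have h5 : 1 ≤ nPc D.le (sc g) := by simpa [Nat.blt] using h1
      omega
  refine ⟨hp15, hfm, hpos, ?_, hmx, hnx, ?_, ?_⟩
  · intro g hg ho
    show 0 < nQc D.le (sc g)
    unfold nQc
    split_ifs with he
    · exact hpos g hg ho
    · rcases Nat.eq_zero_or_pos (nQe D.le (sc g)) with e | e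
      · rw [e] at he
        exact absurd rfl he
      · exact e
  · intro g hg f hf P hP s hs hne
    have h1 := allF_sound (hc g hg).2.2.1 f hf
    unfold ck1c at h1
    rw [List.all_eq_true] at h1
    have h2 := h1 (Pc P) (mem_prD hP)
    obtain ⟨L, hL, k1, Q, hQ, k2, e, he, k3⟩ := mls_bit (land _ _ _ h2 (nb g hg s hs hne))
    exact ⟨L, hL, k1, Q, hQ, by rw [k2, Pd_Pc], e, he, k3⟩
  · intro g hg f hf P hP s hs hne t ht hnt
    have h1 := allF_sound (hc g hg).2.2.2 f hf
    unfold ck2c at h1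
    rw [List.all_eq_true] at h1
    have h2 := h1 (Pc P) (mem_prC hP)
    obtain ⟨s1, s2⟩ := tb s hs
    obtain ⟨t1, t2⟩ := tb t ht
    have h4 : (need D.p D.gb D.mx (sc g)).testBit (128 * tc s + tc t) = true := by
      unfold need
      rw [spr_bit _ _ (mkM_lt _ _) _ _ t1, nb g hg s hs hne, mkM_bit]
      have k4' : (gpC D.gb (sc g) && tc t % 32 == siC D.p (sc g)) = false := by
        by_contra hcon
        rw [Bool.not_eq_false, Bool.and_eq_true, siC_sc] at hcon
        have e1 : tc t % 32 = sc (syi D.p g) := by simpa using hcon.2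
        rw [(tc_mod hp15 ht.1).1] at e1
        exact hnt ⟨sc_inj e1, (gpC_sc _ _).1 hcon.1⟩
      rw [k4', t2]
      simp [s1, t1]
    have h5 : ∃ L ∈ D.it, ∃ Q ∈ L.ps, Q.1 = Pc P ∧ ∃ e ∈ Q.2,
        (isR P = true ∨ ((D.fm.getD e.1 dfF).cl ≠ 255 ∧ (D.fm.getD e.2.1 dfF).cl ≠ 255)) ∧
        ((L.g = sc g + 32 * f ∧ ((D.fm.getD e.1 dfF).sp * (D.fm.getD e.2.1 dfF).me).testBit
          (128 * tc s + tc t) = true) ∨
        (L.g = siT D.p (sc g + 32 * f) ∧
          ((D.fm.getD e.2.1 dfF).sp * (D.fm.getD e.1 dfF).me).testBit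
            (128 * tc s + tc t) = true)) := by
      cases hr : isR P with
      | true =>
        rw [isR_Pc] at hr
        rw [if_pos hr] at h2
        obtain ⟨L, hL, Q, hQ, k2, e, he, k3⟩ := rls_bit (land _ _ _ h2 h4)
        exact ⟨L, hL, Q, hQ, k2, e, he, Or.inl rfl, k3⟩
      | false =>
        rw [isR_Pc] at hr
        rw [if_neg (by rw [hr]; exact Bool.false_ne_true)] at h2
        obtain ⟨L, hL, Q, hQ, k2, e, he, k3⟩ := rls_bit (land _ _ _ h2 h4)
        refine ⟨L, hL, Q, hQ, k2, e, he, ?_⟩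
        rw [fmStl_get, fmStl_get] at k3
        rcases k3 with ⟨k4, k5⟩ | ⟨k4, k5⟩
        · obtain ⟨c1, c2, c3⟩ := fmSt_bit k5
          exact ⟨Or.inr ⟨c1, c2⟩, Or.inl ⟨k4, c3⟩⟩
        · obtain ⟨c1, c2, c3⟩ := fmSt_bit k5
          exact ⟨Or.inr ⟨c2, c1⟩, Or.inr ⟨k4, c3⟩⟩
    obtain ⟨L, hL, Q, hQ, k2, e, he, k6, k3⟩ := h5
    refine ⟨L, hL, Q, hQ, by rw [k2, Pd_Pc], e, he, k6, ?_⟩
    rcases k3 with ⟨k1, k3⟩ | ⟨k1, k3⟩
    · refine Or.inl ⟨k1, ?_⟩
      rw [(hfm e.1).2.1, spr_bit _ _ (hfm e.2.1).1 _ _ t1, Bool.and_eq_true,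
        Bool.and_eq_true] at k3
      exact ⟨k3.1.2, k3.2⟩
    · refine Or.inr ⟨?_, ?_⟩
      · have := siT_tc hp15 (t := (g, f)) hg
        rw [← this]
        exact k1
      · rw [(hfm e.2.1).2.1, spr_bit _ _ (hfm e.1).1 _ _ t1, Bool.and_eq_true,
          Bool.and_eq_true] at k3
        exact ⟨k3.2, k3.1.2⟩

end Pool.Agent.Helper6.MONO.W2.TY
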