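import Pool.Agent.Helper12.CW.NFB

/-!
Plan W (MP_c75db0): a window from the items at all its points.
-/

set_option autoImplicit false
noncomputable section
namespace Pool.Agent.Helper6.MONO.W2

open Matrix Filter Topology Pool.Agent.Helper12.NK

/-- the parameters of the families at a point: what the tests have to give -/
structure PtR (p : ℕ) (v : V3) (N : NPar) (R : RPar) : Prop where
  c1 : ∀ a, R.ch (a, 1) = nW (phi p) v (a, 1) / 2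
  t1 : ∀ a, R.τ (a, 1) 0 ≤ 0 ∧ 1 ≤ R.τ (a, 1) (N.N (a, 1))
  c3 : ∀ g : Sy, SyOk p g → g.2 % 2 = 1 → 3 ≤ g.2 → 0 < R.ch g ∧
    nW (phi p) v g + R.ch g ^ 2 - nW (phi p) v g * R.ch g ≤ 0
  t3 : ∀ g : Sy, SyOk p g → g.2 % 2 = 1 → 3 ≤ g.2 →
    R.τ g 0 * R.ch g ≤ rn (nW (phi p) v g) (nEx + 1) ∧ 1 ≤ R.τ g (N.N g)
  H3 : ∀ g : Sy, SyOk p g → g.2 % 2 = 1 → 3 ≤ g.2 → 0 < R.H g ∧
    R.H g ≤ h1 (nW (phi p) v g) (nEx + 1)
  rr : 1 / 3 ≤ R.rr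
  bcov : N.gb = true → ∀ n, N.nB < n → ∃ i < N.NB, R.bc i n

/-- start and end at a point -/
structure PtS {γ δ ε : Type} (D : CovD γ δ ε) (v : V3) (K : ℕ → Mt) (a0 : Sy) (U : Fin 3 → V3)
    (y0 : V3) (bd : ℝ) : Prop where
  stU : ∀ i, U i ∈ NZ (K (leF D (sc a0)))
  doU : ∀ b, SyOk D.p b → ∀ y ∈ NZ (K (leF D (sc b))), ∀ i,
    ‖y‖ ≤ bd * ‖brJ 1 ((rfJ 1 v).mulVec (U i)) y‖
  enY : y0 ∈ NZ (K (leF D (sc (syi D.p a0))))
  doY : ∀ b, SyOk D.p b → ∀ u ∈ NZ (K (leF D (sc b))),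
    ‖u‖ ≤ bd * ‖brJ 1 ((rfJ 1 v).mulVec u) y0‖

theorem leG_bd {γ δ ε : Type} (D : CovD γ δ ε) (X : ℕ → Mt) :
    ∃ g : ℝ, ∀ c i j, ‖X (leG D c) i j‖ ≤ g := by
  unfold leG
  generalize D.le = l
  have base : ∀ n : ℕ, ∃ g : ℝ, ∀ i j, ‖X n i j‖ ≤ g := fun n =>
    ⟨∑ i, ∑ j, ‖X n i j‖, fun i j => by
      have h1 : ‖X n i j‖ ≤ ∑ j, ‖X n i j‖ :=
        Finset.single_le_sum (f := fun j => ‖X n i j‖) (fun _ _ => norm_nonneg _)
          (Finset.mem_univ j)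
      have h2 : ∑ j, ‖X n i j‖ ≤ ∑ i, ∑ j, ‖X n i j‖ :=
        Finset.single_le_sum (f := fun i => ∑ j, ‖X n i j‖)
          (fun _ _ => Finset.sum_nonneg (fun _ _ => norm_nonneg _)) (Finset.mem_univ i)
      exact h1.trans h2⟩
  induction l with
  | nil =>
    obtain ⟨g, hg⟩ := base 0
    exact ⟨g, fun c i j => by simpa using hg i j⟩
  | cons e l ih =>
    obtain ⟨g, hg⟩ := ih
    obtain ⟨g', hg'⟩ := base e.gc
    refine ⟨max g g', fun c i j => ?_⟩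
    cases c with
    | zero => exact (hg' i j).trans (le_max_right _ _)
    | succ c => exact (by simpa using hg c i j : _ ≤ g).trans (le_max_left _ _)

instance : Nonempty RPar := ⟨⟨fun _ _ => 0, fun _ => 0, fun _ => 0, 0, fun _ _ => False⟩⟩

/-- **A WINDOW FROM THE ITEMS** -/
theorem win_items (hNR1 : ST_NR1) {γ δ ε : Type} {p q r : ℕ} (hp : 3 ≤ p) (hpq : p ≤ q)
    (hqr : q ≤ r) (hr4 : 4 ≤ r) {Y : BSys p q r} {D : CovD γ δ ε} (hY : BPr Y D.gb)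
    (hD : ck D = true) (hDp : D.p = p) {a b : ℝ} (hA : xA p q r ≤ a) (hab : a < b) (hb : b < 2)
    (S0 : Mt) (X : ℕ → Mt) (U : Fin 3 → V3) (hU : LinearIndependent ℂ U) (y0 : V3) (bd : ℝ)
    (h : ∀ x ∈ Set.Ioo a b, ∃ (R : RPar) (K : ℕ → Mt),
      PtR p (vC p (cW p q r x) (Kp q ^ 2) (Kp r ^ 2)) (cpar D) R ∧
      PtI D (vC p (cW p q r x) (Kp q ^ 2) (Kp r ^ 2)) (wC p (cW p q r x) (Kp q ^ 2) (Kp r ^ 2))
        R K S0 X ∧
      PtS D (vC p (cW p q r x) (Kp q ^ 2) (Kp r ^ 2)) K Y.a0 U y0 bd) : Win p q r a b := by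
  have hq : 3 ≤ q := hp.trans hpq
  have hr : 3 ≤ r := hq.trans hqr
  have h1 : -2 < a := lt_of_lt_of_le (xA_gt hp hq hqr) hA
  have hck := ck_sound hD
  choose! R K h2 h3 h4 using h
  obtain ⟨g1, hg1⟩ := leG_bd D X
  obtain ⟨g2, hg2⟩ := leG_bd D (fun n => adJ (X n))
  obtain ⟨g3, hg3⟩ : ∃ g : ℝ, ∀ i j, ‖S0 i j‖ ≤ g := by
    refine ⟨∑ i, ∑ j, ‖S0 i j‖, fun i j => ?_⟩
    have h1 : ‖S0 i j‖ ≤ ∑ j, ‖S0 i j‖ :=
      Finset.single_le_sum (f := fun j => ‖S0 i j‖) (fun _ _ => norm_nonneg _)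
        (Finset.mem_univ j)
    have h2 : ∑ j, ‖S0 i j‖ ≤ ∑ i, ∑ j, ‖S0 i j‖ :=
      Finset.single_le_sum (f := fun i => ∑ j, ‖S0 i j‖)
        (fun _ _ => Finset.sum_nonneg (fun _ _ => norm_nonneg _)) (Finset.mem_univ i)
    exact h1.trans h2
  refine star_certC hp hq hr Y h1 hab hb
    (fun x hx => st_TPO p q r hp hpq hqr hr4 x (hA.trans hx.1) (hx.2.trans_lt hb))
    (fun x s => K x (leF D (sc s))) (fun _ s t => gS p S0 X (fun s => leG D (sc s)) s t)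
    (g3 + g1 + g2) (fun x hx e f i j => ?_) U hU y0 bd (fun x hx => ?_)
  · show ‖(S0 + X (leG D (sc e)) - adJ (X (leG D (sc (syi p f))))) i j‖ ≤ _
    rw [Matrix.sub_apply, Matrix.add_apply]
    have k1 := hg3 i j
    have k2 := hg1 (sc e) i j
    have k3 := hg2 (sc (syi p f)) i j
    exact (norm_sub_le _ _).trans (add_le_add ((norm_add_le _ _).trans (add_le_add k1 k2)) k3)
  · obtain ⟨_, _, e1, e2, e3, e4⟩ := ptF_k hp hpq hqr hr4 (hA.trans hx.1.le) (hx.2.trans hb)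
    have hR := h2 x hx
    have s := h4 x hx
    have hN : ∀ g, SyOk p g → g.2 % 2 = 1 → 0 < (cpar D).N g := by
      have := hck.pos
      rwa [hDp] at this
    have F : PtF p q r (vC p (cW p q r x) (Kp q ^ 2) (Kp r ^ 2))
        (wC p (cW p q r x) (Kp q ^ 2) (Kp r ^ 2)) (cpar D) (R x) :=
      ⟨e1, e2, e3, e4, hR.c1, fun a => ⟨hN (a, 1) ⟨le_rfl, by show 1 ≤ p; omega,
        fun _ => by show 1 < p; omega⟩ (by norm_num), hR.t1 a⟩, hR.c3,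
        fun g hg ho hk => ⟨hN g hg ho, hR.t3 g hg ho hk⟩, hR.H3, hR.rr, hR.bcov⟩
    have hs2 := s.doU
    have hs3 := s.enY
    have hs4 := s.doY
    rw [hDp] at hs2 hs3 hs4
    exact snk_of hNR1 hp hq hr hY hck hDp F (h3 x hx) s.stU hs2 hs3 hs4

end Pool.Agent.Helper6.MONO.W2
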