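import Pool.Agent.Helper12.CW.GN3
import Pool.Agent.Helper12.CW.NFC

/-!
Plan W (MP_c75db0): run-length types: A WINDOW FROM THE ITEMS AT ALL ITS POINTS.
-/

set_option autoImplicit false
noncomputable section
namespace Pool.Agent.Helper6.MONO.W2.TY

open Matrix Filter Topology Pool.Agent.Helper12.NKT

/-- parts of rotations -/
def pk : Prt → Bool
  | Prt.rot => true
  | Prt.bx _ => true
  | Prt.bt _ => true
  | _ => false

theorem prtsT_pk {N : NPar} {nx m : ℕ} {hz : Bool} {g : Sy} {f : ℕ} {P : Prt}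
    (h : P ∈ prtsT N nx hz m g f) :
    pk P = (g.2 % 2 == 0) := by
  unfold prtsT at h
  by_cases he : g.2 % 2 = 0
  · rw [if_pos he] at h
    have e : (g.2 % 2 == 0) = true := by simp [he]
    rw [e]
    split_ifs at h
    · rw [List.mem_append, List.mem_map, List.mem_map] at h
      rcases h with ⟨n, _, rfl⟩ | ⟨n, _, rfl⟩ <;> rfl
    · rw [List.mem_singleton] at h
      rw [h]
      rfl
    · rw [List.mem_singleton] at h
      rw [h]
      rfl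
  · rw [if_neg he] at h
    have e : (g.2 % 2 == 0) = false := by simp [he]
    rw [e]
    by_cases hm : m ≤ f
    · rw [if_pos hm] at h
      by_cases hk : g.2 = 1
      · rw [if_pos hk, List.mem_map] at h
        obtain ⟨n, _, rfl⟩ := h
        rfl
      · rw [if_neg hk, List.mem_append, List.mem_append, List.mem_append] at h
        rcases h with ((h | h) | h) | h
        · obtain ⟨n, _, rfl⟩ := List.mem_map.1 h
          rfl
        · obtain ⟨n, _, rfl⟩ := List.mem_map.1 h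
          rfl
        · cases hz with
          | true =>
            rw [if_pos rfl] at h
            exact absurd h (by simp)
          | false =>
            rw [if_neg Bool.false_ne_true] at h
            obtain ⟨n, _, rfl⟩ := List.mem_map.1 h
            rfl
        · obtain ⟨n, _, rfl⟩ := List.mem_map.1 h
          rfl
    · rw [if_neg hm, List.mem_singleton] at h
      rw [h]
      rfl

/-- reversal of an item -/
theorem sat_rev' {R : RPar} {p : ℕ} (hp : 3 ≤ p) {v vd : V3} (h : brJ 1 v v = 2)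
    (h' : (brJ 1 vd v).re = 0) {g : Sy} {P : Prt} (hP : pk P = (g.2 % 2 == 0)) {K1 K2 S S' : Mt}
    (H : sat R (phi p) v vd (syi p g) P K1 K2 S S') :
    sat R (phi p) v vd g P K2 K1 (-adJ S') (-adJ S) := by
  have self : ∀ (M D : Mt), adJ M = M → adJ D = D → NT K1 K2 (nX v vd M D S S') M →
      NT K2 K1 (nX v vd M D (-adJ S') (-adJ S)) M := by
    intro M D e1 e2 h3
    have h4 := NT.rev h h' h3
    rwa [e1, e2] at h4
  have run : ∀ n : ℕ, NT K1 K2 (nX v vd (nM (phi p) v (syi p g).1 (syi p g).2 n)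
      (nMd (phi p) v vd (syi p g).1 (syi p g).2 n) S S') (nM (phi p) v (syi p g).1 (syi p g).2 n) →
      NT K2 K1 (nX v vd (nM (phi p) v g.1 g.2 n) (nMd (phi p) v vd g.1 g.2 n) (-adJ S') (-adJ S))
        (nM (phi p) v g.1 g.2 n) := by
    intro n h3
    have h4 := NT.rev h h' h3
    rw [adJ_nM hp, adJ_nMd hp, syi_syi] at h4
    exact h4
  by_cases hg : g.2 % 2 = 0
  · have e : (g.2 % 2 == 0) = true := by simp [hg]
    rw [e] at hP
    cases P with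
    | rot =>
      have h3 := NT.rev h h' H
      rw [adJ_zero, adJ_sDm hp, syi_syi] at h3
      exact h3
    | bx n => exact run _ H
    | bt i => exact fun n b => run _ (H n b)
    | ex n => exact absurd hP (by simp [pk])
    | pc i => exact absurd hP (by simp [pk])
    | v0 i => exact absurd hP (by simp [pk])
    | v1 i => exact absurd hP (by simp [pk])
    | rc i => exact absurd hP (by simp [pk])
  · have e : (g.2 % 2 == 0) = false := by simp [hg]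
    rw [e] at hP
    have hs : syi p g = g := syi_of_odd p g (by omega)
    rw [hs] at H
    cases P with
    | rot => exact absurd hP (by simp [pk])
    | bx n => exact absurd hP (by simp [pk])
    | bt n => exact absurd hP (by simp [pk])
    | ex n => exact self _ _ (adJ_rM _ _ _ _) (adJ_rD _ _ _ _ _ _ _) H
    | pc i => exact fun t b1 b2 => self _ _ (adJ_rM _ _ _ _) (adJ_rD _ _ _ _ _ _ _) (H t b1 b2)
    | v0 i => exact fun t b1 b2 => self _ _ (adJ_rM _ _ _ _) (adJ_rD _ _ _ _ _ _ _) (H t b1 b2)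
    | v1 i => exact fun t b1 b2 => self _ _ (adJ_rM _ _ _ _) (adJ_rD _ _ _ _ _ _ _) (H t b1 b2)
    | rc i =>
      intro t b1 b2
      have h3 := st_NTC K1 K2 _ _ (H t b1 b2)
      have e1 : J1 * (rM (phi p) v g (t * R.ch g)).conjTranspose * J1 =
          rM (phi p) v g (t * R.ch g) := adJ_rM _ _ _ _
      have e2 : J1 * (rM (phi p) v g (t * R.ch g) +
          ((R.rr : ℝ) : ℂ) • rMr (phi p) v g (t * R.ch g)).conjTranspose * J1 =
          rM (phi p) v g (t * R.ch g) + ((R.rr : ℝ) : ℂ) • rMr (phi p) v g (t * R.ch g) := by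
        show adJ _ = _
        rw [adJ_add, adJ_smul, adJ_rM, adJ_rMr]
      rw [e1, e2] at h3
      exact h3

/-- form of a type (code), class of the gauge of a type, class of a form -/
def leF {γ δ ε : Type} (D : CovD γ δ ε) (c : ℕ) : ℕ := (D.le.getD c ⟨0, 0, 0⟩).F
def leG {γ δ ε : Type} (D : CovD γ δ ε) (c : ℕ) : ℕ := (D.le.getD c ⟨0, 0, 0⟩).gc
def fmC {γ δ ε : Type} (D : CovD γ δ ε) (i : ℕ) : ℕ := (D.fm.getD i dfF).cl

/-- the parameters of the families at a point: what the tests have to give -/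
structure PtR {γ δ ε : Type} (D : CovD γ δ ε) (v : V3) (R : RPar) : Prop where
  c1 : ∀ a, R.ch (a, 1) = nW (phi D.p) v (a, 1) / 2
  t1 : ∀ a, R.τ (a, 1) 0 * R.ch (a, 1) ≤ rn (nW (phi D.p) v (a, 1)) (cmx D (a, 1) + 1) ∧
    1 ≤ R.τ (a, 1) ((cpar D).N (a, 1))
  s1 : ∀ a, R.τ (a, 1) (coi D (a, 1)) * R.ch (a, 1) ≤
      rn (nW (phi D.p) v (a, 1)) (cmx D (a, 1) + 1) ∧
    1 ≤ R.τ (a, 1) (coi D (a, 1) + cqi D (a, 1))
  c3 : ∀ g : Sy, SyOk D.p g → g.2 % 2 = 1 → 3 ≤ g.2 → 0 < R.ch g ∧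
    nW (phi D.p) v g + R.ch g ^ 2 - nW (phi D.p) v g * R.ch g ≤ 0
  t3 : ∀ g : Sy, SyOk D.p g → g.2 % 2 = 1 → 3 ≤ g.2 →
    R.τ g 0 * R.ch g ≤ rn (nW (phi D.p) v g) (cnx D g + 1) ∧ 1 ≤ R.τ g ((cpar D).N g)
  s3 : ∀ g : Sy, SyOk D.p g → g.2 % 2 = 1 → 3 ≤ g.2 →
    R.τ g (coi D g) * R.ch g ≤ rn (nW (phi D.p) v g) (cnx D g + 1) ∧
    1 ≤ R.τ g (coi D g + cqi D g)
  H3 : ∀ g : Sy, SyOk D.p g → g.2 % 2 = 1 → 3 ≤ g.2 → 0 ≤ R.H g ∧
    R.H g ≤ h1 (nW (phi D.p) v g) (cnx D g + 1)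
  h0 : ∀ g : Sy, SyOk D.p g → g.2 % 2 = 1 → 3 ≤ g.2 → chz D g = true → R.H g = 0
  rr : 1 / 3 ≤ R.rr
  bcov : D.gb = true → ∀ n, D.nB < n → ∃ i < D.NB, R.bc i n

/-- the same with the sharp upper end `ρ ≤ w - κ` for the stars (`2 n + 1 ≤` order): here
`ch (a, 1)` is free, e.g. a chord of `w - √w` -/
structure PtK {γ δ ε : Type} (D : CovD γ δ ε) (v : V3) (R : RPar) : Prop where
  c1 : ∀ a, 0 < R.ch (a, 1)
  t1 : ∀ a, R.τ (a, 1) 0 * R.ch (a, 1) ≤ rn (nW (phi D.p) v (a, 1)) (cmx D (a, 1) + 1) ∧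
    nW (phi D.p) v (a, 1) - ‖nc (phi D.p) v a 1‖ ≤
      R.τ (a, 1) ((cpar D).N (a, 1)) * R.ch (a, 1)
  s1 : ∀ a, R.τ (a, 1) (coi D (a, 1)) * R.ch (a, 1) ≤
      rn (nW (phi D.p) v (a, 1)) (cmx D (a, 1) + 1) ∧
    nW (phi D.p) v (a, 1) - ‖nc (phi D.p) v a 1‖ ≤
      R.τ (a, 1) (coi D (a, 1) + cqi D (a, 1)) * R.ch (a, 1)
  c3 : ∀ g : Sy, SyOk D.p g → g.2 % 2 = 1 → 3 ≤ g.2 → 0 < R.ch g ∧
    nW (phi D.p) v g + R.ch g ^ 2 - nW (phi D.p) v g * R.ch g ≤ 0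
  t3 : ∀ g : Sy, SyOk D.p g → g.2 % 2 = 1 → 3 ≤ g.2 →
    R.τ g 0 * R.ch g ≤ rn (nW (phi D.p) v g) (cnx D g + 1) ∧ 1 ≤ R.τ g ((cpar D).N g)
  s3 : ∀ g : Sy, SyOk D.p g → g.2 % 2 = 1 → 3 ≤ g.2 →
    R.τ g (coi D g) * R.ch g ≤ rn (nW (phi D.p) v g) (cnx D g + 1) ∧
    1 ≤ R.τ g (coi D g + cqi D g)
  H3 : ∀ g : Sy, SyOk D.p g → g.2 % 2 = 1 → 3 ≤ g.2 → 0 ≤ R.H g ∧
    R.H g ≤ h1 (nW (phi D.p) v g) (cnx D g + 1)
  h0 : ∀ g : Sy, SyOk D.p g → g.2 % 2 = 1 → 3 ≤ g.2 → chz D g = true → R.H g = 0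
  rr : 1 / 3 ≤ R.rr
  bcov : D.gb = true → ∀ n, D.nB < n → ∃ i < D.NB, R.bc i n

/-- from the half of the product -/
theorem PtR.toK {γ δ ε : Type} {D : CovD γ δ ε} {v : V3} {R : RPar} (h : PtR D v R)
    (hκ : ∀ a, 0 < ‖nc (phi D.p) v a 1‖ ∧ ‖nc (phi D.p) v a 1‖ ≤ 2) : PtK D v R := by
  have e : ∀ a, nW (phi D.p) v (a, 1) = ‖nc (phi D.p) v a 1‖ ^ 2 := fun a => rfl
  have key : ∀ (a : Bool) (τ : ℝ), 1 ≤ τ →
      nW (phi D.p) v (a, 1) - ‖nc (phi D.p) v a 1‖ ≤ τ * R.ch (a, 1) := by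
    intro a τ h1
    obtain ⟨k1, k2⟩ := hκ a
    have h2 : 0 < R.ch (a, 1) := by
      rw [h.c1 a, e a]
      positivity
    have h3 : R.ch (a, 1) ≤ τ * R.ch (a, 1) := by nlinarith
    refine le_trans ?_ h3
    rw [h.c1 a, e a]
    nlinarith
  refine ⟨fun a => ?_, fun a => ⟨(h.t1 a).1, key a _ (h.t1 a).2⟩,
    fun a => ⟨(h.s1 a).1, key a _ (h.s1 a).2⟩, h.c3, h.t3, h.s3, h.H3, h.h0, h.rr, h.bcov⟩
  rw [h.c1 a, e a]
  have := (hκ a).1
  positivity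

/-- ALL ITEMS at a point -/
structure PtI {γ δ ε : Type} (D : CovD γ δ ε) (v vd : V3) (R : RPar) (K : ℕ → Mt) (S0 : Mt)
    (X : ℕ → Mt) : Prop where
  hS0 : adJ S0 = -S0
  it : ∀ L ∈ D.it, ∀ Q ∈ L.ps, ∀ e ∈ Q.2,
    sat R (phi D.p) v vd (cs (L.g % 32)) (Pd Q.1) (K e.1) (K e.2.1)
      (S0 + X (fmC D e.1) - adJ (X (leG D (siT D.p L.g))))
      (S0 + X (leG D L.g) - adJ (X (fmC D e.2.1)))
  i1 : ∀ L ∈ D.i1, ∀ Q ∈ L.ps, ∀ e ∈ Q.2,
    sati R (phi D.p) v (cs (L.g % 32)) (Pd Q.1) (K e.1) (K (leF D L.g))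
  inc : ∀ i, ∀ e ∈ (D.fm.getD i dfF).inc, NZ (K e.1) ⊆ NZ (K i)

/-- start and end at a point -/
structure PtS {γ δ ε : Type} (D : CovD γ δ ε) (v : V3) (K : ℕ → Mt) (a0 : Sy) (U : Fin 3 → V3)
    (y0 : V3) (bd : ℝ) : Prop where
  stU : ∀ i, U i ∈ NZ (K (leF D (sc a0)))
  doU : ∀ b, TyOk D.p (cmx D) b → ∀ y ∈ NZ (K (leF D (tc b))), ∀ i,
    ‖y‖ ≤ bd * ‖brJ 1 ((rfJ 1 v).mulVec (U i)) y‖
  enY : y0 ∈ NZ (K (leF D (sc (syi D.p a0))))
  doY : ∀ b, TyOk D.p (cmx D) b → ∀ u ∈ NZ (K (leF D (tc b))),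
    ‖u‖ ≤ bd * ‖brJ 1 ((rfJ 1 v).mulVec u) y0‖

theorem mem_form {γ δ ε : Type} {D : CovD γ δ ε} (hD : CkOk D) {K : ℕ → Mt}
    (inc : ∀ i, ∀ e ∈ (D.fm.getD i dfF).inc, NZ (K e.1) ⊆ NZ (K i)) {s : Sy × ℕ}
    (hs : TyOk D.p (cmx D) s) : ∀ {i : ℕ}, (D.fm.getD i dfF).me.testBit (tc s) = true →
    (fmC D i = 255 ∨ leG D (tc s) = fmC D i) ∧ NZ (K (leF D (tc s))) ⊆ NZ (K i) := by
  intro i
  induction i using Nat.strong_induction_on with
  | _ i ih =>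
    intro h
    obtain ⟨k1, k2⟩ := sc_b hs.1
    obtain ⟨k3, k4⟩ := tc_mod hD.p15 hs.1
    have k5 := (hD.mx3 s.1 hs.1).1
    have k6 := hs.2
    obtain ⟨h1, h2⟩ := (hD.fm i).2.2 (tc s) (by omega) h
    refine ⟨h1, ?_⟩
    rcases h2 with h2 | ⟨e, he, h2 | ⟨h2, h3⟩⟩
    · have : leF D (tc s) = i := h2
      rw [this]
    · have : leF D (tc s) = e.1 := h2.symm
      rw [this]
      exact inc i e he
    · exact ((ih e.1 h2 h3).2).trans (inc i e he)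

/-- the recession test has no gauge -/
theorem sat_rc {R : RPar} {φ : ℝ} {v vd : V3} {g : Sy} {P : Prt} (hP : isR P = true)
    {K1 K2 S S' T T' : Mt} (h : sat R φ v vd g P K1 K2 S S') : sat R φ v vd g P K1 K2 T T' := by
  cases P with
  | rc i => exact h
  | rot => exact absurd hP (by simp [isR])
  | ex i => exact absurd hP (by simp [isR])
  | pc i => exact absurd hP (by simp [isR])
  | v0 i => exact absurd hP (by simp [isR])
  | v1 i => exact absurd hP (by simp [isR])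
  | bx i => exact absurd hP (by simp [isR])
  | bt i => exact absurd hP (by simp [isR])

/-- the largest classes as a function on all syllables -/
def mxT {γ δ ε : Type} (D : CovD γ δ ε) (g : Sy) : ℕ :=
  open Classical in if SyOk D.p g then cmx D g else 0

theorem mxT_ok {γ δ ε : Type} {D : CovD γ δ ε} {g : Sy} (h : SyOk D.p g) :
    mxT D g = cmx D g := by
  unfold mxT
  exact if_pos h

theorem mxT_3 {γ δ ε : Type} {D : CovD γ δ ε} (hD : CkOk D) (g : Sy) : mxT D g ≤ 3 := by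
  unfold mxT
  split_ifs with h
  · exact (hD.mx3 g h).1
  · omega

theorem mxT_s {γ δ ε : Type} {D : CovD γ δ ε} (hD : CkOk D) (g : Sy) :
    mxT D (syi D.p g) = mxT D g := by
  by_cases h : SyOk D.p g
  · rw [mxT_ok h, mxT_ok (syi_okN h)]
    exact (hD.mx3 g h).2
  · have h' : ¬ SyOk D.p (syi D.p g) := by
      intro h2
      apply h
      have := syi_okN h2
      rwa [syi_syi] at this
    unfold mxT
    rw [if_neg h, if_neg h']

theorem TyOk_T {γ δ ε : Type} {D : CovD γ δ ε} {s : Sy × ℕ} (h : TyOk D.p (mxT D) s) :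
    TyOk D.p (cmx D) s := ⟨h.1, by rw [← mxT_ok h.1]; exact h.2⟩

/-- ALL ITEMS GIVE THE CERTIFICATE -/
theorem sng_of (hNR1 : ST_NR1) {γ δ ε : Type} {q r : ℕ} {D : CovD γ δ ε} (hp : 3 ≤ D.p)
    (hq : 3 ≤ q) (hr : 3 ≤ r) {Y : BSys D.p q r} (hY : BPr Y D.gb) (hD : CkOk D)
    {v vd : V3} {R : RPar} (F : PtG D.p q r v vd (cpar D) R (mxT D) (cnx D) (chz D)
      (cqi D) (coi D)) {K : ℕ → Mt} {S0 : Mt}
    {X : ℕ → Mt} (I : PtI D v vd R K S0 X) {U : Fin 3 → V3} {y0 : V3} {bd : ℝ}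
    (Z : PtS D v K Y.a0 U y0 bd) :
    SNG (gsys Y (mxT D) (mxT_3 hD) (mxT_s hD)) v vd (fun s => K (leF D (tc s)))
      (fun s t => S0 + X (leG D (tc s)) - adJ (X (leG D (tc (syi D.p t.1, t.2))))) U y0 bd := by
  have hgp : ∀ s : Sy, W2.gp D.gb s ↔ gp D.gb s := fun s => Iff.rfl
  refine ⟨?_, ?_, ?_, ?_, ?_, ?_⟩
  · intro β u hu
    obtain ⟨hg, hn⟩ := Y.okc β.1.1
    set g := (Y.cur β.1.1).sy with hgdef
    set n := (Y.cur β.1.1).n with hndef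
    refine IN_allT hNR1 F hq hr hg (K1 := K (leF D (tc (Y.prev β.1.1, β.1.2.1))))
      (Kt := K (leF D (tc (g, cls (mxT D) g n)))) hn ?_ (hY.ev β.1.1) (hY.run β.1.1) u hu
    intro P hP
    have hcl : cls (mxT D) g n ≤ cmx D g := by
      rw [← mxT_ok hg]
      exact min_le_right _ _
    rw [mxT_ok hg] at hP
    obtain ⟨L, hL, e1, Q, hQ, e2, e, he, hb⟩ := hD.c1 _ hg _ hcl P hP
      (Y.prev β.1.1, β.1.2.1) (TyOk_T ⟨Y.okp β.1.1, β.2.1⟩) (hY.ne1 β.1.1)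
    have h1 := I.i1 L hL Q hQ e he
    have e3 : L.g % 32 = sc g := by rw [e1]; exact (tc_mod hD.p15 hg).1
    rw [e3, cs_sc, e2, e1] at h1
    exact sati_mono h1 (mem_form hD I.inc (TyOk_T ⟨Y.okp β.1.1, β.2.1⟩) hb).2
  · intro β
    obtain ⟨hg, hn⟩ := Y.okc β.1.1
    set g := (Y.cur β.1.1).sy with hgdef
    set n := (Y.cur β.1.1).n with hndef
    refine NT_allT hNR1 F hq hr hg hn ?_ (hY.ev β.1.1) (hY.run β.1.1)
    intro P hP
    have hcl : cls (mxT D) g n ≤ cmx D g := by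
      rw [← mxT_ok hg]
      exact min_le_right _ _
    have hpk := prtsT_pk hP
    rw [mxT_ok hg] at hP
    have hsO : TyOk D.p (cmx D) (Y.prev β.1.1, β.1.2.1) := TyOk_T ⟨Y.okp β.1.1, β.2.1⟩
    have htO : TyOk D.p (cmx D) (syi D.p (Y.next β.1.1), β.1.2.2) :=
      TyOk_T ⟨syi_okN (Y.okn β.1.1), by
        show β.1.2.2 ≤ mxT D (syi D.p (Y.next β.1.1))
        rw [mxT_s hD]
        exact β.2.2⟩
    have hnt : ¬ (syi D.p (Y.next β.1.1) = syi D.p g ∧ gp D.gb g) := by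
      rintro ⟨h1, h2⟩
      have h3 : Y.next β.1.1 = g := by
        rw [← syi_syi D.p (Y.next β.1.1), h1, syi_syi]
      exact hY.ne2 β.1.1 ⟨h3.symm, h2⟩
    obtain ⟨L, hL, Q, hQ, e2, e, he, hw, hb⟩ := hD.c2 _ hg _ hcl P hP _ hsO (hY.ne1 β.1.1) _ htO
      hnt
    have h1 := I.it L hL Q hQ e he
    rw [e2] at h1
    rcases hb with ⟨e1, b1, b2⟩ | ⟨e1, b1, b2⟩
    · obtain ⟨c1, i1⟩ := mem_form hD I.inc hsO b1
      obtain ⟨c2, i2⟩ := mem_form hD I.inc htO b2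
      have e3 : L.g % 32 = sc g := by rw [e1]; exact (tc_mod hD.p15 hg).1
      rcases hw with hw | ⟨w1, w2⟩
      · rw [e3, cs_sc] at h1
        exact sat_rc hw (sat_mono h1 i1 i2)
      replace c1 := c1.resolve_left w1
      replace c2 := c2.resolve_left w2
      rw [e3, cs_sc, e1, siT_tc hD.p15 (t := (g, cls (mxT D) g n)) hg, ← c1, ← c2] at h1
      exact sat_mono h1 i1 i2
    · obtain ⟨c1, i1⟩ := mem_form hD I.inc htO b1
      obtain ⟨c2, i2⟩ := mem_form hD I.inc hsO b2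
      have hg' : SyOk D.p (syi D.p g) := syi_okN hg
      have e3 : L.g % 32 = sc (syi D.p g) := by rw [e1]; exact (tc_mod hD.p15 hg').1
      rcases hw with hw | ⟨w1, w2⟩
      · rw [e3, cs_sc] at h1
        exact sat_rc hw (sat_rev' hp F.two F.tan hpk (sat_mono h1 i1 i2))
      replace c1 := c1.resolve_left w1
      replace c2 := c2.resolve_left w2
      rw [e3, cs_sc, e1, siT_tc hD.p15 (t := (syi D.p g, cls (mxT D) g n)) hg', ← c1,
        ← c2] at h1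
      have e7 : (syi D.p (syi D.p g), cls (mxT D) g n) = (g, cls (mxT D) g n) := by
        rw [syi_syi]
      rw [e7] at h1
      have h2 := sat_rev' hp F.two F.tan hpk (sat_mono h1 i1 i2)
      have e5 : -adJ (S0 + X (leG D (tc (syi D.p g, cls (mxT D) g n))) -
          adJ (X (leG D (tc (Y.prev β.1.1, β.1.2.1))))) =
          S0 + X (leG D (tc (Y.prev β.1.1, β.1.2.1))) -
            adJ (X (leG D (tc (syi D.p g, cls (mxT D) g n)))) := by
        rw [adJ_sub, adJ_add, adJ_adJ, I.hS0]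
        abel
      have e6 : -adJ (S0 + X (leG D (tc (syi D.p (Y.next β.1.1), β.1.2.2))) -
          adJ (X (leG D (tc (g, cls (mxT D) g n))))) =
          S0 + X (leG D (tc (g, cls (mxT D) g n))) -
            adJ (X (leG D (tc (syi D.p (Y.next β.1.1), β.1.2.2)))) := by
        rw [adJ_sub, adJ_add, adJ_adJ, I.hS0]
        abel
      rw [e5, e6] at h2
      exact h2
  · intro i
    have := Z.stU i
    exact this
  · intro b hb y hy i
    exact Z.doU b (TyOk_T hb) y hy i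
  · exact Z.enY
  · intro b hb u hu
    exact Z.doY b (TyOk_T hb) u hu

theorem leG_bd {γ δ ε : Type} (D : CovD γ δ ε) (X : ℕ → Mt) :
    ∃ g : ℝ, ∀ c i j, ‖X (leG D c) i j‖ ≤ g := by
  unfold leG
  generalize D.le = l
  have base : ∀ n : ℕ, ∃ g : ℝ, ∀ i j, ‖X n i j‖ ≤ g := fun n =>
    ⟨∑ i, ∑ j, ‖X n i j‖, fun i j => by
      have h1 : ‖X n i j‖ ≤ ∑ j, ‖X n i j‖ :=
        Finset.single_le_sum (f := fun j => ‖X n i j‖) (fun _ _ => norm_nonneg _)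
          (Finset.mem_univ j)
      have h2 : ∑ j, ‖X n i j‖ ≤ ∑ i, ∑ j, ‖X n i j‖ :=
        Finset.single_le_sum (f := fun i => ∑ j, ‖X n i j‖)
          (fun _ _ => Finset.sum_nonneg (fun _ _ => norm_nonneg _)) (Finset.mem_univ i)
      exact h1.trans h2⟩
  induction l with
  | nil =>
    obtain ⟨g, hg⟩ := base 0
    exact ⟨g, fun c i j => by simpa using hg i j⟩
  | cons e l ih =>
    obtain ⟨g, hg⟩ := ih
    obtain ⟨g', hg'⟩ := base e.gc
    refine ⟨max g g', fun c i j => ?_⟩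
    cases c with
    | zero => exact (hg' i j).trans (le_max_right _ _)
    | succ c => exact (by simpa using hg c i j : _ ≤ g).trans (le_max_left _ _)

/-- **A WINDOW FROM THE ITEMS**, sharp form for the stars -/
theorem win_itemsK (hNR1 : ST_NR1) {γ δ ε : Type} {D : CovD γ δ ε} {q r : ℕ} (hp : 3 ≤ D.p)
    (hpq : D.p ≤ q) (hqr : q ≤ r) (hr4 : 4 ≤ r) {Y : BSys D.p q r} (hY : BPr Y D.gb)
    (hD : ck D = true) {a b : ℝ} (hA : xA D.p q r ≤ a) (hab : a < b) (hb : b < 2)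
    (S0 : Mt) (X : ℕ → Mt) (U : Fin 3 → V3) (hU : LinearIndependent ℂ U) (y0 : V3) (bd : ℝ)
    (h : ∀ x ∈ Set.Ioo a b, ∃ (R : RPar) (K : ℕ → Mt),
      PtK D (vC D.p (cW D.p q r x) (Kp q ^ 2) (Kp r ^ 2)) R ∧
      PtI D (vC D.p (cW D.p q r x) (Kp q ^ 2) (Kp r ^ 2))
        (wC D.p (cW D.p q r x) (Kp q ^ 2) (Kp r ^ 2)) R K S0 X ∧
      PtS D (vC D.p (cW D.p q r x) (Kp q ^ 2) (Kp r ^ 2)) K Y.a0 U y0 bd) :
    Win D.p q r a b := by
  have hq : 3 ≤ q := hp.trans hpq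
  have hr : 3 ≤ r := hq.trans hqr
  have h1 : -2 < a := lt_of_lt_of_le (xA_gt hp hq hqr) hA
  have hck := ck_sound hD
  choose! R K h2 h3 h4 using h
  obtain ⟨g1, hg1⟩ := leG_bd D X
  obtain ⟨g2, hg2⟩ := leG_bd D (fun n => adJ (X n))
  obtain ⟨g3, hg3⟩ : ∃ g : ℝ, ∀ i j, ‖S0 i j‖ ≤ g := by
    refine ⟨∑ i, ∑ j, ‖S0 i j‖, fun i j => ?_⟩
    have h1 : ‖S0 i j‖ ≤ ∑ j, ‖S0 i j‖ :=
      Finset.single_le_sum (f := fun j => ‖S0 i j‖) (fun _ _ => norm_nonneg _)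
        (Finset.mem_univ j)
    have h2 : ∑ j, ‖S0 i j‖ ≤ ∑ i, ∑ j, ‖S0 i j‖ :=
      Finset.single_le_sum (f := fun i => ∑ j, ‖S0 i j‖)
        (fun _ _ => Finset.sum_nonneg (fun _ _ => norm_nonneg _)) (Finset.mem_univ i)
    exact h1.trans h2
  refine star_certGC hp hq hr (gsys Y (mxT D) (mxT_3 hck) (mxT_s hck)) h1 hab hb
    (fun x hx => st_TPO D.p q r hp hpq hqr hr4 x (hA.trans hx.1) (hx.2.trans_lt hb))
    (fun x s => K x (leF D (tc s)))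
    (fun _ s t => S0 + X (leG D (tc s)) - adJ (X (leG D (tc (syi D.p t.1, t.2)))))
    (g3 + g1 + g2) (fun x hx e f i j => ?_) U hU y0 bd (fun x hx => ?_)
  · show ‖(S0 + X (leG D (tc e)) - adJ (X (leG D (tc (syi D.p f.1, f.2))))) i j‖ ≤ _
    rw [Matrix.sub_apply, Matrix.add_apply]
    have k1 := hg3 i j
    have k2 := hg1 (tc e) i j
    have k3 := hg2 (tc (syi D.p f.1, f.2)) i j
    exact (norm_sub_le _ _).trans (add_le_add ((norm_add_le _ _).trans (add_le_add k1 k2)) k3)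
  · obtain ⟨_, _, e1, e2, e3, e4⟩ := ptF_k hp hpq hqr hr4 (hA.trans hx.1.le) (hx.2.trans hb)
    have hR := h2 x hx
    have ok1 : ∀ a : Bool, SyOk D.p (a, 1) := fun a =>
      ⟨le_rfl, by show 1 ≤ D.p; omega, fun _ => by show 1 < D.p; omega⟩
    have F : PtG D.p q r (vC D.p (cW D.p q r x) (Kp q ^ 2) (Kp r ^ 2))
        (wC D.p (cW D.p q r x) (Kp q ^ 2) (Kp r ^ 2)) (cpar D) (R x) (mxT D) (cnx D)
        (chz D) (cqi D) (coi D) :=
      ⟨fun g hg _ _ => hck.nx2 g hg, e1, e2, e3, e4, hR.c1, fun a => ⟨hck.pos (a, 1) (ok1 a) (by norm_num), by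
        rw [mxT_ok (ok1 a)]
        exact (hR.t1 a).1, (hR.t1 a).2⟩, fun a => ⟨hck.poq (a, 1) (ok1 a) (by norm_num), by
        rw [mxT_ok (ok1 a)]
        exact (hR.s1 a).1, (hR.s1 a).2⟩, hR.c3,
        fun g hg ho hk => ⟨hck.pos g hg ho, hR.t3 g hg ho hk⟩,
        fun g hg ho hk => ⟨hck.poq g hg ho, hR.s3 g hg ho hk⟩, hR.H3, hR.h0, hR.rr, hR.bcov⟩
    exact sng_of hNR1 hp hq hr hY hck F (h3 x hx) (h4 x hx)

/-- **A WINDOW FROM THE ITEMS** -/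
theorem win_itemsT (hNR1 : ST_NR1) {γ δ ε : Type} {D : CovD γ δ ε} {q r : ℕ} (hp : 3 ≤ D.p)
    (hpq : D.p ≤ q) (hqr : q ≤ r) (hr4 : 4 ≤ r) {Y : BSys D.p q r} (hY : BPr Y D.gb)
    (hD : ck D = true) {a b : ℝ} (hA : xA D.p q r ≤ a) (hab : a < b) (hb : b < 2)
    (S0 : Mt) (X : ℕ → Mt) (U : Fin 3 → V3) (hU : LinearIndependent ℂ U) (y0 : V3) (bd : ℝ)
    (h : ∀ x ∈ Set.Ioo a b, ∃ (R : RPar) (K : ℕ → Mt),
      PtR D (vC D.p (cW D.p q r x) (Kp q ^ 2) (Kp r ^ 2)) R ∧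
      PtI D (vC D.p (cW D.p q r x) (Kp q ^ 2) (Kp r ^ 2))
        (wC D.p (cW D.p q r x) (Kp q ^ 2) (Kp r ^ 2)) R K S0 X ∧
      PtS D (vC D.p (cW D.p q r x) (Kp q ^ 2) (Kp r ^ 2)) K Y.a0 U y0 bd) :
    Win D.p q r a b := by
  have hq : 3 ≤ q := hp.trans hpq
  have hr : 3 ≤ r := hq.trans hqr
  refine win_itemsK hNR1 hp hpq hqr hr4 hY hD hA hab hb S0 X U hU y0 bd (fun x hx => ?_)
  obtain ⟨R, K, h1, h2, h3⟩ := h x hx
  refine ⟨R, K, h1.toK (fun c => ?_), h2, h3⟩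
  obtain ⟨_, _, _, _, e3, _⟩ := ptF_k hp hpq hqr hr4 (hA.trans hx.1.le) (hx.2.trans hb)
  rw [(e3 c).1]
  have hM : 3 ≤ mqr q r c := by unfold mqr; split_ifs <;> assumption
  have e : Kp (mqr q r c) = 2 * Real.cos (phi (mqr q r c)) := rfl
  rw [e]
  have := (kp_cos hM).1
  have := Real.cos_le_one (phi (mqr q r c))
  constructor <;> linarith

end Pool.Agent.Helper6.MONO.W2.TY
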