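import Pool.Agent.Helper12.CW.NF0

/-!
Plan W (MP_c75db0): algebra of the normalised star frame.
-/

set_option autoImplicit false
noncomputable section
namespace Pool.Agent.Helper6.MONO.W2

open Matrix

/-- covector `y^* J` -/
def cvv (y : V3) : V3 := ![star (y 0), star (y 1), -star (y 2)]

theorem cvv_dot (y u : V3) : cvv y ⬝ᵥ u = brJ 1 u y := by
  simp [cvv, brJ, dotProduct, Fin.sum_univ_three]
  ring

theorem brJ_star (u v : V3) : star (brJ 1 u v) = brJ 1 v u := by
  simp [brJ]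
  ring

theorem hr_J1 (u : V3) : hr J1 u = (brJ 1 u u).re := by
  unfold hr hv brJ J1
  congr 1
  simp [Fin.sum_univ_three]
  ring

theorem rfJ_mulVec (V u : V3) : (rfJ 1 V).mulVec u = u - brJ 1 u V • V := by
  funext i
  fin_cases i <;>
    simp [rfJ, brJ, Matrix.mulVec, dotProduct, Fin.sum_univ_three] <;> ring

theorem brJ_sub_left (a b y : V3) : brJ 1 (a - b) y = brJ 1 a y - brJ 1 b y := by
  simp [brJ]
  ring

theorem brJ_sub_right (y a b : V3) : brJ 1 y (a - b) = brJ 1 y a - brJ 1 y b := by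
  simp [brJ]
  ring

theorem brJ_add_left (a b y : V3) : brJ 1 (a + b) y = brJ 1 a y + brJ 1 b y := by
  simp [brJ]
  ring

theorem brJ_smul_left (c : ℂ) (a y : V3) : brJ 1 (c • a) y = c * brJ 1 a y := by
  simp [brJ]
  ring

theorem brJ_smul_right (c : ℂ) (a y : V3) : brJ 1 y (c • a) = star c * brJ 1 y a := by
  simp [brJ]
  ring

theorem rfJ_adj (V u y : V3) : brJ 1 ((rfJ 1 V).mulVec u) y = brJ 1 u ((rfJ 1 V).mulVec y) := by
  rw [rfJ_mulVec, rfJ_mulVec, brJ_sub_left, brJ_sub_right, brJ_smul_left, brJ_smul_right,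
    brJ_star]
  ring

theorem rfJ_sq {V : V3} (h : brJ 1 V V = 2) (u : V3) :
    (rfJ 1 V).mulVec ((rfJ 1 V).mulVec u) = u := by
  rw [rfJ_mulVec, rfJ_mulVec, brJ_sub_left, brJ_smul_left, h]
  funext i
  simp
  ring

theorem rfJ_uni {V : V3} (h : brJ 1 V V = 2) (u y : V3) :
    brJ 1 ((rfJ 1 V).mulVec u) ((rfJ 1 V).mulVec y) = brJ 1 u y := by
  rw [rfJ_adj, rfJ_sq h]

theorem ep_phi {p : ℕ} (hp : 3 ≤ p) : ep (phi p) ^ p = -1 := by
  rw [ep_pow]
  have hp0 : (p : ℝ) ≠ 0 := by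
    have : 0 < p := by omega
    positivity
  have : (p : ℝ) * phi p = Real.pi := by
    unfold phi
    field_simp
  rw [this]
  apply Complex.ext <;> simp [ep]

theorem sDm_adj {p : ℕ} (hp : 3 ≤ p) (s : Sy) (u y : V3) :
    brJ 1 ((sDm (phi p) s.1 s.2).mulVec u) y =
      brJ 1 u ((sDm (phi p) (syi p s).1 (syi p s).2).mulVec y) := by
  obtain ⟨a, k⟩ := s
  have hk : (syi p (a, k)).2 = k := by
    unfold syi
    split_ifs <;> rfl
  rw [hk]
  have h1 := ep_phi hp
  have h2 : star (ep (phi p)) ^ p = -1 := by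
    have := congrArg star h1
    rwa [star_pow, star_neg, star_one] at this
  generalize hef : star (ep (phi p)) = f at h2
  have hfe : ep (phi p) = star f := by rw [← hef, star_star]
  by_cases hodd : k % 2 = 1
  · have e : syi p (a, k) = (a, k) := by simp [syi, hodd]
    rw [e]
    cases a
    · simp [sDm, hodd, hfe, brJ, Matrix.mulVec, dotProduct, Fin.sum_univ_three]
      ring
    · simp [sDm, hodd, hfe, brJ, Matrix.mulVec, dotProduct, Fin.sum_univ_three]
      ring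
  · have hev : k % 2 = 0 := by omega
    by_cases hkp : k = p
    · have e : syi p (a, k) = (a, k) := by simp [syi, hkp]
      rw [e]
      subst hkp
      have h3 : (star f) ^ k = -1 := by rw [← hfe]; exact h1
      have h3' : ((starRingEnd ℂ) f) ^ k = -1 := h3
      cases a
      · simp [sDm, hev, hfe, h2, h3', brJ, Matrix.mulVec, dotProduct, Fin.sum_univ_three]
      · simp [sDm, hev, hfe, h2, h3', brJ, Matrix.mulVec, dotProduct, Fin.sum_univ_three]
    · have e : syi p (a, k) = (!a, k) := by simp [syi, hodd, hkp]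
      rw [e]
      cases a
      · simp [sDm, hev, hfe, brJ, Matrix.mulVec, dotProduct, Fin.sum_univ_three]
        ring
      · simp [sDm, hev, hfe, brJ, Matrix.mulVec, dotProduct, Fin.sum_univ_three]
        ring

theorem ep_mul_pow (φ : ℝ) (k : ℕ) : ep φ ^ k * star (ep φ) ^ k = 1 := by
  rw [← mul_pow, ep_mul, one_pow]

theorem sDm_uni (φ : ℝ) (a : Bool) (k : ℕ) (u y : V3) :
    brJ 1 ((sDm φ a k).mulVec u) ((sDm φ a k).mulVec y) = brJ 1 u y := by
  have h0 := ep_mul_pow φ k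
  have h1 := ep_mul_pow φ (k + 1)
  have h2 := ep_mul_pow φ (k - 1)
  generalize hef : star (ep φ) = f at h0 h1 h2
  have hfe : ep φ = star f := by rw [← hef, star_star]
  rw [hfe] at h0 h1 h2
  have h0' : ((starRingEnd ℂ) f) ^ k * f ^ k = 1 := h0
  have h1' : ((starRingEnd ℂ) f) ^ (k + 1) * f ^ (k + 1) = 1 := h1
  have h2' : ((starRingEnd ℂ) f) ^ (k - 1) * f ^ (k - 1) = 1 := h2
  rcases Nat.mod_two_eq_zero_or_one k with hk | hk
  · cases a
    · simp [sDm, hk, hfe, brJ, Matrix.mulVec, dotProduct, Fin.sum_univ_three]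
      linear_combination (u 0 * (starRingEnd ℂ) (y 0) + u 1 * (starRingEnd ℂ) (y 1)) * h0'
    · simp [sDm, hk, hfe, brJ, Matrix.mulVec, dotProduct, Fin.sum_univ_three]
      linear_combination (u 0 * (starRingEnd ℂ) (y 0) + u 1 * (starRingEnd ℂ) (y 1)) * h0'
  · cases a
    · simp [sDm, hk, hfe, brJ, Matrix.mulVec, dotProduct, Fin.sum_univ_three]
      linear_combination (u 0 * (starRingEnd ℂ) (y 0) + u 1 * (starRingEnd ℂ) (y 1)) * h2'
    · simp [sDm, hk, hfe, brJ, Matrix.mulVec, dotProduct, Fin.sum_univ_three]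
      linear_combination (u 0 * (starRingEnd ℂ) (y 0) + u 1 * (starRingEnd ℂ) (y 1)) * h1'

theorem nM_comm (φ : ℝ) (v : V3) (a : Bool) (k : ℕ) (m : ℕ) :
    nM φ v a k m * (rfJ 1 v * sDm φ a k) = (sDm φ a k * rfJ 1 v) * nM φ v a k m := by
  induction m with
  | zero => simp only [nM, Matrix.mul_assoc]
  | succ m ih =>
    show nM φ v a k m * (rfJ 1 v * sDm φ a k) * (rfJ 1 v * sDm φ a k) =
      (sDm φ a k * rfJ 1 v) * (nM φ v a k m * (rfJ 1 v * sDm φ a k))
    rw [ih, Matrix.mul_assoc _ _ (rfJ 1 v * sDm φ a k), ih]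

theorem nM_pow (φ : ℝ) (v : V3) (a : Bool) (k : ℕ) (m : ℕ) :
    rfJ 1 v * nM φ v a k m = (rfJ 1 v * sDm φ a k) ^ (m + 1) := by
  induction m with
  | zero => simp [nM]
  | succ m ih =>
    show rfJ 1 v * (nM φ v a k m * (rfJ 1 v * sDm φ a k)) = _
    rw [← Matrix.mul_assoc, ih, pow_succ _ (m + 1)]

theorem nM_adj {p : ℕ} (hp : 3 ≤ p) (v : V3) (s : Sy) (m : ℕ) (u y : V3) :
    brJ 1 ((nM (phi p) v s.1 s.2 m).mulVec u) y =
      brJ 1 u ((nM (phi p) v (syi p s).1 (syi p s).2 m).mulVec y) := by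
  induction m generalizing u y with
  | zero => exact sDm_adj hp s u y
  | succ m ih =>
    show brJ 1 ((nM (phi p) v s.1 s.2 m * (rfJ 1 v * sDm (phi p) s.1 s.2)).mulVec u) y =
      brJ 1 u ((nM (phi p) v (syi p s).1 (syi p s).2 m *
        (rfJ 1 v * sDm (phi p) (syi p s).1 (syi p s).2)).mulVec y)
    rw [nM_comm (phi p) v (syi p s).1]
    simp only [← Matrix.mulVec_mulVec]
    rw [ih, rfJ_adj, sDm_adj hp]

theorem nM_uni (φ : ℝ) {v : V3} (hv : brJ 1 v v = 2) (a : Bool) (k m : ℕ) (u y : V3) :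
    brJ 1 ((nM φ v a k m).mulVec u) ((nM φ v a k m).mulVec y) = brJ 1 u y := by
  induction m generalizing u y with
  | zero => exact sDm_uni φ a k u y
  | succ m ih =>
    show brJ 1 ((nM φ v a k m * (rfJ 1 v * sDm φ a k)).mulVec u)
      ((nM φ v a k m * (rfJ 1 v * sDm φ a k)).mulVec y) = _
    simp only [← Matrix.mulVec_mulVec]
    rw [ih, rfJ_uni hv, sDm_uni]

/-! ### scaling of the direction -/

theorem rfd_smul (δ : ℝ) (v vd : V3) :
    rfd 1 0 v ((δ : ℂ) • vd) = (δ : ℂ) • rfd 1 0 v vd := by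
  ext i j
  fin_cases j <;> simp [rfd] <;> ring

theorem nMd_smul (φ : ℝ) (δ : ℝ) (v vd : V3) (a : Bool) (k m : ℕ) :
    nMd φ v ((δ : ℂ) • vd) a k m = (δ : ℂ) • nMd φ v vd a k m := by
  induction m with
  | zero => simp [nMd]
  | succ m ih =>
    show nMd φ v ((δ : ℂ) • vd) a k m * (rfJ 1 v * sDm φ a k) +
      nM φ v a k m * (rfd 1 0 v ((δ : ℂ) • vd) * sDm φ a k) = (δ : ℂ) •
      (nMd φ v vd a k m * (rfJ 1 v * sDm φ a k) + nM φ v a k m * (rfd 1 0 v vd * sDm φ a k))
    rw [ih, rfd_smul, smul_add, smul_mul_assoc, smul_mul_assoc, mul_smul_comm]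

theorem nG_smul (δ : ℝ) (v vd : V3) : nG v ((δ : ℂ) • vd) = (δ : ℂ) • nG v vd := by
  unfold nG
  rw [rfd_smul, mul_smul_comm]

/-! ### the change of frame -/

def nP (η : ℂ) (τ : ℝ) : Mt := !![η, 0, 0; 0, η, 0; 0, 0, (τ : ℂ)]

theorem nP_mulVec (η : ℂ) (τ : ℝ) (V : V3) :
    (nP η τ).mulVec V = ![η * V 0, η * V 1, τ * V 2] := by
  funext i
  fin_cases i <;> simp [nP, Matrix.mulVec, dotProduct, Fin.sum_univ_three]

theorem nP_rfJ {η : ℂ} (hη : ‖η‖ = 1) (τ : ℝ) (V : V3) :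
    nP η τ * rfJ (τ ^ 2) V = rfJ 1 ((nP η τ).mulVec V) * nP η τ := by
  have h : η * star η = 1 := by
    have h2 : star η = (starRingEnd ℂ) η := rfl
    rw [h2, Complex.mul_conj, Complex.normSq_eq_norm_sq, hη]
    norm_num
  have h' : η * (starRingEnd ℂ) η = 1 := h
  rw [nP_mulVec]
  ext i j
  fin_cases i <;> fin_cases j <;>
    simp [nP, rfJ, Matrix.mul_apply, Fin.sum_univ_three] <;>
    first
    | ring1
    | linear_combination V 0 * (starRingEnd ℂ) (V 0) * η * h'
    | linear_combination -V 0 * (starRingEnd ℂ) (V 1) * η * h'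
    | linear_combination -V 1 * (starRingEnd ℂ) (V 0) * η * h'
    | linear_combination V 1 * (starRingEnd ℂ) (V 1) * η * h'
    | linear_combination -τ * V 2 * (starRingEnd ℂ) (V 0) * h'
    | linear_combination -τ * V 2 * (starRingEnd ℂ) (V 1) * h'

theorem nP_sDm (η : ℂ) (τ φ : ℝ) (a : Bool) (k : ℕ) :
    nP η τ * sDm φ a k = sDm φ a k * nP η τ := by
  rcases Nat.mod_two_eq_zero_or_one k with hk | hk
  · ext i j
    fin_cases i <;> fin_cases j <;>
      simp [nP, sDm, hk, Matrix.mul_apply, Fin.sum_univ_three] <;> ring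
  · cases a
    · ext i j
      fin_cases i <;> fin_cases j <;>
        simp [nP, sDm, hk, Matrix.mul_apply, Fin.sum_univ_three] <;> ring
    · ext i j
      fin_cases i <;> fin_cases j <;>
        simp [nP, sDm, hk, Matrix.mul_apply, Fin.sum_univ_three] <;> ring

end Pool.Agent.Helper6.MONO.W2
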