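import Pool.Agent.Helper12.CW.NF1

/-!
Plan W (MP_c75db0): THE CERTIFICATE THEOREM OF THE NORMALISED STAR FRAME.
-/

set_option autoImplicit false
noncomputable section
namespace Pool.Agent.Helper6.MONO.W2

open Matrix Filter Topology

/-! ### blocks in the frame -/

theorem nP_sN {p q r : ℕ} {x τ : ℝ} {η : ℂ} (hη : ‖η‖ = 1)
    (hτ : τ ^ 2 = tt (phi p) (Kp q) (Kp r) x) (s : Sy) :
    nP η τ * sN p q r s x = (rfJ 1 ((nP η τ).mulVec (vv (phi p) (Kp q) (Kp r) x)) *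
      sDm (phi p) s.1 s.2) * nP η τ := by
  have h1 := (st_SYL (phi p) (Kp q) (Kp r) x s.1 s.2).1
  unfold sN
  rw [h1, ← rfJ_vv]
  have h2 : rfJ (‖sA (phi p) (Kp q) (Kp r) (zx x)‖ ^ 2 + ‖sB (phi p) (Kp q) (Kp r) (zx x)‖ ^ 2 - 2)
      ![sA (phi p) (Kp q) (Kp r) (zx x), sB (phi p) (Kp q) (Kp r) (zx x), 1] =
      rfJ (τ ^ 2) (vv (phi p) (Kp q) (Kp r) x) := by
    rw [hτ]
    rfl
  rw [h2, ← Matrix.mul_assoc, nP_rfJ hη, Matrix.mul_assoc, nP_sDm, Matrix.mul_assoc]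

theorem nP_pow {P A B : Mt} (h : P * A = B * P) (n : ℕ) : P * A ^ n = B ^ n * P := by
  induction n with
  | zero => simp
  | succ n ih => rw [pow_succ, ← Matrix.mul_assoc, ih, Matrix.mul_assoc, h, ← Matrix.mul_assoc,
      ← pow_succ]

theorem nP_bN {p q r : ℕ} {x τ : ℝ} {η : ℂ} (hη : ‖η‖ = 1)
    (hτ : τ ^ 2 = tt (phi p) (Kp q) (Kp r) x) (b : SBl) (hn : 1 ≤ b.n) :
    nP η τ * bN p q r b x = (rfJ 1 ((nP η τ).mulVec (vv (phi p) (Kp q) (Kp r) x)) *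
      bM p ((nP η τ).mulVec (vv (phi p) (Kp q) (Kp r) x)) b) * nP η τ := by
  have e : b.n - 1 + 1 = b.n := by omega
  rw [bN_pow, nP_pow (nP_sN hη hτ b.sy), bM, nM_pow, e]
  rfl

theorem nM_deriv (φ : ℝ) {v : ℝ → V3} {v' : V3} {x : ℝ}
    (hv : ∀ i, HasDerivAt (fun x => v x i) (v' i) x) (a : Bool) (k m : ℕ) (i j : Fin 3) :
    HasDerivAt (fun x => nM φ (v x) a k m i j) (nMd φ (v x) v' a k m i j) x := by
  have hc : ∀ i j, HasDerivAt (fun x => rfJ 1 (v x) i j) (rfd 1 0 (v x) v' i j) x :=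
    rfJ_deriv (hasDerivAt_const x 1) hv
  have hD : ∀ i j, HasDerivAt (fun x => (rfJ 1 (v x) * sDm φ a k) i j)
      ((rfd 1 0 (v x) v' * sDm φ a k) i j) x := by
    intro i j
    have := mul_deriv hc (Q := fun _ => sDm φ a k) (Q' := 0)
      (fun i j => hasDerivAt_const x _) i j
    simpa using this
  induction m generalizing i j with
  | zero => exact hasDerivAt_const x _
  | succ m ih => exact mul_deriv ih hD i j

/-! ### covectors -/

theorem vec_ext {w w' : V3} (h : ∀ u : V3, w ⬝ᵥ u = w' ⬝ᵥ u) : w = w' := by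
  funext i
  have := h (Pi.single i 1)
  simpa using this

theorem cvv_norm (y : V3) : ‖cvv y‖ = ‖y‖ := by
  apply le_antisymm
  · rw [pi_norm_le_iff_of_nonneg (norm_nonneg _)]
    intro i
    have h : ‖cvv y i‖ = ‖y i‖ := by fin_cases i <;> simp [cvv]
    rw [h]
    exact norm_le_pi_norm y i
  · rw [pi_norm_le_iff_of_nonneg (norm_nonneg _)]
    intro i
    have h : ‖cvv y i‖ = ‖y i‖ := by fin_cases i <;> simp [cvv]
    rw [← h]
    exact norm_le_pi_norm (cvv y) i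

/-- the gauge of a state in the frame -/
def nGa (v v' : V3) (δ : ℝ) (S : Mt) : Mt :=
  (1 / 2 : ℂ) • nG v v' - ((δ⁻¹ : ℝ) : ℂ) • (S * rfJ 1 v)

theorem rfJ_sqM {V : V3} (h : brJ 1 V V = 2) : rfJ 1 V * rfJ 1 V = 1 := by
  ext i j
  have := congrFun (rfJ_sq h (Pi.single j 1)) i
  rw [Matrix.mulVec_mulVec, Matrix.mulVec_single_one] at this
  rw [Matrix.col_apply] at this
  rw [this, Matrix.one_apply, Pi.single_apply]

/-- the derivative of a reflection anticommutes with it -/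
theorem rfd_anti {v v' : V3} (h : brJ 1 v v = 2) (h' : (brJ 1 v' v).re = 0) :
    rfd 1 0 v v' * rfJ 1 v = -(rfJ 1 v * rfd 1 0 v v') := by
  have h2 : brJ 1 v' v + brJ 1 v v' = 0 := by
    rw [← brJ_star v' v]
    apply Complex.ext
    · simp [h']
    · simp
  unfold brJ at h h2
  have h3 : v 0 * (starRingEnd ℂ) (v 0) + v 1 * (starRingEnd ℂ) (v 1) -
      v 2 * (starRingEnd ℂ) (v 2) = 2 := by
    simpa using h
  have h4 : v' 0 * (starRingEnd ℂ) (v 0) + v' 1 * (starRingEnd ℂ) (v 1) -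
      v' 2 * (starRingEnd ℂ) (v 2) + (v 0 * (starRingEnd ℂ) (v' 0) +
      v 1 * (starRingEnd ℂ) (v' 1) - v 2 * (starRingEnd ℂ) (v' 2)) = 0 := by
    simpa using h2
  have gen : ∀ (a b : Fin 3 → ℂ), (∀ i j, rfJ 1 v i j = (1 : Mt) i j - v i * a j) →
      (∀ i j, rfd 1 0 v v' i j = -(v' i * a j + v i * b j)) →
      (a 0 * v 0 + a 1 * v 1 + a 2 * v 2 = 2) →
      (a 0 * v' 0 + a 1 * v' 1 + a 2 * v' 2 + (b 0 * v 0 + b 1 * v 1 + b 2 * v 2) = 0) →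
      rfd 1 0 v v' * rfJ 1 v = -(rfJ 1 v * rfd 1 0 v v') := by
    intro a b e1 e2 e3 e4
    have R : rfJ 1 v = 1 - Matrix.vecMulVec v a := by
      ext i j
      rw [e1, Matrix.sub_apply, Matrix.vecMulVec_apply]
    have D : rfd 1 0 v v' = -(Matrix.vecMulVec v' a + Matrix.vecMulVec v b) := by
      ext i j
      rw [e2, Matrix.neg_apply, Matrix.add_apply, Matrix.vecMulVec_apply, Matrix.vecMulVec_apply]
    have f3 : a ⬝ᵥ v = 2 := by rw [dotProduct, Fin.sum_univ_three]; exact e3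
    have f4 : a ⬝ᵥ v' + b ⬝ᵥ v = 0 := by
      rw [dotProduct, dotProduct, Fin.sum_univ_three, Fin.sum_univ_three]
      exact e4
    rw [R, D]
    simp only [mul_sub, sub_mul, mul_one, one_mul, neg_mul, mul_neg, add_mul, mul_add,
      Matrix.vecMulVec_mul_vecMulVec]
    ext i j
    simp [Matrix.vecMulVec_apply]
    linear_combination (v' i * a j + v i * b j) * f3 + v i * a j * f4
  exact gen (fun j => ![star (v 0), star (v 1), -((1 : ℝ) * star (v 2))] j)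
    (fun j => ![star (v' 0), star (v' 1), -((0 : ℝ) * star (v 2) + (1 : ℝ) * star (v' 2))] j)
    (fun i j => rfl) (fun i j => rfl) (by simp; linear_combination h3)
    (by simp; linear_combination h4)

theorem nX_eq {v v' : V3} (h : brJ 1 v v = 2) (h' : (brJ 1 v' v).re = 0) {δ : ℝ} (hδ : δ ≠ 0)
    (M D S S' : Mt) :
    rfJ 1 v * ((rfd 1 0 v v' * M + rfJ 1 v * D) + nGa v v' δ S' * (rfJ 1 v * M) -
      (rfJ 1 v * M) * nGa v v' δ S) =
      ((δ⁻¹ : ℝ) : ℂ) • nX v ((δ : ℂ) • v') M ((δ : ℂ) • D) S S' := by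
  have hcc : ∀ X : Mt, rfJ 1 v * (rfJ 1 v * X) = X := fun X => by
    rw [← Matrix.mul_assoc, rfJ_sqM h, Matrix.one_mul]
  have han : ∀ X : Mt, rfd 1 0 v v' * (rfJ 1 v * X) = -(rfJ 1 v * (rfd 1 0 v v' * X)) :=
    fun X => by
      rw [← Matrix.mul_assoc, rfd_anti h h', Matrix.neg_mul, Matrix.mul_assoc]
  have hδ' : ((δ : ℝ) : ℂ) ≠ 0 := by exact_mod_cast hδ
  unfold nGa nX
  rw [nG_smul]
  unfold nG
  simp only [mul_add, add_mul, mul_sub, sub_mul, smul_mul_assoc, mul_smul_comm,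
    Matrix.mul_assoc, hcc, han]
  ext i j
  simp only [Matrix.add_apply, Matrix.sub_apply, Matrix.neg_apply, Matrix.smul_apply, smul_eq_mul]
  push_cast
  field_simp
  ring

/-- THE BLOCK: all conditions at one parameter -/
theorem SNK.bok {p q r : ℕ} (hp : 3 ≤ p) {Y : BSys p q r} {v v' : V3} {δ : ℝ} (hδ : 0 < δ)
    {K : Sy → Mt} {S : Sy → Sy → Mt} {U : Fin 3 → V3} {y0 : V3} {bd : ℝ}
    (h : brJ 1 v v = 2) (h' : (brJ 1 v' v).re = 0)
    (H : SNK Y v ((δ : ℂ) • v') K S U y0 bd) (β : Y.B) :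
    BOK ⟨NZ (K (Y.prev β)), {w | ∃ y ∈ NZ (K (syi p (Y.cur β).sy)), w = cvv ((rfJ 1 v).mulVec y)},
        nGa v v' δ (S (Y.prev β) (Y.cur β).sy)⟩
      ⟨NZ (K (Y.cur β).sy), {w | ∃ y ∈ NZ (K (syi p (Y.next β))), w = cvv ((rfJ 1 v).mulVec y)},
        nGa v v' δ (S (Y.cur β).sy (Y.next β))⟩
      (rfJ 1 v * bM p v (Y.cur β)) (rfd 1 0 v v' * bM p v (Y.cur β) +
        rfJ 1 v * bMd p v v' (Y.cur β)) := by
  refine ⟨fun u hu => ⟨?_, ?_⟩, ?_, ?_⟩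
  · rw [← Matrix.mulVec_mulVec]
    exact H.inn β u hu
  · rw [← Matrix.mulVec_mulVec, hr_J1, rfJ_uni h]
    show (brJ 1 ((nM (phi p) v _ _ _).mulVec u) ((nM (phi p) v _ _ _).mulVec u)).re = 0
    rw [nM_uni (phi p) h, ← hr_J1]
    exact hu.2
  · rintro w ⟨y, hy, rfl⟩
    obtain ⟨β', r1, r2, r3, r4⟩ := Y.rev β
    have hy' : y ∈ NZ (K (Y.prev β')) := by rw [r1]; exact hy
    have hM : bM p v (Y.cur β') = nM (phi p) v (syi p (Y.cur β).sy).1 (syi p (Y.cur β).sy).2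
        ((Y.cur β).n - 1) := by
      unfold bM
      rw [r4, ← r3]
      rfl
    have h1 := H.inn β' y hy'
    rw [r3] at h1
    refine ⟨(rfJ 1 v).mulVec ((bM p v (Y.cur β')).mulVec y), ⟨h1, ?_⟩, ?_⟩
    · rw [hr_J1, rfJ_uni h]
      show (brJ 1 ((nM (phi p) v _ _ _).mulVec y) ((nM (phi p) v _ _ _).mulVec y)).re = 0
      rw [nM_uni (phi p) h, ← hr_J1]
      exact hy.2
    · apply vec_ext
      intro u
      rw [← Matrix.dotProduct_mulVec, cvv_dot, cvv_dot, rfJ_sq h, ← Matrix.mulVec_mulVec,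
        rfJ_uni h, hM]
      exact nM_adj hp v (Y.cur β).sy _ u y
  · rintro u hu w ⟨y, hy, rfl⟩
    have h1 := H.gi β u hu y hy
    have e : bMd p v ((δ : ℂ) • v') (Y.cur β) = (δ : ℂ) • bMd p v v' (Y.cur β) :=
      nMd_smul _ _ _ _ _ _ _
    rw [e] at h1
    have h2 := nX_eq h h' hδ.ne' (bM p v (Y.cur β)) (bMd p v v' (Y.cur β))
      (S (Y.prev β) (Y.cur β).sy) (S (Y.cur β).sy (Y.next β))
    have adj : ∀ X : Mt, cvv ((rfJ 1 v).mulVec y) ⬝ᵥ X.mulVec u =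
        brJ 1 ((rfJ 1 v * X).mulVec u) y := by
      intro X
      rw [cvv_dot, ← rfJ_adj, Matrix.mulVec_mulVec]
    show 0 ≤ ((cvv ((rfJ 1 v).mulVec y) ⬝ᵥ ((rfd 1 0 v v' * bM p v (Y.cur β) +
        rfJ 1 v * bMd p v v' (Y.cur β)) +
        nGa v v' δ (S (Y.cur β).sy (Y.next β)) * (rfJ 1 v * bM p v (Y.cur β)) -
        (rfJ 1 v * bM p v (Y.cur β)) * nGa v v' δ (S (Y.prev β) (Y.cur β).sy)).mulVec u) *
      star (cvv ((rfJ 1 v).mulVec y) ⬝ᵥ (rfJ 1 v * bM p v (Y.cur β)).mulVec u)).re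
    rw [adj, adj, h2, ← Matrix.mul_assoc, rfJ_sqM h, Matrix.one_mul, Matrix.smul_mulVec,
      brJ_smul_left, mul_assoc, Complex.re_ofReal_mul]
    exact mul_nonneg (inv_nonneg.2 hδ.le) h1

/-! ### bounds -/

theorem rfJ_le {v : V3} {g : ℝ} (hv : ‖v‖ ≤ g) (i j : Fin 3) : ‖rfJ 1 v i j‖ ≤ 1 + g * g := by
  have h : ∀ i, ‖v i‖ ≤ g := fun i => (norm_le_pi_norm v i).trans hv
  have g0 : 0 ≤ g := (norm_nonneg _).trans hv
  have e : rfJ 1 v i j = (1 : Mt) i j - v i * ![star (v 0), star (v 1),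
    -((1 : ℝ) * star (v 2))] j := rfl
  have h1 : ‖(1 : Mt) i j‖ ≤ 1 := by
    rw [Matrix.one_apply]
    split_ifs <;> simp
  have h2 : ‖![star (v 0), star (v 1), -((1 : ℝ) * star (v 2))] j‖ ≤ g := by
    fin_cases j
    · simpa using h 0
    · simpa using h 1
    · simpa using h 2
  rw [e]
  refine (norm_sub_le _ _).trans ?_
  rw [norm_mul]
  exact add_le_add h1 (mul_le_mul (h i) h2 (norm_nonneg _) g0)

theorem rfd_le {v v' : V3} {g : ℝ} (hv : ‖v‖ ≤ g) (hv' : ‖v'‖ ≤ g) (i j : Fin 3) :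
    ‖rfd 1 0 v v' i j‖ ≤ 2 * (g * g) := by
  have h : ∀ i, ‖v i‖ ≤ g := fun i => (norm_le_pi_norm v i).trans hv
  have h' : ∀ i, ‖v' i‖ ≤ g := fun i => (norm_le_pi_norm v' i).trans hv'
  have g0 : 0 ≤ g := (norm_nonneg _).trans hv
  have e : rfd 1 0 v v' i j = -(v' i * ![star (v 0), star (v 1), -((1 : ℝ) * star (v 2))] j +
    v i * ![star (v' 0), star (v' 1), -((0 : ℝ) * star (v 2) + (1 : ℝ) * star (v' 2))] j) := rfl
  have h1 : ‖![star (v 0), star (v 1), -((1 : ℝ) * star (v 2))] j‖ ≤ g := by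
    fin_cases j
    · simpa using h 0
    · simpa using h 1
    · simpa using h 2
  have h2 : ‖![star (v' 0), star (v' 1),
      -((0 : ℝ) * star (v 2) + (1 : ℝ) * star (v' 2))] j‖ ≤ g := by
    fin_cases j
    · simpa using h' 0
    · simpa using h' 1
    · simpa using h' 2
  rw [e, norm_neg]
  refine (norm_add_le _ _).trans ?_
  rw [norm_mul, norm_mul]
  have k1 := mul_le_mul (h' i) h1 (norm_nonneg _) g0
  have k2 := mul_le_mul (h i) h2 (norm_nonneg _) g0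
  linarith

theorem mat_mul_le {A B : Mt} {a b : ℝ} (hA : ∀ i j, ‖A i j‖ ≤ a) (hB : ∀ i j, ‖B i j‖ ≤ b)
    (i j : Fin 3) : ‖(A * B) i j‖ ≤ 3 * (a * b) := by
  have a0 : 0 ≤ a := (norm_nonneg _).trans (hA 0 0)
  rw [Matrix.mul_apply, Fin.sum_univ_three]
  refine (norm_add_le _ _).trans ?_
  have h : ∀ k, ‖A i k * B k j‖ ≤ a * b := fun k => by
    rw [norm_mul]
    exact mul_le_mul (hA i k) (hB k j) (norm_nonneg _) a0
  have := norm_add_le (A i 0 * B 0 j) (A i 1 * B 1 j)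
  linarith [h 0, h 1, h 2]

theorem nP_le {η : ℂ} (hη : ‖η‖ = 1) {τ T : ℝ} (h0 : 0 ≤ τ) (h : τ ≤ T) (hT : 1 ≤ T) (u : V3) :
    ‖(nP η τ).mulVec u‖ ≤ T * ‖u‖ := by
  have hu : ∀ i, ‖u i‖ ≤ ‖u‖ := norm_le_pi_norm u
  have n0 := norm_nonneg u
  rw [nP_mulVec, pi_norm_le_iff_of_nonneg (by positivity)]
  intro i
  fin_cases i
  · show ‖η * u 0‖ ≤ _
    rw [norm_mul, hη, one_mul]
    nlinarith [hu 0]
  · show ‖η * u 1‖ ≤ _
    rw [norm_mul, hη, one_mul]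
    nlinarith [hu 1]
  · show ‖(τ : ℂ) * u 2‖ ≤ _
    rw [norm_mul, Complex.norm_real, Real.norm_eq_abs, abs_of_nonneg h0]
    exact mul_le_mul h (hu 2) (norm_nonneg _) (by linarith)

theorem nP_ge {η : ℂ} (hη : ‖η‖ = 1) {τ T : ℝ} (h : 1 / T ≤ τ) (hT : 1 ≤ T) (u : V3) :
    ‖u‖ ≤ T * ‖(nP η τ).mulVec u‖ := by
  have hT0 : 0 < T := by linarith
  have hu : ∀ i, ‖(nP η τ).mulVec u i‖ ≤ ‖(nP η τ).mulVec u‖ := norm_le_pi_norm _
  have n0 := norm_nonneg ((nP η τ).mulVec u)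
  have h0 : 0 < τ := lt_of_lt_of_le (by positivity) h
  have k : 1 ≤ T * τ := by
    have := mul_le_mul_of_nonneg_left h hT0.le
    rwa [mul_one_div_cancel hT0.ne'] at this
  rw [pi_norm_le_iff_of_nonneg (by positivity)]
  have e := nP_mulVec η τ u
  intro i
  fin_cases i
  · have h1 := hu 0
    rw [e] at h1
    have h2 : ‖η * u 0‖ ≤ ‖(nP η τ).mulVec u‖ := by rw [e]; exact h1
    rw [norm_mul, hη, one_mul] at h2
    show ‖u 0‖ ≤ _
    nlinarith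
  · have h1 := hu 1
    rw [e] at h1
    have h2 : ‖η * u 1‖ ≤ ‖(nP η τ).mulVec u‖ := by rw [e]; exact h1
    rw [norm_mul, hη, one_mul] at h2
    show ‖u 1‖ ≤ _
    nlinarith
  · have h1 := hu 2
    rw [e] at h1
    have h2 : ‖(τ : ℂ) * u 2‖ ≤ ‖(nP η τ).mulVec u‖ := by rw [e]; exact h1
    rw [norm_mul, Complex.norm_real, Real.norm_eq_abs, abs_of_pos h0] at h2
    show ‖u 2‖ ≤ _
    calc ‖u 2‖ ≤ (T * τ) * ‖u 2‖ := by nlinarith [norm_nonneg (u 2)]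
      _ = T * (τ * ‖u 2‖) := by ring
      _ ≤ _ := mul_le_mul_of_nonneg_left h2 hT0.le

theorem nP_inv {η : ℂ} (hη : ‖η‖ = 1) {τ : ℝ} (h0 : τ ≠ 0) (u : V3) :
    (nP η τ).mulVec ![star η * u 0, star η * u 1, ((τ : ℝ) : ℂ)⁻¹ * u 2] = u := by
  have h : η * star η = 1 := by
    have h2 : star η = (starRingEnd ℂ) η := rfl
    rw [h2, Complex.mul_conj, Complex.normSq_eq_norm_sq, hη]
    norm_num
  have h0' : ((τ : ℝ) : ℂ) ≠ 0 := by exact_mod_cast h0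
  rw [nP_mulVec]
  funext i
  fin_cases i
  · show η * (star η * u 0) = u 0
    rw [← mul_assoc, h, one_mul]
  · show η * (star η * u 1) = u 1
    rw [← mul_assoc, h, one_mul]
  · show (τ : ℂ) * (((τ : ℝ) : ℂ)⁻¹ * u 2) = u 2
    rw [← mul_assoc, mul_inv_cancel₀ h0', one_mul]

end Pool.Agent.Helper6.MONO.W2
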