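import Pool.Agent.Helper12.CW.NF2

/-!
Plan W (MP_c75db0): THE CERTIFICATE THEOREM OF THE NORMALISED STAR FRAME.
-/

set_option autoImplicit false
noncomputable section
namespace Pool.Agent.Helper6.MONO.W2

open Matrix Filter Topology

theorem syi_okN {p : ℕ} {s : Sy} (h : SyOk p s) : SyOk p (syi p s) := by
  obtain ⟨h1, h2, h3⟩ := h
  unfold syi
  split_ifs with hc
  · exact ⟨h1, h2, h3⟩
  · refine ⟨h1, h2, fun _ => ?_⟩
    show s.2 < p
    have : s.2 ≠ p := fun h => hc (Or.inr h)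
    omega

theorem fin_St (p : ℕ) (a : Sy) : Finite {s : Sy × Sy // s.1 = a ∧ SyOk p s.2} := by
  have := st_TFIN p
  refine Finite.of_injective (β := {s // TSt p s})
    (fun s => ⟨((false, 2), s.1.2), rfl, s.2.2⟩) ?_
  rintro ⟨⟨s1, s2⟩, h1, h2⟩ ⟨⟨t1, t2⟩, h3, h4⟩ h
  have e : s2 = t2 := congrArg (fun s => s.1.2) h
  have h1' : s1 = a := h1
  have h3' : t1 = a := h3
  subst h1' h3' e
  rfl

/-- the polar vector of the letter `2` in the frame -/
def nv (p q r : ℕ) (η : ℂ) (τ x : ℝ) : V3 := (nP η τ).mulVec (vv (phi p) (Kp q) (Kp r) x)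

theorem nv_two {p q r : ℕ} {η : ℂ} {τ x : ℝ} (hη : ‖η‖ = 1)
    (hτ : τ ^ 2 = tt (phi p) (Kp q) (Kp r) x) : brJ 1 (nv p q r η τ x) (nv p q r η τ x) = 2 := by
  have h : η * star η = 1 := by
    have h2 : star η = (starRingEnd ℂ) η := rfl
    rw [h2, Complex.mul_conj, Complex.normSq_eq_norm_sq, hη]
    norm_num
  have hA := nsq (sA (phi p) (Kp q) (Kp r) (zx x))
  have hB := nsq (sB (phi p) (Kp q) (Kp r) (zx x))
  unfold nv
  rw [nP_mulVec]
  have e0 : vv (phi p) (Kp q) (Kp r) x 0 = sA (phi p) (Kp q) (Kp r) (zx x) := rfl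
  have e1 : vv (phi p) (Kp q) (Kp r) x 1 = sB (phi p) (Kp q) (Kp r) (zx x) := rfl
  have e2 : vv (phi p) (Kp q) (Kp r) x 2 = 1 := rfl
  rw [e0, e1, e2]
  unfold tt at hτ
  generalize sA (phi p) (Kp q) (Kp r) (zx x) = A at *
  generalize sB (phi p) (Kp q) (Kp r) (zx x) = B at *
  have hτ' : ((τ : ℝ) : ℂ) ^ 2 = ((‖A‖ ^ 2 : ℝ) : ℂ) + ((‖B‖ ^ 2 : ℝ) : ℂ) - 2 := by
    have := congrArg (fun t : ℝ => (t : ℂ)) hτ
    push_cast at this ⊢
    exact this
  show (η * A) * star (η * A) + (η * B) * star (η * B) -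
    ((1 : ℝ) : ℂ) * (((τ : ℂ) * 1) * star ((τ : ℂ) * 1)) = 2
  rw [star_mul', star_mul', star_mul']
  have e3 : star ((τ : ℝ) : ℂ) = (τ : ℂ) := Complex.conj_ofReal τ
  rw [e3]
  push_cast
  rw [star_one]
  linear_combination (A * star A + B * star B) * h + hA + hB - hτ'

theorem brJ_deriv {v : ℝ → V3} {v' : V3} {x : ℝ}
    (hv : ∀ i, HasDerivAt (fun x => v x i) (v' i) x) :
    HasDerivAt (fun x => brJ 1 (v x) (v x)) (brJ 1 v' (v x) + brJ 1 (v x) v') x := by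
  have hs : ∀ i, HasDerivAt (fun x => star (v x i)) (star (v' i)) x := fun i => star_deriv (hv i)
  have h := ((((hv 0).mul (hs 0)).add ((hv 1).mul (hs 1))).sub
    (((hv 2).mul (hs 2)).const_mul ((1 : ℝ) : ℂ)))
  refine h.congr_deriv ?_
  unfold brJ
  ring

/-- THE CERTIFICATE THEOREM OF THE NORMALISED STAR FRAME -/
theorem star_certN {p q r : ℕ} (hp : 3 ≤ p) (hq : 3 ≤ q) (hr : 3 ≤ r) (Y : BSys p q r) {a b : ℝ}
    (ha : -2 < a) (hab : a < b) (hb : b < 2)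
    -- the frame
    (η : ℝ → ℂ) (τ : ℝ → ℝ) (v' : ℝ → V3) (T : ℝ) (hT : 1 ≤ T)
    (hη : ∀ x ∈ Set.Icc a b, ‖η x‖ = 1)
    (hτ : ∀ x ∈ Set.Icc a b, 1 / T ≤ τ x ∧ τ x ≤ T ∧ τ x ^ 2 = tt (phi p) (Kp q) (Kp r) x)
    (hv : ∀ x ∈ Set.Icc a b, ∀ i,
      HasDerivAt (fun x => nv p q r (η x) (τ x) x i) (v' x i) x)
    (hvb : ∀ x ∈ Set.Icc a b, ‖nv p q r (η x) (τ x) x‖ ≤ T ∧ ‖v' x‖ ≤ T)
    -- the data
    (δ : ℝ → ℝ) (hδ : ∀ x ∈ Set.Ioo a b, 0 < δ x)
    (K : ℝ → Sy → Mt) (S : ℝ → Sy → Sy → Mt)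
    (hS : ∀ x ∈ Set.Ioo a b, ∀ e f i j, ‖S x e f i j‖ ≤ T * δ x)
    (U : Fin 3 → V3) (hU : LinearIndependent ℂ U) (y0 : V3) (bd : ℝ)
    (h : ∀ x ∈ Set.Ioo a b, SNK Y (nv p q r (η x) (τ x) x) ((δ x : ℂ) • v' x) (K x) (S x) U y0 bd) :
    Win p q r a b := by
  intro x y hx hxy hy
  have hs := phi_sin hp
  have c0 : cw p q r 0 = 2 * Real.cos (phi p) := rfl
  have c1 : cw p q r 1 = Kp q := rfl
  have c2 : cw p q r 2 = Kp r := rfl
  have hzn : ∀ x ∈ Set.Icc a b, ‖zx x‖ = 1 := fun x hx =>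
    zx_norm (by linarith [hx.1]) (by linarith [hx.2])
  have hne : ∀ x : ℝ, a ≤ x → zx x ≠ -1 := by
    intro x hx h
    have := zx_re x
    rw [h] at this
    simp at this
    linarith
  have hT0 : 0 < T := by linarith
  have hτ0 : ∀ x ∈ Set.Icc a b, 0 < τ x := fun x hx =>
    lt_of_lt_of_le (by positivity) (hτ x hx).1
  set v : ℝ → V3 := fun x => nv p q r (η x) (τ x) x with hvdef
  have h2 : ∀ x ∈ Set.Icc a b, brJ 1 (v x) (v x) = 2 := fun x hx => nv_two (hη x hx) (hτ x hx).2.2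
  have h2' : ∀ x ∈ Set.Ioo a b, (brJ 1 (v' x) (v x)).re = 0 := by
    intro x hx
    have d1 := brJ_deriv (v := v) (hv x (Set.Ioo_subset_Icc_self hx))
    have d2 : HasDerivAt (fun x => brJ 1 (v x) (v x)) 0 x := by
      refine (hasDerivAt_const x (2 : ℂ)).congr_of_eventuallyEq ?_
      filter_upwards [isOpen_Ioo.mem_nhds hx] with t ht
      exact h2 t (Set.Ioo_subset_Icc_self ht)
    have e := d1.unique d2
    rw [← brJ_star (v' x) (v x)] at e
    have e' := congrArg Complex.re e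
    have e3 : (star (brJ 1 (v' x) (v x))).re = (brJ 1 (v' x) (v x)).re := rfl
    rw [Complex.add_re, e3, Complex.zero_re] at e'
    linarith
  have hcd : ∀ x ∈ Set.Icc a b, ∀ i j, HasDerivAt (fun x => rfJ 1 (v x) i j)
      (rfd 1 0 (v x) (v' x) i j) x := fun x hx =>
    rfJ_deriv (hasDerivAt_const x 1) (hv x hx)
  set K0 := sK (phi p) (Kp q) (Kp r) with hK0
  have hK00 : 0 ≤ K0 := by
    have := sa_nonneg (phi p) (Kp q) (Kp r)
    rw [hK0]
    unfold sK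
    positivity
  set BD : ℝ := 3 * (1 + T * T) * |bd| + |bd| with hBD
  have hBD1 : |bd| ≤ BD := by
    have : 0 ≤ 3 * (1 + T * T) * |bd| := by positivity
    linarith
  have hBD2 : 3 * (1 + T * T) * |bd| ≤ BD := by
    have := abs_nonneg bd
    linarith
  have hcM : ∀ x ∈ Set.Icc a b, ∀ u : V3, ‖(rfJ 1 (v x)).mulVec u‖ ≤ 3 * (1 + T * T) * ‖u‖ :=
    fun x hx u => mul_le' _ _ (rfJ_le (hvb x hx).1) u
  have hcM' : ∀ x ∈ Set.Icc a b, ∀ u : V3, ‖(rfd 1 0 (v x) (v' x)).mulVec u‖ ≤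
      3 * (2 * (T * T)) * ‖u‖ :=
    fun x hx u => mul_le' _ _ (rfd_le (hvb x hx).1 (hvb x hx).2) u
  set g : ℝ := (1 / 2 * (3 * ((1 + T * T) * (2 * (T * T)))) + 3 * (T * (1 + T * T))) +
    (∑ i, ‖U i‖) + (3 * (1 + T * T) * ‖y0‖ + 3 * (2 * (T * T)) * ‖y0‖) with hg
  have hsum : 0 ≤ ∑ i, ‖U i‖ := Finset.sum_nonneg (fun _ _ => norm_nonneg _)
  have gp1 : 0 ≤ 1 / 2 * (3 * ((1 + T * T) * (2 * (T * T)))) + 3 * (T * (1 + T * T)) := by
    positivity
  have gp2 : 0 ≤ 3 * (1 + T * T) * ‖y0‖ := by positivity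
  have gp3 : 0 ≤ 3 * (2 * (T * T)) * ‖y0‖ := by positivity
  have g0 : 0 ≤ g := by linarith
  -- the window theorem with final states
  obtain ⟨D, hD0, hD⟩ := win_cmpF (c := cw p q r) hab
    (src := fun β : Y.B => (Y.prev β, (Y.cur β).sy))
    (tgt := fun β : Y.B => ((Y.cur β).sy, Y.next β))
    (fun β => (Y.cur β).wd)
    (fun β x => rfJ 1 (v x) * bM p (v x) (Y.cur β))
    (fun β x => rfd 1 0 (v x) (v' x) * bM p (v x) (Y.cur β) +
      rfJ 1 (v x) * bMd p (v x) (v' x) (Y.cur β))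
    (fun β x hx i j => mul_deriv (hcd x hx)
      (nM_deriv (phi p) (hv x hx) (Y.cur β).a (Y.cur β).k ((Y.cur β).n - 1)) i j)
    (fun _ x => nP (η x) (τ x) * sV (phi p) (Kp q) (Kp r) (zx x)) (T * K0)
    (fun _ x hx X => by
      have e1 := sU_le hs (Kp q) (Kp r) (hzn x hx) ((sV (phi p) (Kp q) (Kp r) (zx x)).mulVec X)
      rw [sU_sV hs] at e1
      have e2 := nP_ge (hη x hx) (hτ x hx).1 hT ((sV (phi p) (Kp q) (Kp r) (zx x)).mulVec X)
      rw [← Matrix.mulVec_mulVec]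
      calc ‖X‖ ≤ K0 * ‖(sV (phi p) (Kp q) (Kp r) (zx x)).mulVec X‖ := e1
        _ ≤ K0 * (T * ‖(nP (η x) (τ x)).mulVec ((sV (phi p) (Kp q) (Kp r) (zx x)).mulVec X)‖) :=
          mul_le_mul_of_nonneg_left e2 hK00
        _ = _ := by ring)
    (fun β x hx => ⟨1, by simp, fun X => by
      rw [one_smul]
      have e1 := sW_link (c := cw p q r) hs c0 (hzn x hx) (Y.cur β).wd X
      rw [c1, c2] at e1
      have e2 := nP_bN (p := p) (q := q) (r := r) (hη x hx) (hτ x hx).2.2 (Y.cur β) (Y.okc β).2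
      have e3 : (rfJ 1 (v x) * bM p (v x) (Y.cur β)) * nP (η x) (τ x) =
          nP (η x) (τ x) * bN p q r (Y.cur β) x := e2.symm
      show (rfJ 1 (v x) * bM p (v x) (Y.cur β)).mulVec
        ((nP (η x) (τ x) * sV (phi p) (Kp q) (Kp r) (zx x)).mulVec X) =
        (nP (η x) (τ x) * sV (phi p) (Kp q) (Kp r) (zx x)).mulVec
          (gact (wG (cw p q r) (zx x)) (Y.cur β).wd X)
      rw [Matrix.mulVec_mulVec, ← Matrix.mul_assoc, e3, Matrix.mul_assoc,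
        ← Matrix.mulVec_mulVec, ← Matrix.mulVec_mulVec]
      rw [← Matrix.mulVec_mulVec]
      exact congrArg _ e1⟩)
    (fun _ x hx X => by
      rw [← Matrix.mulVec_mulVec]
      have e1 := sV_le (phi p) (Kp q) (Kp r) (hzn x hx) X
      have e2 := nP_le (hη x hx) (hτ0 x hx).le (hτ x hx).2.1 hT
        ((sV (phi p) (Kp q) (Kp r) (zx x)).mulVec X)
      calc _ ≤ T * ‖(sV (phi p) (Kp q) (Kp r) (zx x)).mulVec X‖ := e2
        _ ≤ T * (K0 * ‖X‖) := mul_le_mul_of_nonneg_left e1 hT0.le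
        _ = _ := by ring)
    (fun s x => ⟨NZ (K x s.1), {w | ∃ y ∈ NZ (K x (syi p s.2)), w = cvv ((rfJ 1 (v x)).mulVec y)},
      nGa (v x) (v' x) (δ x) (S x s.1 s.2)⟩)
    (fun β x hx => SNK.bok hp (hδ x hx) (h2 x (Set.Ioo_subset_Icc_self hx)) (h2' x hx)
      (h x hx) β)
    BD g
    (fun s x hx i j => by
      have hxI := Set.Ioo_subset_Icc_self hx
      have hd := hδ x hx
      have k1 : ‖nG (v x) (v' x) i j‖ ≤ 3 * ((1 + T * T) * (2 * (T * T))) :=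
        mat_mul_le (rfJ_le (hvb x hxI).1) (rfd_le (hvb x hxI).1 (hvb x hxI).2) i j
      have k2 : ‖(S x s.1 s.2 * rfJ 1 (v x)) i j‖ ≤ 3 * ((T * δ x) * (1 + T * T)) :=
        mat_mul_le (hS x hx s.1 s.2) (rfJ_le (hvb x hxI).1) i j
      show ‖((1 / 2 : ℂ) • nG (v x) (v' x) -
        (((δ x)⁻¹ : ℝ) : ℂ) • (S x s.1 s.2 * rfJ 1 (v x))) i j‖ ≤ g
      rw [Matrix.sub_apply, Matrix.smul_apply, Matrix.smul_apply, smul_eq_mul, smul_eq_mul]
      refine (norm_sub_le _ _).trans ?_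
      rw [norm_mul, norm_mul, Complex.norm_real, Real.norm_eq_abs, abs_of_pos (inv_pos.2 hd)]
      have k3 : ‖(1 / 2 : ℂ)‖ = 1 / 2 := by norm_num
      rw [k3]
      have k4 : (δ x)⁻¹ * ‖(S x s.1 s.2 * rfJ 1 (v x)) i j‖ ≤ 3 * (T * (1 + T * T)) := by
        calc _ ≤ (δ x)⁻¹ * (3 * ((T * δ x) * (1 + T * T))) :=
              mul_le_mul_of_nonneg_left k2 (inv_nonneg.2 hd.le)
          _ = 3 * (T * (1 + T * T)) * ((δ x)⁻¹ * δ x) := by ring
          _ = _ := by rw [inv_mul_cancel₀ hd.ne', mul_one]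
      linarith)
    (fun s => s.1 = Y.a0 ∧ SyOk p s.2)
    (fun s i x => sU (phi p) (Kp q) (Kp r) (zx x)
      ![star (η x) * U i 0, star (η x) * U i 1, ((τ x : ℝ) : ℂ)⁻¹ * U i 2])
    (fun s i x => U i) (fun s i x => 0)
    (fun s _ i x hx => by
      rw [← Matrix.mulVec_mulVec, sV_sU hs, nP_inv (hη x hx) (hτ0 x hx).ne'])
    (fun s _ i x hx j => hasDerivAt_const x _)
    (fun s hs i x hx => by
      show U i ∈ NZ (K x s.1)
      rw [hs.1]
      exact (h x hx).stU i)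
    (fun s hs i x hx w hw => by
      obtain ⟨y, hy, rfl⟩ := hw
      have hxI := Set.Ioo_subset_Icc_self hx
      have k1 := (h x hx).doU (syi p s.2) (syi_okN hs.2) y hy i
      have k2 : cvv ((rfJ 1 (v x)).mulVec y) ⬝ᵥ U i = brJ 1 ((rfJ 1 (v x)).mulVec (U i)) y := by
        rw [cvv_dot, rfJ_adj]
      rw [k2, cvv_norm]
      have k3 := hcM x hxI y
      calc _ ≤ 3 * (1 + T * T) * ‖y‖ := k3
        _ ≤ 3 * (1 + T * T) * (|bd| * ‖brJ 1 ((rfJ 1 (v x)).mulVec (U i)) y‖) := by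
            refine mul_le_mul_of_nonneg_left (k1.trans ?_) (by positivity)
            exact mul_le_mul_of_nonneg_right (le_abs_self bd) (norm_nonneg _)
        _ = (3 * (1 + T * T) * |bd|) * ‖brJ 1 ((rfJ 1 (v x)).mulVec (U i)) y‖ := by ring
        _ ≤ _ := mul_le_mul_of_nonneg_right hBD2 (norm_nonneg _))
    (fun s _ i x hx => by
      have k := Finset.single_le_sum (f := fun i => ‖U i‖) (fun _ _ => norm_nonneg _)
        (Finset.mem_univ i)
      have k' : ‖U i‖ ≤ ∑ i, ‖U i‖ := k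
      refine ⟨by linarith, ?_⟩
      rw [norm_zero]
      exact g0)
    (fun s => s.2 = Y.a0 ∧ SyOk p s.1)
    (fun s x => cvv ((rfJ 1 (v x)).mulVec y0))
    (fun s x => cvv ((rfd 1 0 (v x) (v' x)).mulVec y0))
    (fun s _ x hx j => by
      have e0 : ∀ j, HasDerivAt (fun x => (rfJ 1 (v x)).mulVec y0 j)
          ((rfd 1 0 (v x) (v' x)).mulVec y0 j) x := by
        intro j
        have e1 : (fun x => (rfJ 1 (v x)).mulVec y0 j) = fun x =>
            rfJ 1 (v x) j 0 * y0 0 + rfJ 1 (v x) j 1 * y0 1 + rfJ 1 (v x) j 2 * y0 2 := by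
          funext y
          rw [Matrix.mulVec, dotProduct, Fin.sum_univ_three]
        have e2 : (rfd 1 0 (v x) (v' x)).mulVec y0 j = rfd 1 0 (v x) (v' x) j 0 * y0 0 +
            rfd 1 0 (v x) (v' x) j 1 * y0 1 + rfd 1 0 (v x) (v' x) j 2 * y0 2 := by
          rw [Matrix.mulVec, dotProduct, Fin.sum_univ_three]
        rw [e1, e2]
        exact (((hcd x hx j 0).mul_const _).add ((hcd x hx j 1).mul_const _)).add
          ((hcd x hx j 2).mul_const _)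
      have e3 : ∀ j, HasDerivAt (fun x => star ((rfJ 1 (v x)).mulVec y0 j))
          (star ((rfd 1 0 (v x) (v' x)).mulVec y0 j)) x := fun j => star_deriv (e0 j)
      rcases fin3 j with rfl | rfl | rfl
      · exact e3 0
      · exact e3 1
      · exact (e3 2).neg)
    (fun s hs x hx => by
      refine ⟨y0, ?_, rfl⟩
      show y0 ∈ NZ (K x (syi p s.2))
      rw [hs.1]
      exact (h x hx).enY)
    (fun s hs x hx u hu => by
      have k1 := (h x hx).doY s.1 hs.2 u hu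
      have k2 : cvv ((rfJ 1 (v x)).mulVec y0) ⬝ᵥ u = brJ 1 ((rfJ 1 (v x)).mulVec u) y0 := by
        rw [cvv_dot, rfJ_adj]
      rw [k2]
      refine k1.trans ?_
      exact mul_le_mul_of_nonneg_right ((le_abs_self bd).trans hBD1) (norm_nonneg _))
    (fun s _ x hx => by
      rw [cvv_norm, cvv_norm]
      have k1 := hcM x hx y0
      have k2 := hcM' x hx y0
      exact ⟨by linarith, by linarith⟩)
    hx hxy hy
  have hxI : x ∈ Set.Icc a b := ⟨hx, hxy.trans hy⟩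
  have hyI : y ∈ Set.Icc a b := ⟨hx.trans hxy, hy⟩
  have := fin_St p Y.a0
  refine nc_of_words st_WIG st_INV hp hq hr (hzn x hxI) (hzn y hyI) (hne x hx)
    (hne y (hx.trans hxy)) (ι := {s : Sy × Sy // s.1 = Y.a0 ∧ SyOk p s.2})
    (fun s w => ∃ (bs : List Y.B) (s' : Sy × Sy),
      BPath (fun β => (Y.prev β, (Y.cur β).sy)) (fun β => ((Y.cur β).sy, Y.next β)) s.1 bs s' ∧
      (s'.2 = Y.a0 ∧ SyOk p s'.1) ∧ w = (bs.map (fun b => (Y.cur b).wd)).flatten) (p + 1)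
    (fun w => ?_)
    (fun s i => sU (phi p) (Kp q) (Kp r) (zx x)
      ![star (η x) * U i 0, star (η x) * U i 1, ((τ x : ℝ) : ℂ)⁻¹ * U i 2])
    (fun s i => sU (phi p) (Kp q) (Kp r) (zx y)
      ![star (η y) * U i 0, star (η y) * U i 1, ((τ y : ℝ) : ℂ)⁻¹ * U i 2]) (fun s => ?_) D ?_
  · obtain ⟨h, t, s, bs, s', h1, h2, h3, h3', h4, h5, h5', h6⟩ := Y.cov w
    exact ⟨h, (bs.map (fun b => (Y.cur b).wd)).flatten, t, ⟨s, h3, h3'⟩, h1, h2,
      ⟨bs, s', h4, ⟨h5, h5'⟩, rfl⟩, h6⟩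
  · rw [Fintype.linearIndependent_iff] at hU ⊢
    intro k hk
    have e1 := congrArg (nP (η x) (τ x) * sV (phi p) (Kp q) (Kp r) (zx x)).mulVec hk
    rw [Matrix.mulVec_zero, Matrix.mulVec_sum] at e1
    refine hU k ?_
    rw [← e1]
    refine Finset.sum_congr rfl (fun i _ => ?_)
    rw [Matrix.mulVec_smul, ← Matrix.mulVec_mulVec, sV_sU hs, nP_inv (hη x hxI) (hτ0 x hxI).ne']
  · rintro s w ⟨bs, s', hp', hf', rfl⟩ i
    exact hD s.1 s.2 bs s' hp' hf' i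

end Pool.Agent.Helper6.MONO.W2
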