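import Pool.Agent.Helper12.CW.NF3

/-!
Plan W (MP_c75db0): the symmetric frame: `ζ = exp (i θ / 2)`, `x = 2 cos θ`, the direction is
`- d / d (θ / 2)`.
-/

set_option autoImplicit false
noncomputable section
namespace Pool.Agent.Helper6.MONO.W2

open Matrix Filter Topology

/-- `ζ = exp (i θ / 2)` -/
def zh (x : ℝ) : ℂ := ⟨Real.sqrt ((2 + x) / 4), Real.sqrt ((2 - x) / 4)⟩

/-- the speed `4 sin θ` -/
def dl (x : ℝ) : ℝ := 4 * Real.sqrt (1 - (x / 2) ^ 2)

theorem zh_star {x : ℝ} (h1 : -2 ≤ x) (h2 : x ≤ 2) : zh x * star (zh x) = 1 := by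
  have a := Real.sq_sqrt (show (0 : ℝ) ≤ (2 + x) / 4 by linarith)
  have b := Real.sq_sqrt (show (0 : ℝ) ≤ (2 - x) / 4 by linarith)
  unfold zh
  generalize Real.sqrt ((2 + x) / 4) = A at *
  generalize Real.sqrt ((2 - x) / 4) = B at *
  apply Complex.ext
  · simp
    nlinarith
  · simp
    ring

theorem zh_norm {x : ℝ} (h1 : -2 ≤ x) (h2 : x ≤ 2) : ‖zh x‖ = 1 := by
  have h := zh_star h1 h2
  have h3 : star (zh x) = (starRingEnd ℂ) (zh x) := rfl
  rw [h3, Complex.mul_conj, Complex.normSq_eq_norm_sq] at h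
  have h4 : ‖zh x‖ ^ 2 = 1 := by exact_mod_cast h
  have h5 := norm_nonneg (zh x)
  nlinarith

theorem sqrt_prod {x : ℝ} (h1 : -2 ≤ x) (_h2 : x ≤ 2) :
    2 * (Real.sqrt ((2 + x) / 4) * Real.sqrt ((2 - x) / 4)) = Real.sqrt (1 - (x / 2) ^ 2) := by
  have h0 : (0 : ℝ) ≤ (2 + x) / 4 := by linarith
  have h4 : (0 : ℝ) ≤ 2 ^ 2 := by norm_num
  rw [← Real.sqrt_mul h0]
  have e : (1 - (x / 2) ^ 2 : ℝ) = 2 ^ 2 * ((2 + x) / 4 * ((2 - x) / 4)) := by ring
  rw [e, Real.sqrt_mul h4, Real.sqrt_sq (by norm_num)]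

theorem zh_sq {x : ℝ} (h1 : -2 ≤ x) (h2 : x ≤ 2) : zh x ^ 2 = zx x := by
  have a := Real.sq_sqrt (show (0 : ℝ) ≤ (2 + x) / 4 by linarith)
  have b := Real.sq_sqrt (show (0 : ℝ) ≤ (2 - x) / 4 by linarith)
  have c := sqrt_prod h1 h2
  rw [pow_two]
  unfold zh zx nrzP
  generalize Real.sqrt ((2 + x) / 4) = A at *
  generalize Real.sqrt ((2 - x) / 4) = B at *
  generalize Real.sqrt (1 - (x / 2) ^ 2) = C at *
  apply Complex.ext
  · simp
    nlinarith
  · simp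
    linarith

theorem dl_pos {x : ℝ} (h1 : -2 < x) (h2 : x < 2) : 0 < dl x := by
  have hp : 0 < 1 - (x / 2) ^ 2 := by nlinarith
  unfold dl
  have := Real.sqrt_pos.2 hp
  linarith

theorem zh_deriv {x : ℝ} (h1 : -2 < x) (h2 : x < 2) :
    HasDerivAt zh (-(Complex.I * zh x) / ((dl x : ℝ) : ℂ)) x := by
  have hd := dl_pos h1 h2
  have pa : 0 < (2 + x) / 4 := by linarith
  have pb : 0 < (2 - x) / 4 := by linarith
  have sa' := Real.sqrt_pos.2 pa
  have sb' := Real.sqrt_pos.2 pb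
  have a2 := Real.sq_sqrt pa.le
  have b2 := Real.sq_sqrt pb.le
  have c := sqrt_prod h1.le h2.le
  have ha : HasDerivAt (fun x : ℝ => (2 + x) / 4) (1 / 4) x := by
    have := ((hasDerivAt_id x).const_add 2).div_const 4
    exact this
  have hb : HasDerivAt (fun x : ℝ => (2 - x) / 4) (-(1 / 4)) x := by
    have := ((hasDerivAt_id x).const_sub 2).div_const 4
    refine this.congr_deriv ?_
    ring
  have hsa := ha.sqrt pa.ne'
  have hsb := hb.sqrt pb.ne'
  have e : zh = fun x : ℝ => ((Real.sqrt ((2 + x) / 4) : ℝ) : ℂ) +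
      ((Real.sqrt ((2 - x) / 4) : ℝ) : ℂ) * Complex.I := by
    funext y
    apply Complex.ext <;> simp [zh]
  have h4 := (hsa.ofReal_comp).add ((hsb.ofReal_comp).mul_const Complex.I)
  rw [e]
  refine h4.congr_deriv ?_
  have hd' : ((dl x : ℝ) : ℂ) ≠ 0 := by exact_mod_cast hd.ne'
  have hdl : dl x = 8 * (Real.sqrt ((2 + x) / 4) * Real.sqrt ((2 - x) / 4)) := by
    unfold dl
    rw [← c]
    ring
  rw [eq_div_iff hd', hdl]
  beta_reduce
  generalize Real.sqrt ((2 + x) / 4) = A at *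
  generalize Real.sqrt ((2 - x) / 4) = B at *
  have hA : (A : ℂ) ≠ 0 := by exact_mod_cast sa'.ne'
  have hB : (B : ℂ) ≠ 0 := by exact_mod_cast sb'.ne'
  push_cast
  field_simp
  ring_nf
  simp

/-- the polar vector of the letter `2` in the symmetric frame -/
def fv (p : ℕ) (kq kr : ℝ) (ζ : ℂ) (τ : ℝ) : V3 :=
  ![Complex.I * ((kq : ℂ) * star ζ + (kr : ℂ) * ζ * ep (phi p)) /
      (2 * ((Real.sin (phi p) : ℝ) : ℂ)),
    -(Complex.I * ((kq : ℂ) * star ζ + (kr : ℂ) * ζ * star (ep (phi p))) /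
      (2 * ((Real.sin (phi p) : ℝ) : ℂ))), (τ : ℂ)]

/-- its first two coordinates derived, third one from the norm -/
def fw (p : ℕ) (kq kr : ℝ) (ζ : ℂ) (τ : ℝ) : V3 :=
  let w0 := -(((kq : ℂ) * star ζ - (kr : ℂ) * ζ * ep (phi p)) /
      (2 * ((Real.sin (phi p) : ℝ) : ℂ)))
  let w1 := ((kq : ℂ) * star ζ - (kr : ℂ) * ζ * star (ep (phi p))) /
      (2 * ((Real.sin (phi p) : ℝ) : ℂ))
  ![w0, w1, (((w0 * star (fv p kq kr ζ τ 0) + w1 * star (fv p kq kr ζ τ 1)).re / τ : ℝ) : ℂ)]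

/-- the norm of the third coordinate -/
def ft (p q r : ℕ) (x : ℝ) : ℝ := Real.sqrt (tt (phi p) (Kp q) (Kp r) x)

theorem nv_fv {p q r : ℕ} {x : ℝ} (h1 : -2 ≤ x) (h2 : x ≤ 2) (τ : ℝ) :
    nv p q r (star (zh x)) τ x = fv p (Kp q) (Kp r) (zh x) τ := by
  have hz := zh_sq h1 h2
  have hs := zh_star h1 h2
  unfold nv
  rw [nP_mulVec]
  have e0 : vv (phi p) (Kp q) (Kp r) x 0 = sA (phi p) (Kp q) (Kp r) (zx x) := rfl
  have e1 : vv (phi p) (Kp q) (Kp r) x 1 = sB (phi p) (Kp q) (Kp r) (zx x) := rfl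
  have e2 : vv (phi p) (Kp q) (Kp r) x 2 = 1 := rfl
  rw [e0, e1, e2]
  unfold sA sB fv
  rw [← hz]
  funext i
  fin_cases i
  · show star (zh x) * (Complex.I * ((Kp q : ℂ) + (Kp r : ℂ) * zh x ^ 2 * ep (phi p)) /
      (2 * ((Real.sin (phi p) : ℝ) : ℂ))) = Complex.I * ((Kp q : ℂ) * star (zh x) +
      (Kp r : ℂ) * zh x * ep (phi p)) / (2 * ((Real.sin (phi p) : ℝ) : ℂ))
    rw [← mul_div_assoc]
    congr 1
    linear_combination (Complex.I * (Kp r : ℂ) * zh x * ep (phi p)) * hs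
  · show star (zh x) * -(Complex.I * ((Kp q : ℂ) + (Kp r : ℂ) * zh x ^ 2 * star (ep (phi p))) /
      (2 * ((Real.sin (phi p) : ℝ) : ℂ))) = -(Complex.I * ((Kp q : ℂ) * star (zh x) +
      (Kp r : ℂ) * zh x * star (ep (phi p))) / (2 * ((Real.sin (phi p) : ℝ) : ℂ)))
    rw [mul_neg, ← mul_div_assoc]
    congr 2
    linear_combination (Complex.I * (Kp r : ℂ) * zh x * star (ep (phi p))) * hs
  · show (τ : ℂ) * 1 = τ
    rw [mul_one]

theorem fv_deriv {p q r : ℕ} {x : ℝ} (h1 : -2 < x) (h2 : x < 2)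
    (ht : 0 < tt (phi p) (Kp q) (Kp r) x) (i : Fin 3) :
    HasDerivAt (fun x => nv p q r (star (zh x)) (ft p q r x) x i)
      ((((dl x)⁻¹ : ℝ) : ℂ) * fw p (Kp q) (Kp r) (zh x) (ft p q r x) i) x := by
  have hd := dl_pos h1 h2
  have hd' : ((dl x : ℝ) : ℂ) ≠ 0 := by exact_mod_cast hd.ne'
  have hz := zh_deriv h1 h2
  have hzs := star_deriv hz
  have ev1 : (fun x => nv p q r (star (zh x)) (ft p q r x) x i) =ᶠ[𝓝 x]
      fun x => fv p (Kp q) (Kp r) (zh x) (ft p q r x) i := by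
    filter_upwards [isOpen_Ioo.mem_nhds (show x ∈ Set.Ioo (-2 : ℝ) 2 from ⟨h1, h2⟩)] with t ht
    rw [nv_fv ht.1.le ht.2.le]
  refine HasDerivAt.congr_of_eventuallyEq ?_ ev1
  have hst : star (-(Complex.I * zh x) / ((dl x : ℝ) : ℂ)) =
      Complex.I * star (zh x) / ((dl x : ℝ) : ℂ) := by
    rw [star_div₀, star_neg, star_mul']
    have e1 : star Complex.I = -Complex.I := Complex.conj_I
    have e2 : star ((dl x : ℝ) : ℂ) = ((dl x : ℝ) : ℂ) := Complex.conj_ofReal _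
    rw [e1, e2]
    ring
  rw [hst] at hzs
  have gen : ∀ e : ℂ, HasDerivAt (fun x => Complex.I * ((Kp q : ℂ) * star (zh x) +
      (Kp r : ℂ) * zh x * e) / (2 * ((Real.sin (phi p) : ℝ) : ℂ)))
      ((((dl x)⁻¹ : ℝ) : ℂ) * (-(((Kp q : ℂ) * star (zh x) - (Kp r : ℂ) * zh x * e) /
      (2 * ((Real.sin (phi p) : ℝ) : ℂ))))) x := by
    intro e
    have h := ((((hzs.const_mul (Kp q : ℂ)).add ((hz.const_mul (Kp r : ℂ)).mul_const e)).const_mul
      Complex.I).div_const (2 * ((Real.sin (phi p) : ℝ) : ℂ)))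
    refine h.congr_deriv ?_
    push_cast
    have hI : Complex.I * Complex.I = -1 := Complex.I_mul_I
    have e5 : Complex.I * ((Kp q : ℂ) * (Complex.I * star (zh x) / ((dl x : ℝ) : ℂ)) +
        (Kp r : ℂ) * (-(Complex.I * zh x) / ((dl x : ℝ) : ℂ)) * e) =
        -((Kp q : ℂ) * star (zh x) - (Kp r : ℂ) * zh x * e) / ((dl x : ℝ) : ℂ) := by
      field_simp
      linear_combination ((Kp q : ℂ) * star (zh x) - (Kp r : ℂ) * zh x * e) * hI
    rw [e5]
    ring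
  have g0 := gen (ep (phi p))
  have g1 : HasDerivAt (fun x => -(Complex.I * ((Kp q : ℂ) * star (zh x) +
      (Kp r : ℂ) * zh x * star (ep (phi p))) / (2 * ((Real.sin (phi p) : ℝ) : ℂ))))
      (-((((dl x)⁻¹ : ℝ) : ℂ) * (-(((Kp q : ℂ) * star (zh x) - (Kp r : ℂ) * zh x *
      star (ep (phi p))) / (2 * ((Real.sin (phi p) : ℝ) : ℂ)))))) x :=
    (gen (star (ep (phi p)))).neg
  rcases fin3 i with rfl | rfl | rfl
  · exact g0
  · refine g1.congr_deriv ?_
    show _ = (((dl x)⁻¹ : ℝ) : ℂ) * (((Kp q : ℂ) * star (zh x) - (Kp r : ℂ) * zh x *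
      star (ep (phi p))) / (2 * ((Real.sin (phi p) : ℝ) : ℂ)))
    ring
  · -- third coordinate
    show HasDerivAt (fun x => ((ft p q r x : ℝ) : ℂ)) _ x
    have k1 := (tt_deriv (phi p) (Kp q) (Kp r) h1 h2).sqrt ht.ne'
    have k2 := k1.ofReal_comp
    refine k2.congr_deriv ?_
    -- the derivative of `tt`
    set w0 := -(((Kp q : ℂ) * star (zh x) - (Kp r : ℂ) * zh x * ep (phi p)) /
      (2 * ((Real.sin (phi p) : ℝ) : ℂ))) with hw0
    set w1 := ((Kp q : ℂ) * star (zh x) - (Kp r : ℂ) * zh x * star (ep (phi p))) /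
      (2 * ((Real.sin (phi p) : ℝ) : ℂ)) with hw1
    have key : ttd (phi p) (Kp q) (Kp r) x = (dl x)⁻¹ * (2 *
        (w0 * star (fv p (Kp q) (Kp r) (zh x) (ft p q r x) 0) +
          w1 * star (fv p (Kp q) (Kp r) (zh x) (ft p q r x) 1)).re) := by
      have n0 : (fun x => ‖fv p (Kp q) (Kp r) (zh x) (ft p q r x) 0‖ ^ 2 +
          ‖fv p (Kp q) (Kp r) (zh x) (ft p q r x) 1‖ ^ 2 - 2) =ᶠ[𝓝 x]
          fun x => tt (phi p) (Kp q) (Kp r) x := by
        filter_upwards [isOpen_Ioo.mem_nhds (show x ∈ Set.Ioo (-2 : ℝ) 2 from ⟨h1, h2⟩)] with t ht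
        have e := nv_fv (p := p) (q := q) (r := r) ht.1.le ht.2.le (ft p q r t)
        have en : ‖star (zh t)‖ = 1 := by rw [norm_star, zh_norm ht.1.le ht.2.le]
        rw [← e]
        unfold nv
        rw [nP_mulVec]
        show ‖star (zh t) * sA (phi p) (Kp q) (Kp r) (zx t)‖ ^ 2 +
          ‖star (zh t) * sB (phi p) (Kp q) (Kp r) (zx t)‖ ^ 2 - 2 = _
        rw [norm_mul, norm_mul, en, one_mul, one_mul]
        rfl
      have d1 := (g0.norm_sq.add g1.norm_sq).sub_const 2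
      have d2 := d1.unique ((tt_deriv (phi p) (Kp q) (Kp r) h1 h2).congr_of_eventuallyEq n0)
      rw [← d2]
      have inn : ∀ c c' : ℂ, inner ℝ c c' = (c' * star c).re := by
        intro c c'
        rw [Complex.inner]
        rfl
      rw [inn, inn]
      have e3 : ∀ (d : ℝ) (a b : ℂ), (((d : ℝ) : ℂ) * a * b).re = d * (a * b).re := by
        intro d a b
        rw [mul_assoc, Complex.re_ofReal_mul]
      have f0 : fv p (Kp q) (Kp r) (zh x) (ft p q r x) 0 = Complex.I * ((Kp q : ℂ) * star (zh x) +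
          (Kp r : ℂ) * zh x * ep (phi p)) / (2 * ((Real.sin (phi p) : ℝ) : ℂ)) := rfl
      have f1 : fv p (Kp q) (Kp r) (zh x) (ft p q r x) 1 = -(Complex.I * ((Kp q : ℂ) * star (zh x) +
          (Kp r : ℂ) * zh x * star (ep (phi p))) / (2 * ((Real.sin (phi p) : ℝ) : ℂ))) := rfl
      rw [f0, f1]
      have e4 : -((((dl x)⁻¹ : ℝ) : ℂ) * (-(((Kp q : ℂ) * star (zh x) - (Kp r : ℂ) * zh x *
          star (ep (phi p))) / (2 * ((Real.sin (phi p) : ℝ) : ℂ))))) =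
          (((dl x)⁻¹ : ℝ) : ℂ) * w1 := by
        rw [hw1]
        ring
      rw [e4, e3, e3, Complex.add_re]
      ring
    rw [key]
    show (((dl x)⁻¹ * (2 * _) / (2 * ft p q r x) : ℝ) : ℂ) = (((dl x)⁻¹ : ℝ) : ℂ) *
      (((w0 * star (fv p (Kp q) (Kp r) (zh x) (ft p q r x) 0) +
        w1 * star (fv p (Kp q) (Kp r) (zh x) (ft p q r x) 1)).re / ft p q r x : ℝ) : ℂ)
    rw [← Complex.ofReal_mul]
    congr 1
    have hft : ft p q r x ≠ 0 := (Real.sqrt_pos.2 ht).ne'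
    field_simp

theorem bd_of_cont {E : Type} [SeminormedAddCommGroup E] {f : ℝ → E} {a b : ℝ}
    (h : ContinuousOn f (Set.Icc a b)) : ∃ C : ℝ, 0 ≤ C ∧ ∀ x ∈ Set.Icc a b, ‖f x‖ ≤ C := by
  obtain ⟨C, hC⟩ := isCompact_Icc.exists_bound_of_continuousOn h
  exact ⟨|C|, abs_nonneg C, fun x hx => (hC x hx).trans (le_abs_self C)⟩

/-- THE CERTIFICATE THEOREM, symmetric frame -/
theorem star_cert2 {p q r : ℕ} (hp : 3 ≤ p) (hq : 3 ≤ q) (hr : 3 ≤ r) (Y : BSys p q r) {a b : ℝ}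
    (ha : -2 < a) (hab : a < b) (hb : b < 2)
    (htt : ∀ x ∈ Set.Icc a b, 0 < tt (phi p) (Kp q) (Kp r) x)
    (K : ℝ → Sy → Mt) (S : ℝ → Sy → Sy → Mt) (g : ℝ)
    (hS : ∀ x ∈ Set.Ioo a b, ∀ e f i j, ‖S x e f i j‖ ≤ g)
    (U : Fin 3 → V3) (hU : LinearIndependent ℂ U) (y0 : V3) (bd : ℝ)
    (h : ∀ x ∈ Set.Ioo a b, SNK Y (fv p (Kp q) (Kp r) (zh x) (ft p q r x))
      (fw p (Kp q) (Kp r) (zh x) (ft p q r x)) (K x) (S x) U y0 bd) : Win p q r a b := by
  have hI : ∀ x ∈ Set.Icc a b, -2 < x ∧ x < 2 := fun x hx =>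
    ⟨by linarith [hx.1], by linarith [hx.2]⟩
  have hft : ∀ x ∈ Set.Icc a b, 0 < ft p q r x := fun x hx => Real.sqrt_pos.2 (htt x hx)
  -- continuity
  have cz : ContinuousOn zh (Set.Icc a b) := fun x hx =>
    (zh_deriv (hI x hx).1 (hI x hx).2).continuousAt.continuousWithinAt
  have ct : ContinuousOn (fun x => ft p q r x) (Set.Icc a b) := fun x hx =>
    ((tt_deriv (phi p) (Kp q) (Kp r) (hI x hx).1 (hI x hx).2).continuousAt.sqrt).continuousWithinAt
  have cti : ContinuousOn (fun x => (ft p q r x)⁻¹) (Set.Icc a b) :=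
    ct.inv₀ (fun x hx => (hft x hx).ne')
  have cd : ContinuousOn (fun x => (dl x)⁻¹) (Set.Icc a b) := by
    refine ContinuousOn.inv₀ ?_ (fun x hx => (dl_pos (hI x hx).1 (hI x hx).2).ne')
    unfold dl
    fun_prop
  have cv : ContinuousOn (fun x => nv p q r (star (zh x)) (ft p q r x) x) (Set.Icc a b) := by
    rw [continuousOn_pi]
    intro i x hx
    exact (fv_deriv (hI x hx).1 (hI x hx).2 (htt x hx) i).continuousAt.continuousWithinAt
  have czs : ContinuousOn (fun x => star (zh x)) (Set.Icc a b) := cz.star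
  have cg : ∀ e : ℂ, ContinuousOn (fun x => Complex.I * ((Kp q : ℂ) * star (zh x) +
      (Kp r : ℂ) * zh x * e) / (2 * ((Real.sin (phi p) : ℝ) : ℂ))) (Set.Icc a b) := fun e =>
    (continuousOn_const.mul ((continuousOn_const.mul czs).add ((continuousOn_const.mul cz).mul
      continuousOn_const))).div_const _
  have cw' : ∀ e : ℂ, ContinuousOn (fun x => ((Kp q : ℂ) * star (zh x) -
      (Kp r : ℂ) * zh x * e) / (2 * ((Real.sin (phi p) : ℝ) : ℂ))) (Set.Icc a b) := fun e =>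
    ((continuousOn_const.mul czs).sub ((continuousOn_const.mul cz).mul
      continuousOn_const)).div_const _
  have cf : ContinuousOn (fun x => fw p (Kp q) (Kp r) (zh x) (ft p q r x)) (Set.Icc a b) := by
    rw [continuousOn_pi]
    intro i
    fin_cases i
    · exact (cw' _).neg
    · exact cw' _
    · refine Complex.continuous_ofReal.comp_continuousOn (ContinuousOn.div ?_ ct
        (fun x hx => (hft x hx).ne'))
      exact Complex.continuous_re.comp_continuousOn (((cw' _).neg.mul (cg _).star).add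
        ((cw' _).mul ((cg _).neg.star)))
  obtain ⟨C1, p1, h1⟩ := bd_of_cont cti
  obtain ⟨C2, p2, h2⟩ := bd_of_cont ct
  obtain ⟨C3, p3, h3⟩ := bd_of_cont cv
  obtain ⟨C4, p4, h4⟩ := bd_of_cont cf
  obtain ⟨C5, p5, h5⟩ := bd_of_cont cd
  have pg := abs_nonneg g
  have q1 : 0 ≤ C5 * C4 := mul_nonneg p5 p4
  have q2 : 0 ≤ |g| * C5 := mul_nonneg pg p5
  set T : ℝ := 1 + C1 + C2 + C3 + C5 * C4 + |g| * C5 with hT
  have hT1 : 1 ≤ T := by linarith
  refine star_certN hp hq hr Y ha hab hb (fun x => star (zh x)) (fun x => ft p q r x)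
    (fun x => (((dl x)⁻¹ : ℝ) : ℂ) • fw p (Kp q) (Kp r) (zh x) (ft p q r x)) T hT1
    (fun x hx => by rw [norm_star, zh_norm (hI x hx).1.le (hI x hx).2.le])
    (fun x hx => ⟨?_, ?_, ?_⟩)
    (fun x hx i => fv_deriv (hI x hx).1 (hI x hx).2 (htt x hx) i)
    (fun x hx => ⟨?_, ?_⟩) dl (fun x hx => dl_pos (hI x (Set.Ioo_subset_Icc_self hx)).1
      (hI x (Set.Ioo_subset_Icc_self hx)).2) K S (fun x hx e f i j => ?_) U hU y0 bd
    (fun x hx => ?_)
  · have k := h1 x hx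
    rw [Real.norm_eq_abs, abs_of_pos (inv_pos.2 (hft x hx))] at k
    have k2 : (ft p q r x)⁻¹ ≤ T := by linarith
    rw [one_div]
    exact inv_le_of_inv_le₀ (hft x hx) k2
  · have k := h2 x hx
    rw [Real.norm_eq_abs, abs_of_pos (hft x hx)] at k
    linarith
  · exact Real.sq_sqrt (htt x hx).le
  · have k := h3 x hx
    linarith
  · rw [norm_smul, Complex.norm_real]
    have k := mul_le_mul (h5 x hx) (h4 x hx) (norm_nonneg _) p5
    linarith
  · have hx' := Set.Ioo_subset_Icc_self hx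
    have hd := dl_pos (hI x hx').1 (hI x hx').2
    have k := h5 x hx'
    rw [Real.norm_eq_abs, abs_of_pos (inv_pos.2 hd)] at k
    have k1 : 1 ≤ C5 * dl x := by
      have := mul_le_mul_of_nonneg_right k hd.le
      rwa [inv_mul_cancel₀ hd.ne'] at this
    have k2 : |g| * C5 ≤ T := by linarith
    calc ‖S x e f i j‖ ≤ g := hS x hx e f i j
      _ ≤ |g| := le_abs_self g
      _ = |g| * 1 := (mul_one _).symm
      _ ≤ |g| * (C5 * dl x) := mul_le_mul_of_nonneg_left k1 pg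
      _ = (|g| * C5) * dl x := by ring
      _ ≤ T * dl x := mul_le_mul_of_nonneg_right k2 hd.le
  · have hx' := Set.Ioo_subset_Icc_self hx
    have hd := dl_pos (hI x hx').1 (hI x hx').2
    have hd' : ((dl x : ℝ) : ℂ) ≠ 0 := by exact_mod_cast hd.ne'
    rw [nv_fv (hI x hx').1.le (hI x hx').2.le, smul_smul]
    have e : ((dl x : ℝ) : ℂ) * (((dl x)⁻¹ : ℝ) : ℂ) = 1 := by
      push_cast
      exact mul_inv_cancel₀ hd'
    rw [e, one_smul]
    exact h x hx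

end Pool.Agent.Helper6.MONO.W2
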