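import Pool.Agent.Helper12.CW.NF4

/-!
Plan W (MP_c75db0): the frame with coordinates `W = |A|² + |B|²`, `a = κ_q²`, `b = κ_r²`; the
direction is `d / d W`.
-/

set_option autoImplicit false
noncomputable section
namespace Pool.Agent.Helper6.MONO.W2

open Matrix Filter Topology

def cX (p : ℕ) (W a b : ℝ) : ℝ := (2 * W - a - b) / Kp p
def cY (p : ℕ) (a b : ℝ) : ℝ := (a - b) / (2 * Real.sin (phi p))
def cZ (p : ℕ) (W a b : ℝ) : ℂ := ⟨cX p W a b, cY p a b⟩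
def cR (p : ℕ) (W a b : ℝ) : ℝ := Real.sqrt (W ^ 2 - cX p W a b ^ 2 - cY p a b ^ 2)
def cB (p : ℕ) (W a b : ℝ) : ℝ := Real.sqrt ((W + cR p W a b) / 2)

/-- the polar vector of the letter `2` -/
def vC (p : ℕ) (W a b : ℝ) : V3 :=
  ![-(ep (phi p) * star (cZ p W a b)) / (2 * (cB p W a b : ℂ)), (cB p W a b : ℂ),
    ((Real.sqrt (W - 2) : ℝ) : ℂ)]

/-- derivatives in `W` -/
def cRd (p : ℕ) (W a b : ℝ) : ℝ := (W - cX p W a b * (2 / Kp p)) / cR p W a b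
def cBd (p : ℕ) (W a b : ℝ) : ℝ := (1 + cRd p W a b) / (4 * cB p W a b)
def wC (p : ℕ) (W a b : ℝ) : V3 :=
  ![-(ep (phi p) * (((2 / Kp p : ℝ) : ℂ) / (2 * (cB p W a b : ℂ)) -
      star (cZ p W a b) * (cBd p W a b : ℂ) / (2 * (cB p W a b : ℂ) ^ 2))), (cBd p W a b : ℂ),
    ((1 / (2 * Real.sqrt (W - 2)) : ℝ) : ℂ)]

/-- `W` as a function of `x` -/
def cW (p q r : ℕ) (x : ℝ) : ℝ := tt (phi p) (Kp q) (Kp r) x + 2

theorem star_cZ (p : ℕ) (W a b : ℝ) : star (cZ p W a b) =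
    ((cX p W a b : ℝ) : ℂ) - ((cY p a b : ℝ) : ℂ) * Complex.I := by
  apply Complex.ext <;> simp [cZ]

/-- derivative of the frame in `W` -/
theorem vC_deriv {p : ℕ} {W a b : ℝ} (hR : 0 < W ^ 2 - cX p W a b ^ 2 - cY p a b ^ 2)
    (hW : 2 < W) (i : Fin 3) : HasDerivAt (fun W => vC p W a b i) (wC p W a b i) W := by
  have hR' : 0 < cR p W a b := Real.sqrt_pos.2 hR
  have hB0 : 0 < (W + cR p W a b) / 2 := by linarith
  have hB' : 0 < cB p W a b := Real.sqrt_pos.2 hB0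
  have dX : HasDerivAt (fun W => cX p W a b) (2 / Kp p) W := by
    have h := ((((hasDerivAt_id W).const_mul 2).sub_const a).sub_const b).div_const (Kp p)
    refine h.congr_deriv ?_
    ring
  have dR : HasDerivAt (fun W => cR p W a b) (cRd p W a b) W := by
    have h1 : HasDerivAt (fun W => W ^ 2 - cX p W a b ^ 2 - cY p a b ^ 2)
        (2 * W - 2 * cX p W a b * (2 / Kp p)) W := by
      have h0 : HasDerivAt (fun W : ℝ => W ^ 2) (2 * W) W := by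
        simpa using hasDerivAt_pow 2 W
      have h0' : HasDerivAt (fun W : ℝ => cX p W a b ^ 2) (2 * cX p W a b * (2 / Kp p)) W := by
        have := dX.pow 2
        refine this.congr_deriv ?_
        push_cast
        ring
      exact (h0.sub h0').sub_const _
    have h2 := h1.sqrt hR.ne'
    refine h2.congr_deriv ?_
    show _ = (W - cX p W a b * (2 / Kp p)) / Real.sqrt (W ^ 2 - cX p W a b ^ 2 - cY p a b ^ 2)
    have hR'' : Real.sqrt (W ^ 2 - cX p W a b ^ 2 - cY p a b ^ 2) ≠ 0 := hR'.ne'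
    rw [div_eq_div_iff (by positivity) hR'']
    ring
  have dB : HasDerivAt (fun W => cB p W a b) (cBd p W a b) W := by
    have h1 : HasDerivAt (fun W => (W + cR p W a b) / 2) ((1 + cRd p W a b) / 2) W :=
      ((hasDerivAt_id W).add dR).div_const 2
    have h2 := h1.sqrt hB0.ne'
    refine h2.congr_deriv ?_
    show _ = (1 + cRd p W a b) / (4 * Real.sqrt ((W + cR p W a b) / 2))
    have hB'' : Real.sqrt ((W + cR p W a b) / 2) ≠ 0 := hB'.ne'
    rw [div_eq_div_iff (by positivity) (by positivity)]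
    ring
  have dBc := dB.ofReal_comp
  have hBc : ((cB p W a b : ℝ) : ℂ) ≠ 0 := by exact_mod_cast hB'.ne'
  rcases fin3 i with rfl | rfl | rfl
  · have e : (fun W => vC p W a b 0) = fun W => -(ep (phi p) * (((cX p W a b : ℝ) : ℂ) -
        ((cY p a b : ℝ) : ℂ) * Complex.I)) / (2 * (cB p W a b : ℂ)) := by
      funext W
      rw [← star_cZ]
      rfl
    rw [e]
    have h1 : HasDerivAt (fun W => -(ep (phi p) * (((cX p W a b : ℝ) : ℂ) -
        ((cY p a b : ℝ) : ℂ) * Complex.I))) (-(ep (phi p) * ((2 / Kp p : ℝ) : ℂ))) W :=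
      (((dX.ofReal_comp).sub_const (((cY p a b : ℝ) : ℂ) * Complex.I)).const_mul
      (ep (phi p))).neg
    have h2 : HasDerivAt (fun W => -(ep (phi p) * (((cX p W a b : ℝ) : ℂ) -
        ((cY p a b : ℝ) : ℂ) * Complex.I)) / (2 * (cB p W a b : ℂ)))
        ((-(ep (phi p) * ((2 / Kp p : ℝ) : ℂ)) * (2 * (cB p W a b : ℂ)) -
          -(ep (phi p) * (((cX p W a b : ℝ) : ℂ) - ((cY p a b : ℝ) : ℂ) * Complex.I)) *
          (2 * (cBd p W a b : ℂ))) / (2 * (cB p W a b : ℂ)) ^ 2) W :=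
      h1.div (dBc.const_mul 2) (mul_ne_zero two_ne_zero hBc)
    refine h2.congr_deriv ?_
    show _ = -(ep (phi p) * (((2 / Kp p : ℝ) : ℂ) / (2 * (cB p W a b : ℂ)) -
      star (cZ p W a b) * (cBd p W a b : ℂ) / (2 * (cB p W a b : ℂ) ^ 2)))
    rw [star_cZ]
    generalize ((2 / Kp p : ℝ) : ℂ) = t
    field_simp
    ring
  · exact dBc
  · have h1 := ((hasDerivAt_id W).sub_const 2).sqrt (show W - 2 ≠ 0 by linarith)
    exact h1.ofReal_comp

/-! ### the identities -/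

theorem cS_y2 {x : ℝ} (h1 : -2 ≤ x) (h2 : x ≤ 2) : Real.sqrt (1 - (x / 2) ^ 2) ^ 2 = 1 - (x / 2) ^ 2 :=
  Real.sq_sqrt (by nlinarith)

theorem cS_W {p q r : ℕ} (hp : 3 ≤ p) (hq : 3 ≤ q) (hr : 3 ≤ r) {x : ℝ} (h1 : -2 ≤ x)
    (h2 : x ≤ 2) : cW p q r x * (2 * Real.sin (phi p) ^ 2) =
      Kp q ^ 2 + Kp r ^ 2 + Real.cos (phi p) * (Kp q * Kp r * x) := by
  have h := (st_TT p q r hp hq hr x h1 h2).1
  rw [four_sub] at h
  have e : Kp p = 2 * Real.cos (phi p) := rfl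
  rw [e] at h
  unfold cW
  linarith

theorem kp_cos {p : ℕ} (hp : 3 ≤ p) : 0 < Real.cos (phi p) ∧ 0 < Real.sin (phi p) := by
  have hp' : (3 : ℝ) ≤ p := by exact_mod_cast hp
  have hpi := Real.pi_pos
  have h1 : phi p ≤ Real.pi / 3 := by
    unfold phi
    exact div_le_div_of_nonneg_left hpi.le (by norm_num) hp'
  have h0 : 0 < phi p := by
    unfold phi
    positivity
  exact ⟨Real.cos_pos_of_mem_Ioo ⟨by linarith, by linarith⟩,
    Real.sin_pos_of_pos_of_lt_pi h0 (by linarith)⟩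

theorem cS_X {p q r : ℕ} (hp : 3 ≤ p) (hq : 3 ≤ q) (hr : 3 ≤ r) {x : ℝ} (h1 : -2 ≤ x)
    (h2 : x ≤ 2) : cX p (cW p q r x) (Kp q ^ 2) (Kp r ^ 2) * (2 * Real.sin (phi p) ^ 2) =
      Real.cos (phi p) * (Kp q ^ 2 + Kp r ^ 2) + Kp q * Kp r * x := by
  have hW := cS_W hp hq hr h1 h2
  obtain ⟨hc, hs⟩ := kp_cos hp
  have hsc := Real.sin_sq_add_cos_sq (phi p)
  have e : Kp p = 2 * Real.cos (phi p) := rfl
  unfold cX
  rw [e, div_mul_eq_mul_div, div_eq_iff (by positivity)]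
  linear_combination 2 * hW - (Kp q ^ 2 + Kp r ^ 2) * 2 * hsc

theorem cS_R2 {p q r : ℕ} (hp : 3 ≤ p) (hq : 3 ≤ q) (hr : 3 ≤ r) {x : ℝ} (h1 : -2 ≤ x)
    (h2 : x ≤ 2) : cW p q r x ^ 2 - cX p (cW p q r x) (Kp q ^ 2) (Kp r ^ 2) ^ 2 -
      cY p (Kp q ^ 2) (Kp r ^ 2) ^ 2 =
      (Kp q * Kp r * Real.sqrt (1 - (x / 2) ^ 2) / Real.sin (phi p)) ^ 2 := by
  have hW := cS_W hp hq hr h1 h2
  have hX := cS_X hp hq hr h1 h2
  obtain ⟨hc, hs⟩ := kp_cos hp
  have hsc := Real.sin_sq_add_cos_sq (phi p)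
  have hy := cS_y2 h1 h2
  have hY : cY p (Kp q ^ 2) (Kp r ^ 2) * (2 * Real.sin (phi p)) = Kp q ^ 2 - Kp r ^ 2 := by
    unfold cY
    field_simp
  generalize cY p (Kp q ^ 2) (Kp r ^ 2) = Y at *
  generalize cX p (cW p q r x) (Kp q ^ 2) (Kp r ^ 2) = X at *
  generalize cW p q r x = W at *
  generalize Real.sqrt (1 - (x / 2) ^ 2) = y at *
  generalize Real.sin (phi p) = s at *
  generalize Real.cos (phi p) = c at *
  generalize Kp q = k1 at *
  generalize Kp r = k2 at *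
  have hs0 : s ≠ 0 := hs.ne'
  rw [div_pow, eq_div_iff (by positivity)]
  have e4 : 4 * s ^ 4 * (W ^ 2 - X ^ 2) = s ^ 2 * ((k1 ^ 2 + k2 ^ 2) ^ 2 - (k1 * k2 * x) ^ 2) := by
    have a1 : (W * (2 * s ^ 2)) ^ 2 - (X * (2 * s ^ 2)) ^ 2 =
      s ^ 2 * ((k1 ^ 2 + k2 ^ 2) ^ 2 - (k1 * k2 * x) ^ 2) := by
      rw [hW, hX]
      linear_combination (-((k1 ^ 2 + k2 ^ 2) ^ 2 - (k1 * k2 * x) ^ 2)) * hsc
    linear_combination a1
  have e5 : 4 * s ^ 2 * Y ^ 2 = (k1 ^ 2 - k2 ^ 2) ^ 2 := by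
    rw [← hY]
    ring
  have e6 : 4 * s ^ 2 * ((W ^ 2 - X ^ 2 - Y ^ 2) * s ^ 2) = 4 * s ^ 2 * (k1 * k2 * y) ^ 2 := by
    have : (k1 * k2 * y) ^ 2 = k1 ^ 2 * k2 ^ 2 * (1 - (x / 2) ^ 2) := by rw [← hy]; ring
    rw [this]
    linear_combination e4 - s ^ 2 * e5
  exact mul_left_cancel₀ (by positivity) e6

theorem cS_R {p q r : ℕ} (hp : 3 ≤ p) (hq : 3 ≤ q) (hr : 3 ≤ r) {x : ℝ} (h1 : -2 ≤ x)
    (h2 : x ≤ 2) : cR p (cW p q r x) (Kp q ^ 2) (Kp r ^ 2) =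
      Kp q * Kp r * Real.sqrt (1 - (x / 2) ^ 2) / Real.sin (phi p) := by
  unfold cR
  rw [cS_R2 hp hq hr h1 h2]
  obtain ⟨hc, hs⟩ := kp_cos hp
  obtain ⟨hc1, _⟩ := kp_cos hq
  obtain ⟨hc2, _⟩ := kp_cos hr
  have k1 : 0 < Kp q := by
    have e : Kp q = 2 * Real.cos (phi q) := rfl
    rw [e]; positivity
  have k2 : 0 < Kp r := by
    have e : Kp r = 2 * Real.cos (phi r) := rfl
    rw [e]; positivity
  exact Real.sqrt_sq (by positivity)

theorem cS_B2 {p q r : ℕ} (hp : 3 ≤ p) (hq : 3 ≤ q) (hr : 3 ≤ r) {x : ℝ} (h1 : -2 ≤ x)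
    (h2 : x ≤ 2) : ‖sB (phi p) (Kp q) (Kp r) (zx x)‖ ^ 2 =
      (cW p q r x + cR p (cW p q r x) (Kp q ^ 2) (Kp r ^ 2)) / 2 := by
  have hW := cS_W hp hq hr h1 h2
  rw [cS_R hp hq hr h1 h2]
  obtain ⟨hc, hs⟩ := kp_cos hp
  have hsc := Real.sin_sq_add_cos_sq (phi p)
  have hy := cS_y2 h1 h2
  have e : ‖sB (phi p) (Kp q) (Kp r) (zx x)‖ ^ 2 * (4 * Real.sin (phi p) ^ 2) =
      Kp q ^ 2 + Kp r ^ 2 + Kp q * Kp r * (x * Real.cos (phi p) +
        2 * Real.sqrt (1 - (x / 2) ^ 2) * Real.sin (phi p)) := by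
    have e1 : ‖sB (phi p) (Kp q) (Kp r) (zx x)‖ ^ 2 * (4 * Real.sin (phi p) ^ 2) =
        ‖(Kp q : ℂ) + (Kp r : ℂ) * zx x * star (ep (phi p))‖ ^ 2 := by
      unfold sB
      rw [norm_neg, norm_div, norm_mul, Complex.norm_I, one_mul, norm_mul, Complex.norm_real,
        Real.norm_eq_abs, abs_of_pos hs]
      have : ‖(2 : ℂ)‖ = 2 := by norm_num
      rw [this]
      field_simp
      ring
    rw [e1, ← Complex.normSq_eq_norm_sq, Complex.normSq_apply]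
    unfold zx nrzP ep
    generalize Real.sqrt (1 - (x / 2) ^ 2) = y at *
    generalize Real.sin (phi p) = s at *
    generalize Real.cos (phi p) = c at *
    simp
    linear_combination (Kp r ^ 2 * ((x / 2) ^ 2 + y ^ 2)) * hsc + Kp r ^ 2 * hy
  have e2 : (cW p q r x + Kp q * Kp r * Real.sqrt (1 - (x / 2) ^ 2) / Real.sin (phi p)) / 2 *
      (4 * Real.sin (phi p) ^ 2) = Kp q ^ 2 + Kp r ^ 2 + Kp q * Kp r * (x * Real.cos (phi p) +
        2 * Real.sqrt (1 - (x / 2) ^ 2) * Real.sin (phi p)) := by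
    have e3 : Kp q * Kp r * Real.sqrt (1 - (x / 2) ^ 2) / Real.sin (phi p) / 2 *
      (4 * Real.sin (phi p) ^ 2) =
      2 * (Kp q * Kp r * Real.sqrt (1 - (x / 2) ^ 2)) * Real.sin (phi p) := by
      field_simp
      ring
    linear_combination hW + e3
  have h4 : (4 * Real.sin (phi p) ^ 2) ≠ 0 := by positivity
  exact mul_right_cancel₀ h4 (e.trans e2.symm)

theorem cS_AB {p q r : ℕ} (hp : 3 ≤ p) (hq : 3 ≤ q) (hr : 3 ≤ r) {x : ℝ} (h1 : -2 ≤ x)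
    (h2 : x ≤ 2) : sA (phi p) (Kp q) (Kp r) (zx x) * star (sB (phi p) (Kp q) (Kp r) (zx x)) =
      -(ep (phi p) * star (cZ p (cW p q r x) (Kp q ^ 2) (Kp r ^ 2))) / 2 := by
  obtain ⟨hc, hs⟩ := kp_cos hp
  have hX := cS_X hp hq hr h1 h2
  have hsc := Real.sin_sq_add_cos_sq (phi p)
  have hY : cY p (Kp q ^ 2) (Kp r ^ 2) * (2 * Real.sin (phi p)) = Kp q ^ 2 - Kp r ^ 2 := by
    unfold cY
    field_simp
  have hm := ep_mul (phi p)
  have ha := ep_add (phi p)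
  have hd := ep_sub (phi p)
  have hz : zx x + star (zx x) = (x : ℂ) := by
    apply Complex.ext
    · simp [zx, nrzP]
    · simp [zx, nrzP]
  have hzz : zx x * star (zx x) = 1 := by
    have h3 : star (zx x) = (starRingEnd ℂ) (zx x) := rfl
    rw [h3, Complex.mul_conj, Complex.normSq_eq_norm_sq, zx_norm h1 h2]
    norm_num
  have hs' : ((Real.sin (phi p) : ℝ) : ℂ) ≠ 0 := by exact_mod_cast hs.ne'
  rw [star_cZ]
  unfold sA sB
  have est : star (-(Complex.I * ((Kp q : ℂ) + (Kp r : ℂ) * zx x * star (ep (phi p))) /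
      (2 * ((Real.sin (phi p) : ℝ) : ℂ)))) = Complex.I * ((Kp q : ℂ) + (Kp r : ℂ) * star (zx x) *
      ep (phi p)) / (2 * ((Real.sin (phi p) : ℝ) : ℂ)) := by
    have k : ∀ t : ℝ, star (t : ℂ) = (t : ℂ) := fun t => Complex.conj_ofReal t
    have i1 : star Complex.I = -Complex.I := Complex.conj_I
    have t2 : star (2 : ℂ) = 2 := by
      have := k 2
      simp
    rw [star_neg, star_div₀, star_mul', star_mul', star_add, star_mul', star_mul', k, k, k, i1, t2,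
      star_star]
    ring
  rw [est]
  have hXc : ((cX p (cW p q r x) (Kp q ^ 2) (Kp r ^ 2) : ℝ) : ℂ) *
      (2 * ((Real.sin (phi p) : ℝ) : ℂ) ^ 2) = ((Real.cos (phi p) : ℝ) : ℂ) *
      ((Kp q : ℂ) ^ 2 + (Kp r : ℂ) ^ 2) + (Kp q : ℂ) * (Kp r : ℂ) * (x : ℂ) := by
    have := congrArg (fun t : ℝ => (t : ℂ)) hX
    push_cast at this
    push_cast
    exact this
  have hYc : ((cY p (Kp q ^ 2) (Kp r ^ 2) : ℝ) : ℂ) * (2 * ((Real.sin (phi p) : ℝ) : ℂ)) =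
      (Kp q : ℂ) ^ 2 - (Kp r : ℂ) ^ 2 := by
    have := congrArg (fun t : ℝ => (t : ℂ)) hY
    push_cast at this
    push_cast
    exact this
  have hI : Complex.I * Complex.I = -1 := Complex.I_mul_I
  generalize star (ep (phi p)) = f at *
  generalize ep (phi p) = e at *
  generalize star (zx x) = z' at *
  generalize zx x = z at *
  generalize hcc : ((cX p (cW p q r x) (Kp q ^ 2) (Kp r ^ 2) : ℝ) : ℂ) = X at *
  generalize ((cY p (Kp q ^ 2) (Kp r ^ 2) : ℝ) : ℂ) = Y at *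
  have hac : 2 * ((Real.cos (phi p) : ℝ) : ℂ) = e + f := by
    rw [ha]
    push_cast
    ring
  generalize ((Real.cos (phi p) : ℝ) : ℂ) = c at *
  generalize ((Real.sin (phi p) : ℝ) : ℂ) = s at *
  generalize ((Kp q : ℝ) : ℂ) = k1 at *
  generalize ((Kp r : ℝ) : ℂ) = k2 at *
  generalize ((x : ℝ) : ℂ) = x' at *
  have main : -(e * (X - Y * Complex.I)) / 2 * (4 * s ^ 2) = -(k1 ^ 2 + k1 * k2 * e * x' + k2 ^ 2 * e ^ 2) := by
    have e1 : (X - Y * Complex.I) * (2 * s ^ 2) = k1 ^ 2 * f + k2 ^ 2 * e + k1 * k2 * x' := by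
      linear_combination hXc - s * Complex.I * hYc + (k1 ^ 2 + k2 ^ 2) / 2 * hac +
        (k1 ^ 2 - k2 ^ 2) / 2 * hd
    linear_combination (-e) * e1 - k1 ^ 2 * hm
  have lhs : Complex.I * (k1 + k2 * z * e) / (2 * s) * (Complex.I * (k1 + k2 * z' * e) / (2 * s)) *
      (4 * s ^ 2) = -(k1 ^ 2 + k1 * k2 * e * x' + k2 ^ 2 * e ^ 2) := by
    have e9 : Complex.I * (k1 + k2 * z * e) / (2 * s) * (Complex.I * (k1 + k2 * z' * e) / (2 * s)) *
        (4 * s ^ 2) = (Complex.I * Complex.I) * ((k1 + k2 * z * e) * (k1 + k2 * z' * e)) := by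
      field_simp
      ring
    rw [e9, hI, ← hz]
    linear_combination (-(k2 ^ 2 * e ^ 2)) * hzz
  have h4 : (4 * s ^ 2) ≠ 0 := mul_ne_zero (by norm_num) (pow_ne_zero 2 hs')
  exact mul_right_cancel₀ h4 (lhs.trans main.symm)

/-! ### the theorem -/

/-- the unimodular factor -/
def cE (p q r : ℕ) (x : ℝ) : ℂ := star (sB (phi p) (Kp q) (Kp r) (zx x)) /
  (‖sB (phi p) (Kp q) (Kp r) (zx x)‖ : ℂ)

theorem cS_B {p q r : ℕ} (hp : 3 ≤ p) (hq : 3 ≤ q) (hr : 3 ≤ r) {x : ℝ} (h1 : -2 ≤ x)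
    (h2 : x ≤ 2) : ‖sB (phi p) (Kp q) (Kp r) (zx x)‖ =
      cB p (cW p q r x) (Kp q ^ 2) (Kp r ^ 2) := by
  unfold cB
  rw [← cS_B2 hp hq hr h1 h2, Real.sqrt_sq (norm_nonneg _)]

theorem cS_pos {p q r : ℕ} (hp : 3 ≤ p) (hq : 3 ≤ q) (hr : 3 ≤ r) {x : ℝ} (h1 : -2 < x)
    (h2 : x < 2) : 0 < cR p (cW p q r x) (Kp q ^ 2) (Kp r ^ 2) ∧
      0 < cW p q r x ^ 2 - cX p (cW p q r x) (Kp q ^ 2) (Kp r ^ 2) ^ 2 -
      cY p (Kp q ^ 2) (Kp r ^ 2) ^ 2 := by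
  obtain ⟨hc, hs⟩ := kp_cos hp
  obtain ⟨hc1, _⟩ := kp_cos hq
  obtain ⟨hc2, _⟩ := kp_cos hr
  have k1 : 0 < Kp q := by
    have e : Kp q = 2 * Real.cos (phi q) := rfl
    rw [e]; positivity
  have k2 : 0 < Kp r := by
    have e : Kp r = 2 * Real.cos (phi r) := rfl
    rw [e]; positivity
  have hy : 0 < Real.sqrt (1 - (x / 2) ^ 2) := Real.sqrt_pos.2 (by nlinarith)
  rw [cS_R hp hq hr h1.le h2.le, cS_R2 hp hq hr h1.le h2.le]
  constructor <;> positivity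

theorem nv_vC {p q r : ℕ} (hp : 3 ≤ p) (hq : 3 ≤ q) (hr : 3 ≤ r) {x : ℝ} (h1 : -2 < x)
    (h2 : x < 2) (ht : 0 < tt (phi p) (Kp q) (Kp r) x) :
    ‖cE p q r x‖ = 1 ∧ nv p q r (cE p q r x) (ft p q r x) x =
      vC p (cW p q r x) (Kp q ^ 2) (Kp r ^ 2) := by
  have hR := (cS_pos hp hq hr h1 h2).1
  have hW : 0 < cW p q r x := by
    unfold cW
    linarith
  have hB0 : 0 < (cW p q r x + cR p (cW p q r x) (Kp q ^ 2) (Kp r ^ 2)) / 2 := by linarith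
  have hB' : 0 < cB p (cW p q r x) (Kp q ^ 2) (Kp r ^ 2) := Real.sqrt_pos.2 hB0
  have hB := cS_B hp hq hr h1.le h2.le
  have hBn : 0 < ‖sB (phi p) (Kp q) (Kp r) (zx x)‖ := by rw [hB]; exact hB'
  have hBc : ((‖sB (phi p) (Kp q) (Kp r) (zx x)‖ : ℝ) : ℂ) ≠ 0 := by exact_mod_cast hBn.ne'
  have hAB := cS_AB hp hq hr h1.le h2.le
  have hBB := nsq (sB (phi p) (Kp q) (Kp r) (zx x))
  constructor
  · unfold cE
    rw [norm_div, norm_star, Complex.norm_real, norm_norm, div_self hBn.ne']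
  · unfold nv
    rw [nP_mulVec]
    have e0 : vv (phi p) (Kp q) (Kp r) x 0 = sA (phi p) (Kp q) (Kp r) (zx x) := rfl
    have e1 : vv (phi p) (Kp q) (Kp r) x 1 = sB (phi p) (Kp q) (Kp r) (zx x) := rfl
    have e2 : vv (phi p) (Kp q) (Kp r) x 2 = 1 := rfl
    rw [e0, e1, e2]
    unfold cE vC
    rw [← hB]
    funext i
    fin_cases i
    · show star (sB (phi p) (Kp q) (Kp r) (zx x)) / (‖sB (phi p) (Kp q) (Kp r) (zx x)‖ : ℂ) *
        sA (phi p) (Kp q) (Kp r) (zx x) = -(ep (phi p) * star (cZ p (cW p q r x) (Kp q ^ 2)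
        (Kp r ^ 2))) / (2 * (‖sB (phi p) (Kp q) (Kp r) (zx x)‖ : ℂ))
      rw [div_mul_eq_mul_div, div_eq_div_iff hBc (mul_ne_zero two_ne_zero hBc)]
      linear_combination (2 * (‖sB (phi p) (Kp q) (Kp r) (zx x)‖ : ℂ)) * hAB
    · show star (sB (phi p) (Kp q) (Kp r) (zx x)) / (‖sB (phi p) (Kp q) (Kp r) (zx x)‖ : ℂ) *
        sB (phi p) (Kp q) (Kp r) (zx x) = (‖sB (phi p) (Kp q) (Kp r) (zx x)‖ : ℂ)
      rw [div_mul_eq_mul_div, div_eq_iff hBc, mul_comm, hBB]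
      push_cast
      ring
    · show ((ft p q r x : ℝ) : ℂ) * 1 = ((Real.sqrt (cW p q r x - 2) : ℝ) : ℂ)
      unfold ft cW
      rw [mul_one, add_sub_cancel_right]

theorem ttd_pos {p q r : ℕ} (hp : 3 ≤ p) (hq : 3 ≤ q) (hr : 3 ≤ r) {x : ℝ} (h1 : -2 < x)
    (h2 : x < 2) : ttd (phi p) (Kp q) (Kp r) x =
      Kp p * Kp q * Kp r / (4 * Real.sin (phi p) ^ 2) ∧
      0 < Kp p * Kp q * Kp r / (4 * Real.sin (phi p) ^ 2) := by
  have h := (st_TT p q r hp hq hr x h1.le h2.le).2 h1 h2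
  rw [four_sub] at h
  obtain ⟨hc, hs⟩ := kp_cos hp
  obtain ⟨hc1, _⟩ := kp_cos hq
  obtain ⟨hc2, _⟩ := kp_cos hr
  have k0 : 0 < Kp p := by
    have e : Kp p = 2 * Real.cos (phi p) := rfl
    rw [e]; positivity
  have k1 : 0 < Kp q := by
    have e : Kp q = 2 * Real.cos (phi q) := rfl
    rw [e]; positivity
  have k2 : 0 < Kp r := by
    have e : Kp r = 2 * Real.cos (phi r) := rfl
    rw [e]; positivity
  refine ⟨?_, by positivity⟩
  rw [eq_div_iff (by positivity)]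
  exact h

theorem cW_deriv {p q r : ℕ} {x : ℝ} (h1 : -2 < x) (h2 : x < 2) :
    HasDerivAt (fun x => cW p q r x) (ttd (phi p) (Kp q) (Kp r) x) x :=
  (tt_deriv (phi p) (Kp q) (Kp r) h1 h2).add_const 2

/-- THE CERTIFICATE THEOREM in the coordinates `(W, a, b)` -/
theorem star_certC {p q r : ℕ} (hp : 3 ≤ p) (hq : 3 ≤ q) (hr : 3 ≤ r) (Y : BSys p q r) {a b : ℝ}
    (ha : -2 < a) (hab : a < b) (hb : b < 2)
    (htt : ∀ x ∈ Set.Icc a b, 0 < tt (phi p) (Kp q) (Kp r) x)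
    (K : ℝ → Sy → Mt) (S : ℝ → Sy → Sy → Mt) (g : ℝ)
    (hS : ∀ x ∈ Set.Ioo a b, ∀ e f i j, ‖S x e f i j‖ ≤ g)
    (U : Fin 3 → V3) (hU : LinearIndependent ℂ U) (y0 : V3) (bd : ℝ)
    (h : ∀ x ∈ Set.Ioo a b, SNK Y (vC p (cW p q r x) (Kp q ^ 2) (Kp r ^ 2))
      (wC p (cW p q r x) (Kp q ^ 2) (Kp r ^ 2)) (K x) (S x) U y0 bd) : Win p q r a b := by
  have hI : ∀ x ∈ Set.Icc a b, -2 < x ∧ x < 2 := fun x hx =>
    ⟨by linarith [hx.1], by linarith [hx.2]⟩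
  have hW2 : ∀ x ∈ Set.Icc a b, 2 < cW p q r x := fun x hx => by
    have := htt x hx
    unfold cW
    linarith
  have hft : ∀ x ∈ Set.Icc a b, 0 < ft p q r x := fun x hx => Real.sqrt_pos.2 (htt x hx)
  have hR : ∀ x ∈ Set.Icc a b, 0 < cR p (cW p q r x) (Kp q ^ 2) (Kp r ^ 2) := fun x hx =>
    (cS_pos hp hq hr (hI x hx).1 (hI x hx).2).1
  have hR2 : ∀ x ∈ Set.Icc a b, 0 < cW p q r x ^ 2 -
      cX p (cW p q r x) (Kp q ^ 2) (Kp r ^ 2) ^ 2 - cY p (Kp q ^ 2) (Kp r ^ 2) ^ 2 := fun x hx =>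
    (cS_pos hp hq hr (hI x hx).1 (hI x hx).2).2
  have hB : ∀ x ∈ Set.Icc a b, 0 < cB p (cW p q r x) (Kp q ^ 2) (Kp r ^ 2) := fun x hx =>
    Real.sqrt_pos.2 (by linarith [hR x hx, hW2 x hx])
  -- derivative
  set D : ℝ := Kp p * Kp q * Kp r / (4 * Real.sin (phi p) ^ 2) with hD
  have hd : ∀ x ∈ Set.Icc a b, ttd (phi p) (Kp q) (Kp r) x = D ∧ 0 < D := fun x hx =>
    ttd_pos hp hq hr (hI x hx).1 (hI x hx).2
  have hD0 : 0 < D := (hd a ⟨le_rfl, hab.le⟩).2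
  have dv : ∀ x ∈ Set.Icc a b, ∀ i, HasDerivAt
      (fun x => nv p q r (cE p q r x) (ft p q r x) x i)
      ((D : ℂ) * wC p (cW p q r x) (Kp q ^ 2) (Kp r ^ 2) i) x := by
    intro x hx i
    obtain ⟨h1, h2⟩ := hI x hx
    have k1 := vC_deriv (hR2 x hx) (hW2 x hx) i
    have k2 := cW_deriv (p := p) (q := q) (r := r) h1 h2
    rw [(hd x hx).1] at k2
    have k3 : HasDerivAt (fun x => vC p (cW p q r x) (Kp q ^ 2) (Kp r ^ 2) i)
        (D • wC p (cW p q r x) (Kp q ^ 2) (Kp r ^ 2) i) x :=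
      HasDerivAt.scomp (g₁ := fun W => vC p W (Kp q ^ 2) (Kp r ^ 2) i) x k1 k2
    have k4 : D • wC p (cW p q r x) (Kp q ^ 2) (Kp r ^ 2) i =
        (D : ℂ) * wC p (cW p q r x) (Kp q ^ 2) (Kp r ^ 2) i := rfl
    rw [k4] at k3
    refine k3.congr_of_eventuallyEq ?_
    have ct := (tt_deriv (phi p) (Kp q) (Kp r) h1 h2).continuousAt
    have op : ∀ᶠ t in 𝓝 x, 0 < tt (phi p) (Kp q) (Kp r) t :=
      ct.eventually (lt_mem_nhds (htt x hx))
    filter_upwards [isOpen_Ioo.mem_nhds (show x ∈ Set.Ioo (-2 : ℝ) 2 from ⟨h1, h2⟩), op]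
      with t ht ht2
    exact congrFun (nv_vC hp hq hr ht.1 ht.2 ht2).2 i
  -- continuity
  have cW' : ContinuousOn (fun x => cW p q r x) (Set.Icc a b) := fun x hx =>
    (cW_deriv (hI x hx).1 (hI x hx).2).continuousAt.continuousWithinAt
  have ct : ContinuousOn (fun x => ft p q r x) (Set.Icc a b) := fun x hx =>
    ((tt_deriv (phi p) (Kp q) (Kp r) (hI x hx).1 (hI x hx).2).continuousAt.sqrt).continuousWithinAt
  have cti : ContinuousOn (fun x => (ft p q r x)⁻¹) (Set.Icc a b) :=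
    ct.inv₀ (fun x hx => (hft x hx).ne')
  have cv : ContinuousOn (fun x => nv p q r (cE p q r x) (ft p q r x) x) (Set.Icc a b) := by
    rw [continuousOn_pi]
    intro i x hx
    exact (dv x hx i).continuousAt.continuousWithinAt
  have cX' : ContinuousOn (fun x => cX p (cW p q r x) (Kp q ^ 2) (Kp r ^ 2)) (Set.Icc a b) := by
    unfold cX
    exact (((continuousOn_const.mul cW').sub continuousOn_const).sub
      continuousOn_const).div_const _
  have cR' : ContinuousOn (fun x => cR p (cW p q r x) (Kp q ^ 2) (Kp r ^ 2)) (Set.Icc a b) := by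
    unfold cR
    exact (((cW'.pow 2).sub (cX'.pow 2)).sub continuousOn_const).sqrt
  have cB' : ContinuousOn (fun x => cB p (cW p q r x) (Kp q ^ 2) (Kp r ^ 2)) (Set.Icc a b) := by
    unfold cB
    exact ((cW'.add cR').div_const _).sqrt
  have cRd' : ContinuousOn (fun x => cRd p (cW p q r x) (Kp q ^ 2) (Kp r ^ 2)) (Set.Icc a b) := by
    unfold cRd
    exact (cW'.sub (cX'.mul continuousOn_const)).div cR' (fun x hx => (hR x hx).ne')
  have cBd' : ContinuousOn (fun x => cBd p (cW p q r x) (Kp q ^ 2) (Kp r ^ 2)) (Set.Icc a b) := by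
    unfold cBd
    exact (continuousOn_const.add cRd').div (continuousOn_const.mul cB')
      (fun x hx => by have := hB x hx; positivity)
  have cBc : ContinuousOn (fun x => ((cB p (cW p q r x) (Kp q ^ 2) (Kp r ^ 2) : ℝ) : ℂ))
      (Set.Icc a b) := Complex.continuous_ofReal.comp_continuousOn cB'
  have cBdc : ContinuousOn (fun x => ((cBd p (cW p q r x) (Kp q ^ 2) (Kp r ^ 2) : ℝ) : ℂ))
      (Set.Icc a b) := Complex.continuous_ofReal.comp_continuousOn cBd'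
  have cZ' : ContinuousOn (fun x => star (cZ p (cW p q r x) (Kp q ^ 2) (Kp r ^ 2)))
      (Set.Icc a b) := by
    have e : (fun x => star (cZ p (cW p q r x) (Kp q ^ 2) (Kp r ^ 2))) = fun x =>
        ((cX p (cW p q r x) (Kp q ^ 2) (Kp r ^ 2) : ℝ) : ℂ) -
          ((cY p (Kp q ^ 2) (Kp r ^ 2) : ℝ) : ℂ) * Complex.I := by
      funext x
      exact star_cZ _ _ _ _
    rw [e]
    exact (Complex.continuous_ofReal.comp_continuousOn cX').sub continuousOn_const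
  have hBc : ∀ x ∈ Set.Icc a b, ((cB p (cW p q r x) (Kp q ^ 2) (Kp r ^ 2) : ℝ) : ℂ) ≠ 0 :=
    fun x hx => by exact_mod_cast (hB x hx).ne'
  have cf : ContinuousOn (fun x => wC p (cW p q r x) (Kp q ^ 2) (Kp r ^ 2)) (Set.Icc a b) := by
    rw [continuousOn_pi]
    intro i
    fin_cases i
    · exact (continuousOn_const.mul ((continuousOn_const.div (continuousOn_const.mul cBc)
        (fun x hx => mul_ne_zero two_ne_zero (hBc x hx))).sub ((cZ'.mul cBdc).div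
        (continuousOn_const.mul (cBc.pow 2))
        (fun x hx => mul_ne_zero two_ne_zero (pow_ne_zero 2 (hBc x hx)))))).neg
    · exact cBdc
    · refine Complex.continuous_ofReal.comp_continuousOn (ContinuousOn.div continuousOn_const
        (continuousOn_const.mul (cW'.sub continuousOn_const).sqrt) (fun x hx => ?_))
      have : 0 < Real.sqrt (cW p q r x - 2) := Real.sqrt_pos.2 (by linarith [hW2 x hx])
      positivity
  obtain ⟨C1, p1, h1⟩ := bd_of_cont cti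
  obtain ⟨C2, p2, h2⟩ := bd_of_cont ct
  obtain ⟨C3, p3, h3⟩ := bd_of_cont cv
  obtain ⟨C4, p4, h4⟩ := bd_of_cont cf
  have pg := abs_nonneg g
  have q1 : 0 ≤ D * C4 := mul_nonneg hD0.le p4
  have q2 : 0 ≤ |g| * D := mul_nonneg pg hD0.le
  set T : ℝ := 1 + C1 + C2 + C3 + D * C4 + |g| * D with hT
  have hT1 : 1 ≤ T := by linarith
  refine star_certN hp hq hr Y ha hab hb (fun x => cE p q r x) (fun x => ft p q r x)
    (fun x => (D : ℂ) • wC p (cW p q r x) (Kp q ^ 2) (Kp r ^ 2)) T hT1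
    (fun x hx => (nv_vC hp hq hr (hI x hx).1 (hI x hx).2 (htt x hx)).1)
    (fun x hx => ⟨?_, ?_, ?_⟩)
    (fun x hx i => dv x hx i)
    (fun x hx => ⟨?_, ?_⟩) (fun _ => D⁻¹) (fun x hx => inv_pos.2 hD0) K S
    (fun x hx e f i j => ?_) U hU y0 bd (fun x hx => ?_)
  · have k := h1 x hx
    rw [Real.norm_eq_abs, abs_of_pos (inv_pos.2 (hft x hx))] at k
    have k2 : (ft p q r x)⁻¹ ≤ T := by linarith
    rw [one_div]
    exact inv_le_of_inv_le₀ (hft x hx) k2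
  · have k := h2 x hx
    rw [Real.norm_eq_abs, abs_of_pos (hft x hx)] at k
    linarith
  · exact Real.sq_sqrt (htt x hx).le
  · have k := h3 x hx
    linarith
  · rw [norm_smul, Complex.norm_real, Real.norm_eq_abs, abs_of_pos hD0]
    have k := mul_le_mul_of_nonneg_left (h4 x hx) hD0.le
    linarith
  · have k2 : |g| * D ≤ T := by linarith
    calc ‖S x e f i j‖ ≤ g := hS x hx e f i j
      _ ≤ |g| := le_abs_self g
      _ = (|g| * D) * D⁻¹ := by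
          rw [mul_assoc, mul_inv_cancel₀ hD0.ne', mul_one]
      _ ≤ T * D⁻¹ := mul_le_mul_of_nonneg_right k2 (inv_pos.2 hD0).le
  · have hx' := Set.Ioo_subset_Icc_self hx
    rw [(nv_vC hp hq hr (hI x hx').1 (hI x hx').2 (htt x hx')).2, smul_smul]
    have e : ((D⁻¹ : ℝ) : ℂ) * (D : ℂ) = 1 := by
      rw [← Complex.ofReal_mul, inv_mul_cancel₀ hD0.ne', Complex.ofReal_one]
    rw [e, one_smul]
    exact h x hx

end Pool.Agent.Helper6.MONO.W2
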