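import Pool.Agent.Helper12.CW.NF5
import Pool.Agent.Helper47.CW.Bsys2
import Pool.Agent.Helper82.CW.NTest
import Pool.Agent.Helper51.CW.Kap
import Pool.Agent.Helper26.CW.Nr

/-!
Plan W (MP_c75db0): the certificate at one parameter from a list of items. Part 1: reversal,
gauge classes, the cover test.
-/

set_option autoImplicit false
noncomputable section
namespace Pool.Agent.Helper6.MONO.W2

open Matrix

/-! ### the adjoint -/

/-- adjoint with respect to the form -/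
def adJ (M : Mt) : Mt := J1 * M.conjTranspose * J1

theorem J1_sq : J1 * J1 = 1 := by
  ext i j
  fin_cases i <;> fin_cases j <;> simp [J1, Matrix.mul_apply, Fin.sum_univ_three]

theorem J1_ct : J1.conjTranspose = J1 := by
  ext i j
  fin_cases i <;> fin_cases j <;> simp [J1, Matrix.conjTranspose_apply]

theorem adJ_mul (A B : Mt) : adJ (A * B) = adJ B * adJ A := by
  unfold adJ
  rw [Matrix.conjTranspose_mul]
  have : J1 * B.conjTranspose * J1 * (J1 * A.conjTranspose * J1) =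
      J1 * B.conjTranspose * (J1 * J1) * A.conjTranspose * J1 := by
    simp only [Matrix.mul_assoc]
  rw [this, J1_sq, Matrix.mul_one]
  simp only [Matrix.mul_assoc]

theorem adJ_add (A B : Mt) : adJ (A + B) = adJ A + adJ B := by
  unfold adJ
  rw [Matrix.conjTranspose_add, mul_add, add_mul]

theorem adJ_neg (A : Mt) : adJ (-A) = -adJ A := by
  unfold adJ
  rw [Matrix.conjTranspose_neg, mul_neg, neg_mul]

theorem adJ_sub (A B : Mt) : adJ (A - B) = adJ A - adJ B := by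
  rw [sub_eq_add_neg, adJ_add, adJ_neg, ← sub_eq_add_neg]

theorem adJ_adJ (A : Mt) : adJ (adJ A) = A := by
  unfold adJ
  rw [Matrix.conjTranspose_mul, Matrix.conjTranspose_mul, J1_ct, Matrix.conjTranspose_conjTranspose]
  have : J1 * (J1 * (A * J1)) * J1 = (J1 * J1) * A * (J1 * J1) := by
    simp only [Matrix.mul_assoc]
  rw [this, J1_sq, Matrix.one_mul, Matrix.mul_one]

theorem adJ_smul (r : ℝ) (A : Mt) : adJ ((r : ℂ) • A) = (r : ℂ) • adJ A := by
  unfold adJ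
  have e : star (r : ℂ) = (r : ℂ) := Complex.conj_ofReal r
  rw [Matrix.conjTranspose_smul, e, mul_smul_comm, smul_mul_assoc]

theorem adJ_half (A : Mt) : adJ ((1 / 2 : ℂ) • A) = (1 / 2 : ℂ) • adJ A := by
  have e : (1 / 2 : ℂ) = ((1 / 2 : ℝ) : ℂ) := by push_cast; rfl
  rw [e, adJ_smul]

theorem adJ_zero : adJ 0 = 0 := by
  unfold adJ
  rw [Matrix.conjTranspose_zero, mul_zero, zero_mul]

theorem adJ_one : adJ 1 = 1 := by
  unfold adJ
  rw [Matrix.conjTranspose_one, Matrix.mul_one, J1_sq]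

/-- a matrix is determined by its form -/
theorem mat_ext {A B : Mt} (h : ∀ u y : V3, brJ 1 (A.mulVec u) y = brJ 1 (B.mulVec u) y) :
    A = B := by
  ext i j
  have h1 := h (Pi.single j 1) (Pi.single i 1)
  rw [Matrix.mulVec_single_one, Matrix.mulVec_single_one] at h1
  fin_cases i <;> simpa [brJ] using h1

theorem adJ_brJ (X : Mt) (u y : V3) :
    brJ 1 ((adJ X).mulVec u) y = star (brJ 1 (X.mulVec y) u) := brJ_adj X u y

theorem adJ_rfJ (V : V3) : adJ (rfJ 1 V) = rfJ 1 V := by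
  apply mat_ext
  intro u y
  rw [adJ_brJ, rfJ_adj, brJ_star]

theorem rfd_mulVec (V W u : V3) :
    (rfd 1 0 V W).mulVec u = -(brJ 1 u V • W + brJ 1 u W • V) := by
  funext i
  fin_cases i <;>
    simp [rfd, brJ, Matrix.mulVec, dotProduct, Fin.sum_univ_three] <;> ring

theorem adJ_rfd (V W : V3) : adJ (rfd 1 0 V W) = rfd 1 0 V W := by
  apply mat_ext
  intro u y
  rw [adJ_brJ, rfd_mulVec, rfd_mulVec]
  have e : ∀ a b : V3, brJ 1 (-a) b = -brJ 1 a b := fun a b => by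
    have := brJ_smul_left (-1) a b
    rw [neg_one_smul] at this
    rw [this]
    ring
  rw [e, e, brJ_add_left, brJ_add_left, brJ_smul_left, brJ_smul_left, brJ_smul_left, brJ_smul_left,
    star_neg, star_add, star_mul', star_mul', brJ_star, brJ_star, brJ_star, brJ_star]
  ring

theorem adJ_sDm {p : ℕ} (hp : 3 ≤ p) (s : Sy) :
    adJ (sDm (phi p) s.1 s.2) = sDm (phi p) (syi p s).1 (syi p s).2 := by
  apply mat_ext
  intro u y
  rw [adJ_brJ, sDm_adj hp s y u, brJ_star]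

theorem adJ_nM {p : ℕ} (hp : 3 ≤ p) (v : V3) (s : Sy) (m : ℕ) :
    adJ (nM (phi p) v s.1 s.2 m) = nM (phi p) v (syi p s).1 (syi p s).2 m := by
  apply mat_ext
  intro u y
  rw [adJ_brJ, nM_adj hp v s m y u, brJ_star]

theorem nMd_left (φ : ℝ) (v vd : V3) (a : Bool) (k m : ℕ) :
    nMd φ v vd a k (m + 1) = (sDm φ a k * rfd 1 0 v vd) * nM φ v a k m +
      (sDm φ a k * rfJ 1 v) * nMd φ v vd a k m := by
  induction m with
  | zero =>
    show 0 * (rfJ 1 v * sDm φ a k) + sDm φ a k * (rfd 1 0 v vd * sDm φ a k) =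
      sDm φ a k * rfd 1 0 v vd * sDm φ a k + sDm φ a k * rfJ 1 v * 0
    rw [zero_mul, mul_zero, zero_add, add_zero, Matrix.mul_assoc]
  | succ m ih =>
    have h1 : nMd φ v vd a k (m + 2) = nMd φ v vd a k (m + 1) * (rfJ 1 v * sDm φ a k) +
      nM φ v a k (m + 1) * (rfd 1 0 v vd * sDm φ a k) := rfl
    have h2 : nM φ v a k (m + 1) = nM φ v a k m * (rfJ 1 v * sDm φ a k) := rfl
    have h3 : nM φ v a k (m + 1) = (sDm φ a k * rfJ 1 v) * nM φ v a k m := by
      rw [h2, nM_comm]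
    have h4 : nMd φ v vd a k (m + 1) = nMd φ v vd a k m * (rfJ 1 v * sDm φ a k) +
      nM φ v a k m * (rfd 1 0 v vd * sDm φ a k) := rfl
    have h5 : nMd φ v vd a k (m + 1) * (rfJ 1 v * sDm φ a k) +
        nM φ v a k (m + 1) * (rfd 1 0 v vd * sDm φ a k) =
        (sDm φ a k * rfd 1 0 v vd) * (nM φ v a k m * (rfJ 1 v * sDm φ a k)) +
        (sDm φ a k * rfJ 1 v) * (nMd φ v vd a k m * (rfJ 1 v * sDm φ a k) +
          nM φ v a k m * (rfd 1 0 v vd * sDm φ a k)) := by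
      rw [ih, h3]
      simp only [add_mul, mul_add, Matrix.mul_assoc]
      abel
    rw [h1, h5, ← h2, ← h4]

theorem adJ_nMd {p : ℕ} (hp : 3 ≤ p) (v vd : V3) (s : Sy) (m : ℕ) :
    adJ (nMd (phi p) v vd s.1 s.2 m) = nMd (phi p) v vd (syi p s).1 (syi p s).2 m := by
  induction m with
  | zero => exact adJ_zero
  | succ m ih =>
    rw [nMd_left, adJ_add, adJ_mul, adJ_mul, adJ_mul, adJ_mul, ih, adJ_nM hp, adJ_sDm hp,
      adJ_rfJ, adJ_rfd]
    show _ = nMd (phi p) v vd (syi p s).1 (syi p s).2 m * (rfJ 1 v * sDm (phi p) _ _) +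
      nM (phi p) v (syi p s).1 (syi p s).2 m * (rfd 1 0 v vd * sDm (phi p) _ _)
    rw [add_comm]

theorem adJ_nG {v vd : V3} (h : brJ 1 v v = 2) (h' : (brJ 1 vd v).re = 0) :
    adJ (nG v vd) = -nG v vd := by
  unfold nG
  rw [adJ_mul, adJ_rfJ, adJ_rfd, rfd_anti h h']

theorem adJ_nX {v vd : V3} (h : brJ 1 v v = 2) (h' : (brJ 1 vd v).re = 0) (M D S S' : Mt) :
    adJ (nX v vd M D S S') = nX v vd (adJ M) (adJ D) (-adJ S') (-adJ S) := by
  unfold nX
  rw [adJ_sub, adJ_add, adJ_add, adJ_half, adJ_sub, adJ_mul (nG v vd), adJ_mul M (nG v vd),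
    adJ_nG h h', adJ_mul (M * S), adJ_mul M S, adJ_mul (rfJ 1 v * S'), adJ_mul (rfJ 1 v) S',
    adJ_rfJ]
  have e1 : adJ M * -nG v vd - -nG v vd * adJ M = nG v vd * adJ M - adJ M * nG v vd := by
    rw [mul_neg, neg_mul]
    abel
  rw [e1]
  have e2 : rfJ 1 v * (adJ S * adJ M) - adJ M * (adJ S' * rfJ 1 v) =
      adJ M * -adJ S' * rfJ 1 v - rfJ 1 v * -adJ S * adJ M := by
    rw [mul_neg, neg_mul, mul_neg, neg_mul, Matrix.mul_assoc, Matrix.mul_assoc]
    abel
  rw [add_sub_assoc, e2, ← add_sub_assoc]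

/-- the test of the reversed block -/
theorem NT.rev {v vd : V3} (h : brJ 1 v v = 2) (h' : (brJ 1 vd v).re = 0) {K1 K2 M D S S' : Mt}
    (H : NT K1 K2 (nX v vd M D S S') M) :
    NT K2 K1 (nX v vd (adJ M) (adJ D) (-adJ S') (-adJ S)) (adJ M) := by
  rw [← adJ_nX h h']
  exact st_NTC K1 K2 _ _ H

theorem NT.mono {K1 K2 K1' K2' X M : Mt} (H : NT K1 K2 X M) (h1 : NZ K1' ⊆ NZ K1)
    (h2 : NZ K2' ⊆ NZ K2) : NT K1' K2' X M := fun u hu y hy => H u (h1 hu) y (h2 hy)

/-! ### gauge -/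

/-- the gauge between the syllables `e` and `g` -/
def gS (p : ℕ) (S0 : Mt) (X : ℕ → Mt) (gc : Sy → ℕ) (e g : Sy) : Mt :=
  S0 + X (gc e) - adJ (X (gc (syi p g)))

theorem gS_rev (p : ℕ) {S0 : Mt} (hS : adJ S0 = -S0) (X : ℕ → Mt) (gc : Sy → ℕ) (e g : Sy) :
    -adJ (gS p S0 X gc e g) = gS p S0 X gc (syi p g) (syi p e) := by
  unfold gS
  rw [adJ_sub, adJ_add, adJ_adJ, hS, syi_syi]
  abel

end Pool.Agent.Helper6.MONO.W2
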