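/-!
Plan W (MP_c75db0): data of the star frame certificate and the cover test, kernel side (no
imports).

Codes. Syllable `(a, k)`: `2 k + a` (so the admissible codes are `2 .. 2 p`). Parts: `8 i + kind`,
kinds 0 `rot`, 1 `ex i`, 2 `pc i`, 3 `v0 i`, 4 `v1 i`, 5 `rc i`, 6 `bx i`, 7 `bt i`.
-/

set_option autoImplicit false
namespace Pool.Agent.Helper12.NK

/-- a form: members (bit `c` for the syllable of code `c`), its spread (bit `64 c`), class of the
gauge, included forms with hints -/
structure Fm (ε : Type) where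
  me : Nat
  sp : Nat
  cl : Nat
  inc : List (Nat × ε)

/-- a syllable: its form, class of the gauge, number of pieces -/
structure Le where
  F : Nat
  gc : Nat
  nP : Nat

/-- the items over a syllable: part, pairs of forms with hints -/
structure Lt (γ : Type) where
  g : Nat
  ps : List (Nat × List (Nat × Nat × γ))

/-- the invariance items over a syllable: part, forms with hints -/
structure Lt1 (δ : Type) where
  g : Nat
  ps : List (Nat × List (Nat × δ))

/-- data of a certificate -/
structure CovD (γ δ ε : Type) where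
  p : Nat
  gb : Bool
  nB : Nat
  NB : Nat
  fm : List (Fm ε)
  le : List Le
  it : List (Lt γ)
  i1 : List (Lt1 δ)

/-- inverse syllable -/
def siC (p c : Nat) : Nat :=
  if (c / 2) % 2 == 1 || c / 2 == p then c else if c % 2 == 0 then c + 1 else c - 1

/-- the syllable is not followed by itself -/
def gpC (gb : Bool) (c : Nat) : Bool := (c / 2) % 2 == 1 || (gb && c / 2 == 2)

/-- bits moved from `n` to `64 n` -/
def spr (m : Nat) : Nat → Nat
  | 0 => 0
  | n + 1 => spr m n + (if m.testBit n then 2 ^ (64 * n) else 0)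

/-- the set of the numbers `< n` with `f` -/
def mkM (f : Nat → Bool) : Nat → Nat
  | 0 => 0
  | n + 1 => mkM f n + (if f n then 2 ^ n else 0)

/-- codes of the parts `i < n` of a kind -/
def rgC (k : Nat) : Nat → List Nat
  | 0 => []
  | n + 1 => (8 * n + k) :: rgC k n

/-- the same with `i + 1` -/
def rgD (k : Nat) : Nat → List Nat
  | 0 => []
  | n + 1 => (8 * (n + 1) + k) :: rgD k n

/-- number of pieces -/
def nPc (le : List Le) (c : Nat) : Nat := (le.getD c ⟨0, 0, 0⟩).nP

/-- codes of the parts -/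
def prC (gb : Bool) (nB NB nP c : Nat) : List Nat :=
  if (c / 2) % 2 == 0 then
    (if gb && c / 2 == 2 then rgD 6 nB ++ rgC 7 NB else [0])
  else if c / 2 == 1 then rgC 2 nP
  else rgD 1 5 ++ rgC 3 nP ++ rgC 4 nP ++ rgC 5 nP

/-- codes of the parts for the invariance -/
def prD (gb : Bool) (nB NB nP c : Nat) : List Nat :=
  if (c / 2) % 2 == 0 then
    (if gb && c / 2 == 2 then rgD 6 nB ++ rgC 7 NB else [0])
  else if c / 2 == 1 then rgC 2 nP
  else rgD 1 5 ++ rgC 3 nP

/-- default form -/
def dfF {ε : Type} : Fm ε := ⟨0, 0, 0, []⟩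

/-- rectangles of a list of pairs -/
def rcs {γ ε : Type} (fm : List (Fm ε)) : List (Nat × Nat × γ) → Nat
  | [] => 0
  | e :: l => ((fm.getD e.1 dfF).sp * (fm.getD e.2.1 dfF).me) ||| rcs fm l

/-- rectangles of a list of pairs, exchanged -/
def rcr {γ ε : Type} (fm : List (Fm ε)) : List (Nat × Nat × γ) → Nat
  | [] => 0
  | e :: l => ((fm.getD e.2.1 dfF).sp * (fm.getD e.1 dfF).me) ||| rcr fm l

/-- rectangles of the part `P` -/
def rps {γ ε : Type} (fm : List (Fm ε)) (P : Nat) : List (Nat × List (Nat × Nat × γ)) → Nat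
  | [] => 0
  | e :: l => if e.1 == P then rcs fm e.2 ||| rps fm P l else rps fm P l

def rpr {γ ε : Type} (fm : List (Fm ε)) (P : Nat) : List (Nat × List (Nat × Nat × γ)) → Nat
  | [] => 0
  | e :: l => if e.1 == P then rcr fm e.2 ||| rpr fm P l else rpr fm P l

/-- rectangles of the part `P` of the syllable `c` -/
def rls {γ ε : Type} (p : Nat) (fm : List (Fm ε)) (c P : Nat) : List (Lt γ) → Nat
  | [] => 0
  | e :: l => (if e.g == c then rps fm P e.ps else 0) |||
      ((if e.g == siC p c then rpr fm P e.ps else 0) ||| rls p fm c P l)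

/-- what is needed -/
def need (p : Nat) (gb : Bool) (c : Nat) : Nat :=
  spr (mkM (fun s => Nat.ble 2 s && !(gpC gb c && s == c)) (2 * p + 1)) 64 *
    mkM (fun t => Nat.ble 2 t && !(gpC gb c && t == siC p c)) (2 * p + 1)

/-- cover test for one syllable -/
def ck2c {γ δ ε : Type} (D : CovD γ δ ε) (c : Nat) : Bool :=
  (prC D.gb D.nB D.NB (nPc D.le c) c).all fun P =>
    Nat.beq (Nat.land (need D.p D.gb c) (rls D.p D.fm c P D.it)) (need D.p D.gb c)

/-- members of a list of forms -/
def mcs {δ ε : Type} (fm : List (Fm ε)) : List (Nat × δ) → Nat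
  | [] => 0
  | e :: l => (fm.getD e.1 dfF).me ||| mcs fm l

def mps {δ ε : Type} (fm : List (Fm ε)) (P : Nat) : List (Nat × List (Nat × δ)) → Nat
  | [] => 0
  | e :: l => if e.1 == P then mcs fm e.2 ||| mps fm P l else mps fm P l

def mls {δ ε : Type} (fm : List (Fm ε)) (c P : Nat) : List (Lt1 δ) → Nat
  | [] => 0
  | e :: l => (if e.g == c then mps fm P e.ps else 0) ||| mls fm c P l

def need1 (p : Nat) (gb : Bool) (c : Nat) : Nat :=
  mkM (fun s => Nat.ble 2 s && !(gpC gb c && s == c)) (2 * p + 1)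

/-- cover test for the invariance over one syllable -/
def ck1c {γ δ ε : Type} (D : CovD γ δ ε) (c : Nat) : Bool :=
  (prD D.gb D.nB D.NB (nPc D.le c) c).all fun P =>
    Nat.beq (Nat.land (need1 D.p D.gb c) (mls D.fm c P D.i1)) (need1 D.p D.gb c)

/-- the syllables `c < n` are members of the form `i` only if it contains their forms -/
def mem1 {ε : Type} (le : List Le) (i : Nat) (f : Fm ε) : Nat → Bool
  | 0 => true
  | c + 1 => (if f.me.testBit c then
      (Nat.beq (le.getD c ⟨0, 0, 0⟩).gc f.cl && (Nat.beq (le.getD c ⟨0, 0, 0⟩).F i ||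
        f.inc.any fun e => Nat.beq e.1 (le.getD c ⟨0, 0, 0⟩).F)) else true) && mem1 le i f c

/-- test of the forms -/
def ck3 {ε : Type} (le : List Le) : Nat → List (Fm ε) → Bool
  | _, [] => true
  | i, f :: l => (Nat.blt f.me (2 ^ 64) && Nat.beq f.sp (spr f.me 64) && mem1 le i f 64) &&
      ck3 le (i + 1) l

/-- all syllables `2 .. n + 1` -/
def allC (f : Nat → Bool) : Nat → Bool
  | 0 => true
  | n + 1 => f (n + 2) && allC f n

/-- the syllables have pieces -/
def posC (le : List Le) (c : Nat) : Bool := (c / 2) % 2 == 0 || Nat.blt 0 (nPc le c)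

/-- THE COVER TEST -/
def ck {γ δ ε : Type} (D : CovD γ δ ε) : Bool :=
  Nat.ble 1 D.p && Nat.ble D.p 31 && ck3 D.le 0 D.fm &&
    allC (fun c => posC D.le c && ck1c D c && ck2c D c) (2 * D.p - 1)

end Pool.Agent.Helper12.NK
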