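import Pool.Agent.Helper12.CW.NF8
import Pool.Agent.Helper12.CW.NK

/-!
Plan W (MP_c75db0): the certificate at one parameter from a list of items. Part 4: the cover test
is sound; all items give the certificate.
-/

set_option autoImplicit false
noncomputable section
namespace Pool.Agent.Helper6.MONO.W2

open Matrix Pool.Agent.Helper12.NK

/-! ### bits -/

theorem spr_lt (m n : ℕ) {x : ℕ} (hx : x < 2 ^ 64) : spr m n * x < 2 ^ (64 * n) ∨ n = 0 := by
  induction n with
  | zero => exact Or.inr rfl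
  | succ n ih =>
    refine Or.inl ?_
    have e : 2 ^ (64 * (n + 1)) = 2 ^ (64 * n) * 2 ^ 64 := by
      rw [← pow_add]
      congr 1
    have h0 : spr m (n + 1) = spr m n + (if m.testBit n then 2 ^ (64 * n) else 0) := rfl
    have h1 : (if m.testBit n then 2 ^ (64 * n) else 0) ≤ 2 ^ (64 * n) := by
      split_ifs
      · exact le_rfl
      · exact Nat.zero_le _
    have h2 : spr m n * x ≤ 2 ^ (64 * n) * 1 - (if n = 0 then 1 else 0) := by
      rcases ih with h | h
      · split_ifs <;> omega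
      · subst h
        simp [spr]
    have h3 : 0 < 2 ^ (64 * n) := by positivity
    rw [e, h0, add_mul]
    calc spr m n * x + (if m.testBit n then 2 ^ (64 * n) else 0) * x
        ≤ spr m n * x + 2 ^ (64 * n) * x := by
          have := Nat.mul_le_mul_right x h1
          omega
      _ < 2 ^ (64 * n) * 1 + 2 ^ (64 * n) * x := by
          rcases ih with h | h
          · omega
          · subst h
            simp [spr]
      _ = 2 ^ (64 * n) * (1 + x) := by ring
      _ ≤ 2 ^ (64 * n) * 2 ^ 64 := Nat.mul_le_mul_left _ (by omega)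

theorem spr_lt' (m n : ℕ) {x : ℕ} (hx : x < 2 ^ 64) : spr m n * x < 2 ^ (64 * n) := by
  rcases spr_lt m n hx with h | h
  · exact h
  · subst h
    simp [spr]

theorem spr_bit (m n : ℕ) {x : ℕ} (hx : x < 2 ^ 64) (s t : ℕ) (ht : t < 64) :
    (spr m n * x).testBit (64 * s + t) = (decide (s < n) && m.testBit s && x.testBit t) := by
  induction n with
  | zero => simp [spr]
  | succ n ih =>
    have h0 : spr m (n + 1) * x = 2 ^ (64 * n) * (if m.testBit n then x else 0) + spr m n * x := by
      show (spr m n + (if m.testBit n then 2 ^ (64 * n) else 0)) * x = _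
      split_ifs <;> ring
    rw [h0, Nat.testBit_two_pow_mul_add _ (spr_lt' m n hx)]
    by_cases hs : s < n
    · rw [if_pos (by omega), ih]
      have : s < n + 1 := by omega
      simp [hs, this]
    · rw [if_neg (by omega)]
      by_cases hs2 : s = n
      · subst hs2
        have e : 64 * s + t - 64 * s = t := by omega
        rw [e]
        by_cases hb : m.testBit s
        · simp [hb]
        · simp [hb]
      · have h4 : ¬ s < n + 1 := by omega
        have e : (if m.testBit n then x else 0).testBit (64 * s + t - 64 * n) = false := by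
          apply Nat.testBit_lt_two_pow
          have h5 : (if m.testBit n then x else 0) ≤ x := by split_ifs <;> omega
          refine lt_of_le_of_lt h5 (lt_of_lt_of_le hx (Nat.pow_le_pow_right (by norm_num) ?_))
          omega
        rw [e]
        simp [h4]

theorem mkM_lt (f : ℕ → Bool) (n : ℕ) : mkM f n < 2 ^ n := by
  induction n with
  | zero => simp [mkM]
  | succ n ih =>
    have h0 : mkM f (n + 1) = mkM f n + (if f n then 2 ^ n else 0) := rfl
    rw [h0, pow_succ]
    split_ifs <;> omega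

theorem mkM_bit (f : ℕ → Bool) (n t : ℕ) : (mkM f n).testBit t = (decide (t < n) && f t) := by
  induction n with
  | zero => simp [mkM]
  | succ n ih =>
    have h0 : mkM f (n + 1) = 2 ^ n * (if f n then 1 else 0) + mkM f n := by
      show mkM f n + (if f n then 2 ^ n else 0) = _
      split_ifs <;> ring
    rw [h0, Nat.testBit_two_pow_mul_add _ (mkM_lt f n)]
    by_cases ht : t < n
    · have : t < n + 1 := by omega
      rw [if_pos ht, ih]
      simp [ht, this]
    · rw [if_neg ht]
      by_cases ht2 : t = n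
      · subst ht2
        by_cases hf : f t <;> simp [hf]
      · have h4 : ¬ t < n + 1 := by omega
        have e : (if f n then 1 else 0).testBit (t - n) = false := by
          have h6 : t - n ≠ 0 := by omega
          split_ifs
          · exact Nat.testBit_lt_two_pow (Nat.one_lt_two_pow h6)
          · simp
        rw [e]
        simp [h4]

/-! ### codes -/

def sc (s : Sy) : ℕ := 2 * s.2 + s.1.toNat
def cs (c : ℕ) : Sy := (c % 2 == 1, c / 2)

theorem cs_sc (s : Sy) : cs (sc s) = s := by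
  obtain ⟨a, k⟩ := s
  cases a <;> simp [cs, sc] <;> omega

theorem sc_cs (c : ℕ) : sc (cs c) = c := by
  rcases Nat.mod_two_eq_zero_or_one c with h | h
  · simp [cs, sc, h]
    omega
  · simp [cs, sc, h]
    omega

theorem sc_inj {s t : Sy} (h : sc s = sc t) : s = t := by
  rw [← cs_sc s, ← cs_sc t, h]

theorem SyOk.code {p : ℕ} {s : Sy} (h : SyOk p s) : 2 ≤ sc s ∧ sc s ≤ 2 * p := by
  obtain ⟨a, k⟩ := s
  obtain ⟨h1, h2, h3⟩ := h
  have h1 : 1 ≤ k := h1
  have h2 : k ≤ p := h2
  have h3 : a = true → k < p := h3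
  cases a
  · simp only [sc, Bool.toNat_false]
    omega
  · have := h3 rfl
    simp only [sc, Bool.toNat_true]
    omega

theorem sc_div (s : Sy) : sc s / 2 = s.2 := by
  obtain ⟨a, k⟩ := s
  cases a <;> simp [sc] <;> omega

theorem siC_sc (p : ℕ) (s : Sy) : siC p (sc s) = sc (syi p s) := by
  obtain ⟨a, k⟩ := s
  unfold siC
  rw [sc_div]
  by_cases h1 : k % 2 = 1 ∨ k = p
  · have e : syi p (a, k) = (a, k) := by
      unfold syi
      rw [if_pos h1]
    have e2 : ((k % 2 == 1 || k == p) : Bool) = true := by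
      rcases h1 with h | h <;> simp [h]
    rw [e, if_pos e2]
  · push Not at h1
    have e : syi p (a, k) = (!a, k) := by
      unfold syi
      rw [if_neg (by tauto)]
    have e2 : ¬ ((k % 2 == 1 || k == p) : Bool) = true := by
      simp [h1.1, h1.2]
    rw [e, if_neg e2]
    cases a
    · have h3 : sc (false, k) % 2 = 0 := by simp [sc]
      rw [if_pos (by simp [h3])]
      simp [sc]
    · have h3 : sc (true, k) % 2 = 1 := by
        simp only [sc, Bool.toNat_true]
        omega
      rw [if_neg (by simp [h3])]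
      simp [sc]

/-- the syllable is not followed by itself -/
def gp (gb : Bool) (s : Sy) : Prop := s.2 % 2 = 1 ∨ (gb = true ∧ s.2 = 2)

theorem gpC_sc (gb : Bool) (s : Sy) : gpC gb (sc s) = true ↔ gp gb s := by
  unfold gpC gp
  rw [sc_div]
  simp

/-- part of a code -/
def Pd (c : ℕ) : Prt :=
  match c % 8 with
  | 0 => Prt.rot
  | 1 => Prt.ex (c / 8)
  | 2 => Prt.pc (c / 8)
  | 3 => Prt.v0 (c / 8)
  | 4 => Prt.v1 (c / 8)
  | 5 => Prt.rc (c / 8)
  | 6 => Prt.bx (c / 8)
  | _ => Prt.bt (c / 8)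

/-- code of a part -/
def Pc : Prt → ℕ
  | Prt.rot => 0
  | Prt.ex i => 8 * i + 1
  | Prt.pc i => 8 * i + 2
  | Prt.v0 i => 8 * i + 3
  | Prt.v1 i => 8 * i + 4
  | Prt.rc i => 8 * i + 5
  | Prt.bx i => 8 * i + 6
  | Prt.bt i => 8 * i + 7

theorem Pd_Pc (P : Prt) : Pd (Pc P) = P := by
  cases P with
  | rot => rfl
  | ex i =>
    have e1 : (8 * i + 1) % 8 = 1 := by omega
    have e2 : (8 * i + 1) / 8 = i := by omega
    simp [Pd, Pc, e1, e2]
  | pc i =>
    have e1 : (8 * i + 2) % 8 = 2 := by omega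
    have e2 : (8 * i + 2) / 8 = i := by omega
    simp [Pd, Pc, e1, e2]
  | v0 i =>
    have e1 : (8 * i + 3) % 8 = 3 := by omega
    have e2 : (8 * i + 3) / 8 = i := by omega
    simp [Pd, Pc, e1, e2]
  | v1 i =>
    have e1 : (8 * i + 4) % 8 = 4 := by omega
    have e2 : (8 * i + 4) / 8 = i := by omega
    simp [Pd, Pc, e1, e2]
  | rc i =>
    have e1 : (8 * i + 5) % 8 = 5 := by omega
    have e2 : (8 * i + 5) / 8 = i := by omega
    simp [Pd, Pc, e1, e2]
  | bx i =>
    have e1 : (8 * i + 6) % 8 = 6 := by omega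
    have e2 : (8 * i + 6) / 8 = i := by omega
    simp [Pd, Pc, e1, e2]
  | bt i =>
    have e1 : (8 * i + 7) % 8 = 7 := by omega
    have e2 : (8 * i + 7) / 8 = i := by omega
    simp [Pd, Pc, e1, e2]

theorem mem_rgC (k n i : ℕ) (h : i < n) : 8 * i + k ∈ rgC k n := by
  induction n with
  | zero => omega
  | succ n ih =>
    rcases Nat.lt_succ_iff_lt_or_eq.1 h with h | h
    · exact List.mem_cons_of_mem _ (ih h)
    · subst h
      exact List.mem_cons_self

theorem mem_rgD (k n i : ℕ) (h : i < n) : 8 * (i + 1) + k ∈ rgD k n := by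
  induction n with
  | zero => omega
  | succ n ih =>
    rcases Nat.lt_succ_iff_lt_or_eq.1 h with h | h
    · exact List.mem_cons_of_mem _ (ih h)
    · subst h
      exact List.mem_cons_self

/-! ### parts of the data -/

/-- numbers of pieces -/
def cpar {γ δ ε : Type} (D : CovD γ δ ε) : NPar := ⟨fun g => nPc D.le (sc g), D.gb, D.nB, D.NB⟩

theorem mem_prC {γ δ ε : Type} {D : CovD γ δ ε} {g : Sy} {P : Prt} (h : P ∈ prts (cpar D) g) :
    Pc P ∈ prC D.gb D.nB D.NB (nPc D.le (sc g)) (sc g) := by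
  unfold prC
  rw [sc_div]
  unfold prts at h
  by_cases he : g.2 % 2 = 0
  · rw [if_pos he] at h
    rw [if_pos (by simp [he])]
    by_cases hb : D.gb = true ∧ g.2 = 2
    · have hb' : (cpar D).gb = true ∧ g.2 = 2 := hb
      rw [if_pos hb'] at h
      rw [if_pos (by simp [hb.1, hb.2])]
      rw [List.mem_append, List.mem_map, List.mem_map] at h
      rw [List.mem_append]
      rcases h with ⟨n, hn, rfl⟩ | ⟨n, hn, rfl⟩
      · exact Or.inl (mem_rgD 6 _ n (List.mem_range.1 hn))
      · exact Or.inr (mem_rgC 7 _ n (List.mem_range.1 hn))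
    · have hb' : ¬ ((cpar D).gb = true ∧ g.2 = 2) := hb
      rw [if_neg hb'] at h
      rw [if_neg (by
        intro hc
        apply hb
        simpa using hc)]
      rw [List.mem_singleton] at h
      subst h
      exact List.mem_singleton.2 rfl
  · rw [if_neg he] at h
    rw [if_neg (by simp [he])]
    by_cases hk : g.2 = 1
    · rw [if_pos hk, List.mem_map] at h
      rw [if_pos (by simp [hk])]
      obtain ⟨n, hn, rfl⟩ := h
      exact mem_rgC 2 _ n (List.mem_range.1 hn)
    · rw [if_neg hk] at h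
      rw [if_neg (by simp [hk])]
      simp only [List.mem_append, List.mem_map] at h ⊢
      rcases h with ((⟨n, hn, rfl⟩ | ⟨n, hn, rfl⟩) | ⟨n, hn, rfl⟩) | ⟨n, hn, rfl⟩
      · exact Or.inl (Or.inl (Or.inl (mem_rgD 1 5 n (List.mem_range.1 hn))))
      · exact Or.inl (Or.inl (Or.inr (mem_rgC 3 _ n (List.mem_range.1 hn))))
      · exact Or.inl (Or.inr (mem_rgC 4 _ n (List.mem_range.1 hn)))
      · exact Or.inr (mem_rgC 5 _ n (List.mem_range.1 hn))

theorem mem_prD {γ δ ε : Type} {D : CovD γ δ ε} {g : Sy} {P : Prt} (h : P ∈ prtsi (cpar D) g) :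
    Pc P ∈ prD D.gb D.nB D.NB (nPc D.le (sc g)) (sc g) := by
  unfold prD
  rw [sc_div]
  unfold prtsi at h
  by_cases he : g.2 % 2 = 0
  · rw [if_pos he] at h
    rw [if_pos (by simp [he])]
    by_cases hb : D.gb = true ∧ g.2 = 2
    · have hb' : (cpar D).gb = true ∧ g.2 = 2 := hb
      rw [if_pos hb'] at h
      rw [if_pos (by simp [hb.1, hb.2])]
      rw [List.mem_append, List.mem_map, List.mem_map] at h
      rw [List.mem_append]
      rcases h with ⟨n, hn, rfl⟩ | ⟨n, hn, rfl⟩
      · exact Or.inl (mem_rgD 6 _ n (List.mem_range.1 hn))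
      · exact Or.inr (mem_rgC 7 _ n (List.mem_range.1 hn))
    · have hb' : ¬ ((cpar D).gb = true ∧ g.2 = 2) := hb
      rw [if_neg hb'] at h
      rw [if_neg (by
        intro hc
        apply hb
        simpa using hc)]
      rw [List.mem_singleton] at h
      subst h
      exact List.mem_singleton.2 rfl
  · rw [if_neg he] at h
    rw [if_neg (by simp [he])]
    by_cases hk : g.2 = 1
    · rw [if_pos hk, List.mem_map] at h
      rw [if_pos (by simp [hk])]
      obtain ⟨n, hn, rfl⟩ := h
      exact mem_rgC 2 _ n (List.mem_range.1 hn)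
    · rw [if_neg hk] at h
      rw [if_neg (by simp [hk])]
      simp only [List.mem_append, List.mem_map] at h ⊢
      rcases h with ⟨n, hn, rfl⟩ | ⟨n, hn, rfl⟩
      · exact Or.inl (mem_rgD 1 5 n (List.mem_range.1 hn))
      · exact Or.inr (mem_rgC 3 _ n (List.mem_range.1 hn))

/-! ### forms -/

/-- facts of a form -/
def FmOk {ε : Type} (le : List Le) (i : ℕ) (f : Fm ε) : Prop :=
  f.me < 2 ^ 64 ∧ f.sp = spr f.me 64 ∧ ∀ c < 64, f.me.testBit c = true →
    (le.getD c ⟨0, 0, 0⟩).gc = f.cl ∧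
    ((le.getD c ⟨0, 0, 0⟩).F = i ∨ ∃ e ∈ f.inc, e.1 = (le.getD c ⟨0, 0, 0⟩).F)

theorem mem1_sound {ε : Type} {le : List Le} {i : ℕ} {f : Fm ε} {n : ℕ}
    (h : mem1 le i f n = true) : ∀ c < n, f.me.testBit c = true →
    (le.getD c ⟨0, 0, 0⟩).gc = f.cl ∧
    ((le.getD c ⟨0, 0, 0⟩).F = i ∨ ∃ e ∈ f.inc, e.1 = (le.getD c ⟨0, 0, 0⟩).F) := by
  induction n with
  | zero => intro c hc; omega
  | succ n ih =>
    intro c hc hb
    unfold mem1 at h
    rw [Bool.and_eq_true] at h
    rcases Nat.lt_succ_iff_lt_or_eq.1 hc with hc | hc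
    · exact ih h.2 c hc hb
    · subst hc
      have h1 := h.1
      rw [if_pos hb, Bool.and_eq_true, Bool.or_eq_true, List.any_eq_true] at h1
      refine ⟨Nat.eq_of_beq_eq_true h1.1, ?_⟩
      rcases h1.2 with h2 | ⟨e, he, h2⟩
      · exact Or.inl (Nat.eq_of_beq_eq_true h2)
      · exact Or.inr ⟨e, he, Nat.eq_of_beq_eq_true h2⟩

theorem ck3_sound {ε : Type} {le : List Le} : ∀ (l : List (Fm ε)) (i : ℕ), ck3 le i l = true →
    ∀ j, FmOk le (i + j) (l.getD j dfF) := by
  have h0 : ∀ i, FmOk (ε := ε) le i dfF := by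
    intro i
    refine ⟨by simp [dfF], ?_, ?_⟩
    · have : ∀ n, spr 0 n = 0 := by
        intro n
        induction n with
        | zero => rfl
        | succ n ih => simp [spr, ih]
      show (0 : ℕ) = spr 0 64
      rw [this]
    · intro c _ hc
      simp [dfF] at hc
  intro l
  induction l with
  | nil => intro i _ j; exact h0 _
  | cons f l ih =>
    intro i h j
    unfold ck3 at h
    rw [Bool.and_eq_true, Bool.and_eq_true, Bool.and_eq_true] at h
    cases j with
    | zero =>
      refine ⟨?_, Nat.eq_of_beq_eq_true h.1.1.2, mem1_sound h.1.2⟩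
      have := h.1.1.1
      simpa [Nat.blt] using this
    | succ j =>
      have := ih (i + 1) h.2 j
      have e : i + 1 + j = i + (j + 1) := by omega
      rw [e] at this
      simpa using this

theorem allC_sound {f : ℕ → Bool} : ∀ {n : ℕ}, allC f n = true → ∀ c, 2 ≤ c → c < n + 2 →
    f c = true := by
  intro n
  induction n with
  | zero => intro _ c _ _; omega
  | succ n ih =>
    intro h c h1 h2
    unfold allC at h
    rw [Bool.and_eq_true] at h
    by_cases hc : c = n + 2
    · rw [hc]; exact h.1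
    · exact ih h.2 c h1 (by omega)

/-! ### cover -/

theorem rcs_bit {γ ε : Type} {fm : List (Fm ε)} {j : ℕ} : ∀ {l : List (ℕ × ℕ × γ)},
    (rcs fm l).testBit j = true → ∃ e ∈ l,
      ((fm.getD e.1 dfF).sp * (fm.getD e.2.1 dfF).me).testBit j = true := by
  intro l
  induction l with
  | nil => intro h; simp [rcs] at h
  | cons e l ih =>
    intro h
    have h' : (((fm.getD e.1 dfF).sp * (fm.getD e.2.1 dfF).me) ||| rcs fm l).testBit j = true := h
    rw [Nat.testBit_or, Bool.or_eq_true] at h'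
    rcases h' with h' | h'
    · exact ⟨e, by simp, h'⟩
    · obtain ⟨e', he', h2⟩ := ih h'
      exact ⟨e', by simp [he'], h2⟩

theorem rcr_bit {γ ε : Type} {fm : List (Fm ε)} {j : ℕ} : ∀ {l : List (ℕ × ℕ × γ)},
    (rcr fm l).testBit j = true → ∃ e ∈ l,
      ((fm.getD e.2.1 dfF).sp * (fm.getD e.1 dfF).me).testBit j = true := by
  intro l
  induction l with
  | nil => intro h; simp [rcr] at h
  | cons e l ih =>
    intro h
    have h' : (((fm.getD e.2.1 dfF).sp * (fm.getD e.1 dfF).me) ||| rcr fm l).testBit j = true := h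
    rw [Nat.testBit_or, Bool.or_eq_true] at h'
    rcases h' with h' | h'
    · exact ⟨e, by simp, h'⟩
    · obtain ⟨e', he', h2⟩ := ih h'
      exact ⟨e', by simp [he'], h2⟩

theorem rps_bit {γ ε : Type} {fm : List (Fm ε)} {P j : ℕ} :
    ∀ {l : List (ℕ × List (ℕ × ℕ × γ))}, (rps fm P l).testBit j = true →
      ∃ Q ∈ l, Q.1 = P ∧ ∃ e ∈ Q.2,
        ((fm.getD e.1 dfF).sp * (fm.getD e.2.1 dfF).me).testBit j = true := by
  intro l
  induction l with
  | nil => intro h; simp [rps] at h
  | cons e l ih =>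
    intro h
    unfold rps at h
    split_ifs at h with hc
    · rw [Nat.testBit_or, Bool.or_eq_true] at h
      rcases h with h | h
      · exact ⟨e, by simp, by simpa using hc, rcs_bit h⟩
      · obtain ⟨Q, h1, h2⟩ := ih h
        exact ⟨Q, by simp [h1], h2⟩
    · obtain ⟨Q, h1, h2⟩ := ih h
      exact ⟨Q, by simp [h1], h2⟩

theorem rpr_bit {γ ε : Type} {fm : List (Fm ε)} {P j : ℕ} :
    ∀ {l : List (ℕ × List (ℕ × ℕ × γ))}, (rpr fm P l).testBit j = true →
      ∃ Q ∈ l, Q.1 = P ∧ ∃ e ∈ Q.2,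
        ((fm.getD e.2.1 dfF).sp * (fm.getD e.1 dfF).me).testBit j = true := by
  intro l
  induction l with
  | nil => intro h; simp [rpr] at h
  | cons e l ih =>
    intro h
    unfold rpr at h
    split_ifs at h with hc
    · rw [Nat.testBit_or, Bool.or_eq_true] at h
      rcases h with h | h
      · exact ⟨e, by simp, by simpa using hc, rcr_bit h⟩
      · obtain ⟨Q, h1, h2⟩ := ih h
        exact ⟨Q, by simp [h1], h2⟩
    · obtain ⟨Q, h1, h2⟩ := ih h
      exact ⟨Q, by simp [h1], h2⟩

theorem rls_bit {γ ε : Type} {p : ℕ} {fm : List (Fm ε)} {c P j : ℕ} :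
    ∀ {l : List (Lt γ)}, (rls p fm c P l).testBit j = true →
      ∃ L ∈ l, ∃ Q ∈ L.ps, Q.1 = P ∧ ∃ e ∈ Q.2,
        (L.g = c ∧ ((fm.getD e.1 dfF).sp * (fm.getD e.2.1 dfF).me).testBit j = true) ∨
        (L.g = siC p c ∧
          ((fm.getD e.2.1 dfF).sp * (fm.getD e.1 dfF).me).testBit j = true) := by
  intro l
  induction l with
  | nil => intro h; simp [rls] at h
  | cons L l ih =>
    intro h
    unfold rls at h
    rw [Nat.testBit_or, Nat.testBit_or, Bool.or_eq_true, Bool.or_eq_true] at h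
    rcases h with h | h | h
    · split_ifs at h with hc
      · obtain ⟨Q, h1, h2, e, h3, h4⟩ := rps_bit h
        exact ⟨L, by simp, Q, h1, h2, e, h3, Or.inl ⟨by simpa using hc, h4⟩⟩
      · simp at h
    · split_ifs at h with hc
      · obtain ⟨Q, h1, h2, e, h3, h4⟩ := rpr_bit h
        exact ⟨L, by simp, Q, h1, h2, e, h3, Or.inr ⟨by simpa using hc, h4⟩⟩
      · simp at h
    · obtain ⟨L', h1, h2⟩ := ih h
      exact ⟨L', by simp [h1], h2⟩

theorem mcs_bit {δ ε : Type} {fm : List (Fm ε)} {j : ℕ} : ∀ {l : List (ℕ × δ)},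
    (mcs fm l).testBit j = true → ∃ e ∈ l, (fm.getD e.1 dfF).me.testBit j = true := by
  intro l
  induction l with
  | nil => intro h; simp [mcs] at h
  | cons e l ih =>
    intro h
    have h' : ((fm.getD e.1 dfF).me ||| mcs fm l).testBit j = true := h
    rw [Nat.testBit_or, Bool.or_eq_true] at h'
    rcases h' with h' | h'
    · exact ⟨e, by simp, h'⟩
    · obtain ⟨e', he', h2⟩ := ih h'
      exact ⟨e', by simp [he'], h2⟩

theorem mps_bit {δ ε : Type} {fm : List (Fm ε)} {P j : ℕ} :
    ∀ {l : List (ℕ × List (ℕ × δ))}, (mps fm P l).testBit j = true →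
      ∃ Q ∈ l, Q.1 = P ∧ ∃ e ∈ Q.2, (fm.getD e.1 dfF).me.testBit j = true := by
  intro l
  induction l with
  | nil => intro h; simp [mps] at h
  | cons e l ih =>
    intro h
    unfold mps at h
    split_ifs at h with hc
    · rw [Nat.testBit_or, Bool.or_eq_true] at h
      rcases h with h | h
      · exact ⟨e, by simp, by simpa using hc, mcs_bit h⟩
      · obtain ⟨Q, h1, h2⟩ := ih h
        exact ⟨Q, by simp [h1], h2⟩
    · obtain ⟨Q, h1, h2⟩ := ih h
      exact ⟨Q, by simp [h1], h2⟩

theorem mls_bit {δ ε : Type} {fm : List (Fm ε)} {c P j : ℕ} :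
    ∀ {l : List (Lt1 δ)}, (mls fm c P l).testBit j = true →
      ∃ L ∈ l, L.g = c ∧ ∃ Q ∈ L.ps, Q.1 = P ∧ ∃ e ∈ Q.2,
        (fm.getD e.1 dfF).me.testBit j = true := by
  intro l
  induction l with
  | nil => intro h; simp [mls] at h
  | cons L l ih =>
    intro h
    unfold mls at h
    rw [Nat.testBit_or, Bool.or_eq_true] at h
    rcases h with h | h
    · split_ifs at h with hc
      · exact ⟨L, by simp, by simpa using hc, mps_bit h⟩
      · simp at h
    · obtain ⟨L', h1, h2⟩ := ih h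
      exact ⟨L', by simp [h1], h2⟩

/-- consequences of the test -/
structure CkOk {γ δ ε : Type} (D : CovD γ δ ε) : Prop where
  p31 : D.p ≤ 31
  fm : ∀ i, FmOk D.le i (D.fm.getD i dfF)
  pos : ∀ g, SyOk D.p g → g.2 % 2 = 1 → 0 < (cpar D).N g
  c1 : ∀ g, SyOk D.p g → ∀ P ∈ prtsi (cpar D) g, ∀ s, SyOk D.p s → ¬ (s = g ∧ gp D.gb g) →
    ∃ L ∈ D.i1, cs L.g = g ∧ ∃ Q ∈ L.ps, Pd Q.1 = P ∧ ∃ e ∈ Q.2,
      (D.fm.getD e.1 dfF).me.testBit (sc s) = true
  c2 : ∀ g, SyOk D.p g → ∀ P ∈ prts (cpar D) g, ∀ s, SyOk D.p s → ¬ (s = g ∧ gp D.gb g) →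
    ∀ t, SyOk D.p t → ¬ (t = syi D.p g ∧ gp D.gb g) →
    ∃ L ∈ D.it, ∃ Q ∈ L.ps, Pd Q.1 = P ∧ ∃ e ∈ Q.2,
      (cs L.g = g ∧ (D.fm.getD e.1 dfF).me.testBit (sc s) = true ∧
        (D.fm.getD e.2.1 dfF).me.testBit (sc t) = true) ∨
      (cs L.g = syi D.p g ∧ (D.fm.getD e.1 dfF).me.testBit (sc t) = true ∧
        (D.fm.getD e.2.1 dfF).me.testBit (sc s) = true)

theorem ck_sound {γ δ ε : Type} {D : CovD γ δ ε} (h : ck D = true) : CkOk D := by
  unfold ck at h
  rw [Bool.and_eq_true, Bool.and_eq_true, Bool.and_eq_true] at h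
  obtain ⟨⟨⟨hp1, hp31⟩, h3⟩, hall⟩ := h
  have hp1 : 1 ≤ D.p := Nat.le_of_ble_eq_true hp1
  have hp31 : D.p ≤ 31 := Nat.le_of_ble_eq_true hp31
  have hfm : ∀ i, FmOk D.le i (D.fm.getD i dfF) := fun i => by
    have := ck3_sound D.fm 0 h3 i
    rwa [Nat.zero_add] at this
  have hc : ∀ g, SyOk D.p g → posC D.le (sc g) = true ∧ ck1c D (sc g) = true ∧
      ck2c D (sc g) = true := by
    intro g hg
    obtain ⟨k1, k2⟩ := hg.code
    have := allC_sound hall (sc g) k1 (by omega)
    rw [Bool.and_eq_true, Bool.and_eq_true] at this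
    exact ⟨this.1.1, this.1.2, this.2⟩
  have land : ∀ a b j : ℕ, Nat.beq (Nat.land a b) a = true → a.testBit j = true →
      b.testBit j = true := by
    intro a b j h1 h2
    have h3 : a &&& b = a := Nat.eq_of_beq_eq_true h1
    rw [← h3, Nat.testBit_and, Bool.and_eq_true] at h2
    exact h2.2
  refine ⟨hp31, hfm, ?_, ?_, ?_⟩
  · intro g hg ho
    have h1 := (hc g hg).1
    unfold posC at h1
    rw [sc_div] at h1
    have h2 : ¬ (g.2 % 2 == 0) = true := by simp [ho]
    rw [Bool.or_eq_true] at h1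
    rcases h1 with h1 | h1
    · exact absurd h1 h2
    · show 0 < nPc D.le (sc g)
      have h5 : 1 ≤ nPc D.le (sc g) := by simpa [Nat.blt] using h1
      omega
  · intro g hg P hP s hs hne
    have h1 := (hc g hg).2.1
    unfold ck1c at h1
    rw [List.all_eq_true] at h1
    have h2 := h1 (Pc P) (mem_prD hP)
    have h4 : (need1 D.p D.gb (sc g)).testBit (sc s) = true := by
      unfold need1
      rw [mkM_bit]
      obtain ⟨k1, k2⟩ := hs.code
      have k3 : sc s < 2 * D.p + 1 := by omega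
      have k4 : (gpC D.gb (sc g) && sc s == sc g) = false := by
        by_contra hcon
        rw [Bool.not_eq_false, Bool.and_eq_true] at hcon
        have e1 : sc s = sc g := by simpa using hcon.2
        exact hne ⟨sc_inj e1, (gpC_sc _ _).1 hcon.1⟩
      rw [k4]
      simp [k1, k3]
    obtain ⟨L, hL, k1, Q, hQ, k2, e, he, k3⟩ := mls_bit (land _ _ _ h2 h4)
    exact ⟨L, hL, by rw [k1, cs_sc], Q, hQ, by rw [k2, Pd_Pc], e, he, k3⟩
  · intro g hg P hP s hs hne t ht hnt
    have h1 := (hc g hg).2.2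
    unfold ck2c at h1
    rw [List.all_eq_true] at h1
    have h2 := h1 (Pc P) (mem_prC hP)
    obtain ⟨s1, s2⟩ := hs.code
    obtain ⟨t1, t2⟩ := ht.code
    have hl64 : ∀ f : ℕ → Bool, mkM f (2 * D.p + 1) < 2 ^ 64 := fun f =>
      lt_of_lt_of_le (mkM_lt f _) (Nat.pow_le_pow_right (by norm_num) (by omega))
    have h4 : (need D.p D.gb (sc g)).testBit (64 * sc s + sc t) = true := by
      unfold need
      rw [spr_bit _ _ (hl64 _) _ _ (by omega), mkM_bit, mkM_bit]
      have k3 : sc s < 2 * D.p + 1 := by omega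
      have k3' : sc t < 2 * D.p + 1 := by omega
      have k5 : sc s < 64 := by omega
      have k4 : (gpC D.gb (sc g) && sc s == sc g) = false := by
        by_contra hcon
        rw [Bool.not_eq_false, Bool.and_eq_true] at hcon
        have e1 : sc s = sc g := by simpa using hcon.2
        exact hne ⟨sc_inj e1, (gpC_sc _ _).1 hcon.1⟩
      have k4' : (gpC D.gb (sc g) && sc t == siC D.p (sc g)) = false := by
        by_contra hcon
        rw [Bool.not_eq_false, Bool.and_eq_true, siC_sc] at hcon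
        have e1 : sc t = sc (syi D.p g) := by simpa using hcon.2
        exact hnt ⟨sc_inj e1, (gpC_sc _ _).1 hcon.1⟩
      rw [k4, k4']
      simp [s1, t1, k3, k3', k5]
    obtain ⟨L, hL, Q, hQ, k2, e, he, k3⟩ := rls_bit (land _ _ _ h2 h4)
    refine ⟨L, hL, Q, hQ, by rw [k2, Pd_Pc], e, he, ?_⟩
    rcases k3 with ⟨k1, k3⟩ | ⟨k1, k3⟩
    · refine Or.inl ⟨by rw [k1, cs_sc], ?_⟩
      rw [(hfm e.1).2.1, spr_bit _ _ (hfm e.2.1).1 _ _ (by omega), Bool.and_eq_true,
        Bool.and_eq_true] at k3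
      exact ⟨k3.1.2, k3.2⟩
    · refine Or.inr ⟨by rw [k1, siC_sc, cs_sc], ?_⟩
      rw [(hfm e.2.1).2.1, spr_bit _ _ (hfm e.1).1 _ _ (by omega), Bool.and_eq_true,
        Bool.and_eq_true] at k3
      exact ⟨k3.2, k3.1.2⟩

end Pool.Agent.Helper6.MONO.W2
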