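import Pool.Agent.Helper12.CW.NF9

/-!
Plan W (MP_c75db0): the certificate at one parameter from a list of items. Part 5: all items give
the certificate; facts of the point.
-/

set_option autoImplicit false
noncomputable section
namespace Pool.Agent.Helper6.MONO.W2

open Matrix Filter Topology Pool.Agent.Helper12.NK

/-- properties of a system of blocks; `gb`: runs of the rotations of length 2 are blocks -/
structure BPr {p q r : ℕ} (Y : BSys p q r) (gb : Bool) : Prop where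
  ev : ∀ β, (Y.cur β).k % 2 = 0 → ¬ (gb = true ∧ (Y.cur β).k = 2) → (Y.cur β).n = 1
  run : ∀ β, (Y.cur β).k = 1 → 2 * (Y.cur β).n + 1 ≤ mqr q r (Y.cur β).a
  ne1 : ∀ β, ¬ (Y.prev β = (Y.cur β).sy ∧ gp gb (Y.cur β).sy)
  ne2 : ∀ β, ¬ ((Y.cur β).sy = Y.next β ∧ gp gb (Y.cur β).sy)

theorem bsys1_pr (p q r : ℕ) (hp : 3 ≤ p) (hq : 3 ≤ q) (hr : 3 ≤ r) :
    BPr (bsys1 p q r hp hq hr) false where
  ev := fun β h _ => β.okc.ev h
  run := fun β h => β.okc.run h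
  ne1 := fun β h => by
    obtain ⟨h1, h2 | ⟨h2, _⟩⟩ := h
    · have e : β.prev = β.cur.sy := h1
      exact β.ne1 ⟨e, by rw [e]; exact h2⟩
    · exact absurd h2 (by simp)
  ne2 := fun β h => by
    obtain ⟨h1, h2 | ⟨h2, _⟩⟩ := h
    · exact β.ne2 ⟨h1, h2⟩
    · exact absurd h2 (by simp)

theorem bsys2_pr (p q r : ℕ) (hp : 4 ≤ p) (hq : 3 ≤ q) (hr : 3 ≤ r) :
    BPr (bsys2 p q r hp hq hr) true where
  ev := fun β h h2 => β.okc.ev h (fun h3 => h2 ⟨rfl, h3⟩)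
  run := fun β h => β.okc.run h
  ne1 := fun β h => by
    obtain ⟨h1, h2⟩ := h
    have e : β.prev = β.cur.sy := h1
    refine β.ne1 ⟨e, ?_⟩
    rw [e]
    rcases h2 with h2 | ⟨_, h2⟩
    · exact Or.inl h2
    · exact Or.inr h2
  ne2 := fun β h => by
    obtain ⟨h1, h2⟩ := h
    refine β.ne2 ⟨h1, ?_⟩
    rcases h2 with h2 | ⟨_, h2⟩
    · exact Or.inl h2
    · exact Or.inr h2

/-- form of a syllable, class of the gauge of a syllable (code), class of a form -/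
def leF {γ δ ε : Type} (D : CovD γ δ ε) (c : ℕ) : ℕ := (D.le.getD c ⟨0, 0, 0⟩).F
def leG {γ δ ε : Type} (D : CovD γ δ ε) (c : ℕ) : ℕ := (D.le.getD c ⟨0, 0, 0⟩).gc
def fmC {γ δ ε : Type} (D : CovD γ δ ε) (i : ℕ) : ℕ := (D.fm.getD i dfF).cl

/-- ALL ITEMS at a point -/
structure PtI {γ δ ε : Type} (D : CovD γ δ ε) (v vd : V3) (R : RPar) (K : ℕ → Mt) (S0 : Mt)
    (X : ℕ → Mt) : Prop where
  hS0 : adJ S0 = -S0
  it : ∀ L ∈ D.it, ∀ Q ∈ L.ps, ∀ e ∈ Q.2, sat R (phi D.p) v vd (cs L.g) (Pd Q.1) (K e.1) (K e.2.1)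
    (S0 + X (fmC D e.1) - adJ (X (leG D (siC D.p L.g))))
    (S0 + X (leG D L.g) - adJ (X (fmC D e.2.1)))
  i1 : ∀ L ∈ D.i1, ∀ Q ∈ L.ps, ∀ e ∈ Q.2,
    sati R (phi D.p) v (cs L.g) (Pd Q.1) (K e.1) (K (leF D L.g))
  inc : ∀ i, ∀ e ∈ (D.fm.getD i dfF).inc, NZ (K e.1) ⊆ NZ (K i)

theorem mem_form {γ δ ε : Type} {D : CovD γ δ ε} (hD : CkOk D) {K : ℕ → Mt}
    (inc : ∀ i, ∀ e ∈ (D.fm.getD i dfF).inc, NZ (K e.1) ⊆ NZ (K i)) {s : Sy} (hs : SyOk D.p s)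
    {i : ℕ} (h : (D.fm.getD i dfF).me.testBit (sc s) = true) :
    leG D (sc s) = fmC D i ∧ NZ (K (leF D (sc s))) ⊆ NZ (K i) := by
  obtain ⟨k1, k2⟩ := hs.code
  have hp := hD.p31
  obtain ⟨h1, h2⟩ := (hD.fm i).2.2 (sc s) (by omega) h
  refine ⟨h1, ?_⟩
  rcases h2 with h2 | ⟨e, he, h2⟩
  · have : leF D (sc s) = i := h2
    rw [this]
  · have : leF D (sc s) = e.1 := h2.symm
    rw [this]
    exact inc i e he

/-- ALL ITEMS GIVE THE CERTIFICATE -/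
theorem snk_of (hNR1 : ST_NR1) {γ δ ε : Type} {p q r : ℕ} (hp : 3 ≤ p) (hq : 3 ≤ q) (hr : 3 ≤ r)
    {Y : BSys p q r} {D : CovD γ δ ε} (hY : BPr Y D.gb) (hD : CkOk D) (hDp : D.p = p)
    {v vd : V3} {R : RPar} (F : PtF p q r v vd (cpar D) R) {K : ℕ → Mt} {S0 : Mt} {X : ℕ → Mt}
    (I : PtI D v vd R K S0 X) {U : Fin 3 → V3} {y0 : V3} {bd : ℝ}
    (stU : ∀ i, U i ∈ NZ (K (leF D (sc Y.a0))))
    (doU : ∀ b, SyOk p b → ∀ y ∈ NZ (K (leF D (sc b))), ∀ i,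
      ‖y‖ ≤ bd * ‖brJ 1 ((rfJ 1 v).mulVec (U i)) y‖)
    (enY : y0 ∈ NZ (K (leF D (sc (syi p Y.a0)))))
    (doY : ∀ b, SyOk p b → ∀ u ∈ NZ (K (leF D (sc b))), ‖u‖ ≤ bd * ‖brJ 1 ((rfJ 1 v).mulVec u) y0‖) :
    SNK Y v vd (fun s => K (leF D (sc s)))
      (fun s t => gS p S0 X (fun s => leG D (sc s)) s t) U y0 bd := by
  subst hDp
  refine ⟨?_, ?_, stU, doU, enY, doY⟩
  · intro β u hu
    obtain ⟨hg, hn⟩ := Y.okc β
    refine IN_all hNR1 hq hr F hg (K1 := K (leF D (sc (Y.prev β))))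
      (Kt := K (leF D (sc (Y.cur β).sy))) ?_ hn (hY.ev β) (hY.run β) u hu
    intro P hP
    obtain ⟨L, hL, e1, Q, hQ, e2, e, he, hb⟩ := hD.c1 _ hg P hP _ (Y.okp β) (hY.ne1 β)
    have h1 := I.i1 L hL Q hQ e he
    have e3 : L.g = sc (Y.cur β).sy := by rw [← e1, sc_cs]
    rw [e1, e2, e3] at h1
    exact sati_mono h1 (mem_form hD I.inc (Y.okp β) hb).2
  · intro β
    obtain ⟨hg, hn⟩ := Y.okc β
    refine NT_all hNR1 hq hr F hg ?_ hn (hY.ev β) (hY.run β)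
    intro P hP
    have ht : SyOk D.p (syi D.p (Y.next β)) := syi_okN (Y.okn β)
    have hnt : ¬ (syi D.p (Y.next β) = syi D.p (Y.cur β).sy ∧ gp D.gb (Y.cur β).sy) := by
      rintro ⟨h1, h2⟩
      have h3 : Y.next β = (Y.cur β).sy := by
        rw [← syi_syi D.p (Y.next β), h1, syi_syi]
      exact hY.ne2 β ⟨h3.symm, h2⟩
    obtain ⟨L, hL, Q, hQ, e2, e, he, hb⟩ :=
      hD.c2 _ hg P hP _ (Y.okp β) (hY.ne1 β) _ ht hnt
    have h1 := I.it L hL Q hQ e he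
    rw [e2] at h1
    rcases hb with ⟨e1, b1, b2⟩ | ⟨e1, b1, b2⟩
    · obtain ⟨c1, i1⟩ := mem_form hD I.inc (Y.okp β) b1
      obtain ⟨c2, i2⟩ := mem_form hD I.inc ht b2
      have e3 : L.g = sc (Y.cur β).sy := by rw [← e1, sc_cs]
      rw [e1, e3, siC_sc, ← c1, ← c2] at h1
      exact sat_mono h1 i1 i2
    · obtain ⟨c1, i1⟩ := mem_form hD I.inc ht b1
      obtain ⟨c2, i2⟩ := mem_form hD I.inc (Y.okp β) b2
      have e3 : L.g = sc (syi D.p (Y.cur β).sy) := by rw [← e1, sc_cs]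
      rw [e1, e3, siC_sc, syi_syi, ← c1, ← c2] at h1
      have h2 := sat_rev hp F.two F.tan hP (sat_mono h1 i1 i2)
      have e5 : -adJ (S0 + X (leG D (sc (syi D.p (Y.cur β).sy))) -
          adJ (X (leG D (sc (Y.prev β))))) =
          gS D.p S0 X (fun s => leG D (sc s)) (Y.prev β) (Y.cur β).sy := by
        unfold gS
        rw [adJ_sub, adJ_add, adJ_adJ, I.hS0]
        abel
      have e6 : -adJ (S0 + X (leG D (sc (syi D.p (Y.next β)))) -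
          adJ (X (leG D (sc (Y.cur β).sy)))) =
          gS D.p S0 X (fun s => leG D (sc s)) (Y.cur β).sy (Y.next β) := by
        unfold gS
        rw [adJ_sub, adJ_add, adJ_adJ, I.hS0]
        abel
      rw [e5, e6] at h2
      exact h2

end Pool.Agent.Helper6.MONO.W2
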