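import Pool.Agent.Helper12.CX.Defs

/-!
Plan W (MP_c75db0), star of the vertex of the letters `0, 1`: block words and the statement of the
parse.

A syllable is an element `≠ 1` of the dihedral group `⟨0, 1⟩` followed by the letter `2`. The
element is `alt 0 1 k` (`a = false`, `1 ≤ k ≤ p`) or `alt 1 0 k` (`a = true`, `1 ≤ k < p`). A block
is a maximal run of equal syllables if the element is a reflection (`k` odd), a single syllable if
it is a rotation (`k` even).
-/

set_option autoImplicit false
namespace Pool.Agent.Helper6.MONO.W2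

/-- starting letter, number of letters, number of repetitions -/
structure SBl where
  a : Bool
  k : ℕ
  n : ℕ

/-- the syllable -/
def syl (a : Bool) (k : ℕ) : List (Fin 3) := (if a then alt 1 0 k else alt 0 1 k) ++ [2]

/-- the word of a block -/
def SBl.wd (b : SBl) : List (Fin 3) := (List.replicate b.n (syl b.a b.k)).flatten

/-- the order of `0 2` (`a = false`) and of `1 2` (`a = true`) -/
def mqr (q r : ℕ) (a : Bool) : ℕ := if a then q else r

/-- admissible blocks -/
structure SBl.Ok (p q r : ℕ) (b : SBl) : Prop where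
  k1 : 1 ≤ b.k
  kp : b.k ≤ p
  ka : b.a = true → b.k < p
  n1 : 1 ≤ b.n
  ev : b.k % 2 = 0 → b.n = 1
  run : b.k = 1 → 2 * b.n + 1 ≤ mqr q r b.a

/-- last letter of `alt` of the element is `0` (`false`) or `1` (`true`) -/
def lsE (a : Bool) (k : ℕ) : Bool := if k % 2 = 1 then a else !a

/-- admissible neighbours -/
structure SBl.Nx (p q r : ℕ) (b b' : SBl) : Prop where
  ne : ¬ (b.a = b'.a ∧ b.k = b'.k ∧ b.k % 2 = 1)
  pre : b'.k = 1 → b.k < p → lsE b.a b.k = b'.a → 2 * b'.n + 2 ≤ mqr q r b'.a
  post : b.k = 1 → b'.k < p → b'.a = b.a → 2 * b.n + 2 ≤ mqr q r b.a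

/-- THE PARSE: every word is equivalent to a word of admissible blocks up to short ends -/
def ST_RED : Prop := ∀ (p q r : ℕ), 3 ≤ p → 3 ≤ q → 3 ≤ r → ∀ w : List (Fin 3),
  ∃ (h t : List (Fin 3)) (bs : List SBl), h.length ≤ p + 1 ∧ t.length ≤ p + 1 ∧
    (∀ b ∈ bs, b.Ok p q r) ∧ List.IsChain (SBl.Nx p q r) bs ∧
    Eqv p q r w (h ++ (bs.map SBl.wd).flatten ++ t)

end Pool.Agent.Helper6.MONO.W2
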