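import Pool.Agent.Helper12.CW.W2C

/-!
Plan W (MP_c75db0): the window theorem for general systems of block words.
-/

set_option autoImplicit false
noncomputable section
namespace Pool.Agent.Helper6.MONO.W2

open Matrix Filter Topology

/-- the charts and the words -/
theorem pN_linkW {c : Fin 3 → ℝ} {z : ℂ} {S B : Type} {src tgt : B → S}
    (wd : B → List (Fin 3)) (N : B → Mt) (T : S → Mt)
    (lnk : ∀ b, ∃ f : ℂ, ‖f‖ = 1 ∧ ∀ X : V3, (N b).mulVec ((T (src b)).mulVec X) =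
      f • (T (tgt b)).mulVec (gact (wG c z) (wd b) X))
    {s s' : S} {bs : List B} (h : BPath src tgt s bs s') : ∀ X : V3, ∃ f : ℂ, ‖f‖ = 1 ∧
      (pN N bs).mulVec ((T s).mulVec X) =
        f • (T s').mulVec (gact (wG c z) (bs.map wd).flatten X) := by
  induction h with
  | nil s =>
    intro X
    refine ⟨1, by simp, ?_⟩
    rw [List.map_nil, List.flatten_nil, pN, Matrix.one_mulVec, one_smul]
    rfl
  | cons b h ih =>
    intro X
    obtain ⟨g, hg, hgl⟩ := lnk b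
    obtain ⟨f, hf, hfl⟩ := ih (gact (wG c z) (wd b) X)
    refine ⟨g * f, by rw [norm_mul, hg, hf, one_mul], ?_⟩
    rw [pN, ← Matrix.mulVec_mulVec, hgl, Matrix.mulVec_smul, hfl, List.map_cons,
      List.flatten_cons, cer_gact_append, smul_smul]

/-- THE WINDOW CERTIFICATE for a system of block words -/
theorem win_cmp {c : Fin 3 → ℝ} {a b : ℝ} (hab : a < b) {S B : Type} {src tgt : B → S}
    (wd : B → List (Fin 3))
    -- blocks and charts
    (N N' : B → ℝ → Mt)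
    (hN : ∀ β, ∀ x ∈ Set.Icc a b, ∀ i j, HasDerivAt (fun x => N β x i j) (N' β x i j) x)
    (T : S → ℝ → Mt) (K : ℝ)
    (hT : ∀ s, ∀ x ∈ Set.Icc a b, ∀ X : V3, ‖X‖ ≤ K * ‖(T s x).mulVec X‖)
    (lnk : ∀ β, ∀ x ∈ Set.Icc a b, ∃ f : ℂ, ‖f‖ = 1 ∧ ∀ X : V3,
      (N β x).mulVec ((T (src β) x).mulVec X) =
        f • (T (tgt β) x).mulVec (gact (wG c (zx x)) (wd β) X))
    (hT2 : ∀ s, ∀ x ∈ Set.Icc a b, ∀ X : V3, ‖(T s x).mulVec X‖ ≤ K * ‖X‖)
    -- regions and gauge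
    (R : S → ℝ → RG)
    (hR : ∀ β, ∀ x ∈ Set.Ioo a b, BOK (R (src β) x) (R (tgt β) x) (N β x) (N' β x))
    (bd g : ℝ) (hG : ∀ s, ∀ x ∈ Set.Ioo a b, ∀ i j, ‖(R s x).G i j‖ ≤ g)
    -- start vectors
    (St : S → Prop) (F u u' : S → Fin 3 → ℝ → V3)
    (hFu : ∀ s, St s → ∀ i, ∀ x ∈ Set.Icc a b, (T s x).mulVec (F s i x) = u s i x)
    (hu : ∀ s, St s → ∀ i, ∀ x ∈ Set.Icc a b, ∀ j,
      HasDerivAt (fun x => u s i x j) (u' s i x j) x)
    (huI : ∀ s, St s → ∀ i, ∀ x ∈ Set.Ioo a b, u s i x ∈ (R s x).In)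
    (huO : ∀ s, St s → ∀ i, ∀ x ∈ Set.Ioo a b,
      ∀ w ∈ (R s x).Out, ‖w‖ ≤ bd * ‖w ⬝ᵥ u s i x‖)
    (hun : ∀ s, St s → ∀ i, ∀ x ∈ Set.Icc a b, ‖u s i x‖ ≤ g ∧ ‖u' s i x‖ ≤ g)
    -- final functionals
    (l l' : S → ℝ → V3) (hl : ∀ s, ∀ x ∈ Set.Icc a b, ∀ j,
      HasDerivAt (fun x => l s x j) (l' s x j) x)
    (hlO : ∀ s, ∀ x ∈ Set.Ioo a b, l s x ∈ (R s x).Out)
    (hlI : ∀ s, ∀ x ∈ Set.Ioo a b, ∀ v ∈ (R s x).In, ‖v‖ ≤ bd * ‖l s x ⬝ᵥ v‖)
    (hln : ∀ s, ∀ x ∈ Set.Icc a b, ‖l s x‖ ≤ g ∧ ‖l' s x‖ ≤ g)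
    {x y : ℝ} (hx : a ≤ x) (hxy : x ≤ y) (hy : y ≤ b) : ∃ C : ℝ, 0 ≤ C ∧
      ∀ s, St s → ∀ bs s', BPath src tgt s bs s' → ∀ i,
        ‖gact (wG c (zx x)) (bs.map wd).flatten (F s i x)‖ ≤
          C * ‖gact (wG c (zx y)) (bs.map wd).flatten (F s i y)‖ := by
  have hxI : x ∈ Set.Icc a b := ⟨hx, hxy.trans hy⟩
  have hyI : y ∈ Set.Icc a b := ⟨hx.trans hxy, hy⟩
  set k : ℝ := 6 * |bd| * (|g| + 3 * |g| ^ 2) with hk
  refine ⟨|K| * (|bd| * (Real.exp (k * (y - x)) * (3 * |g| * |K|))), by positivity,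
    fun s hs bs s' hp i => ?_⟩
  -- the scalar function
  set f : ℝ → ℂ := fun x => l s' x ⬝ᵥ (pN (fun β => N β x) bs).mulVec (u s i x) with hf
  set f' : ℝ → ℂ := fun x => l' s' x ⬝ᵥ (pN (fun β => N β x) bs).mulVec (u s i x) +
    l s' x ⬝ᵥ (pD (fun β => N β x) (fun β => N' β x) bs).mulVec (u s i x) +
    l s' x ⬝ᵥ (pN (fun β => N β x) bs).mulVec (u' s i x) with hf'
  have hder : ∀ x ∈ Set.Icc a b, HasDerivAt f (f' x) x := fun x hx =>
    lPu_deriv (P := fun x => pN (fun β => N β x) bs) (u := fun x => u s i x) (l := fun x => l s' x)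
      (fun i j => pN_deriv N N' bs (fun β i j => hN β x hx i j) i j)
      (fun j => hu s hs i x hx j) (fun j => hl s' x hx j)
  have hpath : ∀ x ∈ Set.Ioo a b, BOK (R s x) (R s' x) (pN (fun β => N β x) bs)
      (pD (fun β => N β x) (fun β => N' β x) bs) := fun x hx =>
    bok_path (fun s => R s x) _ _ (fun β => hR β x hx) hp
  have hg0 : ∀ x : ℝ, x ≤ g → x ≤ |g| := fun x h => h.trans (le_abs_self g)
  have hineq : ∀ x ∈ Set.Ioo a b, -(k * ‖f x‖ ^ 2) ≤ (f' x * star (f x)).re := by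
    intro x hx
    have hx' := Set.Ioo_subset_Icc_self hx
    refine point_ineq (hpath x hx) (huI s hs i x hx) (hlO s' x hx) (abs_nonneg bd)
      (abs_nonneg g) (fun w hw => ?_) (fun v hv => ?_) (fun i j => hg0 _ (hG _ x hx i j))
      (fun i j => hg0 _ (hG _ x hx i j)) (hg0 _ (hun s hs i x hx').1) (hg0 _ (hln s' x hx').1)
      (hg0 _ (hun s hs i x hx').2) (hg0 _ (hln s' x hx').2)
    · exact (huO s hs i x hx w hw).trans
        (mul_le_mul_of_nonneg_right (le_abs_self bd) (norm_nonneg _))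
    · exact (hlI s' x hx v hv).trans
        (mul_le_mul_of_nonneg_right (le_abs_self bd) (norm_nonneg _))
  have hmono := integ hder hineq hx hxy hy
  have hmono' : ‖f x‖ ≤ Real.exp (k * (y - x)) * ‖f y‖ := by
    have e : Real.exp (2 * k * (y - x)) = Real.exp (k * (y - x)) ^ 2 := by
      rw [← Real.exp_nat_mul]
      congr 1
      push_cast
      ring
    rw [e, ← mul_pow] at hmono
    exact le_of_sq_le_sq hmono (by positivity)
  -- domination by the functional, closed by continuity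
  have hdom : ‖(pN (fun β => N β x) bs).mulVec (u s i x)‖ ≤ |bd| * ‖f x‖ := by
    have hev : ∀ y ∈ Set.Ioo a b, ‖(pN (fun β => N β y) bs).mulVec (u s i y)‖ ≤
        |bd| * ‖f y‖ := fun y hy => by
      refine (hlI s' y hy _ ((hpath y hy).inn _ (huI s hs i y hy))).trans ?_
      exact mul_le_mul_of_nonneg_right (le_abs_self bd) (norm_nonneg _)
    have hc1 : ContinuousAt (fun y => (pN (fun β => N β y) bs).mulVec (u s i y)) x := by
      rw [continuousAt_pi]
      intro j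
      have h0 : (fun y => (pN (fun β => N β y) bs).mulVec (u s i y) j) = fun y =>
          pN (fun β => N β y) bs j 0 * u s i y 0 + pN (fun β => N β y) bs j 1 * u s i y 1 +
            pN (fun β => N β y) bs j 2 * u s i y 2 := by
        funext y
        rw [Matrix.mulVec, dotProduct, Fin.sum_univ_three]
      rw [h0]
      have hPc := fun i j => (pN_deriv N N' bs (fun β i j => hN β x hxI i j) i j).continuousAt
      have huc := fun j => (hu s hs i x hxI j).continuousAt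
      exact (((hPc j 0).mul (huc 0)).add ((hPc j 1).mul (huc 1))).add ((hPc j 2).mul (huc 2))
    have hc2 : ContinuousAt f x := (hder x hxI).continuousAt
    have hcl : x ∈ closure (Set.Ioo a b) := by
      rw [closure_Ioo hab.ne]
      exact hxI
    have hne : (𝓝[Set.Ioo a b] x).NeBot := mem_closure_iff_nhdsWithin_neBot.1 hcl
    have t1 : Tendsto (fun y => ‖(pN (fun β => N β y) bs).mulVec (u s i y)‖)
        (𝓝[Set.Ioo a b] x) (𝓝 ‖(pN (fun β => N β x) bs).mulVec (u s i x)‖) :=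
      hc1.norm.tendsto.mono_left nhdsWithin_le_nhds
    have t2 : Tendsto (fun y => |bd| * ‖f y‖) (𝓝[Set.Ioo a b] x) (𝓝 (|bd| * ‖f x‖)) :=
      ((hc2.norm.tendsto).const_mul |bd|).mono_left nhdsWithin_le_nhds
    refine le_of_tendsto_of_tendsto t1 t2 ?_
    filter_upwards [self_mem_nhdsWithin] with y hy
    exact hev y hy
  -- charts
  obtain ⟨e1, he1, hx1⟩ := pN_linkW (c := c) (z := zx x) wd
    (fun β => N β x) (fun s => T s x) (fun β => lnk β x hxI) hp (F s i x)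
  obtain ⟨e2, he2, hy1⟩ := pN_linkW (c := c) (z := zx y) wd
    (fun β => N β y) (fun s => T s y) (fun β => lnk β y hyI) hp (F s i y)
  rw [hFu s hs i x hxI] at hx1
  rw [hFu s hs i y hyI] at hy1
  set X := gact (wG c (zx x)) (bs.map wd).flatten (F s i x) with hX
  set Y := gact (wG c (zx y)) (bs.map wd).flatten (F s i y) with hY
  have n1 : ‖(pN (fun β => N β x) bs).mulVec (u s i x)‖ = ‖(T s' x).mulVec X‖ := by
    rw [hx1, norm_smul, he1, one_mul]
  have n2 : ‖(pN (fun β => N β y) bs).mulVec (u s i y)‖ = ‖(T s' y).mulVec Y‖ := by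
    rw [hy1, norm_smul, he2, one_mul]
  have n3 : ‖f y‖ ≤ 3 * |g| * (|K| * ‖Y‖) := by
    have h1 := dot_le (l s' y) ((pN (fun β => N β y) bs).mulVec (u s i y))
    rw [n2] at h1
    refine h1.trans ?_
    have h2 : ‖(T s' y).mulVec Y‖ ≤ |K| * ‖Y‖ :=
      (hT2 s' y hyI Y).trans (mul_le_mul_of_nonneg_right (le_abs_self K) (norm_nonneg _))
    have h3 := hg0 _ (hln s' y hyI).1
    exact mul_le_mul (by linarith) h2 (norm_nonneg _) (by positivity)
  show ‖X‖ ≤ _ * ‖Y‖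
  calc ‖X‖ ≤ K * ‖(T s' x).mulVec X‖ := hT s' x hxI X
    _ ≤ |K| * ‖(T s' x).mulVec X‖ := mul_le_mul_of_nonneg_right (le_abs_self K) (norm_nonneg _)
    _ ≤ |K| * (|bd| * ‖f x‖) := by
        rw [← n1]
        exact mul_le_mul_of_nonneg_left hdom (abs_nonneg _)
    _ ≤ |K| * (|bd| * (Real.exp (k * (y - x)) * (3 * |g| * (|K| * ‖Y‖)))) := by
        refine mul_le_mul_of_nonneg_left (mul_le_mul_of_nonneg_left (hmono'.trans ?_)
          (abs_nonneg _)) (abs_nonneg _)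
        exact mul_le_mul_of_nonneg_left n3 (Real.exp_pos _).le
    _ = _ := by ring

/-- comparison on a system of words which covers all elements gives `NC` -/
theorem nc_of_words (hWIG : ST_WIG) (hINV : ST_INV) {p q r : ℕ} (hp : 3 ≤ p)
    (hq : 3 ≤ q) (hr : 3 ≤ r) {z z' : ℂ} (hz : ‖z‖ = 1) (hz' : ‖z'‖ = 1) (h1 : z ≠ -1)
    (h1' : z' ≠ -1) {ι : Type} [Finite ι] (Wd : ι → List (Fin 3) → Prop) (L : ℕ)
    (hcov : ∀ w : List (Fin 3), ∃ (h u t : List (Fin 3)) (s : ι), h.length ≤ L ∧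
      t.length ≤ L ∧ Wd s u ∧ Eqv p q r w (h ++ u ++ t))
    (F F' : ι → Fin 3 → V3) (hF : ∀ s, LinearIndependent ℂ (F s)) (B : ℝ)
    (hB : ∀ s u, Wd s u → ∀ i, ‖gact (wG (cw p q r) z) u (F s i)‖ ≤
      B * ‖gact (wG (cw p q r) z') u (F' s i)‖) : NC p q r z z' := by
  obtain ⟨τ, hG⟩ := hWIG p q r hp hq hr z hz h1
  obtain ⟨τ', hG'⟩ := hWIG p q r hp hq hr z' hz' h1'
  have := Fintype.ofFinite ι
  have hst : ∀ s : ι, ∃ C : ℝ, 0 ≤ C ∧ ∀ u : List (Fin 3), Wd s u →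
      ∀ A : ℝ, 0 ≤ A → (∀ x : V3, ‖gact (wG (cw p q r) z') u x‖ ≤ A * ‖x‖) →
      nrm (gact (wG (cw p q r) z) u) ≤ C * A := by
    intro s
    obtain ⟨Cb, hCb, hbas⟩ := nrm_basis _ (hF s)
    set S : ℝ := ∑ i, ‖F' s i‖ with hS
    have hS0 : 0 ≤ S := Finset.sum_nonneg (fun _ _ => norm_nonneg _)
    refine ⟨Cb * (|B| * S), by positivity, ?_⟩
    intro u hu A hA hgA
    rw [mul_assoc]
    refine hbas (nrm_lin (wG (cw p q r) z) u) (|B| * S * A) ?_
    intro i
    rw [nrm_lin_apply]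
    have e5 : ‖F' s i‖ ≤ S :=
      Finset.single_le_sum (f := fun i => ‖F' s i‖) (fun _ _ => norm_nonneg _)
        (Finset.mem_univ i)
    calc ‖gact (wG (cw p q r) z) u (F s i)‖
        ≤ B * ‖gact (wG (cw p q r) z') u (F' s i)‖ := hB s u hu i
      _ ≤ |B| * ‖gact (wG (cw p q r) z') u (F' s i)‖ :=
          mul_le_mul_of_nonneg_right (le_abs_self B) (norm_nonneg _)
      _ ≤ |B| * (A * S) := by
          refine mul_le_mul_of_nonneg_left ((hgA (F' s i)).trans ?_) (abs_nonneg B)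
          exact mul_le_mul_of_nonneg_left e5 hA
      _ = |B| * S * A := by ring
  choose Ct hCt0 hCt using hst
  set CS : ℝ := ∑ t, Ct t with hCS
  have hCS0 : 0 ≤ CS := Finset.sum_nonneg (fun t _ => hCt0 t)
  set G := wG (cw p q r) z with hGd
  set G' := wG (cw p q r) z' with hGd'
  have hK := nrm_K_one G
  have hK' := nrm_K_one G'
  refine ⟨3 * (nrm_K G ^ L * (CS * (nrm_K G' ^ L * nrm_K G' ^ L)) * nrm_K G ^ L), ?_⟩
  intro w
  obtain ⟨h, u, t, s, hlh, hlt', hok, hEq⟩ := hcov w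
  have hN := nrm_nonneg (gact G' w)
  have h1 : ∀ x : V3, ‖gact G' u x‖ ≤
      (nrm_K G' ^ L * nrm_K G' ^ L * nrm (gact G' w)) * ‖x‖ := by
    intro x
    have e1 : gact G' h (gact G' h.reverse x) = x := by
      have := nrm_inv hINV p q r hp hq hr τ' G' hG' h.reverse x
      rwa [List.reverse_reverse] at this
    have e2 : gact G' u x = gact G' t.reverse (gact G' w (gact G' h.reverse x)) := by
      rw [hEq τ' G' hG', nrm_gact_app, nrm_gact_app, e1,
        nrm_inv hINV p q r hp hq hr τ' G' hG' t]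
    rw [e2]
    calc ‖gact G' t.reverse (gact G' w (gact G' h.reverse x))‖
        ≤ nrm_K G' ^ L * ‖gact G' w (gact G' h.reverse x)‖ :=
          nrm_word_bound' G' t.reverse L (by rwa [List.length_reverse]) _
      _ ≤ nrm_K G' ^ L * (nrm (gact G' w) * ‖gact G' h.reverse x‖) :=
          mul_le_mul_of_nonneg_left (nrm_gact_bound G' w _) (by positivity)
      _ ≤ nrm_K G' ^ L * (nrm (gact G' w) * (nrm_K G' ^ L * ‖x‖)) := by
          refine mul_le_mul_of_nonneg_left (mul_le_mul_of_nonneg_left ?_ hN) (by positivity)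
          exact nrm_word_bound' G' h.reverse L (by rwa [List.length_reverse]) x
      _ = _ := by ring
  have h2 := hCt s u hok _ (by positivity) h1
  have h3 : Ct s ≤ CS :=
    Finset.single_le_sum (f := Ct) (fun t _ => hCt0 t) (Finset.mem_univ _)
  have h4 : nrm (gact G u) ≤ CS * (nrm_K G' ^ L * nrm_K G' ^ L * nrm (gact G' w)) :=
    h2.trans (mul_le_mul_of_nonneg_right h3 (by positivity))
  have h5 : ∀ i : Fin 3, ‖gact G w (Pi.single i 1)‖ ≤
      nrm_K G ^ L * (CS * (nrm_K G' ^ L * nrm_K G' ^ L * nrm (gact G' w)) * nrm_K G ^ L) := by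
    intro i
    rw [hEq τ G hG, nrm_gact_app, nrm_gact_app]
    have hs : ‖(Pi.single i 1 : V3)‖ = 1 := by
      rw [Pi.norm_single, norm_one]
    refine (nrm_word_bound' G t L hlt' _).trans (mul_le_mul_of_nonneg_left ?_ (by positivity))
    calc ‖gact G u (gact G h (Pi.single i 1))‖
        ≤ nrm (gact G u) * ‖gact G h (Pi.single i 1)‖ := nrm_gact_bound G _ _
      _ ≤ CS * (nrm_K G' ^ L * nrm_K G' ^ L * nrm (gact G' w)) * nrm_K G ^ L := by
          refine mul_le_mul h4 ?_ (norm_nonneg _) (by positivity)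
          have := nrm_word_bound' G h L hlh (Pi.single i 1)
          rwa [hs, mul_one] at this
  calc nrm (gact G w) = ∑ i : Fin 3, ‖gact G w (Pi.single i 1)‖ := rfl
    _ ≤ ∑ _i : Fin 3, nrm_K G ^ L *
          (CS * (nrm_K G' ^ L * nrm_K G' ^ L * nrm (gact G' w)) * nrm_K G ^ L) :=
        Finset.sum_le_sum (fun i _ => h5 i)
    _ = 3 * (nrm_K G ^ L * (CS * (nrm_K G' ^ L * nrm_K G' ^ L)) * nrm_K G ^ L)
          * nrm (gact G' w) := by
        rw [Finset.sum_const, Finset.card_univ, Fintype.card_fin, nsmul_eq_mul]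
        push_cast
        ring

end Pool.Agent.Helper6.MONO.W2
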