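import Pool.Agent.Helper12.CW.W2E
import Pool.Agent.Helper12.CW.W2W

/-!
Plan W (MP_c75db0): classes from comparison of norms in the window and cells on an arbitrary
line at the right end of the window.
-/

set_option autoImplicit false
noncomputable section
namespace Pool.Agent.Helper6.MONO

open QTR W2

namespace W2

/-- norms are comparable on the whole range; the window by `NC` -/
theorem nc_all' {p q r : ℕ} (hp : 3 ≤ p) (hq : 3 ≤ q) (hr : 3 ≤ r) {x0 m : ℝ} (h0 : -2 < x0)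
    (h0m : x0 ≤ m) (hm : m ≤ 2) (hZ : ZF p q r m)
    (hW : ∀ x y : ℝ, x0 ≤ x → x ≤ y → y ≤ m → NC p q r (zx x) (zx y))
    {z z' : ℂ} (hz : ‖z‖ = 1) (hz' : ‖z'‖ = 1) (hx : x0 ≤ 2 * z.re) (hzz : z.re ≤ z'.re) :
    NC p q r z z' := by
  have self : ∀ u : ℂ, ‖u‖ = 1 → u.re = (zx (2 * u.re)).re := fun u _ => by
    have := zx_re (2 * u.re)
    linarith
  obtain ⟨b1, b2⟩ := unit_re hz
  obtain ⟨b3, b4⟩ := unit_re hz'
  have s1 : NC p q r z (zx (2 * z.re)) :=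
    nc_same hz (zx_norm (by linarith) (by linarith)) (self z hz)
  have s2 : NC p q r (zx (2 * z'.re)) z' :=
    nc_same (zx_norm (by linarith) (by linarith)) hz' (self z' hz').symm
  rcases le_total m (2 * z.re) with h | h
  · exact g_NRZ p q r hp hq hr m (by linarith) hZ z z' hz hz' h hzz
  rcases le_total (2 * z'.re) m with h' | h'
  · exact (s1.trans (hW (2 * z.re) (2 * z'.re) hx (by linarith) h')).trans s2
  · have h3 : NC p q r (zx m) z' := g_NRZ p q r hp hq hr m (by linarith) hZ (zx m) z'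
      (zx_norm (by linarith) hm) hz' (by rw [zx_re]) (by have := zx_re m; linarith)
    exact (s1.trans (hW (2 * z.re) m hx h le_rfl)).trans h3

/-- the window statement -/
def Win (p q r : ℕ) (a b : ℝ) : Prop :=
  ∀ x y : ℝ, a ≤ x → x ≤ y → y ≤ b → NC p q r (zx x) (zx y)

theorem Win.join {p q r : ℕ} {a b c : ℝ} (h1 : Win p q r a b)
    (h2 : Win p q r b c) : Win p q r a c := by
  intro x y hx hxy hy
  rcases le_total y b with h | h
  · exact h1 x y hx hxy h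
  rcases le_total b x with h' | h'
  · exact h2 x y h' hxy hy
  · exact (h1 x b hx h' le_rfl).trans (h2 b y le_rfl h hy)

theorem Win.sub {p q r : ℕ} {a b a' b' : ℝ} (h : Win p q r a b) (ha : a ≤ a') (hb : b' ≤ b) :
    Win p q r a' b' := fun x y hx hxy hy => h x y (ha.trans hx) hxy (hy.trans hb)

end W2

/-- PLAN W for a triple -/
theorem finAt_win' {p q r : ℕ} (hp : 3 ≤ p) (hpq : p ≤ q) (hqr : q ≤ r) {m : ℝ}
    (hm : xA p q r ≤ m) (hm2 : m ≤ 2) (hZ : ZF p q r m) (hW : Win p q r (xA p q r) m) :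
    FinAt p q r := by
  have hq : 3 ≤ q := hp.trans hpq
  have hr : 3 ≤ r := hq.trans hqr
  refine finAt_nc p q r hp hq hr (xA p q r) (fun x1 hx1 => ?_) (fun z z' hz hz' hx hzz => ?_)
  · have h2 := xA_le2 hp hq hr
    exact ⟨(x1 + xA p q r) / 2, by linarith, by linarith, by linarith, Or.inl (by linarith)⟩
  · exact nc_all' hp hq hr (xA_gt hp hq hqr) hm hm2 hZ hW hz hz' hx hzz

/-- an arc on the line `Re x = m` -/
def ArcL (m : ℕ → ℕ → ℕ → ℝ) (l1 l2 l3 : Lab) : Prop := ∀ a b c : ℕ, l1.has a → l2.has b →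
  l3.has c → 3 ≤ a → 3 ≤ b → a ≤ c → b ≤ c → ¬ (a = 3 ∧ b = 3 ∧ c = 3) → QX a b c (m a b c)

/-- PLAN W for a class: two arcs on the line `m` and the window -/
theorem cls_L {l1 l2 l3 : Lab} (m : ℕ → ℕ → ℕ → ℝ) (hs : ∀ a b c, m a b c = m b a c)
    (hm : ∀ p q r : ℕ, l1.has p → l2.has q → l3.has r → 3 ≤ p → p ≤ q → q ≤ r →
      xA p q r ≤ m p q r ∧ m p q r ≤ 2)
    (h1 : ArcL m l1 l2 l3) (h2 : ArcL m l2 l1 l3)
    (hW : ∀ p q r : ℕ, l1.has p → l2.has q → l3.has r → 3 ≤ p → p ≤ q → q ≤ r →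
      Win p q r (xA p q r) (m p q r)) : Cls.Fin ⟨l1, l2, l3⟩ := by
  intro p q r hc hp hpq hqr hne
  obtain ⟨c1, c2, c3⟩ := hc
  have hq : 3 ≤ q := hp.trans hpq
  have hx := xA_gt hp hq hqr
  obtain ⟨m1, m2⟩ := hm p q r c1 c2 c3 hp hpq hqr
  refine finAt_win' hp hpq hqr m1 m2 ?_ (hW p q r c1 c2 c3 hp hpq hqr)
  refine zf_of_qx hp hpq hqr hne (by linarith) m1
    (h1 p q r c1 c2 c3 hp hq (hpq.trans hqr) hqr hne) ?_
  have h := h2 q p r c2 c1 c3 hq hp hqr (hpq.trans hqr) (fun h => hne ⟨h.2.1, h.1, h.2.2⟩)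
  rw [← hs] at h
  exact h

/-- PLAN W on a constant line for a corner: one set of cells for both arcs -/
theorem cls_K {p : ℕ} (hp : 3 ≤ p) {n : ℕ} (hn : p < n) {m : ℝ} (hm2 : m ≤ 2)
    (hm : ∀ q r : ℕ, n ≤ q → q ≤ r → xA p q r ≤ m)
    (h : ∀ b c : ℕ, n ≤ b → n ≤ c → QX p b c m)
    (hW : ∀ q r : ℕ, n ≤ q → q ≤ r → Win p q r (xA p q r) m) :
    Cls.Fin ⟨Lab.ex p, Lab.tl n, Lab.tl n⟩ := by
  intro p' q r hc hp' hpq hqr hne
  obtain ⟨c1, c2, c3⟩ := hc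
  have c1' : p' = p := c1
  subst c1'
  have c2' : n ≤ q := c2
  have hq : 3 ≤ q := hp.trans hpq
  have hx := xA_gt hp hq hqr
  have m1 := hm q r c2' hqr
  refine finAt_win' hp hpq hqr m1 hm2 ?_ (hW q r c2' hqr)
  exact zf_of_qx hp hpq hqr hne (by linarith) m1 (h q r c2' (c2'.trans hqr))
    (h r q (c2'.trans hqr) c2').rot2

end Pool.Agent.Helper6.MONO
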