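import Pool.Agent.Helper12.CW.W2H
import Pool.Agent.Helper12.CW.W2F

/-!
Plan W (MP_c75db0): THE WINDOW THEOREM IN THE STAR FRAME.
-/

set_option autoImplicit false
noncomputable section
namespace Pool.Agent.Helper6.MONO.W2

open Matrix Complex Filter Topology

/-- scaling the parameter: the inequality only depends on the direction -/
theorem BOK.scale {A B : RG} {M M' : Mt} {GA GB : Mt} {k : ℝ} (hk : 0 ≤ k)
    (hA : A.G = (k : ℂ) • GA) (hB : B.G = (k : ℂ) • GB) {M'' : Mt} (hM : M' = (k : ℂ) • M'')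
    (h : BOK ⟨A.In, A.Out, GA⟩ ⟨B.In, B.Out, GB⟩ M M'') : BOK A B M M' := by
  refine ⟨h.inn, h.out, fun u hu w hw => ?_⟩
  have h1 := h.gi u hu w hw
  have e : M' + B.G * M - M * A.G = (k : ℂ) • (M'' + GB * M - M * GA) := by
    rw [hA, hB, hM, Matrix.smul_mul, Matrix.mul_smul, smul_sub, smul_add]
  rw [e, Matrix.smul_mulVec, dotProduct_smul, smul_eq_mul, mul_assoc, Complex.re_ofReal_mul]
  exact mul_nonneg hk h1

/-- everything that has to be checked at one parameter -/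
structure WOK {S B : Type} (src tgt : B → S) (R : S → RG) (N N' : B → Mt) (bd : ℝ)
    (St : S → Prop) (u : S → Fin 3 → V3) (l : S → V3) : Prop where
  blk : ∀ β, BOK (R (src β)) (R (tgt β)) (N β) (N' β)
  inn : ∀ s, St s → ∀ i, u s i ∈ (R s).In
  out : ∀ s, St s → ∀ i, ∀ w ∈ (R s).Out, ‖w‖ ≤ bd * ‖w ⬝ᵥ u s i‖
  fin : ∀ s, l s ∈ (R s).Out
  fno : ∀ s, ∀ v ∈ (R s).In, ‖v‖ ≤ bd * ‖l s ⬝ᵥ v‖

/-- the angle at the star -/
def phi (p : ℕ) : ℝ := Real.pi / p

theorem phi_sin {p : ℕ} (hp : 3 ≤ p) : Real.sin (phi p) ≠ 0 := by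
  have h3 : (3 : ℝ) ≤ p := by exact_mod_cast hp
  have hp0 : (0 : ℝ) < p := by linarith
  refine (Real.sin_pos_of_pos_of_lt_pi (div_pos Real.pi_pos hp0) ?_).ne'
  show Real.pi / p < Real.pi
  rw [div_lt_iff₀ hp0]
  nlinarith [Real.pi_pos]

/-- THE WINDOW THEOREM IN THE STAR FRAME: constant start vectors and final functionals -/
theorem win_star {p q r : ℕ} (hp : 3 ≤ p) (hq : 3 ≤ q) (hr : 3 ≤ r) {a b : ℝ} (ha : -2 < a)
    (hab : a < b) (hb : b < 2) {S B : Type} {src tgt : B → S} (wd : B → List (Fin 3))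
    (R : S → ℝ → RG) (bd g : ℝ) (St : S → Prop) [Finite {s // St s}]
    (u : S → Fin 3 → V3) (l : S → V3)
    (hW : ∀ x ∈ Set.Ioo a b, WOK src tgt (fun s => R s x)
      (fun β => sW (phi p) (Kp q) (Kp r) (zx x) (wd β))
      (fun β => sWd (phi p) (Kp q) (Kp r) x (wd β)) bd St u l)
    (hG : ∀ s, ∀ x ∈ Set.Ioo a b, ∀ i j, ‖(R s x).G i j‖ ≤ g)
    (hu : ∀ s, St s → LinearIndependent ℂ (u s)) (hun : ∀ s i, ‖u s i‖ ≤ g) (hln : ∀ s, ‖l s‖ ≤ g)
    (L : ℕ) (hcov : ∀ w : List (Fin 3), ∃ (h t : List (Fin 3)) (s : S) (bs : List B) (s' : S),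
      h.length ≤ L ∧ t.length ≤ L ∧ St s ∧ BPath src tgt s bs s' ∧
      Eqv p q r w (h ++ (bs.map wd).flatten ++ t)) : Win p q r a b := by
  intro x y hx hxy hy
  have hs := phi_sin hp
  have c0 : cw p q r 0 = 2 * Real.cos (phi p) := rfl
  have c1 : cw p q r 1 = Kp q := rfl
  have c2 : cw p q r 2 = Kp r := by
    show Kp (mm p q r 2 0) = Kp r
    rfl
  have hzn : ∀ x ∈ Set.Icc a b, ‖zx x‖ = 1 := fun x hx =>
    zx_norm (by linarith [hx.1]) (by linarith [hx.2])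
  have hne : ∀ x : ℝ, a ≤ x → zx x ≠ -1 := by
    intro x hx h
    have := zx_re x
    rw [h] at this
    simp at this
    linarith
  set K := sK (phi p) (Kp q) (Kp r) with hK
  obtain ⟨C, hC0, hC⟩ := win_cmp (c := cw p q r) hab wd (src := src) (tgt := tgt)
    (fun β x => sW (phi p) (Kp q) (Kp r) (zx x) (wd β))
    (fun β x => sWd (phi p) (Kp q) (Kp r) x (wd β))
    (fun β x hx i j => sW_deriv _ _ _ (by linarith [hx.1]) (by linarith [hx.2]) _ i j)
    (fun _ x => sV (phi p) (Kp q) (Kp r) (zx x)) K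
    (fun _ x hx X => by
      have h1 := sU_le hs (Kp q) (Kp r) (hzn x hx) ((sV (phi p) (Kp q) (Kp r) (zx x)).mulVec X)
      rwa [sU_sV hs] at h1)
    (fun β x hx => ⟨1, by simp, fun X => by
      rw [one_smul]
      have := sW_link (c := cw p q r) hs c0 (hzn x hx) (wd β) X
      rw [c1, c2] at this
      exact this⟩)
    (fun _ x hx X => sV_le _ _ _ (hzn x hx) X)
    R (fun β x hx => (hW x hx).blk β) bd g hG St
    (fun s i x => sU (phi p) (Kp q) (Kp r) (zx x) (u s i)) (fun s i _ => u s i)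
    (fun _ _ _ => 0)
    (fun s _ i x _ => sV_sU hs _ _ _ _)
    (fun s _ i x _ j => hasDerivAt_const x _)
    (fun s hs i x hx => (hW x hx).inn s hs i)
    (fun s hs i x hx w hw => (hW x hx).out s hs i w hw)
    (fun s _ i x _ => ⟨hun s i, by rw [norm_zero]; exact (norm_nonneg _).trans (hun s i)⟩)
    (fun s _ => l s) (fun _ _ => 0)
    (fun s x _ j => hasDerivAt_const x _)
    (fun s x hx => (hW x hx).fin s)
    (fun s x hx v hv => (hW x hx).fno s v hv)
    (fun s x _ => ⟨hln s, by rw [norm_zero]; exact (norm_nonneg _).trans (hln s)⟩)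
    hx hxy hy
  have hxI : x ∈ Set.Icc a b := ⟨hx, hxy.trans hy⟩
  have hyI : y ∈ Set.Icc a b := ⟨hx.trans hxy, hy⟩
  refine nc_of_words st_WIG st_INV hp hq hr (hzn x hxI) (hzn y hyI) (hne x hx)
    (hne y (hx.trans hxy)) (ι := {s // St s})
    (fun s w => ∃ (bs : List B) (s' : S), BPath src tgt s.1 bs s' ∧ w = (bs.map wd).flatten) L
    (fun w => ?_) (fun s i => sU (phi p) (Kp q) (Kp r) (zx x) (u s.1 i))
    (fun s i => sU (phi p) (Kp q) (Kp r) (zx y) (u s.1 i)) (fun s => ?_) C ?_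
  · obtain ⟨h, t, s, bs, s', h1, h2, h3, h4, h5⟩ := hcov w
    exact ⟨h, (bs.map wd).flatten, t, ⟨s, h3⟩, h1, h2, ⟨bs, s', h4, rfl⟩, h5⟩
  · have hli := hu s.1 s.2
    rw [Fintype.linearIndependent_iff] at hli ⊢
    intro k hk
    refine hli k ?_
    have h1 := congrArg (sV (phi p) (Kp q) (Kp r) (zx x)).mulVec hk
    rw [Matrix.mulVec_zero, Matrix.mulVec_sum] at h1
    rw [← h1]
    refine Finset.sum_congr rfl (fun i _ => ?_)
    rw [Matrix.mulVec_smul, sV_sU hs]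
  · rintro s w ⟨bs, s', hp', rfl⟩ i
    exact hC s.1 s.2 bs s' hp' i

end Pool.Agent.Helper6.MONO.W2
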