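import Pool.Agent.Helper12.CW.SR0
import Pool.Agent.Helper12.CW.W2I

/-!
Plan W (MP_c75db0), star frame: statements of the rows.

ST_COV: states are pairs (last syllable, next syllable).
ST_DM, ST_SYL, ST_RUN, ST_RHO: matrices of the blocks.
-/

set_option autoImplicit false
noncomputable section
namespace Pool.Agent.Helper6.MONO.W2

open Matrix

/-- type of a syllable: starting letter and length of the element -/
abbrev Sy : Type := Bool × ℕ

def SyOk (p : ℕ) (s : Sy) : Prop := 1 ≤ s.2 ∧ s.2 ≤ p ∧ (s.1 = true → s.2 < p)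

def SBl.sy (b : SBl) : Sy := (b.a, b.k)

/-- not the same reflection -/
def SyNe (s t : Sy) : Prop := ¬ (s = t ∧ s.2 % 2 = 1)

/-- a block with the types of its neighbours -/
structure TB (p q r : ℕ) where
  prev : Sy
  cur : SBl
  next : Sy
  okp : SyOk p prev
  okc : cur.Ok p q r
  okn : SyOk p next
  ne1 : SyNe prev cur.sy
  ne2 : SyNe cur.sy next

def TB.src {p q r : ℕ} (b : TB p q r) : Sy × Sy := (b.prev, b.cur.sy)
def TB.tgt {p q r : ℕ} (b : TB p q r) : Sy × Sy := (b.cur.sy, b.next)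

/-- start states: the last syllable is the rotation `0 1` -/
def TSt (p : ℕ) (s : Sy × Sy) : Prop := s.1 = (false, 2) ∧ SyOk p s.2

/-- the cover for the window theorem -/
def ST_COV : Prop := ∀ (p q r : ℕ), 3 ≤ p → 3 ≤ q → 3 ≤ r → ∀ w : List (Fin 3),
  ∃ (h t : List (Fin 3)) (s : Sy × Sy) (bs : List (TB p q r)) (s' : Sy × Sy),
    h.length ≤ p + 1 ∧ t.length ≤ p + 1 ∧ TSt p s ∧ BPath TB.src TB.tgt s bs s' ∧
    Eqv p q r w (h ++ (bs.map (fun b => b.cur.wd)).flatten ++ t)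

/-- finitely many start states -/
def ST_TFIN : Prop := ∀ p : ℕ, Finite {s // TSt p s}

/-! ### matrices -/

/-- the element `alt 0 1 k` or `alt 1 0 k` in the star frame -/
def sDm (φ : ℝ) (a : Bool) (k : ℕ) : Mt :=
  let e := if a then star (ep φ) else ep φ
  let f := if a then ep φ else star (ep φ)
  if k % 2 = 0 then !![e ^ k, 0, 0; 0, f ^ k, 0; 0, 0, 1]
  else if a then !![0, -(ep φ) ^ (k + 1), 0; -(star (ep φ)) ^ (k + 1), 0, 0; 0, 0, 1]
  else !![0, -(star (ep φ)) ^ (k - 1), 0; -(ep φ) ^ (k - 1), 0, 0; 0, 0, 1]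

def ST_DM : Prop := ∀ (φ k1 k2 : ℝ) (z : ℂ) (a : Bool) (k : ℕ),
  sW φ k1 k2 z (if a then alt 1 0 k else alt 0 1 k) = sDm φ a k

/-- the matrix of a block and its derivative: `n = 1` -/
def ST_SYL : Prop := ∀ (φ k1 k2 : ℝ) (x : ℝ) (a : Bool) (k : ℕ),
  sW φ k1 k2 (zx x) (syl a k) = sI2 (sA φ k1 k2 (zx x)) (sB φ k1 k2 (zx x)) * sDm φ a k ∧
  sWd φ k1 k2 x (syl a k) =
    sI2d (sA φ k1 k2 (zx x)) (sB φ k1 k2 (zx x)) (sAd φ k2 x) (sBd φ k2 x) * sDm φ a k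

/-- hermitian product with `J = diag (1, 1, -t)` -/
def brJ (t : ℝ) (u v : V3) : ℂ := u 0 * star (v 0) + u 1 * star (v 1) - t * (u 2 * star (v 2))

/-- `1 - V ⊗ V^* J` -/
def rfJ (t : ℝ) (V : V3) : Mt :=
  1 - Matrix.of (fun i j => V i * ![star (V 0), star (V 1), -(t * star (V 2))] j)

/-- Chebyshev numbers `sin (n θ) / sin θ`, `κ = 2 cos θ` -/
def Us (κ : ℝ) : ℕ → ℝ
  | 0 => 0
  | 1 => 1
  | n + 2 => κ * Us κ (n + 1) - Us κ n

/-- alternating products of two reflections -/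
def ST_RUN : Prop := ∀ (t κ : ℝ) (s v : V3), brJ t s s = 2 → brJ t v v = 2 → brJ t v s = κ →
  brJ t s v = κ → ∀ n : ℕ, rfJ t s * (rfJ t v * rfJ t s) ^ n =
    rfJ t ((Us κ (n + 1) : ℂ) • s - (Us κ n : ℂ) • v)

/-- reflections do not see the phase of the polar vector -/
def ST_PHS : Prop := ∀ (t : ℝ) (V : V3) (f : ℂ), ‖f‖ = 1 → rfJ t (f • V) = rfJ t V

/-- the ratio of two consecutive numbers for runs up to half the order -/
def ST_RHO : Prop := ∀ (M n : ℕ), 3 ≤ M → 1 ≤ n → 2 * n ≤ M →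
  0 < Us (Kp M) n ∧ 0 ≤ Us (Kp M) (n - 1) ∧ Us (Kp M) (n - 1) ≤ Kp M / 2 * Us (Kp M) n ∧
  Us (Kp M) n ^ 2 + Us (Kp M) (n - 1) ^ 2 - Kp M * Us (Kp M) n * Us (Kp M) (n - 1) = 1

end Pool.Agent.Helper6.MONO.W2
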