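import Pool.Agent.Helper12.CW.W2V

/-!
Plan W (MP_c75db0), star frame: statements of the rows on the matrices of the blocks.
-/

set_option autoImplicit false
noncomputable section
namespace Pool.Agent.Helper6.MONO.W2

open Matrix

/-- the polar vector of the letter `2` -/
def vv (φ k1 k2 x : ℝ) : V3 := ![sA φ k1 k2 (zx x), sB φ k1 k2 (zx x), 1]
/-- its derivative -/
def vvd (φ k2 x : ℝ) : V3 := ![sAd φ k2 x, sBd φ k2 x, 0]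
/-- the parameter of the form `diag (1, 1, -t)` -/
def tt (φ k1 k2 x : ℝ) : ℝ := ‖sA φ k1 k2 (zx x)‖ ^ 2 + ‖sB φ k1 k2 (zx x)‖ ^ 2 - 2
/-- its derivative -/
def ttd (φ k1 k2 x : ℝ) : ℝ :=
  2 * (sAd φ k2 x * star (sA φ k1 k2 (zx x)) + sBd φ k2 x * star (sB φ k1 k2 (zx x))).re

/-- the polar vector of a reflection of the star is `(1, e, 0)` -/
def ev (φ : ℝ) (a : Bool) (k : ℕ) : ℂ := if a then star (ep φ) ^ (k + 1) else ep φ ^ (k - 1)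

/-- product of the polar vectors -/
def cj (φ k1 k2 : ℝ) (a : Bool) (k : ℕ) (x : ℝ) : ℂ :=
  sA φ k1 k2 (zx x) + sB φ k1 k2 (zx x) * star (ev φ a k)
/-- its derivative -/
def cjd (φ k2 : ℝ) (a : Bool) (k : ℕ) (x : ℝ) : ℂ := sAd φ k2 x + sBd φ k2 x * star (ev φ a k)

/-- the polar vector of the reflection with positive product -/
def su (φ k1 k2 : ℝ) (a : Bool) (k : ℕ) (x : ℝ) : V3 :=
  (cj φ k1 k2 a k x / (‖cj φ k1 k2 a k x‖ : ℂ)) • ![1, ev φ a k, 0]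

/-- derivative of the norm -/
def kjd (φ k1 k2 : ℝ) (a : Bool) (k : ℕ) (x : ℝ) : ℝ :=
  (cjd φ k2 a k x * star (cj φ k1 k2 a k x)).re / ‖cj φ k1 k2 a k x‖

/-- derivative of `su` -/
def sud (φ k1 k2 : ℝ) (a : Bool) (k : ℕ) (x : ℝ) : V3 :=
  (cjd φ k2 a k x / (‖cj φ k1 k2 a k x‖ : ℂ) -
    cj φ k1 k2 a k x * (kjd φ k1 k2 a k x : ℂ) / (‖cj φ k1 k2 a k x‖ : ℂ) ^ 2) •
      ![1, ev φ a k, 0]

/-- derivative of the Chebyshev numbers -/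
def Ud (κ : ℝ) : ℕ → ℝ
  | 0 => 0
  | 1 => 0
  | n + 2 => Us κ (n + 1) + κ * Ud κ (n + 1) - Ud κ n

/-- the polar vector of the run of length `n` -/
def Vn (φ k1 k2 : ℝ) (a : Bool) (k n : ℕ) (x : ℝ) : V3 :=
  (Us ‖cj φ k1 k2 a k x‖ n : ℂ) • su φ k1 k2 a k x -
    (Us ‖cj φ k1 k2 a k x‖ (n - 1) : ℂ) • vv φ k1 k2 x

/-- its derivative -/
def Vnd (φ k1 k2 : ℝ) (a : Bool) (k n : ℕ) (x : ℝ) : V3 :=
  ((Ud ‖cj φ k1 k2 a k x‖ n * kjd φ k1 k2 a k x : ℝ) : ℂ) • su φ k1 k2 a k x +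
    (Us ‖cj φ k1 k2 a k x‖ n : ℂ) • sud φ k1 k2 a k x -
    (((Ud ‖cj φ k1 k2 a k x‖ (n - 1) * kjd φ k1 k2 a k x : ℝ) : ℂ) • vv φ k1 k2 x +
    (Us ‖cj φ k1 k2 a k x‖ (n - 1) : ℂ) • vvd φ k2 x)

/-- derivative of `rfJ t V` -/
def rfd (t t' : ℝ) (V V' : V3) : Mt :=
  -Matrix.of (fun i j => V' i * ![star (V 0), star (V 1), -(t * star (V 2))] j +
    V i * ![star (V' 0), star (V' 1), -(t' * star (V 2) + t * star (V' 2))] j)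

/-- ROW BLK1: rotations -/
def ST_BLK1 : Prop := ∀ (p q r : ℕ), 3 ≤ p → 3 ≤ q → 3 ≤ r → ∀ (b : SBl) (x : ℝ), b.n = 1 →
  bN p q r b x = rfJ (tt (phi p) (Kp q) (Kp r) x) (vv (phi p) (Kp q) (Kp r) x) *
    sDm (phi p) b.a b.k ∧
  bNd p q r b x = rfd (tt (phi p) (Kp q) (Kp r) x) (ttd (phi p) (Kp q) (Kp r) x)
    (vv (phi p) (Kp q) (Kp r) x) (vvd (phi p) (Kp r) x) * sDm (phi p) b.a b.k

/-- ROW BLK2: runs of reflections -/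
def ST_BLK2 : Prop := ∀ (p q r : ℕ), 3 ≤ p → 3 ≤ q → 3 ≤ r → ∀ (b : SBl) (x : ℝ), -2 < x → x < 2 →
  b.k % 2 = 1 → 1 ≤ b.n → cj (phi p) (Kp q) (Kp r) b.a b.k x ≠ 0 →
  bN p q r b x = rfJ (tt (phi p) (Kp q) (Kp r) x) (vv (phi p) (Kp q) (Kp r) x) *
    rfJ (tt (phi p) (Kp q) (Kp r) x) (Vn (phi p) (Kp q) (Kp r) b.a b.k b.n x) ∧
  bNd p q r b x =
    rfd (tt (phi p) (Kp q) (Kp r) x) (ttd (phi p) (Kp q) (Kp r) x)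
      (vv (phi p) (Kp q) (Kp r) x) (vvd (phi p) (Kp r) x) *
        rfJ (tt (phi p) (Kp q) (Kp r) x) (Vn (phi p) (Kp q) (Kp r) b.a b.k b.n x) +
    rfJ (tt (phi p) (Kp q) (Kp r) x) (vv (phi p) (Kp q) (Kp r) x) *
      rfd (tt (phi p) (Kp q) (Kp r) x) (ttd (phi p) (Kp q) (Kp r) x)
        (Vn (phi p) (Kp q) (Kp r) b.a b.k b.n x) (Vnd (phi p) (Kp q) (Kp r) b.a b.k b.n x)

/-- ROW KJ: the norm of the product of the polar vectors -/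
def ST_KJ : Prop := ∀ (p q r : ℕ), 3 ≤ p → 3 ≤ q → 3 ≤ r → ∀ (a : Bool) (k : ℕ) (x : ℝ),
  -2 ≤ x → x ≤ 2 → 1 ≤ k →
  let s1 := Real.sin ((if a then k + 1 else k - 1 : ℝ) * phi p / 2)
  let s2 := Real.sin ((if a then k - 1 else k + 1 : ℝ) * phi p / 2)
  ‖cj (phi p) (Kp q) (Kp r) a k x‖ ^ 2 * Real.sin (phi p) ^ 2 =
    Kp q ^ 2 * s1 ^ 2 + Kp r ^ 2 * s2 ^ 2 + Kp q * Kp r * x * s1 * s2

/-- ROW TT: the parameter of the form -/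
def ST_TT : Prop := ∀ (p q r : ℕ), 3 ≤ p → 3 ≤ q → 3 ≤ r → ∀ x : ℝ, -2 ≤ x → x ≤ 2 →
  (tt (phi p) (Kp q) (Kp r) x + 2) * (4 - Kp p ^ 2) =
    2 * Kp q ^ 2 + 2 * Kp r ^ 2 + Kp p * Kp q * Kp r * x ∧
  (-2 < x → x < 2 → ttd (phi p) (Kp q) (Kp r) x * (4 - Kp p ^ 2) = Kp p * Kp q * Kp r)

/-- ROW CH2: Chebyshev numbers for `2 ≤ κ` -/
def ST_CH2 : Prop := ∀ (κ : ℝ), 2 ≤ κ → ∀ n : ℕ,
  0 ≤ Us κ n ∧ Us κ n + 1 ≤ Us κ (n + 1) ∧ 0 ≤ Ud κ n ∧ Ud κ n ≤ Ud κ (n + 1) ∧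
  Us κ (n + 1) ^ 2 + Us κ n ^ 2 - κ * Us κ (n + 1) * Us κ n = 1 ∧
  2 * Us κ (n + 1) * Ud κ (n + 1) + 2 * Us κ n * Ud κ n - Us κ (n + 1) * Us κ n -
    κ * (Ud κ (n + 1) * Us κ n + Us κ (n + 1) * Ud κ n) = 0

/-- ROW UDD: `Ud` is the derivative of `Us` -/
def ST_UDD : Prop := ∀ (n : ℕ) (κ : ℝ), HasDerivAt (fun κ => Us κ n) (Ud κ n) κ

end Pool.Agent.Helper6.MONO.W2
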