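import Pool.Agent.Helper12.CW.W2H
import Pool.Agent.Helper6.CX.LNI

/-!
Plan W (MP_c75db0), typed frame (states `(n, a, b)` of the canonical words, charts of the kernel):
statements of the rows. `z = zx x` is on the unit circle, `w = zw z`.
-/

set_option autoImplicit false
noncomputable section
namespace Pool.Agent.Helper6.MONO.W2

open Matrix
open Pool.Agent.Helper21.SUP (GS DG)
open Pool.Agent.Helper21.SUP renaming nx → nxs

/-- the parameter `ω` of the state at `x` -/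
def tq (p q r : ℕ) (s : GS) (x : ℝ) : ℂ := omS p q r s (zw (zx x))

/-- its derivative -/
def tqd (p q r : ℕ) (s : GS) (x : ℝ) : ℂ :=
  -(2 * (lamS p q r s : ℂ) * (if oriZ s then zd x else star (zd x))) * tq p q r s x ^ 2

/-- constant factor of a run -/
def tc (p q r : ℕ) (s : GS) (m : ℕ) : ℝ :=
  kk p q r s.1 s.2.2 / (kk p q r s.1 s.2.1 *
    (Rb (mm p q r s.1 s.2.1) (m - 1) ^ 2 + SbP (kk p q r s.1 s.2.1)))

/-- `C/ω`: change of star divided by `ω` -/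
def tC (od : Bool) (k : ℝ) (om om' : ℂ) : Mt := om⁻¹ • Cm od k om om'

/-- derivative of `C/ω` for derivatives `d, d'` of `ω, ω'` -/
def tCd (od : Bool) (k : ℝ) (om om' d d' : ℂ) : Mt :=
  if od then !![-d / om ^ 2, 0, 0; 0, d' / om - om' * d / om ^ 2, 0; 0, 0, d']
  else !![-d / om ^ 2, 0, (k : ℂ) ^ 2 / (4 * (2 + (k : ℂ))) * (d / om ^ 2);
    0, d' / om - om' * d / om ^ 2, 0;
    0, 0, (k : ℂ) / 2 * (d' * (1 / (2 * om) - 1) - om' * d / (2 * om ^ 2))]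

/-- THE MATRIX OF A RUN in the window -/
def tN (p q r : ℕ) (s : GS) (m : ℕ) (x : ℝ) : Mt :=
  (tc p q r s m : ℂ) • (tC (decide (m % 2 = 1)) (kk p q r s.1 s.2.1) (tq p q r s x)
    (tq p q r (nxs s m) x) * Bm (kk p q r s.1 s.2.1) (Rb (mm p q r s.1 s.2.1) (m - 1)))

/-- its derivative -/
def tNd (p q r : ℕ) (s : GS) (m : ℕ) (x : ℝ) : Mt :=
  (tc p q r s m : ℂ) • (tCd (decide (m % 2 = 1)) (kk p q r s.1 s.2.1) (tq p q r s x)
    (tq p q r (nxs s m) x) (tqd p q r s x) (tqd p q r (nxs s m) x) *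
      Bm (kk p q r s.1 s.2.1) (Rb (mm p q r s.1 s.2.1) (m - 1)))

/-- link, with a factor of modulus one -/
def ST_TLN : Prop := ∀ (p q r : ℕ), 3 ≤ p → 3 ≤ q → 3 ≤ r → ∀ x : ℝ, -2 < x → x < 2 →
  ∀ s : GS, DG s → ∀ m : ℕ, 2 ≤ m → m ≤ mm p q r s.1 s.2.1 → ∃ f : ℂ, ‖f‖ = 1 ∧ ∀ X : V3,
    (tN p q r s m x).mulVec ((TM p q r s (zw (zx x))).mulVec X) =
      f • (TM p q r (nxs s m) (zw (zx x))).mulVec
        (gact (wG (cw p q r) (zx x)) (alt s.1 s.2.1 (m - 1)) X)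

/-- derivative -/
def ST_TDR : Prop := ∀ (p q r : ℕ), 3 ≤ p → 3 ≤ q → 3 ≤ r → ∀ x : ℝ, -2 < x → x < 2 →
  ∀ s : GS, DG s → tq p q r s x ≠ 0 ∧ HasDerivAt (tq p q r s) (tqd p q r s x) x ∧
    ∀ m : ℕ, ∀ i j, HasDerivAt (fun x => tN p q r s m x i j) (tNd p q r s m x i j) x

/-- the charts are bounded and invertible on compact intervals -/
def ST_TBD : Prop := ∀ (p q r : ℕ), 3 ≤ p → 3 ≤ q → 3 ≤ r → ∀ a b : ℝ, -2 < a → b < 2 →
  ∃ K : ℝ, ∀ s : GS, DG s → ∀ x ∈ Set.Icc a b,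
    (TM p q r s (zw (zx x))).det ≠ 0 ∧ ∀ X : V3,
    ‖X‖ ≤ K * ‖(TM p q r s (zw (zx x))).mulVec X‖ ∧ ‖(TM p q r s (zw (zx x))).mulVec X‖ ≤ K * ‖X‖

end Pool.Agent.Helper6.MONO.W2
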