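import Pool.Agent.Helper39.CX.CER

/-!
Plan W (MP_c75db0): the window near the threshold. Blocks with a derivative, regions `In` for
vectors, `Out` for covectors and a gauge `G`: the gauged derivative inequality is closed under
composition, and gives a lower bound of the logarithmic derivative for all words.
-/

set_option autoImplicit false
noncomputable section
namespace Pool.Agent.Helper6.MONO.W2

open Matrix

abbrev Mt : Type := Matrix (Fin 3) (Fin 3) ℂ

/-- what is attached to a state at one parameter: vectors, covectors, gauge -/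
structure RG where
  In : Set V3
  Out : Set V3
  G : Mt

/-- the gauged derivative inequality -/
def GI (A B : RG) (M M' : Mt) : Prop := ∀ u ∈ A.In, ∀ w ∈ B.Out,
  0 ≤ ((w ⬝ᵥ (M' + B.G * M - M * A.G).mulVec u) * star (w ⬝ᵥ M.mulVec u)).re

/-- a good block with derivative -/
structure BOK (A B : RG) (M M' : Mt) : Prop where
  inn : ∀ u ∈ A.In, M.mulVec u ∈ B.In
  out : ∀ w ∈ B.Out, Matrix.vecMul w M ∈ A.Out
  gi : GI A B M M'

theorem BOK.id (A : RG) : BOK A A 1 0 := by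
  refine ⟨fun u hu => by rwa [Matrix.one_mulVec], fun w hw => by rwa [Matrix.vecMul_one],
    fun u _ w _ => ?_⟩
  simp

theorem BOK.comp {A B C : RG} {M M' N N' : Mt} (h1 : BOK A B M M') (h2 : BOK B C N N') :
    BOK A C (N * M) (N' * M + N * M') := by
  refine ⟨fun u hu => ?_, fun w hw => ?_, fun u hu w hw => ?_⟩
  · rw [← Matrix.mulVec_mulVec]
    exact h2.inn _ (h1.inn _ hu)
  · rw [← Matrix.vecMul_vecMul]
    exact h1.out _ (h2.out _ hw)
  · have e1 := h2.gi _ (h1.inn _ hu) w hw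
    have e2 := h1.gi _ hu _ (h2.out w hw)
    have d : ∀ K : Mt, Matrix.vecMul w N ⬝ᵥ K.mulVec u = w ⬝ᵥ (N * K).mulVec u := by
      intro K
      have := Matrix.dotProduct_mulVec w N (K.mulVec u)
      rw [← this, Matrix.mulVec_mulVec]
    rw [d, d] at e2
    rw [Matrix.mulVec_mulVec, Matrix.mulVec_mulVec] at e1
    have e3 : N' * M + N * M' + C.G * (N * M) - N * M * A.G =
        (N' + C.G * N - N * B.G) * M + N * (M' + B.G * M - M * A.G) := by
      noncomm_ring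
    rw [e3, Matrix.add_mulVec, dotProduct_add, add_mul, Complex.add_re]
    exact add_nonneg e1 e2

/-- product along a list of blocks -/
def pN {B : Type} (N : B → Mt) : List B → Mt
  | [] => 1
  | b :: bs => pN N bs * N b

/-- its derivative -/
def pD {B : Type} (N N' : B → Mt) : List B → Mt
  | [] => 0
  | b :: bs => pD N N' bs * N b + pN N bs * N' b

theorem bok_path {S B : Type} {src tgt : B → S} (R : S → RG) (N N' : B → Mt)
    (hB : ∀ b, BOK (R (src b)) (R (tgt b)) (N b) (N' b)) {s s' : S} {bs : List B}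
    (h : BPath src tgt s bs s') : BOK (R s) (R s') (pN N bs) (pD N N' bs) := by
  induction h with
  | nil s => exact BOK.id _
  | cons b h ih => exact (hB b).comp ih

/-! ### the inequality for the scalar -/

theorem dot_le (w v : V3) : ‖w ⬝ᵥ v‖ ≤ 3 * ‖w‖ * ‖v‖ := by
  rw [dotProduct, Fin.sum_univ_three]
  have h : ∀ i, ‖w i * v i‖ ≤ ‖w‖ * ‖v‖ := fun i => by
    rw [norm_mul]
    exact mul_le_mul (norm_le_pi_norm w i) (norm_le_pi_norm v i) (norm_nonneg _) (norm_nonneg _)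
  calc ‖w 0 * v 0 + w 1 * v 1 + w 2 * v 2‖ ≤ ‖w 0 * v 0‖ + ‖w 1 * v 1‖ + ‖w 2 * v 2‖ :=
        norm_add₃_le
    _ ≤ ‖w‖ * ‖v‖ + ‖w‖ * ‖v‖ + ‖w‖ * ‖v‖ := add_le_add (add_le_add (h 0) (h 1)) (h 2)
    _ = 3 * ‖w‖ * ‖v‖ := by ring

theorem mul_le' (M : Mt) (g : ℝ) (hg : ∀ i j, ‖M i j‖ ≤ g) (v : V3) :
    ‖M.mulVec v‖ ≤ 3 * g * ‖v‖ := by
  have g0 : 0 ≤ g := (norm_nonneg _).trans (hg 0 0)
  rw [pi_norm_le_iff_of_nonneg (by positivity)]
  intro i
  have h : ∀ j, ‖M i j * v j‖ ≤ g * ‖v‖ := fun j => by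
    rw [norm_mul]
    exact mul_le_mul (hg i j) (norm_le_pi_norm v j) (norm_nonneg _) g0
  rw [Matrix.mulVec, dotProduct, Fin.sum_univ_three]
  calc ‖M i 0 * v 0 + M i 1 * v 1 + M i 2 * v 2‖
      ≤ ‖M i 0 * v 0‖ + ‖M i 1 * v 1‖ + ‖M i 2 * v 2‖ := norm_add₃_le
    _ ≤ g * ‖v‖ + g * ‖v‖ + g * ‖v‖ := add_le_add (add_le_add (h 0) (h 1)) (h 2)
    _ = 3 * g * ‖v‖ := by ring

theorem re_mul_star_ge (a t : ℂ) (k : ℝ) (h : ‖a‖ ≤ k * ‖t‖) :
    -(k * ‖t‖ ^ 2) ≤ (a * star t).re := by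
  have h1 := Complex.abs_re_le_norm (a * star t)
  rw [norm_mul, norm_star] at h1
  have h2 := (abs_le.1 h1).1
  nlinarith [mul_le_mul_of_nonneg_right h (norm_nonneg t)]

/-- the derivative of `T = l P u` -/
theorem point_ineq {A B : RG} {P P' : Mt} (h : BOK A B P P') {u u' l l' : V3} (hu : u ∈ A.In)
    (hl : l ∈ B.Out) {b g : ℝ} (hb : 0 ≤ b) (hg : 0 ≤ g)
    (hs : ∀ w ∈ A.Out, ‖w‖ ≤ b * ‖w ⬝ᵥ u‖) (he : ∀ v ∈ B.In, ‖v‖ ≤ b * ‖l ⬝ᵥ v‖)
    (hGA : ∀ i j, ‖A.G i j‖ ≤ g) (hGB : ∀ i j, ‖B.G i j‖ ≤ g) (nu : ‖u‖ ≤ g) (nl : ‖l‖ ≤ g)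
    (nu' : ‖u'‖ ≤ g) (nl' : ‖l'‖ ≤ g) :
    -((6 * b * (g + 3 * g ^ 2)) * ‖l ⬝ᵥ P.mulVec u‖ ^ 2) ≤
      ((l' ⬝ᵥ P.mulVec u + l ⬝ᵥ P'.mulVec u + l ⬝ᵥ P.mulVec u') *
        star (l ⬝ᵥ P.mulVec u)).re := by
  set t := l ⬝ᵥ P.mulVec u with ht
  set w := Matrix.vecMul l P with hw
  have hwo : w ∈ A.Out := h.out l hl
  have hv := h.inn u hu
  have d : ∀ x : V3, w ⬝ᵥ x = l ⬝ᵥ P.mulVec x := fun x => by
    rw [hw, Matrix.dotProduct_mulVec]
  have k1 : ‖w‖ ≤ b * ‖t‖ := by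
    have := hs w hwo
    rwa [d] at this
  have k2 : ‖P.mulVec u‖ ≤ b * ‖t‖ := he _ hv
  have e : (l' ⬝ᵥ P.mulVec u + l ⬝ᵥ P'.mulVec u + l ⬝ᵥ P.mulVec u') =
      l ⬝ᵥ (P' + B.G * P - P * A.G).mulVec u +
      (w ⬝ᵥ (u' + A.G.mulVec u) + (l' ⬝ᵥ P.mulVec u - l ⬝ᵥ B.G.mulVec (P.mulVec u))) := by
    rw [d, Matrix.sub_mulVec, Matrix.add_mulVec, Matrix.mulVec_add, dotProduct_add,
      dotProduct_sub, dotProduct_add, ← Matrix.mulVec_mulVec, ← Matrix.mulVec_mulVec]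
    ring
  rw [e, add_mul, Complex.add_re]
  have m1 := h.gi u hu l hl
  have nA : ‖u' + A.G.mulVec u‖ ≤ g + 3 * g ^ 2 := by
    refine (norm_add_le _ _).trans (add_le_add nu' ?_)
    refine (mul_le' _ g hGA u).trans ?_
    nlinarith
  have q1 : ‖w ⬝ᵥ (u' + A.G.mulVec u)‖ ≤ 3 * b * (g + 3 * g ^ 2) * ‖t‖ := by
    refine (dot_le _ _).trans ?_
    have h3 : 0 ≤ g + 3 * g ^ 2 := by positivity
    calc 3 * ‖w‖ * ‖u' + A.G.mulVec u‖ ≤ 3 * (b * ‖t‖) * (g + 3 * g ^ 2) := by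
          refine mul_le_mul (by linarith) nA (norm_nonneg _) (by positivity)
      _ = 3 * b * (g + 3 * g ^ 2) * ‖t‖ := by ring
  have q2 : ‖l' ⬝ᵥ P.mulVec u - l ⬝ᵥ B.G.mulVec (P.mulVec u)‖ ≤
      3 * b * (g + 3 * g ^ 2) * ‖t‖ := by
    refine (norm_sub_le _ _).trans ?_
    have a1 : ‖l' ⬝ᵥ P.mulVec u‖ ≤ 3 * g * (b * ‖t‖) := by
      refine (dot_le _ _).trans ?_
      exact mul_le_mul (by linarith) k2 (norm_nonneg _) (by positivity)
    have a2 : ‖l ⬝ᵥ B.G.mulVec (P.mulVec u)‖ ≤ 3 * g * (3 * g * (b * ‖t‖)) := by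
      refine (dot_le _ _).trans ?_
      refine mul_le_mul (by linarith) ?_ (norm_nonneg _) (by positivity)
      exact (mul_le' _ g hGB _).trans (mul_le_mul_of_nonneg_left k2 (by positivity))
    calc _ ≤ 3 * g * (b * ‖t‖) + 3 * g * (3 * g * (b * ‖t‖)) := add_le_add a1 a2
      _ = 3 * b * (g + 3 * g ^ 2) * ‖t‖ := by ring
  have q3 := re_mul_star_ge (w ⬝ᵥ (u' + A.G.mulVec u) +
    (l' ⬝ᵥ P.mulVec u - l ⬝ᵥ B.G.mulVec (P.mulVec u))) t (6 * b * (g + 3 * g ^ 2)) (by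
      refine (norm_add_le _ _).trans ?_
      calc _ ≤ 3 * b * (g + 3 * g ^ 2) * ‖t‖ + 3 * b * (g + 3 * g ^ 2) * ‖t‖ := add_le_add q1 q2
        _ = _ := by ring)
  linarith

/-! ### integration -/

/-- a lower bound of the logarithmic derivative, integrated -/
theorem integ {a b : ℝ} {f f' : ℝ → ℂ} {k : ℝ} (hf : ∀ x ∈ Set.Icc a b, HasDerivAt f (f' x) x)
    (hk : ∀ x ∈ Set.Ioo a b, -(k * ‖f x‖ ^ 2) ≤ (f' x * star (f x)).re) {x y : ℝ}
    (hx : a ≤ x) (hxy : x ≤ y) (hy : y ≤ b) :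
    ‖f x‖ ^ 2 ≤ Real.exp (2 * k * (y - x)) * ‖f y‖ ^ 2 := by
  have hd : ∀ x ∈ Set.Icc a b, HasDerivAt (fun t => Real.exp (2 * k * t) * Complex.normSq (f t))
      (Real.exp (2 * k * x) * (2 * k) * Complex.normSq (f x) +
        Real.exp (2 * k * x) * (2 * (f' x * star (f x)).re)) x := by
    intro x hx
    have h1 : HasDerivAt (fun t => Real.exp (2 * k * t)) (Real.exp (2 * k * x) * (2 * k)) x := by
      have := ((hasDerivAt_id x).const_mul (2 * k)).exp
      simpa using this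
    have hre : HasDerivAt (fun t => (f t).re) ((f' x).re) x :=
      (Complex.reCLM.hasFDerivAt.comp_hasDerivAt x (hf x hx))
    have him : HasDerivAt (fun t => (f t).im) ((f' x).im) x :=
      (Complex.imCLM.hasFDerivAt.comp_hasDerivAt x (hf x hx))
    have h2 : HasDerivAt (fun t => Complex.normSq (f t)) (2 * (f' x * star (f x)).re) x := by
      have h3 := (hre.mul hre).add (him.mul him)
      have e1 : (fun t => Complex.normSq (f t)) =
          fun t => (f t).re * (f t).re + (f t).im * (f t).im := by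
        funext t
        rw [Complex.normSq_apply]
      rw [e1]
      have e2 : 2 * (f' x * star (f x)).re = (f' x).re * (f x).re + (f x).re * (f' x).re +
          ((f' x).im * (f x).im + (f x).im * (f' x).im) := by
        have : star (f x) = (starRingEnd ℂ) (f x) := rfl
        rw [this, Complex.mul_re, Complex.conj_re, Complex.conj_im]
        ring
      rw [e2]
      exact h3
    exact h1.mul h2
  have hmono : MonotoneOn (fun t => Real.exp (2 * k * t) * Complex.normSq (f t))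
      (Set.Icc a b) := by
    refine monotoneOn_of_deriv_nonneg (convex_Icc a b) (fun x hx =>
      (hd x hx).continuousAt.continuousWithinAt) (fun x hx => ?_) (fun x hx => ?_)
    · rw [interior_Icc] at hx
      exact (hd x (Set.Ioo_subset_Icc_self hx)).differentiableAt.differentiableWithinAt
    · rw [interior_Icc] at hx
      rw [(hd x (Set.Ioo_subset_Icc_self hx)).deriv]
      have h1 := hk x hx
      rw [← Complex.normSq_eq_norm_sq] at h1
      have h2 : 0 < Real.exp (2 * k * x) := Real.exp_pos _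
      have e : Real.exp (2 * k * x) * (2 * k) * Complex.normSq (f x) +
        Real.exp (2 * k * x) * (2 * (f' x * star (f x)).re) = 2 * Real.exp (2 * k * x) *
          (k * Complex.normSq (f x) + (f' x * star (f x)).re) := by ring
      rw [e]
      exact mul_nonneg (by positivity) (by linarith)
  have h := hmono ⟨hx, hxy.trans hy⟩ ⟨hx.trans hxy, hy⟩ hxy
  simp only [Complex.normSq_eq_norm_sq] at h
  have h3 : Real.exp (2 * k * (y - x)) = Real.exp (2 * k * y) * (Real.exp (2 * k * x))⁻¹ := by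
    rw [← Real.exp_neg, ← Real.exp_add]
    congr 1
    ring
  rw [h3]
  have h4 : 0 < Real.exp (2 * k * x) := Real.exp_pos _
  calc ‖f x‖ ^ 2 = (Real.exp (2 * k * x))⁻¹ * (Real.exp (2 * k * x) * ‖f x‖ ^ 2) := by
        field_simp
    _ ≤ (Real.exp (2 * k * x))⁻¹ * (Real.exp (2 * k * y) * ‖f y‖ ^ 2) :=
        mul_le_mul_of_nonneg_left h (by positivity)
    _ = _ := by ring

end Pool.Agent.Helper6.MONO.W2
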