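import Pool.Agent.Helper12.CW.W2A
import Pool.Agent.Helper32.CX.MON2
import Pool.Agent.Helper12.CX.P2

/-!
Plan W (MP_c75db0): from the window certificate to comparison of norms.
-/

set_option autoImplicit false
noncomputable section
namespace Pool.Agent.Helper6.MONO.W2

open Matrix Filter Topology

/-- the point of the upper half of the unit circle with `2 re z = x` -/
def zx (x : ℝ) : ℂ := nrzP 1 (x / 2)

theorem zx_re (x : ℝ) : 2 * (zx x).re = x := by
  show 2 * (x / 2) = x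
  ring

theorem zx_norm {x : ℝ} (h1 : -2 ≤ x) (h2 : x ≤ 2) : ‖zx x‖ = 1 :=
  nrz_P_norm 1 (x / 2) (by norm_num) (by linarith) (by linarith)

/-- comparison of the words of the automaton at two parameters -/
def DC (p q r : ℕ) (z z' : ℂ) : Prop :=
  ∃ (F F' : (Fin 3 × Fin 3 × Fin 3) → Fin 3 → V3) (B : ℝ),
    (∀ n a b : Fin 3, Dist n a b → LinearIndependent ℂ (F (n, a, b))) ∧
    ∀ n a b : Fin 3, Dist n a b → ∀ ms : List ℕ, okD p q r false (n, a, b) ms → ∀ i : Fin 3,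
      ‖gact (wG (cw p q r) z) (dw (n, a, b) ms) (F (n, a, b) i)‖ ≤
        B * ‖gact (wG (cw p q r) z') (dw (n, a, b) ms) (F' (n, a, b) i)‖

/-- comparison of the norms of all words -/
def NC (p q r : ℕ) (z z' : ℂ) : Prop := ∃ C : ℝ, ∀ w : List (Fin 3),
  nrm (gact (wG (cw p q r) z) w) ≤ C * nrm (gact (wG (cw p q r) z') w)

/-! ### along a path -/

theorem pN_deriv {B : Type} (N N' : B → ℝ → Mt) {x : ℝ} (bs : List B)
    (hN : ∀ b i j, HasDerivAt (fun x => N b x i j) (N' b x i j) x) (i j : Fin 3) :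
    HasDerivAt (fun x => pN (fun b => N b x) bs i j)
      (pD (fun b => N b x) (fun b => N' b x) bs i j) x := by
  induction bs generalizing i j with
  | nil =>
    simp only [pN, pD]
    exact hasDerivAt_const x _
  | cons b bs ih =>
    have e1 : (fun x => pN (fun b => N b x) (b :: bs) i j) = fun x =>
        pN (fun b => N b x) bs i 0 * N b x 0 j + pN (fun b => N b x) bs i 1 * N b x 1 j +
          pN (fun b => N b x) bs i 2 * N b x 2 j := by
      funext y
      rw [pN, Matrix.mul_apply, Fin.sum_univ_three]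
    have e2 : pD (fun b => N b x) (fun b => N' b x) (b :: bs) i j =
        (pD (fun b => N b x) (fun b => N' b x) bs i 0 * N b x 0 j +
          pN (fun b => N b x) bs i 0 * N' b x 0 j) +
        (pD (fun b => N b x) (fun b => N' b x) bs i 1 * N b x 1 j +
          pN (fun b => N b x) bs i 1 * N' b x 1 j) +
        (pD (fun b => N b x) (fun b => N' b x) bs i 2 * N b x 2 j +
          pN (fun b => N b x) bs i 2 * N' b x 2 j) := by
      rw [pD, Matrix.add_apply, Matrix.mul_apply, Matrix.mul_apply, Fin.sum_univ_three,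
        Fin.sum_univ_three]
      ring
    rw [e1, e2]
    exact (((ih i 0).mul (hN b 0 j)).add ((ih i 1).mul (hN b 1 j))).add
      ((ih i 2).mul (hN b 2 j))

/-- derivative of `l P u` -/
theorem lPu_deriv {P : ℝ → Mt} {P' : Mt} {u l : ℝ → V3} {u' l' : V3} {x : ℝ}
    (hP : ∀ i j, HasDerivAt (fun x => P x i j) (P' i j) x)
    (hu : ∀ i, HasDerivAt (fun x => u x i) (u' i) x)
    (hl : ∀ i, HasDerivAt (fun x => l x i) (l' i) x) :
    HasDerivAt (fun x => l x ⬝ᵥ (P x).mulVec (u x))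
      (l' ⬝ᵥ (P x).mulVec (u x) + l x ⬝ᵥ P'.mulVec (u x) + l x ⬝ᵥ (P x).mulVec u') x := by
  have h1 : ∀ i, HasDerivAt (fun x => (P x).mulVec (u x) i)
      (P'.mulVec (u x) i + (P x).mulVec u' i) x := by
    intro i
    have e1 : (fun x => (P x).mulVec (u x) i) = fun x =>
        P x i 0 * u x 0 + P x i 1 * u x 1 + P x i 2 * u x 2 := by
      funext y
      rw [Matrix.mulVec, dotProduct, Fin.sum_univ_three]
    have e2 : P'.mulVec (u x) i + (P x).mulVec u' i =
        (P' i 0 * u x 0 + P x i 0 * u' 0) + (P' i 1 * u x 1 + P x i 1 * u' 1) +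
          (P' i 2 * u x 2 + P x i 2 * u' 2) := by
      rw [Matrix.mulVec, Matrix.mulVec, dotProduct, dotProduct, Fin.sum_univ_three,
        Fin.sum_univ_three]
      ring
    rw [e1, e2]
    exact (((hP i 0).mul (hu 0)).add ((hP i 1).mul (hu 1))).add ((hP i 2).mul (hu 2))
  have e1 : (fun x => l x ⬝ᵥ (P x).mulVec (u x)) = fun x =>
      l x 0 * (P x).mulVec (u x) 0 + l x 1 * (P x).mulVec (u x) 1 +
        l x 2 * (P x).mulVec (u x) 2 := by
    funext y
    rw [dotProduct, Fin.sum_univ_three]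
  have e2 : l' ⬝ᵥ (P x).mulVec (u x) + l x ⬝ᵥ P'.mulVec (u x) + l x ⬝ᵥ (P x).mulVec u' =
      (l' 0 * (P x).mulVec (u x) 0 + l x 0 * (P'.mulVec (u x) 0 + (P x).mulVec u' 0)) +
      (l' 1 * (P x).mulVec (u x) 1 + l x 1 * (P'.mulVec (u x) 1 + (P x).mulVec u' 1)) +
      (l' 2 * (P x).mulVec (u x) 2 + l x 2 * (P'.mulVec (u x) 2 + (P x).mulVec u' 2)) := by
    rw [dotProduct, dotProduct, dotProduct, Fin.sum_univ_three, Fin.sum_univ_three,
      Fin.sum_univ_three]
    ring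
  rw [e1, e2]
  exact (((hl 0).mul (h1 0)).add ((hl 1).mul (h1 1))).add ((hl 2).mul (h1 2))

/-- the charts and the words -/
theorem pN_link {p q r : ℕ} {z : ℂ} {S B : Type} {src tgt : B → S} (st : S → Fin 3 × Fin 3 × Fin 3)
    (runs : B → List ℕ) (hst : ∀ b, st (tgt b) = sD (st (src b)) (runs b))
    (N : B → Mt) (T : S → Mt)
    (lnk : ∀ b, ∃ f : ℂ, ‖f‖ = 1 ∧ ∀ X : V3, (N b).mulVec ((T (src b)).mulVec X) =
      f • (T (tgt b)).mulVec (gact (wG (cw p q r) z) (dw (st (src b)) (runs b)) X))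
    {s s' : S} {bs : List B} (h : BPath src tgt s bs s') : ∀ X : V3, ∃ f : ℂ, ‖f‖ = 1 ∧
      (pN N bs).mulVec ((T s).mulVec X) =
        f • (T s').mulVec (gact (wG (cw p q r) z) (dw (st s) (bs.map runs).flatten) X) := by
  induction h with
  | nil s =>
    intro X
    refine ⟨1, by simp, ?_⟩
    have h1 : dw (st s) ([] : List ℕ) = [] := by
      generalize st s = t
      obtain ⟨n, a, b⟩ := t
      simp [dw]
    rw [List.map_nil, List.flatten_nil, h1, pN, Matrix.one_mulVec, one_smul]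
    rfl
  | cons b h ih =>
    intro X
    obtain ⟨g, hg, hgl⟩ := lnk b
    obtain ⟨f, hf, hfl⟩ := ih (gact (wG (cw p q r) z) (dw (st (src b)) (runs b)) X)
    refine ⟨g * f, by rw [norm_mul, hg, hf, one_mul], ?_⟩
    rw [pN, ← Matrix.mulVec_mulVec, hgl, Matrix.mulVec_smul, hfl, List.map_cons,
      List.flatten_cons, cer_dw_append, cer_gact_append, ← hst, smul_smul]

/-- THE WINDOW CERTIFICATE gives comparison in the window -/
theorem dc_of_win {p q r : ℕ} {a b : ℝ} (hab : a < b) {S B : Type} {src tgt : B → S}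
    (st : S → Fin 3 × Fin 3 × Fin 3) (runs : B → List ℕ)
    (hst : ∀ b, st (tgt b) = sD (st (src b)) (runs b))
    -- blocks and charts
    (N N' : B → ℝ → Mt)
    (hN : ∀ β, ∀ x ∈ Set.Icc a b, ∀ i j, HasDerivAt (fun x => N β x i j) (N' β x i j) x)
    (T : S → ℝ → Mt) (K : ℝ)
    (hT : ∀ s, ∀ x ∈ Set.Icc a b, ∀ X : V3, ‖X‖ ≤ K * ‖(T s x).mulVec X‖)
    (lnk : ∀ β, ∀ x ∈ Set.Icc a b, ∃ f : ℂ, ‖f‖ = 1 ∧ ∀ X : V3,
      (N β x).mulVec ((T (src β) x).mulVec X) =
        f • (T (tgt β) x).mulVec (gact (wG (cw p q r) (zx x)) (dw (st (src β)) (runs β)) X))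
    (hT2 : ∀ s, ∀ x ∈ Set.Icc a b, ∀ X : V3, ‖(T s x).mulVec X‖ ≤ K * ‖X‖)
    -- regions and gauge
    (R : S → ℝ → RG)
    (hR : ∀ β, ∀ x ∈ Set.Ioo a b, BOK (R (src β) x) (R (tgt β) x) (N β x) (N' β x))
    (bd g : ℝ) (hG : ∀ s, ∀ x ∈ Set.Ioo a b, ∀ i j, ‖(R s x).G i j‖ ≤ g)
    -- start vectors
    (s0 : (Fin 3 × Fin 3 × Fin 3) → S) (hs0 : ∀ t, st (s0 t) = t)
    (F u u' : (Fin 3 × Fin 3 × Fin 3) → Fin 3 → ℝ → V3)
    (hF : ∀ n c d : Fin 3, Dist n c d → ∀ x ∈ Set.Icc a b,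
      LinearIndependent ℂ (fun i => F (n, c, d) i x))
    (hFu : ∀ t i, ∀ x ∈ Set.Icc a b, (T (s0 t) x).mulVec (F t i x) = u t i x)
    (hu : ∀ t i, ∀ x ∈ Set.Icc a b, ∀ j, HasDerivAt (fun x => u t i x j) (u' t i x j) x)
    (huI : ∀ n c d : Fin 3, Dist n c d → ∀ i, ∀ x ∈ Set.Ioo a b,
      u (n, c, d) i x ∈ (R (s0 (n, c, d)) x).In)
    (huO : ∀ n c d : Fin 3, Dist n c d → ∀ i, ∀ x ∈ Set.Ioo a b,
      ∀ w ∈ (R (s0 (n, c, d)) x).Out, ‖w‖ ≤ bd * ‖w ⬝ᵥ u (n, c, d) i x‖)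
    (hun : ∀ t i, ∀ x ∈ Set.Icc a b, ‖u t i x‖ ≤ g ∧ ‖u' t i x‖ ≤ g)
    -- final functionals
    (l l' : S → ℝ → V3) (hl : ∀ s, ∀ x ∈ Set.Icc a b, ∀ j,
      HasDerivAt (fun x => l s x j) (l' s x j) x)
    (hlO : ∀ s, ∀ x ∈ Set.Ioo a b, l s x ∈ (R s x).Out)
    (hlI : ∀ s, ∀ x ∈ Set.Ioo a b, ∀ v ∈ (R s x).In, ‖v‖ ≤ bd * ‖l s x ⬝ᵥ v‖)
    (hln : ∀ s, ∀ x ∈ Set.Icc a b, ‖l s x‖ ≤ g ∧ ‖l' s x‖ ≤ g)
    (parse : ∀ n c d : Fin 3, Dist n c d → ∀ ms : List ℕ, okD p q r false (n, c, d) ms →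
      ∃ (bs : List B) (s' : S), BPath src tgt (s0 (n, c, d)) bs s' ∧
        (bs.map runs).flatten = ms)
    {x y : ℝ} (hx : a ≤ x) (hxy : x ≤ y) (hy : y ≤ b) : DC p q r (zx x) (zx y) := by
  have hxI : x ∈ Set.Icc a b := ⟨hx, hxy.trans hy⟩
  have hyI : y ∈ Set.Icc a b := ⟨hx.trans hxy, hy⟩
  set k : ℝ := 6 * |bd| * (|g| + 3 * |g| ^ 2) with hk
  refine ⟨fun t i => F t i x, fun t i => F t i y,
    |K| * (|bd| * (Real.exp (k * (y - x)) * (3 * |g| * |K|))), fun n c d hd => hF n c d hd x hxI,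
    fun n c d hd ms hms i => ?_⟩
  obtain ⟨bs, s', hp, hbs⟩ := parse n c d hd ms hms
  set t := (n, c, d) with ht
  -- the scalar function
  set f : ℝ → ℂ := fun x => l s' x ⬝ᵥ (pN (fun β => N β x) bs).mulVec (u t i x) with hf
  set f' : ℝ → ℂ := fun x => l' s' x ⬝ᵥ (pN (fun β => N β x) bs).mulVec (u t i x) +
    l s' x ⬝ᵥ (pD (fun β => N β x) (fun β => N' β x) bs).mulVec (u t i x) +
    l s' x ⬝ᵥ (pN (fun β => N β x) bs).mulVec (u' t i x) with hf'
  have hder : ∀ x ∈ Set.Icc a b, HasDerivAt f (f' x) x := fun x hx =>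
    lPu_deriv (P := fun x => pN (fun β => N β x) bs) (u := fun x => u t i x) (l := fun x => l s' x)
      (fun i j => pN_deriv N N' bs (fun β i j => hN β x hx i j) i j)
      (fun j => hu t i x hx j) (fun j => hl s' x hx j)
  have hpath : ∀ x ∈ Set.Ioo a b, BOK (R (s0 t) x) (R s' x) (pN (fun β => N β x) bs)
      (pD (fun β => N β x) (fun β => N' β x) bs) := fun x hx =>
    bok_path (fun s => R s x) _ _ (fun β => hR β x hx) hp
  have hg0 : ∀ x : ℝ, x ≤ g → x ≤ |g| := fun x h => h.trans (le_abs_self g)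
  have hineq : ∀ x ∈ Set.Ioo a b, -(k * ‖f x‖ ^ 2) ≤ (f' x * star (f x)).re := by
    intro x hx
    have hx' := Set.Ioo_subset_Icc_self hx
    refine point_ineq (hpath x hx) (huI n c d hd i x hx) (hlO s' x hx) (abs_nonneg bd)
      (abs_nonneg g) (fun w hw => ?_) (fun v hv => ?_) (fun i j => hg0 _ (hG _ x hx i j))
      (fun i j => hg0 _ (hG _ x hx i j)) (hg0 _ (hun t i x hx').1) (hg0 _ (hln s' x hx').1)
      (hg0 _ (hun t i x hx').2) (hg0 _ (hln s' x hx').2)
    · exact (huO n c d hd i x hx w hw).trans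
        (mul_le_mul_of_nonneg_right (le_abs_self bd) (norm_nonneg _))
    · exact (hlI s' x hx v hv).trans
        (mul_le_mul_of_nonneg_right (le_abs_self bd) (norm_nonneg _))
  have hmono := integ hder hineq hx hxy hy
  have hmono' : ‖f x‖ ≤ Real.exp (k * (y - x)) * ‖f y‖ := by
    have e : Real.exp (2 * k * (y - x)) = Real.exp (k * (y - x)) ^ 2 := by
      rw [← Real.exp_nat_mul]
      congr 1
      push_cast
      ring
    rw [e, ← mul_pow] at hmono
    exact le_of_sq_le_sq hmono (by positivity)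
  -- domination by the functional, closed by continuity
  have hdom : ‖(pN (fun β => N β x) bs).mulVec (u t i x)‖ ≤ |bd| * ‖f x‖ := by
    have hev : ∀ y ∈ Set.Ioo a b, ‖(pN (fun β => N β y) bs).mulVec (u t i y)‖ ≤
        |bd| * ‖f y‖ := fun y hy => by
      refine (hlI s' y hy _ ((hpath y hy).inn _ (huI n c d hd i y hy))).trans ?_
      exact mul_le_mul_of_nonneg_right (le_abs_self bd) (norm_nonneg _)
    have hc1 : ContinuousAt (fun y => (pN (fun β => N β y) bs).mulVec (u t i y)) x := by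
      rw [continuousAt_pi]
      intro j
      have h0 : (fun y => (pN (fun β => N β y) bs).mulVec (u t i y) j) = fun y =>
          pN (fun β => N β y) bs j 0 * u t i y 0 + pN (fun β => N β y) bs j 1 * u t i y 1 +
            pN (fun β => N β y) bs j 2 * u t i y 2 := by
        funext y
        rw [Matrix.mulVec, dotProduct, Fin.sum_univ_three]
      rw [h0]
      have hPc := fun i j => (pN_deriv N N' bs (fun β i j => hN β x hxI i j) i j).continuousAt
      have huc := fun j => (hu t i x hxI j).continuousAt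
      exact (((hPc j 0).mul (huc 0)).add ((hPc j 1).mul (huc 1))).add ((hPc j 2).mul (huc 2))
    have hc2 : ContinuousAt f x := (hder x hxI).continuousAt
    have hcl : x ∈ closure (Set.Ioo a b) := by
      rw [closure_Ioo hab.ne]
      exact hxI
    have hne : (𝓝[Set.Ioo a b] x).NeBot := mem_closure_iff_nhdsWithin_neBot.1 hcl
    have t1 : Tendsto (fun y => ‖(pN (fun β => N β y) bs).mulVec (u t i y)‖)
        (𝓝[Set.Ioo a b] x) (𝓝 ‖(pN (fun β => N β x) bs).mulVec (u t i x)‖) :=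
      hc1.norm.tendsto.mono_left nhdsWithin_le_nhds
    have t2 : Tendsto (fun y => |bd| * ‖f y‖) (𝓝[Set.Ioo a b] x) (𝓝 (|bd| * ‖f x‖)) :=
      ((hc2.norm.tendsto).const_mul |bd|).mono_left nhdsWithin_le_nhds
    refine le_of_tendsto_of_tendsto t1 t2 ?_
    filter_upwards [self_mem_nhdsWithin] with y hy
    exact hev y hy
  -- charts
  obtain ⟨e1, he1, hx1⟩ := pN_link (p := p) (q := q) (r := r) (z := zx x) st runs hst
    (fun β => N β x) (fun s => T s x) (fun β => lnk β x hxI) hp (F t i x)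
  obtain ⟨e2, he2, hy1⟩ := pN_link (p := p) (q := q) (r := r) (z := zx y) st runs hst
    (fun β => N β y) (fun s => T s y) (fun β => lnk β y hyI) hp (F t i y)
  rw [hs0, hbs] at hx1 hy1
  rw [hFu t i x hxI] at hx1
  rw [hFu t i y hyI] at hy1
  set X := gact (wG (cw p q r) (zx x)) (dw t ms) (F t i x) with hX
  set Y := gact (wG (cw p q r) (zx y)) (dw t ms) (F t i y) with hY
  have n1 : ‖(pN (fun β => N β x) bs).mulVec (u t i x)‖ = ‖(T s' x).mulVec X‖ := by
    rw [hx1, norm_smul, he1, one_mul]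
  have n2 : ‖(pN (fun β => N β y) bs).mulVec (u t i y)‖ = ‖(T s' y).mulVec Y‖ := by
    rw [hy1, norm_smul, he2, one_mul]
  have n3 : ‖f y‖ ≤ 3 * |g| * (|K| * ‖Y‖) := by
    have h1 := dot_le (l s' y) ((pN (fun β => N β y) bs).mulVec (u t i y))
    rw [n2] at h1
    refine h1.trans ?_
    have h2 : ‖(T s' y).mulVec Y‖ ≤ |K| * ‖Y‖ :=
      (hT2 s' y hyI Y).trans (mul_le_mul_of_nonneg_right (le_abs_self K) (norm_nonneg _))
    have h3 := hg0 _ (hln s' y hyI).1
    exact mul_le_mul (by linarith) h2 (norm_nonneg _) (by positivity)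
  show ‖X‖ ≤ _ * ‖Y‖
  calc ‖X‖ ≤ K * ‖(T s' x).mulVec X‖ := hT s' x hxI X
    _ ≤ |K| * ‖(T s' x).mulVec X‖ := mul_le_mul_of_nonneg_right (le_abs_self K) (norm_nonneg _)
    _ ≤ |K| * (|bd| * ‖f x‖) := by
        rw [← n1]
        exact mul_le_mul_of_nonneg_left hdom (abs_nonneg _)
    _ ≤ |K| * (|bd| * (Real.exp (k * (y - x)) * (3 * |g| * (|K| * ‖Y‖)))) := by
        refine mul_le_mul_of_nonneg_left (mul_le_mul_of_nonneg_left (hmono'.trans ?_)
          (abs_nonneg _)) (abs_nonneg _)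
        exact mul_le_mul_of_nonneg_left n3 (Real.exp_pos _).le
    _ = _ := by ring

end Pool.Agent.Helper6.MONO.W2
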