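import Pool.Agent.Helper12.CW.W2B
import Pool.Agent.Helper12.CX.CLG

/-!
Plan W (MP_c75db0): group level. Comparison in the window `[x0, m]` and zero freeness at `m` give
the final statement of the triple.
-/

set_option autoImplicit false
noncomputable section
namespace Pool.Agent.Helper6.MONO.W2

open Matrix Filter Topology

/-- comparison for one start state -/
theorem dc_star (p q r : ℕ) (z z' : ℂ) (n a b : Fin 3) (F F' : Fin 3 → V3) (B : ℝ)
    (hli : LinearIndependent ℂ F)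
    (hF : ∀ ms : List ℕ, okD p q r false (n, a, b) ms → ∀ i : Fin 3,
      ‖gact (wG (cw p q r) z) (dw (n, a, b) ms) (F i)‖ ≤
        B * ‖gact (wG (cw p q r) z') (dw (n, a, b) ms) (F' i)‖) :
    ∃ C : ℝ, 0 ≤ C ∧ ∀ ms : List ℕ, okD p q r false (n, a, b) ms → ∀ A : ℝ, 0 ≤ A →
      (∀ x : V3, ‖gact (wG (cw p q r) z') (dw (n, a, b) ms) x‖ ≤ A * ‖x‖) →
      nrm (gact (wG (cw p q r) z) (dw (n, a, b) ms)) ≤ C * A := by
  obtain ⟨Cb, hCb, hbas⟩ := nrm_basis _ hli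
  set S : ℝ := ∑ i, ‖F' i‖ with hS
  have hS0 : 0 ≤ S := Finset.sum_nonneg (fun _ _ => norm_nonneg _)
  refine ⟨Cb * (|B| * S), by positivity, ?_⟩
  intro ms hok A hA hgA
  rw [mul_assoc]
  refine hbas (nrm_lin (wG (cw p q r) z) (dw (n, a, b) ms)) (|B| * S * A) ?_
  intro i
  rw [nrm_lin_apply]
  have e5 : ‖F' i‖ ≤ S :=
    Finset.single_le_sum (f := fun i => ‖F' i‖) (fun _ _ => norm_nonneg _) (Finset.mem_univ i)
  calc ‖gact (wG (cw p q r) z) (dw (n, a, b) ms) (F i)‖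
      ≤ B * ‖gact (wG (cw p q r) z') (dw (n, a, b) ms) (F' i)‖ := hF ms hok i
    _ ≤ |B| * ‖gact (wG (cw p q r) z') (dw (n, a, b) ms) (F' i)‖ :=
        mul_le_mul_of_nonneg_right (le_abs_self B) (norm_nonneg _)
    _ ≤ |B| * (A * S) := by
        refine mul_le_mul_of_nonneg_left ((hgA (F' i)).trans ?_) (abs_nonneg B)
        exact mul_le_mul_of_nonneg_left e5 hA
    _ = |B| * S * A := by ring

theorem nc_of_dc (hCAN : ST_CAN) (hWIG : ST_WIG) (hINV : ST_INV) (p q r : ℕ) (hp : 3 ≤ p)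
    (hq : 3 ≤ q) (hr : 3 ≤ r) (z z' : ℂ) (hz : ‖z‖ = 1) (hz' : ‖z'‖ = 1) (h1 : z ≠ -1)
    (h1' : z' ≠ -1) (hDC : DC p q r z z') : NC p q r z z' := by
  obtain ⟨τ, hG⟩ := hWIG p q r hp hq hr z hz h1
  obtain ⟨τ', hG'⟩ := hWIG p q r hp hq hr z' hz' h1'
  obtain ⟨F, F', BF, hli, hF⟩ := hDC
  obtain ⟨B, hB⟩ := hCAN p q r hp hq hr
  classical
  have hst : ∀ t : Fin 3 × Fin 3 × Fin 3, ∃ C : ℝ, 0 ≤ C ∧ (Dist t.1 t.2.1 t.2.2 →
      ∀ ms : List ℕ, okD p q r false t ms →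
      ∀ A : ℝ, 0 ≤ A → (∀ x : V3, ‖gact (wG (cw p q r) z') (dw t ms) x‖ ≤ A * ‖x‖) →
      nrm (gact (wG (cw p q r) z) (dw t ms)) ≤ C * A) := by
    rintro ⟨n, a, b⟩
    by_cases hD : Dist n a b
    · obtain ⟨C, hC, h⟩ := dc_star p q r z z' n a b (F (n, a, b)) (F' (n, a, b)) BF
        (hli n a b hD) (hF n a b hD)
      exact ⟨C, hC, fun _ => h⟩
    · exact ⟨0, le_rfl, fun h => absurd h hD⟩
  choose Ct hCt0 hCt using hst
  set CS : ℝ := ∑ t, Ct t with hCS
  have hCS0 : 0 ≤ CS := Finset.sum_nonneg (fun t _ => hCt0 t)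
  set G := wG (cw p q r) z with hGd
  set G' := wG (cw p q r) z' with hGd'
  have hK := nrm_K_one G
  have hK' := nrm_K_one G'
  refine ⟨3 * (nrm_K G ^ B * (CS * (nrm_K G' ^ B * nrm_K G' ^ B)) * nrm_K G ^ B), ?_⟩
  intro w
  obtain ⟨h, t, n, a, b, ms, hD, hlh, hlt', hok, hEq⟩ := hB w
  have hN := nrm_nonneg (gact G' w)
  have h1 : ∀ x : V3, ‖gact G' (dw (n, a, b) ms) x‖ ≤
      (nrm_K G' ^ B * nrm_K G' ^ B * nrm (gact G' w)) * ‖x‖ := by
    intro x
    have e1 : gact G' h (gact G' h.reverse x) = x := by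
      have := nrm_inv hINV p q r hp hq hr τ' G' hG' h.reverse x
      rwa [List.reverse_reverse] at this
    have e2 : gact G' (dw (n, a, b) ms) x = gact G' t.reverse (gact G' w (gact G' h.reverse x)) := by
      rw [hEq τ' G' hG', nrm_gact_app, nrm_gact_app, e1,
        nrm_inv hINV p q r hp hq hr τ' G' hG' t]
    rw [e2]
    calc ‖gact G' t.reverse (gact G' w (gact G' h.reverse x))‖
        ≤ nrm_K G' ^ B * ‖gact G' w (gact G' h.reverse x)‖ :=
          nrm_word_bound' G' t.reverse B (by rwa [List.length_reverse]) _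
      _ ≤ nrm_K G' ^ B * (nrm (gact G' w) * ‖gact G' h.reverse x‖) :=
          mul_le_mul_of_nonneg_left (nrm_gact_bound G' w _) (by positivity)
      _ ≤ nrm_K G' ^ B * (nrm (gact G' w) * (nrm_K G' ^ B * ‖x‖)) := by
          refine mul_le_mul_of_nonneg_left (mul_le_mul_of_nonneg_left ?_ hN) (by positivity)
          exact nrm_word_bound' G' h.reverse B (by rwa [List.length_reverse]) x
      _ = _ := by ring
  have h2 := hCt (n, a, b) hD ms hok _ (by positivity) h1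
  have h3 : Ct (n, a, b) ≤ CS :=
    Finset.single_le_sum (f := Ct) (fun t _ => hCt0 t) (Finset.mem_univ _)
  have h4 : nrm (gact G (dw (n, a, b) ms)) ≤
      CS * (nrm_K G' ^ B * nrm_K G' ^ B * nrm (gact G' w)) :=
    h2.trans (mul_le_mul_of_nonneg_right h3 (by positivity))
  have h5 : ∀ i : Fin 3, ‖gact G w (Pi.single i 1)‖ ≤
      nrm_K G ^ B * (CS * (nrm_K G' ^ B * nrm_K G' ^ B * nrm (gact G' w)) * nrm_K G ^ B) := by
    intro i
    rw [hEq τ G hG, nrm_gact_app, nrm_gact_app]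
    have hs : ‖(Pi.single i 1 : V3)‖ = 1 := by
      rw [Pi.norm_single, norm_one]
    refine (nrm_word_bound' G t B hlt' _).trans (mul_le_mul_of_nonneg_left ?_ (by positivity))
    calc ‖gact G (dw (n, a, b) ms) (gact G h (Pi.single i 1))‖
        ≤ nrm (gact G (dw (n, a, b) ms)) * ‖gact G h (Pi.single i 1)‖ := nrm_gact_bound G _ _
      _ ≤ CS * (nrm_K G' ^ B * nrm_K G' ^ B * nrm (gact G' w)) * nrm_K G ^ B := by
          refine mul_le_mul h4 ?_ (norm_nonneg _) (by positivity)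
          have := nrm_word_bound' G h B hlh (Pi.single i 1)
          rwa [hs, mul_one] at this
  calc nrm (gact G w) = ∑ i : Fin 3, ‖gact G w (Pi.single i 1)‖ := rfl
    _ ≤ ∑ _i : Fin 3, nrm_K G ^ B *
          (CS * (nrm_K G' ^ B * nrm_K G' ^ B * nrm (gact G' w)) * nrm_K G ^ B) :=
        Finset.sum_le_sum (fun i _ => h5 i)
    _ = 3 * (nrm_K G ^ B * (CS * (nrm_K G' ^ B * nrm_K G' ^ B)) * nrm_K G ^ B)
          * nrm (gact G' w) := by
        rw [Finset.sum_const, Finset.card_univ, Fintype.card_fin, nsmul_eq_mul]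
        push_cast
        ring

/-! ### calculus of `NC` -/

theorem NC.trans {p q r : ℕ} {z z' z'' : ℂ} (h1 : NC p q r z z') (h2 : NC p q r z' z'') :
    NC p q r z z'' := by
  obtain ⟨C, hC⟩ := h1
  obtain ⟨D, hD⟩ := h2
  refine ⟨|C| * D, fun w => (hC w).trans ?_⟩
  calc C * nrm (gact (wG (cw p q r) z') w) ≤ |C| * nrm (gact (wG (cw p q r) z') w) :=
        mul_le_mul_of_nonneg_right (le_abs_self C) (nrm_nonneg _)
    _ ≤ |C| * (D * nrm (gact (wG (cw p q r) z'') w)) :=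
        mul_le_mul_of_nonneg_left (hD w) (abs_nonneg C)
    _ = _ := by ring

theorem nc_same {p q r : ℕ} {z z' : ℂ} (hz : ‖z‖ = 1) (hz' : ‖z'‖ = 1) (h : z.re = z'.re) :
    NC p q r z z' := by
  refine ⟨1, fun w => ?_⟩
  rcases nrz_same z z' hz hz' h with h | h
  · rw [h, one_mul]
  · rw [h, nrz_nrm_conj, one_mul]

theorem unit_re {z : ℂ} (hz : ‖z‖ = 1) : -1 ≤ z.re ∧ z.re ≤ 1 := by
  have := Complex.abs_re_le_norm z
  rw [hz, abs_le] at this
  exact this

/-- norms are comparable on the whole range -/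
theorem nc_all (hCAN : ST_CAN) (hWIG : ST_WIG) (hINV : ST_INV) (hNRZ : ST_NRZ) {p q r : ℕ}
    (hp : 3 ≤ p) (hq : 3 ≤ q) (hr : 3 ≤ r) {x0 m : ℝ} (h0 : -2 < x0) (h0m : x0 ≤ m)
    (hm : m ≤ 2) (hZ : ZF p q r m)
    (hW : ∀ x y : ℝ, x0 ≤ x → x ≤ y → y ≤ m → DC p q r (zx x) (zx y))
    {z z' : ℂ} (hz : ‖z‖ = 1) (hz' : ‖z'‖ = 1) (hx : x0 ≤ 2 * z.re) (hzz : z.re ≤ z'.re) :
    NC p q r z z' := by
  have hne : ∀ x : ℝ, x0 ≤ x → zx x ≠ -1 := by
    intro x hx h
    have := zx_re x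
    rw [h] at this
    simp at this
    linarith
  have win : ∀ x y : ℝ, x0 ≤ x → x ≤ y → y ≤ m → NC p q r (zx x) (zx y) := fun x y h1 h2 h3 =>
    nc_of_dc hCAN hWIG hINV p q r hp hq hr _ _ (zx_norm (by linarith) (by linarith))
      (zx_norm (by linarith) (by linarith)) (hne x h1) (hne y (h1.trans h2)) (hW x y h1 h2 h3)
  have self : ∀ u : ℂ, ‖u‖ = 1 → u.re = (zx (2 * u.re)).re := fun u _ => by
    have := zx_re (2 * u.re)
    linarith
  obtain ⟨b1, b2⟩ := unit_re hz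
  obtain ⟨b3, b4⟩ := unit_re hz'
  have s1 : NC p q r z (zx (2 * z.re)) :=
    nc_same hz (zx_norm (by linarith) (by linarith)) (self z hz)
  have s2 : NC p q r (zx (2 * z'.re)) z' :=
    nc_same (zx_norm (by linarith) (by linarith)) hz' (self z' hz').symm
  rcases le_total m (2 * z.re) with h | h
  · exact hNRZ p q r hp hq hr m (by linarith) hZ z z' hz hz' h hzz
  rcases le_total (2 * z'.re) m with h' | h'
  · exact (s1.trans (win (2 * z.re) (2 * z'.re) hx (by linarith) h')).trans s2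
  · have h3 : NC p q r (zx m) z' := hNRZ p q r hp hq hr m (by linarith) hZ (zx m) z'
      (zx_norm (by linarith) hm) hz' (by rw [zx_re]) (by have := zx_re m; linarith)
    exact (s1.trans (win (2 * z.re) m hx h le_rfl)).trans h3

end Pool.Agent.Helper6.MONO.W2
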