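import Pool.Agent.Helper12.CW.W2C
import Pool.Agent.Helper12.CX.TOP

/-!
Plan W (MP_c75db0): the final statement of a triple from a window certificate and zero freeness
at the right end of the window; top assembly from `FinAt`.
-/

set_option autoImplicit false
noncomputable section
namespace Pool.Agent.Helper6.MONO

open W2

/-- the final statement of one triple from comparison of norms above the threshold -/
theorem finAt_nc (p q r : ℕ) (h3 : 3 ≤ p) (q3 : 3 ≤ q) (r3 : 3 ≤ r) (x0 : ℝ)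
    (hthr : ∀ x1 : ℝ, x1 < x0 → ∃ x : ℝ, x1 ≤ x ∧ x ≤ x0 ∧ x ≤ 2 ∧
      (x < xA p q r ∨ fB p q r x < 0))
    (hNC : ∀ z z' : ℂ, ‖z‖ = 1 → ‖z'‖ = 1 → x0 ≤ 2 * z.re → z.re ≤ z'.re → NC p q r z z') :
    FinAt p q r := by
  intro e e' he he' harg hell w
  obtain ⟨z, hz, ez, nz⟩ := st_WGA p q r h3 q3 r3 e he
  obtain ⟨z', hz', ez', nz'⟩ := st_WGA p q r h3 q3 r3 e' he'
  have t0 := fin_trip p q r h3 q3 r3 e he
  have t0' := fin_trip p q r h3 q3 r3 e' he'
  have hre := fin_re_le e e' z z' hz hz' ez ez' t0 t0' harg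
  have key : x0 ≤ 2 * z'.re := by
    by_contra hc
    push Not at hc
    have hm1 : -1 ≤ z'.re := by
      have := Complex.abs_re_le_norm z'
      rw [hz', abs_le] at this
      exact this.1
    obtain ⟨x, hx1, hx2, hx3, hx4⟩ := hthr (2 * z'.re) hc
    set z'' : ℂ := nrzP 1 (x / 2) with hz''d
    have hz'' : ‖z''‖ = 1 := nrz_P_norm 1 (x / 2) (by norm_num) (by linarith) (by linarith)
    have hr'' : z''.re = x / 2 := rfl
    obtain ⟨e'', he'', ez''⟩ := st_EXZ p q r h3 q3 r3 e' he' z' z'' hz' hz'' ez'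
      (by rw [hr'']; linarith)
    have t0'' := fin_trip p q r h3 q3 r3 e'' he''
    have ha := fin_arg_le e'' e' z'' z' hz'' hz' ez'' ez' t0'' t0' (by rw [hr'']; linarith)
    obtain ⟨nA, nB⟩ := hell e'' he'' ha
    rcases hx4 with hA | hB
    · exact nA (st_THA p q r h3 q3 r3 e'' he'' z'' hz'' ez'' (by rw [hr'']; linarith))
    · refine nB (st_THB p q r h3 q3 r3 e'' he'' z'' hz'' ez'' ?_)
      rw [hr'']
      have : 2 * (x / 2) = x := by ring
      rw [this]
      exact hB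
  obtain ⟨C, hC⟩ := hNC z' z hz' hz key hre
  refine g_TLW e e' he.unit he.indep he'.unit he'.indep ⟨C, fun u => ?_⟩ w
  rw [nz', nz]
  exact hC u

/-- PLAN W: threshold of type A, window `[xA, m]`, zero freeness at `m` -/
theorem finAt_win {p q r : ℕ} (hp : 3 ≤ p) (hpq : p ≤ q) (hqr : q ≤ r) {m : ℝ}
    (hm : xA p q r ≤ m) (hm2 : m ≤ 2) (hZ : ZF p q r m)
    (hW : ∀ x y : ℝ, xA p q r ≤ x → x ≤ y → y ≤ m → DC p q r (zx x) (zx y)) :
    FinAt p q r := by
  have hq : 3 ≤ q := hp.trans hpq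
  have hr : 3 ≤ r := hq.trans hqr
  refine finAt_nc p q r hp hq hr (xA p q r) (fun x1 hx1 => ?_) (fun z z' hz hz' hx hzz => ?_)
  · have h2 := xA_le2 hp hq hr
    exact ⟨(x1 + xA p q r) / 2, by linarith, by linarith, by linarith, Or.inl (by linarith)⟩
  · exact nc_all st_CAN st_WIG st_INV g_NRZ hp hq hr (xA_gt hp hq hqr) hm hm2 hZ hW hz hz' hx
      hzz

/-! ### top assembly from `FinAt` -/

theorem top_finAt (h : ∀ p q r : ℕ, 3 ≤ p → p ≤ q → q ≤ r → ¬ (p = 3 ∧ q = 3 ∧ r = 3) →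
    FinAt p q r) : ST_FIN := by
  intro p q r hp hpq hqr hyp e e' he he' harg hell w
  rcases Nat.lt_or_ge p 3 with h2 | h3
  · have hp2 : p = 2 := by omega
    subst hp2
    refine g_TLW e e' he.unit he.indep he'.unit he'.indep ⟨1, fun u => ?_⟩ w
    rw [one_mul]
    exact (st_P2 q r e e' he he' u).le
  refine h p q r h3 hpq hqr ?_ e e' he he' harg hell w
  rintro ⟨rfl, rfl, rfl⟩
  norm_num at hyp

/-- the final statement for a class -/
def Cls.Fin (c : Cls) : Prop := ∀ p q r : ℕ, c.has p q r → 3 ≤ p → p ≤ q → q ≤ r →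
  ¬ (p = 3 ∧ q = 3 ∧ r = 3) → FinAt p q r

theorem Cls.Cert.fin {c : Cls} (h : c.Cert) : c.Fin := fun p q r hc hp hpq hqr hne =>
  top_class h p q r hc hp hpq hqr hne

/-- THE FINAL STATEMENT from the classes -/
theorem top_classes' (N : ℕ) (hN : 4 ≤ N) (h : ∀ c ∈ allCls N, c.Fin) : ST_FIN := by
  refine top_finAt (fun p q r hp hpq hqr hne => ?_)
  obtain ⟨c, hc, hm⟩ := allCls_mem N hN p q r hp hpq hqr hne
  exact h c hc p q r hm hp hpq hqr hne

end Pool.Agent.Helper6.MONO
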