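import Pool.Agent.Helper12.CW.W2D
import Pool.Agent.Helper12.CX.ARC

/-!
The list of classes with plan W for the corners `(p, q, r)`, `p = 6, ..., 9`, `q, r ≥ 15`
(MP_c75db0).
-/

set_option autoImplicit false
noncomputable section
namespace Pool.Agent.Helper6.MONO

open QTR W2

/-- the classes of the exact line: everything except `6 ≤ p ≤ 9`, `q ≥ 10` -/
def goodCls : List Cls :=
  (((labs 10).product ((labs 10).product (labs 10))).filter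
    (fun t => decide (t.1 ≤ t.2.1) && decide (t.2.1 ≤ t.2.2) && !decide (t = (3, 3, 3)) &&
      !(decide (6 ≤ t.1) && decide (t.1 ≤ 9) && decide (10 ≤ t.2.1)))).map
    (fun t => ⟨labAt 10 t.1, labAt 10 t.2.1, labAt 10 t.2.2⟩)

theorem goodCls_mem (p q r : ℕ) (hp : 3 ≤ p) (hpq : p ≤ q) (hqr : q ≤ r)
    (hne : ¬ (p = 3 ∧ q = 3 ∧ r = 3)) (hW : ¬ (6 ≤ p ∧ p ≤ 9 ∧ 10 ≤ q)) :
    ∃ c ∈ goodCls, c.has p q r := by
  refine ⟨⟨labAt 10 (min p 10), labAt 10 (min q 10), labAt 10 (min r 10)⟩, ?_,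
    labAt_min 10 p, labAt_min 10 q, labAt_min 10 r⟩
  unfold goodCls labs
  rw [List.mem_map]
  refine ⟨(min p 10, min q 10, min r 10), ?_, rfl⟩
  rw [List.mem_filter]
  constructor
  · rw [List.pair_mem_product, List.pair_mem_product]
    simp only [List.mem_range'_1]
    omega
  · simp only [Bool.and_eq_true, Bool.not_eq_true', Bool.and_eq_false_iff, decide_eq_true_eq,
      decide_eq_false_iff_not, Prod.mk.injEq]
    omega

/-- THE FINAL STATEMENT from the classes, with the corners -/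
theorem top_W (h1 : ∀ c ∈ goodCls, c.Fin)
    (h2 : ∀ p : ℕ, 6 ≤ p → p ≤ 9 → Cls.Fin ⟨Lab.ex p, Lab.rg 10 14, Lab.tl 10⟩)
    (h3 : ∀ p : ℕ, 6 ≤ p → p ≤ 9 → Cls.Fin ⟨Lab.ex p, Lab.tl 15, Lab.tl 15⟩) : ST_FIN := by
  refine top_finAt (fun p q r hp hpq hqr hne => ?_)
  by_cases hW : 6 ≤ p ∧ p ≤ 9 ∧ 10 ≤ q
  · rcases Nat.lt_or_ge q 15 with h | h
    · exact h2 p hW.1 hW.2.1 p q r ⟨rfl, ⟨hW.2.2, by omega⟩, show 10 ≤ r by omega⟩ hp hpq hqr hne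
    · exact h3 p hW.1 hW.2.1 p q r ⟨rfl, h, show 15 ≤ r by omega⟩ hp hpq hqr hne
  · obtain ⟨c, hc, hm⟩ := goodCls_mem p q r hp hpq hqr hne hW
    exact h1 c hc p q r hm hp hpq hqr hne

/-- an arc on the shifted line `Re x = xA + d` -/
def ArcS (d : ℝ) (l1 l2 l3 : Lab) : Prop := ∀ a b c : ℕ, l1.has a → l2.has b → l3.has c →
  3 ≤ a → 3 ≤ b → a ≤ c → b ≤ c → ¬ (a = 3 ∧ b = 3 ∧ c = 3) → QX a b c (xA a b c + d)

/-- PLAN W for a class: two arcs on the shifted line and the window -/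
theorem cls_W {l1 l2 l3 : Lab} {d : ℝ} (hd : 0 ≤ d)
    (hd2 : ∀ p q r : ℕ, l1.has p → l2.has q → l3.has r → xA p q r + d ≤ 2)
    (h1 : ArcS d l1 l2 l3) (h2 : ArcS d l2 l1 l3)
    (hW : ∀ p q r : ℕ, l1.has p → l2.has q → l3.has r → 3 ≤ p → p ≤ q → q ≤ r →
      ∀ x y : ℝ, xA p q r ≤ x → x ≤ y → y ≤ xA p q r + d → DC p q r (zx x) (zx y)) :
    Cls.Fin ⟨l1, l2, l3⟩ := by
  intro p q r hc hp hpq hqr hne
  obtain ⟨c1, c2, c3⟩ := hc
  have hq : 3 ≤ q := hp.trans hpq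
  have hx := xA_gt hp hq hqr
  refine finAt_win hp hpq hqr (m := xA p q r + d) (by linarith) (hd2 p q r c1 c2 c3) ?_
    (hW p q r c1 c2 c3 hp hpq hqr)
  refine zf_of_qx hp hpq hqr hne (by linarith) (by linarith)
    (h1 p q r c1 c2 c3 hp hq (hpq.trans hqr) hqr hne) ?_
  have h := h2 q p r c2 c1 c3 hq hp hqr (hpq.trans hqr) (fun h => hne ⟨h.2.1, h.1, h.2.2⟩)
  rw [xA_swap] at h
  exact h

end Pool.Agent.Helper6.MONO
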