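import Pool.Agent.Helper12.CW.W2W

/-!
Plan W (MP_c75db0): the frame at the star of the letters `0, 1`. In these coordinates the letters
`0, 1` are constant unitary matrices, the letter `2` is `1 - v₂ ⊗ (conj A, conj B, -t²)`.
-/

set_option autoImplicit false
noncomputable section
namespace Pool.Agent.Helper6.MONO.W2

open Matrix Complex

/-- `e^{iφ}` -/
def ep (φ : ℝ) : ℂ := ⟨Real.cos φ, Real.sin φ⟩

theorem ep_mul (φ : ℝ) : ep φ * star (ep φ) = 1 := by
  have h := Real.sin_sq_add_cos_sq φ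
  apply Complex.ext
  · simp [ep]
    nlinarith
  · simp [ep]
    ring

theorem ep_sub (φ : ℝ) : ep φ - star (ep φ) = 2 * Complex.I * ((Real.sin φ : ℝ) : ℂ) := by
  generalize hs : Real.sin φ = s
  apply Complex.ext <;> simp [ep, hs]
  ring

theorem ep_add (φ : ℝ) : ep φ + star (ep φ) = ((2 * Real.cos φ : ℝ) : ℂ) := by
  generalize hs : Real.cos φ = s
  apply Complex.ext <;> simp [ep, hs]
  ring

/-- first coordinate of the third polar vector -/
def sA (φ k1 k2 : ℝ) (z : ℂ) : ℂ :=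
  Complex.I * ((k1 : ℂ) + (k2 : ℂ) * z * ep φ) / (2 * ((Real.sin φ : ℝ) : ℂ))
/-- second coordinate of the third polar vector -/
def sB (φ k1 k2 : ℝ) (z : ℂ) : ℂ :=
  -(Complex.I * ((k1 : ℂ) + (k2 : ℂ) * z * star (ep φ)) / (2 * ((Real.sin φ : ℝ) : ℂ)))

/-- the chart -/
def sV (φ k1 k2 : ℝ) (z : ℂ) : Mt :=
  !![1, -ep φ, sA φ k1 k2 z; 1, -star (ep φ), sB φ k1 k2 z; 0, 0, 1]

/-- the letters `0` and `1` -/
def sI0 : Mt := !![0, -1, 0; -1, 0, 0; 0, 0, 1]
def sI1 (φ : ℝ) : Mt := !![0, -(ep φ) ^ 2, 0; -(star (ep φ)) ^ 2, 0, 0; 0, 0, 1]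

/-- the letter `2` with first and second coordinate `A, B` and their conjugates -/
def sI2 (A B : ℂ) : Mt :=
  !![1 - A * star A, -(A * star B), A * (A * star A + B * star B - 2);
    -(B * star A), 1 - B * star B, B * (A * star A + B * star B - 2);
    -star A, -star B, 1 + (A * star A + B * star B - 2)]

/-- the matrix of a letter -/
def sL (φ k1 k2 : ℝ) (z : ℂ) (i : Fin 3) : Mt :=
  ![sI0, sI1 φ, sI2 (sA φ k1 k2 z) (sB φ k1 k2 z)] i

/-- the matrix of a word; the letters act in the order of the list -/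
def sW (φ k1 k2 : ℝ) (z : ℂ) : List (Fin 3) → Mt
  | [] => 1
  | i :: w => sW φ k1 k2 z w * sL φ k1 k2 z i

theorem sAB_sum {φ k1 k2 : ℝ} (hs : Real.sin φ ≠ 0) (z : ℂ) :
    sA φ k1 k2 z + sB φ k1 k2 z = -(k2 * z) := by
  have h := ep_sub φ
  have hs' : ((Real.sin φ : ℝ) : ℂ) ≠ 0 := by exact_mod_cast hs
  unfold sA sB
  generalize ((Real.sin φ : ℝ) : ℂ) = s at *
  have e : Complex.I * (k1 + k2 * z * ep φ) / (2 * s) +
      -(Complex.I * (k1 + k2 * z * star (ep φ)) / (2 * s)) =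
      Complex.I * k2 * z * (ep φ - star (ep φ)) / (2 * s) := by ring
  rw [e, h]
  field_simp
  rw [Complex.I_sq]
  ring

theorem sAB_dif {φ k1 k2 : ℝ} (hs : Real.sin φ ≠ 0) (z : ℂ) :
    star (ep φ) * sA φ k1 k2 z + ep φ * sB φ k1 k2 z = k1 := by
  have h := ep_sub φ
  have h1 := ep_mul φ
  have hs' : ((Real.sin φ : ℝ) : ℂ) ≠ 0 := by exact_mod_cast hs
  unfold sA sB
  generalize ((Real.sin φ : ℝ) : ℂ) = s at *
  have e : star (ep φ) * (Complex.I * (k1 + k2 * z * ep φ) / (2 * s)) +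
      ep φ * -(Complex.I * (k1 + k2 * z * star (ep φ)) / (2 * s)) =
      -(Complex.I * k1 * (ep φ - star (ep φ)) / (2 * s)) := by ring
  rw [e, h]
  field_simp
  rw [Complex.I_sq]
  ring

theorem sV_mulVec (φ k1 k2 : ℝ) (z : ℂ) (Y : V3) : (sV φ k1 k2 z).mulVec Y =
    ![Y 0 - ep φ * Y 1 + sA φ k1 k2 z * Y 2, Y 0 - star (ep φ) * Y 1 + sB φ k1 k2 z * Y 2,
      Y 2] := by
  funext j
  fin_cases j
  · simp [sV, Matrix.mulVec, dotProduct, Fin.sum_univ_three]
    ring
  · simp [sV, Matrix.mulVec, dotProduct, Fin.sum_univ_three]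
    ring
  · simp [sV, Matrix.mulVec, dotProduct, Fin.sum_univ_three]

/-- LINK: one letter -/
theorem sL_link {c : Fin 3 → ℝ} {φ : ℝ} (hs : Real.sin φ ≠ 0) (h0 : c 0 = 2 * Real.cos φ) {z : ℂ}
    (hz : ‖z‖ = 1) (i : Fin 3) (X : V3) :
    (sL φ (c 1) (c 2) z i).mulVec ((sV φ (c 1) (c 2) z).mulVec X) =
      (sV φ (c 1) (c 2) z).mulVec (fire (wG c z) i X) := by
  have hm := ep_mul φ
  have ha := ep_add φ
  rw [← h0] at ha
  have hzi : z⁻¹ = star z := by
    have h1 : z * star z = 1 := by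
      have h2 : star z = (starRingEnd ℂ) z := rfl
      rw [h2, Complex.mul_conj, Complex.normSq_eq_norm_sq, hz]
      norm_num
    have hz0 : z ≠ 0 := left_ne_zero_of_mul_eq_one h1
    field_simp
    exact h1.symm
  have s1 := sAB_sum (k1 := c 1) (k2 := c 2) hs z
  have s2 := sAB_dif (k1 := c 1) (k2 := c 2) hs z
  have s1' : star (sA φ (c 1) (c 2) z) + star (sB φ (c 1) (c 2) z) = -(c 2 * star z) := by
    rw [← star_add, s1]
    simp
  have s2' : ep φ * star (sA φ (c 1) (c 2) z) + star (ep φ) * star (sB φ (c 1) (c 2) z) = c 1 := by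
    have := congrArg star s2
    simp only [star_add, star_mul, star_star] at this
    rw [mul_comm (star (sA φ (c 1) (c 2) z)), mul_comm (star (sB φ (c 1) (c 2) z))] at this
    rw [this]
    simp
  rw [sV_mulVec, sV_mulVec]
  have hI2 : sL φ (c 1) (c 2) z 2 = sI2 (sA φ (c 1) (c 2) z) (sB φ (c 1) (c 2) z) := rfl
  generalize sA φ (c 1) (c 2) z = A at *
  generalize sB φ (c 1) (c 2) z = B at *
  have hI1 : sL φ (c 1) (c 2) z 1 = sI1 φ := rfl
  have hI0 : sL φ (c 1) (c 2) z 0 = sI0 := rfl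
  unfold sI1 at hI1
  unfold sI2 at hI2
  generalize sL φ (c 1) (c 2) z = L at *
  generalize star (ep φ) = e' at *
  generalize ep φ = e at *
  generalize star A = A' at *
  generalize star B = B' at *
  fin_cases i
  · -- letter 0
    show (L 0).mulVec _ = _
    rw [hI0]
    have f0 : fire (wG c z) 0 X 0 = -X 0 + ((c 0 : ℂ) * X 1 + (c 2 : ℂ) * z * X 2) := by
      simp [fire, wG, Fin.sum_univ_three]
    have f1 : fire (wG c z) 0 X 1 = X 1 := by simp [fire]
    have f2 : fire (wG c z) 0 X 2 = X 2 := by simp [fire]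
    show sI0.mulVec _ = ![fire (wG c z) 0 X 0 - e * fire (wG c z) 0 X 1 + A * fire (wG c z) 0 X 2,
      fire (wG c z) 0 X 0 - e' * fire (wG c z) 0 X 1 + B * fire (wG c z) 0 X 2,
      fire (wG c z) 0 X 2]
    rw [f0, f1, f2]
    funext j
    fin_cases j
    · simp [sI0, Matrix.mulVec, dotProduct, Fin.sum_univ_three]
      linear_combination X 1 * ha - X 2 * s1
    · simp [sI0, Matrix.mulVec, dotProduct, Fin.sum_univ_three]
      linear_combination X 1 * ha - X 2 * s1
    · simp [sI0, Matrix.mulVec, dotProduct, Fin.sum_univ_three]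
  · show (L 1).mulVec _ = _
    rw [hI1]
    have f0 : fire (wG c z) 1 X 0 = X 0 := by simp [fire]
    have f1 : fire (wG c z) 1 X 1 = -X 1 + ((c 0 : ℂ) * X 0 + (c 1 : ℂ) * X 2) := by
      simp [fire, wG, Fin.sum_univ_three]
    have f2 : fire (wG c z) 1 X 2 = X 2 := by simp [fire]
    show Matrix.mulVec _ _ = ![fire (wG c z) 1 X 0 - e * fire (wG c z) 1 X 1 + A * fire (wG c z) 1 X 2,
      fire (wG c z) 1 X 0 - e' * fire (wG c z) 1 X 1 + B * fire (wG c z) 1 X 2,
      fire (wG c z) 1 X 2]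
    rw [f0, f1, f2]
    funext j
    fin_cases j
    · simp [Matrix.mulVec, dotProduct, Fin.sum_univ_three]
      linear_combination (-X 0 * e) * ha + (X 0 + X 1 * e + A * X 2) * hm - X 2 * e * s2
    · simp [Matrix.mulVec, dotProduct, Fin.sum_univ_three]
      linear_combination (-X 0 * e') * ha + (X 0 + X 1 * e' + B * X 2) * hm - X 2 * e' * s2
    · simp [Matrix.mulVec, dotProduct, Fin.sum_univ_three]
  · show (L 2).mulVec _ = _
    rw [hI2]
    have f0 : fire (wG c z) 2 X 0 = X 0 := by simp [fire]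
    have f1 : fire (wG c z) 2 X 1 = X 1 := by simp [fire]
    have f2 : fire (wG c z) 2 X 2 = -X 2 + ((c 2 : ℂ) * z⁻¹ * X 0 + (c 1 : ℂ) * X 1) := by
      simp [fire, wG, Fin.sum_univ_three]
    show Matrix.mulVec _ _ = ![fire (wG c z) 2 X 0 - e * fire (wG c z) 2 X 1 + A * fire (wG c z) 2 X 2,
      fire (wG c z) 2 X 0 - e' * fire (wG c z) 2 X 1 + B * fire (wG c z) 2 X 2,
      fire (wG c z) 2 X 2]
    rw [f0, f1, f2, hzi]
    generalize star z = z' at *
    funext j
    fin_cases j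
    · simp [Matrix.mulVec, dotProduct, Fin.sum_univ_three]
      linear_combination (-A * X 0) * s1' + A * X 1 * s2'
    · simp [Matrix.mulVec, dotProduct, Fin.sum_univ_three]
      linear_combination (-B * X 0) * s1' + B * X 1 * s2'
    · simp [Matrix.mulVec, dotProduct, Fin.sum_univ_three]
      linear_combination (-X 0) * s1' + X 1 * s2'

end Pool.Agent.Helper6.MONO.W2
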