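import Pool.Agent.Helper12.CW.W2G

/-!
Plan W (MP_c75db0): words in the star frame, derivatives, the window theorem in the star frame.
-/

set_option autoImplicit false
noncomputable section
namespace Pool.Agent.Helper6.MONO.W2

open Matrix Complex Filter Topology

theorem sW_append (φ k1 k2 : ℝ) (z : ℂ) (u v : List (Fin 3)) :
    sW φ k1 k2 z (u ++ v) = sW φ k1 k2 z v * sW φ k1 k2 z u := by
  induction u with
  | nil => simp [sW]
  | cons i u ih => rw [List.cons_append, sW, ih, sW, Matrix.mul_assoc]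

/-- LINK: words -/
theorem sW_link {c : Fin 3 → ℝ} {φ : ℝ} (hs : Real.sin φ ≠ 0) (h0 : c 0 = 2 * Real.cos φ) {z : ℂ}
    (hz : ‖z‖ = 1) (w : List (Fin 3)) (X : V3) :
    (sW φ (c 1) (c 2) z w).mulVec ((sV φ (c 1) (c 2) z).mulVec X) =
      (sV φ (c 1) (c 2) z).mulVec (gact (wG c z) w X) := by
  induction w generalizing X with
  | nil =>
    rw [sW, Matrix.one_mulVec]
    rfl
  | cons i w ih =>
    rw [sW, ← Matrix.mulVec_mulVec, sL_link hs h0 hz, ih]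
    rfl

/-! ### derivatives -/

/-- the derivative of `zx` -/
def zd (x : ℝ) : ℂ := ⟨1 / 2, -(x / (4 * Real.sqrt (1 - (x / 2) ^ 2)))⟩

theorem zx_deriv {x : ℝ} (h1 : -2 < x) (h2 : x < 2) : HasDerivAt zx (zd x) x := by
  have hp : 0 < 1 - (x / 2) ^ 2 := by nlinarith
  have hr : HasDerivAt (fun x : ℝ => x / 2) (1 / 2) x := (hasDerivAt_id x).div_const 2
  have hi : HasDerivAt (fun x : ℝ => Real.sqrt (1 - (x / 2) ^ 2))
      (-(x / (4 * Real.sqrt (1 - (x / 2) ^ 2)))) x := by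
    have h3 : HasDerivAt (fun x : ℝ => 1 - (x / 2) ^ 2) (-(x / 2)) x := by
      have := (hr.pow 2).const_sub 1
      refine this.congr_deriv ?_
      push_cast
      ring
    refine (h3.sqrt hp.ne').congr_deriv ?_
    have : Real.sqrt (1 - (x / 2) ^ 2) ≠ 0 := (Real.sqrt_pos.2 hp).ne'
    field_simp
    norm_num
  have e : zx = fun x : ℝ => ((x / 2 : ℝ) : ℂ) + ((Real.sqrt (1 - (x / 2) ^ 2) : ℝ) : ℂ) * Complex.I := by
    funext y
    apply Complex.ext <;> simp [zx, nrzP]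
  rw [e]
  have ed : zd x = ⟨1 / 2, -(x / (4 * Real.sqrt (1 - (x / 2) ^ 2)))⟩ := rfl
  rw [ed]
  generalize -(x / (4 * Real.sqrt (1 - (x / 2) ^ 2))) = d at hi
  have h4 := (hr.ofReal_comp).add ((hi.ofReal_comp).mul_const Complex.I)
  refine h4.congr_deriv ?_
  apply Complex.ext <;> simp

/-- derivative and value: `2 sin θ z' = - i z` -/
theorem zd_eq {x : ℝ} (h1 : -2 < x) (h2 : x < 2) :
    zd x = -(Complex.I * zx x) / (2 * ((Real.sqrt (1 - (x / 2) ^ 2) : ℝ) : ℂ)) := by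
  have hp : 0 < 1 - (x / 2) ^ 2 := by nlinarith
  have hs : Real.sqrt (1 - (x / 2) ^ 2) ≠ 0 := (Real.sqrt_pos.2 hp).ne'
  have hs' : ((Real.sqrt (1 - (x / 2) ^ 2) : ℝ) : ℂ) ≠ 0 := by exact_mod_cast hs
  rw [eq_div_iff (by simpa using hs')]
  generalize hsq : Real.sqrt (1 - (x / 2) ^ 2) = s at *
  apply Complex.ext
  · simp [zd, zx, nrzP, hsq]
  · simp [zd, zx, nrzP, hsq]
    field_simp
    ring

/-- derivatives of the coordinates -/
def sAd (φ k2 : ℝ) (x : ℝ) : ℂ :=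
  Complex.I * ((k2 : ℂ) * zd x * ep φ) / (2 * ((Real.sin φ : ℝ) : ℂ))
def sBd (φ k2 : ℝ) (x : ℝ) : ℂ :=
  -(Complex.I * ((k2 : ℂ) * zd x * star (ep φ)) / (2 * ((Real.sin φ : ℝ) : ℂ)))

theorem sA_deriv (φ k1 k2 : ℝ) {x : ℝ} (h1 : -2 < x) (h2 : x < 2) :
    HasDerivAt (fun x => sA φ k1 k2 (zx x)) (sAd φ k2 x) x := by
  have h := zx_deriv h1 h2
  have h3 := ((((h.const_mul (k2 : ℂ)).mul_const (ep φ)).const_add (k1 : ℂ)).const_mul
    Complex.I).div_const (2 * ((Real.sin φ : ℝ) : ℂ))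
  exact h3

theorem sB_deriv (φ k1 k2 : ℝ) {x : ℝ} (h1 : -2 < x) (h2 : x < 2) :
    HasDerivAt (fun x => sB φ k1 k2 (zx x)) (sBd φ k2 x) x := by
  have h := zx_deriv h1 h2
  have h3 := (((((h.const_mul (k2 : ℂ)).mul_const (star (ep φ))).const_add (k1 : ℂ)).const_mul
    Complex.I).div_const (2 * ((Real.sin φ : ℝ) : ℂ))).neg
  exact h3

theorem star_deriv {f : ℝ → ℂ} {f' : ℂ} {x : ℝ} (h : HasDerivAt f f' x) :
    HasDerivAt (fun x => star (f x)) (star f') x := by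
  exact h.star

/-- derivative of the letter `2` -/
def sI2d (A B A' B' : ℂ) : Mt :=
  !![-(A' * star A + A * star A'), -(A' * star B + A * star B'),
      A' * (A * star A + B * star B - 2) + A * (A' * star A + A * star A' + B' * star B +
        B * star B');
    -(B' * star A + B * star A'), -(B' * star B + B * star B'),
      B' * (A * star A + B * star B - 2) + B * (A' * star A + A * star A' + B' * star B +
        B * star B');
    -star A', -star B', A' * star A + A * star A' + B' * star B + B * star B']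

theorem sI2_deriv {A B : ℝ → ℂ} {A' B' : ℂ} {x : ℝ} (hA : HasDerivAt A A' x)
    (hB : HasDerivAt B B' x) (i j : Fin 3) :
    HasDerivAt (fun x => sI2 (A x) (B x) i j) (sI2d (A x) (B x) A' B' i j) x := by
  have hA' := star_deriv hA
  have hB' := star_deriv hB
  have hAA := hA.mul hA'
  have hBB := hB.mul hB'
  have ht := (hAA.add hBB).sub_const 2
  fin_cases i <;> fin_cases j
  · exact (hAA.const_sub 1).congr_deriv (by simp [sI2d])
  · exact ((hA.mul hB').neg).congr_deriv (by simp [sI2d])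
  · exact (hA.mul ht).congr_deriv (by simp [sI2d]; left; ring)
  · exact ((hB.mul hA').neg).congr_deriv (by simp [sI2d])
  · exact (hBB.const_sub 1).congr_deriv (by simp [sI2d])
  · exact (hB.mul ht).congr_deriv (by simp [sI2d]; left; ring)
  · exact (hA'.neg).congr_deriv (by simp [sI2d])
  · exact (hB'.neg).congr_deriv (by simp [sI2d])
  · exact (ht.const_add 1).congr_deriv (by simp [sI2d]; ring)

/-- derivative of the matrix of a letter -/
def sLd (φ k1 k2 : ℝ) (x : ℝ) (i : Fin 3) : Mt :=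
  ![0, 0, sI2d (sA φ k1 k2 (zx x)) (sB φ k1 k2 (zx x)) (sAd φ k2 x) (sBd φ k2 x)] i

/-- derivative of the matrix of a word -/
def sWd (φ k1 k2 : ℝ) (x : ℝ) : List (Fin 3) → Mt
  | [] => 0
  | i :: w => sWd φ k1 k2 x w * sL φ k1 k2 (zx x) i + sW φ k1 k2 (zx x) w * sLd φ k1 k2 x i

theorem sL_deriv (φ k1 k2 : ℝ) {x : ℝ} (h1 : -2 < x) (h2 : x < 2) (n i j : Fin 3) :
    HasDerivAt (fun x => sL φ k1 k2 (zx x) n i j) (sLd φ k1 k2 x n i j) x := by
  fin_cases n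
  · exact hasDerivAt_const x _
  · exact hasDerivAt_const x _
  · exact sI2_deriv (sA_deriv φ k1 k2 h1 h2) (sB_deriv φ k1 k2 h1 h2) i j

theorem mul_deriv {P Q : ℝ → Mt} {P' Q' : Mt} {x : ℝ}
    (hP : ∀ i j, HasDerivAt (fun x => P x i j) (P' i j) x)
    (hQ : ∀ i j, HasDerivAt (fun x => Q x i j) (Q' i j) x) (i j : Fin 3) :
    HasDerivAt (fun x => (P x * Q x) i j) ((P' * Q x + P x * Q') i j) x := by
  have e1 : (fun x => (P x * Q x) i j) = fun x =>
      P x i 0 * Q x 0 j + P x i 1 * Q x 1 j + P x i 2 * Q x 2 j := by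
    funext y
    rw [Matrix.mul_apply, Fin.sum_univ_three]
  have e2 : (P' * Q x + P x * Q') i j = (P' i 0 * Q x 0 j + P x i 0 * Q' 0 j) +
      (P' i 1 * Q x 1 j + P x i 1 * Q' 1 j) + (P' i 2 * Q x 2 j + P x i 2 * Q' 2 j) := by
    rw [Matrix.add_apply, Matrix.mul_apply, Matrix.mul_apply, Fin.sum_univ_three,
      Fin.sum_univ_three]
    ring
  rw [e1, e2]
  exact (((hP i 0).mul (hQ 0 j)).add ((hP i 1).mul (hQ 1 j))).add ((hP i 2).mul (hQ 2 j))

theorem sW_deriv (φ k1 k2 : ℝ) {x : ℝ} (h1 : -2 < x) (h2 : x < 2) (w : List (Fin 3))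
    (i j : Fin 3) : HasDerivAt (fun x => sW φ k1 k2 (zx x) w i j) (sWd φ k1 k2 x w i j) x := by
  induction w generalizing i j with
  | nil => exact hasDerivAt_const x _
  | cons n w ih => exact mul_deriv ih (sL_deriv φ k1 k2 h1 h2 n) i j

/-! ### size of the chart -/

/-- bound of `A, B` -/
def sa (φ k1 k2 : ℝ) : ℝ := (|k1| + |k2|) / (2 * |Real.sin φ|)

theorem ep_norm (φ : ℝ) : ‖ep φ‖ = 1 := by
  have h := ep_mul φ
  have h2 : star (ep φ) = (starRingEnd ℂ) (ep φ) := rfl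
  rw [h2, Complex.mul_conj, Complex.normSq_eq_norm_sq] at h
  have h3 : ‖ep φ‖ ^ 2 = 1 := by exact_mod_cast h
  have h4 := norm_nonneg (ep φ)
  nlinarith

theorem sA_norm (φ k1 k2 : ℝ) {z : ℂ} (hz : ‖z‖ = 1) : ‖sA φ k1 k2 z‖ ≤ sa φ k1 k2 := by
  unfold sA sa
  rw [norm_div, norm_mul, norm_mul, Complex.norm_I, one_mul, Complex.norm_real,
    Complex.norm_ofNat, Real.norm_eq_abs]
  refine div_le_div_of_nonneg_right ?_ (by positivity)
  refine (norm_add_le _ _).trans ?_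
  rw [norm_mul, norm_mul, hz, ep_norm, Complex.norm_real, Complex.norm_real, Real.norm_eq_abs,
    Real.norm_eq_abs]
  linarith

theorem sB_norm (φ k1 k2 : ℝ) {z : ℂ} (hz : ‖z‖ = 1) : ‖sB φ k1 k2 z‖ ≤ sa φ k1 k2 := by
  unfold sB sa
  rw [norm_neg, norm_div, norm_mul, norm_mul, Complex.norm_I, one_mul, Complex.norm_real,
    Complex.norm_ofNat, Real.norm_eq_abs]
  refine div_le_div_of_nonneg_right ?_ (by positivity)
  refine (norm_add_le _ _).trans ?_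
  rw [norm_mul, norm_mul, norm_star, hz, ep_norm, Complex.norm_real, Complex.norm_real,
    Real.norm_eq_abs, Real.norm_eq_abs]
  linarith

/-- inverse of the chart -/
def sU (φ k1 k2 : ℝ) (z : ℂ) (u : V3) : V3 :=
  let y := (-(u 0 - u 1) + (sA φ k1 k2 z - sB φ k1 k2 z) * u 2) /
    (2 * Complex.I * ((Real.sin φ : ℝ) : ℂ))
  ![u 0 + ep φ * y - sA φ k1 k2 z * u 2, y, u 2]

theorem sV_sU {φ : ℝ} (hs : Real.sin φ ≠ 0) (k1 k2 : ℝ) (z : ℂ) (u : V3) :
    (sV φ k1 k2 z).mulVec (sU φ k1 k2 z u) = u := by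
  have h := ep_sub φ
  have hs' : ((Real.sin φ : ℝ) : ℂ) ≠ 0 := by exact_mod_cast hs
  have hd : 2 * Complex.I * ((Real.sin φ : ℝ) : ℂ) ≠ 0 :=
    mul_ne_zero (mul_ne_zero two_ne_zero Complex.I_ne_zero) hs'
  rw [sV_mulVec]
  unfold sU
  rw [← h] at hd ⊢
  generalize sA φ k1 k2 z = A
  generalize sB φ k1 k2 z = B
  generalize star (ep φ) = e' at *
  generalize ep φ = e at *
  funext j
  fin_cases j
  · simp
    ring
  · simp
    field_simp
    ring
  · simp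

theorem sU_sV {φ : ℝ} (hs : Real.sin φ ≠ 0) (k1 k2 : ℝ) (z : ℂ) (X : V3) :
    sU φ k1 k2 z ((sV φ k1 k2 z).mulVec X) = X := by
  have h := ep_sub φ
  have hs' : ((Real.sin φ : ℝ) : ℂ) ≠ 0 := by exact_mod_cast hs
  have hd : 2 * Complex.I * ((Real.sin φ : ℝ) : ℂ) ≠ 0 :=
    mul_ne_zero (mul_ne_zero two_ne_zero Complex.I_ne_zero) hs'
  rw [sV_mulVec]
  unfold sU
  rw [← h] at hd ⊢
  generalize sA φ k1 k2 z = A
  generalize sB φ k1 k2 z = B
  generalize star (ep φ) = e' at *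
  generalize ep φ = e at *
  funext j
  fin_cases j
  · simp
    field_simp
    ring
  · simp
    field_simp
    ring
  · simp

/-- size of the chart -/
def sK (φ k1 k2 : ℝ) : ℝ := (2 + sa φ k1 k2) + (1 + sa φ k1 k2) * (1 + 1 / |Real.sin φ|)

theorem sa_nonneg (φ k1 k2 : ℝ) : 0 ≤ sa φ k1 k2 := by
  unfold sa
  positivity

theorem sV_le (φ k1 k2 : ℝ) {z : ℂ} (hz : ‖z‖ = 1) (X : V3) :
    ‖(sV φ k1 k2 z).mulVec X‖ ≤ sK φ k1 k2 * ‖X‖ := by
  have hA := sA_norm φ k1 k2 hz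
  have hB := sB_norm φ k1 k2 hz
  have ha := sa_nonneg φ k1 k2
  have he := ep_norm φ
  have h0 := norm_le_pi_norm X 0
  have h1 := norm_le_pi_norm X 1
  have h2 := norm_le_pi_norm X 2
  have hX := norm_nonneg X
  have hK : 2 + sa φ k1 k2 ≤ sK φ k1 k2 := by
    unfold sK
    have : 0 ≤ (1 + sa φ k1 k2) * (1 + 1 / |Real.sin φ|) := by positivity
    linarith
  have hK0 : 0 ≤ sK φ k1 k2 := by linarith
  rw [sV_mulVec, pi_norm_le_iff_of_nonneg (by positivity)]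
  have key : ∀ (e A : ℂ), ‖e‖ = 1 → ‖A‖ ≤ sa φ k1 k2 →
      ‖X 0 - e * X 1 + A * X 2‖ ≤ sK φ k1 k2 * ‖X‖ := by
    intro e A he hA
    have g1 : ‖e * X 1‖ ≤ ‖X‖ := by rw [norm_mul, he, one_mul]; exact h1
    have g2 : ‖A * X 2‖ ≤ sa φ k1 k2 * ‖X‖ := by
      rw [norm_mul]
      exact mul_le_mul hA h2 (norm_nonneg _) ha
    calc ‖X 0 - e * X 1 + A * X 2‖ ≤ ‖X 0 - e * X 1‖ + ‖A * X 2‖ := norm_add_le _ _
      _ ≤ ‖X 0‖ + ‖e * X 1‖ + ‖A * X 2‖ := by
          gcongr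
          exact norm_sub_le _ _
      _ ≤ (2 + sa φ k1 k2) * ‖X‖ := by linarith
      _ ≤ sK φ k1 k2 * ‖X‖ := mul_le_mul_of_nonneg_right hK hX
  intro j
  fin_cases j
  · exact key _ _ he hA
  · exact key _ _ (by rw [norm_star, he]) hB
  · show ‖X 2‖ ≤ _
    nlinarith

theorem sU_le {φ : ℝ} (hs : Real.sin φ ≠ 0) (k1 k2 : ℝ) {z : ℂ} (hz : ‖z‖ = 1) (u : V3) :
    ‖sU φ k1 k2 z u‖ ≤ sK φ k1 k2 * ‖u‖ := by
  have hA := sA_norm φ k1 k2 hz
  have hB := sB_norm φ k1 k2 hz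
  have ha := sa_nonneg φ k1 k2
  have he := ep_norm φ
  have h0 := norm_le_pi_norm u 0
  have h1 := norm_le_pi_norm u 1
  have h2 := norm_le_pi_norm u 2
  have hX := norm_nonneg u
  have hs' : 0 < |Real.sin φ| := abs_pos.2 hs
  set y := (-(u 0 - u 1) + (sA φ k1 k2 z - sB φ k1 k2 z) * u 2) /
    (2 * Complex.I * ((Real.sin φ : ℝ) : ℂ)) with hy
  have hyn : ‖y‖ ≤ (1 + sa φ k1 k2) * (1 / |Real.sin φ|) * ‖u‖ := by
    rw [hy, norm_div]
    have d : ‖2 * Complex.I * ((Real.sin φ : ℝ) : ℂ)‖ = 2 * |Real.sin φ| := by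
      rw [norm_mul, norm_mul, Complex.norm_ofNat, Complex.norm_I, Complex.norm_real,
        Real.norm_eq_abs, mul_one]
    rw [d, div_le_iff₀ (by positivity)]
    have e : (1 + sa φ k1 k2) * (1 / |Real.sin φ|) * ‖u‖ * (2 * |Real.sin φ|) =
        2 * (1 + sa φ k1 k2) * ‖u‖ := by
      field_simp
    rw [e]
    have g1 : ‖(sA φ k1 k2 z - sB φ k1 k2 z) * u 2‖ ≤ 2 * sa φ k1 k2 * ‖u‖ := by
      rw [norm_mul]
      refine mul_le_mul ((norm_sub_le _ _).trans (by linarith)) h2 (norm_nonneg _) (by positivity)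
    calc ‖-(u 0 - u 1) + (sA φ k1 k2 z - sB φ k1 k2 z) * u 2‖
        ≤ ‖-(u 0 - u 1)‖ + ‖(sA φ k1 k2 z - sB φ k1 k2 z) * u 2‖ := norm_add_le _ _
      _ ≤ (‖u 0‖ + ‖u 1‖) + 2 * sa φ k1 k2 * ‖u‖ := by
          rw [norm_neg]
          gcongr
          exact norm_sub_le _ _
      _ ≤ 2 * (1 + sa φ k1 k2) * ‖u‖ := by linarith
  have hK1 : (1 + sa φ k1 k2) * (1 / |Real.sin φ|) ≤ sK φ k1 k2 := by
    unfold sK
    have : 0 ≤ 1 / |Real.sin φ| := by positivity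
    nlinarith
  have hU : sU φ k1 k2 z u = ![u 0 + ep φ * y - sA φ k1 k2 z * u 2, y, u 2] := rfl
  have hK0 : 0 ≤ sK φ k1 k2 := by
    unfold sK
    positivity
  rw [hU, pi_norm_le_iff_of_nonneg (by positivity)]
  intro j
  fin_cases j
  · show ‖u 0 + ep φ * y - sA φ k1 k2 z * u 2‖ ≤ _
    have g1 : ‖ep φ * y‖ ≤ (1 + sa φ k1 k2) * (1 / |Real.sin φ|) * ‖u‖ := by
      rw [norm_mul, he, one_mul]
      exact hyn
    have g2 : ‖sA φ k1 k2 z * u 2‖ ≤ sa φ k1 k2 * ‖u‖ := by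
      rw [norm_mul]
      exact mul_le_mul hA h2 (norm_nonneg _) ha
    calc ‖u 0 + ep φ * y - sA φ k1 k2 z * u 2‖
        ≤ ‖u 0 + ep φ * y‖ + ‖sA φ k1 k2 z * u 2‖ := norm_sub_le _ _
      _ ≤ ‖u 0‖ + ‖ep φ * y‖ + ‖sA φ k1 k2 z * u 2‖ := by
          gcongr
          exact norm_add_le _ _
      _ ≤ ‖u‖ + (1 + sa φ k1 k2) * (1 / |Real.sin φ|) * ‖u‖ + sa φ k1 k2 * ‖u‖ := by
          linarith
      _ = ((1 + sa φ k1 k2) * (1 + 1 / |Real.sin φ|)) * ‖u‖ := by ring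
      _ ≤ sK φ k1 k2 * ‖u‖ := by
          refine mul_le_mul_of_nonneg_right ?_ hX
          unfold sK
          linarith
  · exact hyn.trans (mul_le_mul_of_nonneg_right hK1 hX)
  · show ‖u 2‖ ≤ _
    have : 1 ≤ sK φ k1 k2 := by
      unfold sK
      have : 0 ≤ (1 + sa φ k1 k2) * (1 + 1 / |Real.sin φ|) := by positivity
      linarith
    nlinarith

/-- the equation `sWd.eq_def`, made here once -/
theorem eqn_sWd_eq_def : True := by
  have h := @sWd.eq_def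
  trivial

end Pool.Agent.Helper6.MONO.W2
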