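import Pool.Agent.Helper12.CW.W2I

/-!
Plan W (MP_c75db0): tests for blocks: at the end or at the start of the block; hermitian forms on
tensors (9 by 9).
-/

set_option autoImplicit false
noncomputable section
namespace Pool.Agent.Helper6.MONO.W2

open Matrix

/-- test at the end of the block -/
theorem BOK.of_end {A B : RG} {M M' D H : Mt} (inn : ∀ u ∈ A.In, M.mulVec u ∈ B.In)
    (out : ∀ w ∈ B.Out, Matrix.vecMul w M ∈ A.Out) (hM : M' = D * M) (hG : M * A.G = H * M)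
    (h : ∀ u ∈ A.In, ∀ w ∈ B.Out, 0 ≤ ((w ⬝ᵥ (D + B.G - H).mulVec (M.mulVec u)) *
      star (w ⬝ᵥ M.mulVec u)).re) : BOK A B M M' := by
  refine ⟨inn, out, fun u hu w hw => ?_⟩
  have h1 := h u hu w hw
  have e : M' + B.G * M - M * A.G = (D + B.G - H) * M := by
    rw [hM, hG, sub_mul, add_mul]
  rw [e, ← Matrix.mulVec_mulVec]
  exact h1

/-- test at the start of the block -/
theorem BOK.of_start {A B : RG} {M M' D H : Mt} (inn : ∀ u ∈ A.In, M.mulVec u ∈ B.In)
    (out : ∀ w ∈ B.Out, Matrix.vecMul w M ∈ A.Out) (hM : M' = M * D) (hG : B.G * M = M * H)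
    (h : ∀ u ∈ A.In, ∀ w ∈ B.Out, 0 ≤ ((Matrix.vecMul w M ⬝ᵥ (D + H - A.G).mulVec u) *
      star (Matrix.vecMul w M ⬝ᵥ u)).re) : BOK A B M M' := by
  refine ⟨inn, out, fun u hu w hw => ?_⟩
  have h1 := h u hu w hw
  have e : M' + B.G * M - M * A.G = M * (D + H - A.G) := by
    rw [hM, hG, mul_sub, mul_add]
  have d : ∀ v : V3, Matrix.vecMul w M ⬝ᵥ v = w ⬝ᵥ M.mulVec v := fun v => by
    rw [Matrix.dotProduct_mulVec]
  rw [e, ← Matrix.mulVec_mulVec, ← d, ← d]
  exact h1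

/-! ### hermitian forms -/

/-- value of a form -/
def hv (K : Mt) (v : V3) : ℂ := ∑ i, ∑ j, star (v i) * K i j * v j

/-- pairing of a matrix with a tensor -/
def lt (X : Mt) (t : Fin 3 → Fin 3 → ℂ) : ℂ := ∑ i, ∑ j, X i j * t i j

/-- tensor product of two forms -/
def tf (P Q : Mt) (t : Fin 3 → Fin 3 → ℂ) : ℂ :=
  ∑ i, ∑ i', ∑ j, ∑ j', star (t i j) * (P i i' * Q j j') * t i' j'

theorem lt_mul (X : Mt) (w u : V3) : lt X (fun i j => w i * u j) = w ⬝ᵥ X.mulVec u := by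
  simp only [lt, dotProduct, Matrix.mulVec, Fin.sum_univ_three]
  ring

theorem tf_mul (P Q : Mt) (w u : V3) : tf P Q (fun i j => w i * u j) = hv P w * hv Q u := by
  simp only [tf, hv, Fin.sum_univ_three, star_mul']
  ring

/-- a form with real values -/
def RV (K : Mt) : Prop := ∀ v, (hv K v).im = 0

theorem RV_herm {K : Mt} (h : ∀ i j, K j i = star (K i j)) : RV K := by
  intro v
  have e : star (hv K v) = hv K v := by
    simp only [hv, Fin.sum_univ_three, star_add, star_mul', star_star, ← h]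
    ring
  have h2 : star (hv K v) = (starRingEnd ℂ) (hv K v) := rfl
  rw [h2] at e
  exact Complex.conj_eq_iff_im.1 e

/-- the inequality from a 9 by 9 test -/
theorem gi_of_tensor {A B : RG} {M M' : Mt} {ι : Type} (T : Finset ι) (lam : ι → ℝ)
    (P Q : ι → Mt) (hl : ∀ k ∈ T, 0 ≤ lam k) (hQ : ∀ k ∈ T, RV (Q k))
    (hpos : ∀ k ∈ T, ∀ u ∈ A.In, ∀ w ∈ B.Out, 0 ≤ (hv (P k) w).re * (hv (Q k) u).re)
    (h : ∀ t : Fin 3 → Fin 3 → ℂ, ∑ k ∈ T, lam k * (tf (P k) (Q k) t).re ≤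
      (lt (M' + B.G * M - M * A.G) t * star (lt M t)).re) : GI A B M M' := by
  intro u hu w hw
  have h1 := h (fun i j => w i * u j)
  rw [lt_mul, lt_mul] at h1
  refine le_trans (Finset.sum_nonneg (fun k hk => ?_)) h1
  rw [tf_mul, Complex.mul_re, hQ k hk u, mul_zero, sub_zero]
  exact mul_nonneg (hl k hk) (hpos k hk u hu w hw)

end Pool.Agent.Helper6.MONO.W2
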