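import Pool.Agent.Helper12.CW.W2F

/-!
The final statement of one triple from its quarters; the case distinction (MP_c75db0).
-/

set_option autoImplicit false
noncomputable section
namespace Pool.Agent.Helper6.MONO

open QTR W2

/-- type A: the two quarters of the line `Re x = xA` -/
theorem finA {p q r : ℕ} (hp : 3 ≤ p) (hpq : p ≤ q) (hqr : q ≤ r)
    (hne : ¬ (p = 3 ∧ q = 3 ∧ r = 3)) (h1 : QX p q r (xA p q r)) (h2 : QX q p r (xA p q r)) :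
    FinAt p q r :=
  g_FIN' p q r hp (hp.trans hpq) (hp.trans (hpq.trans hqr)) (certA hp hpq hqr
    (zf_of_qx hp hpq hqr hne (xA_gt hp (hp.trans hpq) hqr) le_rfl h1 h2))

/-- type A, two equal orders in the last places: one quarter -/
theorem finA3 {p q : ℕ} (hp : 3 ≤ p) (hpq : p ≤ q) (hne : ¬ (p = 3 ∧ q = 3))
    (h : QX p q q (xA p q q)) : FinAt p q q :=
  finA hp hpq le_rfl (fun h => hne ⟨h.1, h.2.1⟩) h h.rot2

/-- type B: threshold by the two inequalities -/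
theorem finB {p q r : ℕ} (hp : 3 ≤ p) (hpq : p ≤ q) (hqr : q ≤ r)
    (hne : ¬ (p = 3 ∧ q = 3 ∧ r = 3))
    (h : ∀ x0 : ℝ, Thr p q r x0 → QX p q r x0 ∧ QX q p r x0) : FinAt p q r :=
  g_FIN' p q r hp (hp.trans hpq) (hp.trans (hpq.trans hqr)) (certT hp hpq hqr (fun x0 hT =>
    zf_of_qx hp hpq hqr hne hT.gt hT.A1 (h x0 hT).1 (h x0 hT).2))

/-- plan W: the two quarters of the line `Re x = m` and the window -/
theorem finW {p q r : ℕ} (hp : 3 ≤ p) (hpq : p ≤ q) (hqr : q ≤ r)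
    (hne : ¬ (p = 3 ∧ q = 3 ∧ r = 3)) {m : ℝ} (hm : xA p q r ≤ m) (hm2 : m ≤ 2)
    (h1 : QX p q r m) (h2 : QX q p r m) (hW : Win p q r (xA p q r) m) : FinAt p q r :=
  finAt_win' hp hpq hqr hm hm2 (zf_of_qx hp hpq hqr hne
    (by have := xA_gt hp (hp.trans hpq) hqr; linarith) hm h1 h2) hW

/-- the threshold exists -/
theorem thr_ex {p q r : ℕ} (hp : 3 ≤ p) (hpq : p ≤ q) (hqr : q ≤ r) : ∃ x0 : ℝ, Thr p q r x0 ∧
    (∀ x1 : ℝ, x1 < x0 → ∃ x : ℝ, x1 ≤ x ∧ x ≤ x0 ∧ x ≤ 2 ∧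
      (x < xA p q r ∨ fB p q r x < 0)) := by
  have hq : 3 ≤ q := hp.trans hpq
  have hr : 3 ≤ r := hq.trans hqr
  have g := xA_gt hp hq hqr
  have g2 := xA_le2 hp hq hr
  have hB2 : 0 ≤ fB p q r 2 := by
    obtain ⟨a1, a2⟩ := thr_Kp2 p hp
    obtain ⟨b1, b2⟩ := thr_Kp2 q hq
    obtain ⟨c1, c2⟩ := thr_Kp2 r hr
    rw [fB_eq]
    set τ := (Kp p ^ 2 + Kp q ^ 2 + Kp r ^ 2 - 3) + Kp p * Kp q * Kp r with hτ
    have e : fBx (Kp p ^ 2 + Kp q ^ 2 + Kp r ^ 2 - 3) (Kp p * Kp q * Kp r) 2 =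
        (τ + 3) ^ 3 * (τ - 1) := by
      rw [hτ]
      unfold fBx
      ring
    rw [e]
    have h1 : 1 ≤ τ := by
      have k1 : 1 ≤ Kp p * Kp q := by nlinarith
      have k2 : 1 ≤ Kp p * Kp q * Kp r := by nlinarith
      nlinarith
    have h3 : 0 ≤ (τ + 3) ^ 3 := by positivity
    exact mul_nonneg h3 (by linarith)
  obtain ⟨x0, h1, h3, h4, h5, h6⟩ := st_THX p q r ((xA p q r - 2) / 2) 2 (by linarith) le_rfl
    (Or.inl (by linarith)) g2 hB2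
  obtain ⟨k1, k2⟩ := xA_max' hp hpq hqr
  refine ⟨x0, ⟨by linarith, by linarith, h4, k2.trans h4, k1.trans h4, h5, ?_⟩, h6⟩
  by_contra hc
  push Not at hc
  obtain ⟨c1, -, -, c4⟩ := hc
  have g1 : xA p q r < x0 := lt_of_le_of_ne h4 (Ne.symm c1)
  have g2 : 0 < fB p q r x0 := lt_of_le_of_ne h5 (Ne.symm c4)
  have hopen : IsOpen {x : ℝ | xA p q r < x ∧ 0 < fB p q r x} :=
    (isOpen_lt continuous_const continuous_id).inter
      (isOpen_lt continuous_const (thx_cont p q r))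
  obtain ⟨ε, hε, hball⟩ := Metric.isOpen_iff.1 hopen x0 ⟨g1, g2⟩
  obtain ⟨x, hx1, hx2, -, hx4⟩ := h6 (x0 - ε / 2) (by linarith)
  have hx : x ∈ {x : ℝ | xA p q r < x ∧ 0 < fB p q r x} := by
    apply hball
    rw [Metric.mem_ball, Real.dist_eq, abs_lt]
    constructor <;> linarith
  rcases hx4 with h | h
  · exact absurd hx.1 (not_lt.2 h.le)
  · exact absurd hx.2 (not_lt.2 h.le)

/-- plan W for type B: the window starts at the threshold -/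
theorem finWB {p q r : ℕ} (hp : 3 ≤ p) (hpq : p ≤ q) (hqr : q ≤ r)
    (hne : ¬ (p = 3 ∧ q = 3 ∧ r = 3)) {m : ℝ} (hm2 : m ≤ 2)
    (hm : ∀ x0 : ℝ, Thr p q r x0 → x0 ≤ m) (h1 : QX p q r m) (h2 : QX q p r m)
    (hW : ∀ x0 : ℝ, Thr p q r x0 → Win p q r x0 m) : FinAt p q r := by
  have hq : 3 ≤ q := hp.trans hpq
  have hr : 3 ≤ r := hq.trans hqr
  obtain ⟨x0, hT, hthr⟩ := thr_ex hp hpq hqr
  refine finAt_nc p q r hp hq hr x0 hthr (fun z z' hz hz' hx hzz => ?_)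
  have hm' := hm x0 hT
  have h0 := hT.gt
  have hA := hT.A1
  exact nc_all' hp hq hr h0 hm' hm2 (zf_of_qx hp hpq hqr hne (by linarith) (by linarith) h1 h2)
    (hW x0 hT) hz hz' hx hzz

/-- THE CASE DISTINCTION -/
theorem top_split
    (h1 : ∀ p q r : ℕ, 3 ≤ p → p ≤ q → q ≤ r → r ≤ 9 → ¬ (p = 3 ∧ q = 3 ∧ r = 3) → FinAt p q r)
    (h2 : ∀ p q r : ℕ, 3 ≤ p → p ≤ q → q ≤ 9 → 10 ≤ r → FinAt p q r)
    (h3 : ∀ p q r : ℕ, 3 ≤ p → p ≤ 9 → 10 ≤ q → q ≤ r → FinAt p q r)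
    (h4 : ∀ p q r : ℕ, 10 ≤ p → p ≤ q → q ≤ r → FinAt p q r) : ST_FIN := by
  refine top_finAt (fun p q r hp hpq hqr hne => ?_)
  rcases Nat.lt_or_ge r 10 with hr | hr
  · exact h1 p q r hp hpq hqr (by omega) hne
  rcases Nat.lt_or_ge q 10 with hq | hq
  · exact h2 p q r hp hpq (by omega) hr
  rcases Nat.lt_or_ge p 10 with hp' | hp'
  · exact h3 p q r hp (by omega) hq hqr
  · exact h4 p q r hp' hpq hqr

end Pool.Agent.Helper6.MONO
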