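import Pool.Agent.Helper12.CW.W2J
import Pool.Agent.Helper12.CW.ST1
import Pool.Agent.Helper21.CX.CAN

/-!
Plan W (MP_c75db0): the window theorem in general charts and in the typed frame.
-/

set_option autoImplicit false
noncomputable section
namespace Pool.Agent.Helper6.MONO.W2

open Matrix Complex Filter Topology
open Pool.Agent.Helper21.SUP (GS DG)
open Pool.Agent.Helper21.SUP renaming nx → nxs

/-- THE WINDOW THEOREM for general charts, constant start vectors and final functionals; the start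
vectors are chosen from a finite list -/
theorem win_gen {p q r : ℕ} (hp : 3 ≤ p) (hq : 3 ≤ q) (hr : 3 ≤ r) {a b : ℝ} (ha : -2 < a)
    (hab : a < b) (hb : b < 2) {S B : Type} {src tgt : B → S} (wd : B → List (Fin 3))
    (N N' : B → ℝ → Mt)
    (hN : ∀ β, ∀ x ∈ Set.Icc a b, ∀ i j, HasDerivAt (fun x => N β x i j) (N' β x i j) x)
    (T : S → ℝ → Mt) (K : ℝ) (hdet : ∀ s, ∀ x ∈ Set.Icc a b, (T s x).det ≠ 0)
    (hT : ∀ s, ∀ x ∈ Set.Icc a b, ∀ X : V3, ‖X‖ ≤ K * ‖(T s x).mulVec X‖ ∧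
      ‖(T s x).mulVec X‖ ≤ K * ‖X‖)
    (lnk : ∀ β, ∀ x ∈ Set.Icc a b, ∃ f : ℂ, ‖f‖ = 1 ∧ ∀ X : V3,
      (N β x).mulVec ((T (src β) x).mulVec X) =
        f • (T (tgt β) x).mulVec (gact (wG (cw p q r) (zx x)) (wd β) X))
    (R : S → ℝ → RG) (bd g : ℝ) (St : S → Prop) [Finite {s // St s}]
    (u : S → Fin 3 → V3) (l : S → V3)
    (hW : ∀ x ∈ Set.Ioo a b, WOK src tgt (fun s => R s x) (fun β => N β x) (fun β => N' β x)
      bd St u l)
    (hG : ∀ s, ∀ x ∈ Set.Ioo a b, ∀ i j, ‖(R s x).G i j‖ ≤ g)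
    (hu : ∀ s, St s → LinearIndependent ℂ (u s)) (hun : ∀ s i, ‖u s i‖ ≤ g) (hln : ∀ s, ‖l s‖ ≤ g)
    (L : ℕ) (hcov : ∀ w : List (Fin 3), ∃ (h t : List (Fin 3)) (s : S) (bs : List B) (s' : S),
      h.length ≤ L ∧ t.length ≤ L ∧ St s ∧ BPath src tgt s bs s' ∧
      Eqv p q r w (h ++ (bs.map wd).flatten ++ t)) : Win p q r a b := by
  intro x y hx hxy hy
  have hzn : ∀ x ∈ Set.Icc a b, ‖zx x‖ = 1 := fun x hx =>
    zx_norm (by linarith [hx.1]) (by linarith [hx.2])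
  have hne : ∀ x : ℝ, a ≤ x → zx x ≠ -1 := by
    intro x hx h
    have := zx_re x
    rw [h] at this
    simp at this
    linarith
  have hinv : ∀ s, ∀ x ∈ Set.Icc a b, ∀ v : V3,
      (T s x).mulVec (((T s x)⁻¹).mulVec v) = v := fun s x hx v => by
    rw [Matrix.mulVec_mulVec, Matrix.mul_nonsing_inv _ (isUnit_iff_ne_zero.2 (hdet s x hx)),
      Matrix.one_mulVec]
  obtain ⟨C, hC0, hC⟩ := win_cmp (c := cw p q r) hab wd (src := src) (tgt := tgt)
    N N' hN T K (fun s x hx X => (hT s x hx X).1) lnk (fun s x hx X => (hT s x hx X).2)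
    R (fun β x hx => (hW x hx).blk β) bd g hG St
    (fun s i x => ((T s x)⁻¹).mulVec (u s i)) (fun s i _ => u s i)
    (fun _ _ _ => 0)
    (fun s _ i x hx => hinv s x hx _)
    (fun s _ i x _ j => hasDerivAt_const x _)
    (fun s hs i x hx => (hW x hx).inn s hs i)
    (fun s hs i x hx w hw => (hW x hx).out s hs i w hw)
    (fun s _ i x _ => ⟨hun s i, by rw [norm_zero]; exact (norm_nonneg _).trans (hun s i)⟩)
    (fun s _ => l s) (fun _ _ => 0)
    (fun s x _ j => hasDerivAt_const x _)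
    (fun s x hx => (hW x hx).fin s)
    (fun s x hx v hv => (hW x hx).fno s v hv)
    (fun s x _ => ⟨hln s, by rw [norm_zero]; exact (norm_nonneg _).trans (hln s)⟩)
    hx hxy hy
  have hxI : x ∈ Set.Icc a b := ⟨hx, hxy.trans hy⟩
  have hyI : y ∈ Set.Icc a b := ⟨hx.trans hxy, hy⟩
  refine nc_of_words st_WIG st_INV hp hq hr (hzn x hxI) (hzn y hyI) (hne x hx)
    (hne y (hx.trans hxy)) (ι := {s // St s})
    (fun s w => ∃ (bs : List B) (s' : S), BPath src tgt s.1 bs s' ∧ w = (bs.map wd).flatten) L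
    (fun w => ?_) (fun s i => ((T s.1 x)⁻¹).mulVec (u s.1 i))
    (fun s i => ((T s.1 y)⁻¹).mulVec (u s.1 i)) (fun s => ?_) C ?_
  · obtain ⟨h, t, s, bs, s', h1, h2, h3, h4, h5⟩ := hcov w
    exact ⟨h, (bs.map wd).flatten, t, ⟨s, h3⟩, h1, h2, ⟨bs, s', h4, rfl⟩, h5⟩
  · have hli := hu s.1 s.2
    rw [Fintype.linearIndependent_iff] at hli ⊢
    intro k hk
    refine hli k ?_
    have h1 := congrArg (T s.1 x).mulVec hk
    rw [Matrix.mulVec_zero, Matrix.mulVec_sum] at h1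
    rw [← h1]
    refine Finset.sum_congr rfl (fun i _ => ?_)
    rw [Matrix.mulVec_smul, hinv s.1 x hxI]
  · rintro s w ⟨bs, s', hp', rfl⟩ i
    exact hC s.1 s.2 bs s' hp' i

/-- THE WINDOW THEOREM IN THE TYPED FRAME: blocks are single runs -/
theorem win_typed (hTLN : ST_TLN) (hTDR : ST_TDR) (hTBD : ST_TBD)
    {p q r : ℕ} (hp : 3 ≤ p) (hq : 3 ≤ q) (hr : 3 ≤ r) {a b : ℝ} (ha : -2 < a)
    (hab : a < b) (hb : b < 2) {S B : Type} {src tgt : B → S} (st : S → GS) (m : B → ℕ)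
    (hD : ∀ s, DG (st s)) (hst : ∀ β, st (tgt β) = nxs (st (src β)) (m β))
    (hm : ∀ β, 2 ≤ m β ∧ m β ≤ mm p q r (st (src β)).1 (st (src β)).2.1)
    (R : S → ℝ → RG) (bd g : ℝ) (s0 : GS → S) (u : S → Fin 3 → V3) (l : S → V3)
    (hW : ∀ x ∈ Set.Ioo a b, WOK src tgt (fun s => R s x)
      (fun β => tN p q r (st (src β)) (m β) x) (fun β => tNd p q r (st (src β)) (m β) x)
      bd (fun s => ∃ t, DG t ∧ s = s0 t) u l)
    (hG : ∀ s, ∀ x ∈ Set.Ioo a b, ∀ i j, ‖(R s x).G i j‖ ≤ g)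
    (hu : ∀ s, LinearIndependent ℂ (u s)) (hun : ∀ s i, ‖u s i‖ ≤ g) (hln : ∀ s, ‖l s‖ ≤ g)
    (parse : ∀ (t : GS) (ms : List ℕ), DG t → okD p q r false t ms →
      ∃ (bs : List B) (s' : S), BPath src tgt (s0 t) bs s' ∧ bs.map m = ms)
    (hs0 : ∀ t, DG t → st (s0 t) = t) : Win p q r a b := by
  obtain ⟨K, hK⟩ := hTBD p q r hp hq hr a b ha hb
  obtain ⟨Bn, hBn⟩ := st_CAN p q r hp hq hr
  have hfin : Finite {s // ∃ t, DG t ∧ s = s0 t} := by
    refine Set.Finite.subset (Set.finite_range s0) ?_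
    rintro s ⟨t, -, rfl⟩
    exact ⟨t, rfl⟩
  refine win_gen hp hq hr ha hab hb
    (fun β => alt (st (src β)).1 (st (src β)).2.1 (m β - 1))
    (fun β x => tN p q r (st (src β)) (m β) x) (fun β x => tNd p q r (st (src β)) (m β) x)
    (fun β x hx i j => (hTDR p q r hp hq hr x (by linarith [hx.1]) (by linarith [hx.2]) _
      (hD _)).2.2 _ i j)
    (fun s x => TM p q r (st s) (zw (zx x))) K (fun s x hx => (hK _ (hD s) x hx).1)
    (fun s x hx => (hK _ (hD s) x hx).2) (fun β x hx => ?_) R bd g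
    (fun s => ∃ t, DG t ∧ s = s0 t) u l hW hG
    (fun s _ => hu s) hun hln Bn (fun w => ?_)
  · obtain ⟨f, hf, h⟩ := hTLN p q r hp hq hr x (by linarith [hx.1]) (by linarith [hx.2]) _
      (hD (src β)) (m β) (hm β).1 (hm β).2
    refine ⟨f, hf, fun X => ?_⟩
    rw [hst]
    exact h X
  · obtain ⟨h, t, n, c, d, ms, hd, h1, h2, hok, hE⟩ := hBn w
    have hd' : DG (n, c, d) := hd
    obtain ⟨bs, s', hp', hbs⟩ := parse (n, c, d) ms hd' hok
    refine ⟨h, t, s0 (n, c, d), bs, s', h1, h2, ⟨_, hd', rfl⟩, hp', ?_⟩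
    have key : ∀ {s s' : S} {bs : List B}, BPath src tgt s bs s' →
        (bs.map (fun β => alt (st (src β)).1 (st (src β)).2.1 (m β - 1))).flatten =
          dw (st s) (bs.map m) := by
      intro s s' bs h
      induction h with
      | nil s =>
        generalize st s = t
        obtain ⟨n, a, b⟩ := t
        simp [dw]
      | cons b h ih =>
        rw [List.map_cons, List.flatten_cons, ih, List.map_cons, hst]
        generalize st (src b) = t
        obtain ⟨n, a, c⟩ := t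
        rfl
    rw [key hp', hbs, hs0 _ hd']
    exact hE

end Pool.Agent.Helper6.MONO.W2
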