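import Pool.Agent.Helper12.CW.W2J

/-!
Plan W (MP_c75db0): everything at one parameter from inequalities between hermitian forms.
-/

set_option autoImplicit false
noncomputable section
namespace Pool.Agent.Helper6.MONO.W2

open Matrix

/-- real part of the value of a form -/
def hr (K : Mt) (v : V3) : ℝ := (hv K v).re

/-- square norm -/
def nq (v : V3) : ℝ := ‖v 0‖ ^ 2 + ‖v 1‖ ^ 2 + ‖v 2‖ ^ 2

theorem nq_ge (v : V3) : ‖v‖ ^ 2 ≤ nq v := by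
  have h : ∀ i, ‖v i‖ ^ 2 ≤ nq v := by
    intro i
    unfold nq
    have h0 := sq_nonneg ‖v 0‖
    have h1 := sq_nonneg ‖v 1‖
    have h2 := sq_nonneg ‖v 2‖
    fin_cases i
    · show ‖v 0‖ ^ 2 ≤ _
      linarith
    · show ‖v 1‖ ^ 2 ≤ _
      linarith
    · show ‖v 2‖ ^ 2 ≤ _
      linarith
  have h2 : ‖v‖ ≤ Real.sqrt (nq v) := by
    rw [pi_norm_le_iff_of_nonneg (Real.sqrt_nonneg _)]
    intro i
    exact Real.le_sqrt_of_sq_le (h i)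
  have h3 : 0 ≤ nq v := (sq_nonneg _).trans (h 0)
  calc ‖v‖ ^ 2 ≤ Real.sqrt (nq v) ^ 2 := by
        exact pow_le_pow_left₀ (norm_nonneg _) h2 2
    _ = nq v := Real.sq_sqrt h3

/-- a functional is bounded below on a cone: `c |v|² + μ K(v) ≤ |l v|²` -/
theorem dom_of_form {K : Mt} {l v : V3} {c μ bd : ℝ} (hμ : 0 ≤ μ) (hbd : 0 ≤ bd)
    (hc : 1 ≤ c * bd ^ 2) (hc0 : 0 ≤ c) (h : c * nq v + μ * hr K v ≤ ‖l ⬝ᵥ v‖ ^ 2)
    (hv : 0 ≤ hr K v) : ‖v‖ ≤ bd * ‖l ⬝ᵥ v‖ := by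
  have h1 := nq_ge v
  have h2 : c * ‖v‖ ^ 2 ≤ ‖l ⬝ᵥ v‖ ^ 2 := by
    have := mul_nonneg hμ hv
    nlinarith
  have h3 : ‖v‖ ^ 2 ≤ (bd * ‖l ⬝ᵥ v‖) ^ 2 := by
    calc ‖v‖ ^ 2 ≤ (c * bd ^ 2) * ‖v‖ ^ 2 := by nlinarith [sq_nonneg ‖v‖]
      _ = bd ^ 2 * (c * ‖v‖ ^ 2) := by ring
      _ ≤ bd ^ 2 * ‖l ⬝ᵥ v‖ ^ 2 := mul_le_mul_of_nonneg_left h2 (sq_nonneg _)
      _ = (bd * ‖l ⬝ᵥ v‖) ^ 2 := by ring
  exact le_of_sq_le_sq h3 (by positivity)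

/-- regions given by one form each -/
def RF (K1 K2 G : Mt) : RG := ⟨{v | 0 ≤ hr K1 v}, {w | 0 ≤ hr K2 w}, G⟩

/-- a block from two form inequalities and the tensor inequality with multipliers: positive
semidefinite `P` on covectors, `Q` on vectors, constant `c` -/
theorem bok_of_forms {K1 K2 G K1' K2' G' M M' : Mt} {a b : ℝ} (ha : 0 ≤ a) (hb : 0 ≤ b)
    (h1 : ∀ v, a * hr K1 v ≤ hr K1' (M.mulVec v))
    (h2 : ∀ w, b * hr K2' w ≤ hr K2 (Matrix.vecMul w M))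
    {P Q : Mt} {c : ℝ} (hc : 0 ≤ c) (hP : ∀ w, 0 ≤ hr P w) (hQ : ∀ v, 0 ≤ hr Q v)
    (rK : RV K1) (rQ : RV Q)
    (h : ∀ t : Fin 3 → Fin 3 → ℂ, (tf P K1 t).re + (tf K2' Q t).re + c * (tf K2' K1 t).re ≤
      (lt (M' + G' * M - M * G) t * star (lt M t)).re) :
    BOK (RF K1 K2 G) (RF K1' K2' G') M M' := by
  refine ⟨fun u hu => ?_, fun w hw => ?_, fun u hu w hw => ?_⟩
  · exact (mul_nonneg ha hu).trans (h1 u)
  · exact (mul_nonneg hb hw).trans (h2 w)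
  · have h3 := h (fun i j => w i * u j)
    rw [lt_mul, lt_mul] at h3
    refine le_trans ?_ h3
    have hu' : 0 ≤ hr K1 u := hu
    have hw' : 0 ≤ hr K2' w := hw
    have e : ∀ (A B : Mt), RV B → (tf A B (fun i j => w i * u j)).re = hr A w * hr B u := by
      intro A B hB
      rw [tf_mul, Complex.mul_re, hB u, mul_zero, sub_zero]
      rfl
    rw [e _ _ rK, e _ _ rQ, e _ _ rK]
    have k1 := mul_nonneg (hP w) hu'
    have k2 := mul_nonneg hw' (hQ u)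
    have k3 := mul_nonneg hc (mul_nonneg hw' hu')
    linarith

/-! ### null vectors and covectors -/

/-- regions: one form and nullity with respect to a form -/
def RJ (K1 K2 JV JW G : Mt) : RG :=
  ⟨{v | 0 ≤ hr K1 v ∧ hr JV v = 0}, {w | 0 ≤ hr K2 w ∧ hr JW w = 0}, G⟩

theorem bok_of_formsJ {K1 K2 G K1' K2' G' JV JW JV' JW' M M' : Mt} {a b jv jw mv mw : ℝ}
    (ha : 0 ≤ a) (hb : 0 ≤ b)
    (hJ : ∀ v, hr JV' (M.mulVec v) = mv * hr JV v)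
    (hJ' : ∀ w, hr JW (Matrix.vecMul w M) = mw * hr JW' w)
    (h1 : ∀ v, a * hr K1 v ≤ hr K1' (M.mulVec v) + jv * hr JV v)
    (h2 : ∀ w, b * hr K2' w ≤ hr K2 (Matrix.vecMul w M) + jw * hr JW' w)
    {P Q H1 H2 : Mt} {c : ℝ} (hc : 0 ≤ c) (hP : ∀ w, 0 ≤ hr P w) (hQ : ∀ v, 0 ≤ hr Q v)
    (rK : RV K1) (rQ : RV Q) (rH : RV H1) (rJ : RV JV)
    (h : ∀ t : Fin 3 → Fin 3 → ℂ, (tf P K1 t).re + (tf K2' Q t).re + c * (tf K2' K1 t).re +
      (tf JW' H1 t).re + (tf H2 JV t).re ≤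
        (lt (M' + G' * M - M * G) t * star (lt M t)).re) :
    BOK (RJ K1 K2 JV JW G) (RJ K1' K2' JV' JW' G') M M' := by
  refine ⟨fun u hu => ⟨?_, ?_⟩, fun w hw => ⟨?_, ?_⟩, fun u hu w hw => ?_⟩
  · have := h1 u
    rw [hu.2, mul_zero, add_zero] at this
    exact (mul_nonneg ha hu.1).trans this
  · rw [hJ, hu.2, mul_zero]
  · have := h2 w
    rw [hw.2, mul_zero, add_zero] at this
    exact (mul_nonneg hb hw.1).trans this
  · rw [hJ', hw.2, mul_zero]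
  · have h3 := h (fun i j => w i * u j)
    rw [lt_mul, lt_mul] at h3
    refine le_trans ?_ h3
    have hu' : 0 ≤ hr K1 u := hu.1
    have hw' : 0 ≤ hr K2' w := hw.1
    have e : ∀ (A B : Mt), RV B → (tf A B (fun i j => w i * u j)).re = hr A w * hr B u := by
      intro A B hB
      rw [tf_mul, Complex.mul_re, hB u, mul_zero, sub_zero]
      rfl
    rw [e _ _ rK, e _ _ rQ, e _ _ rK, e _ _ rH, e _ _ rJ, hu.2, hw.2]
    have k1 := mul_nonneg (hP w) hu'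
    have k2 := mul_nonneg hw' (hQ u)
    have k3 := mul_nonneg hc (mul_nonneg hw' hu')
    linarith

/-- a functional is bounded below on a cone of null vectors -/
theorem dom_of_formJ {K J : Mt} {l v : V3} {c μ j bd : ℝ} (hμ : 0 ≤ μ) (hbd : 0 ≤ bd)
    (hc : 1 ≤ c * bd ^ 2) (hc0 : 0 ≤ c)
    (h : c * nq v + μ * hr K v ≤ ‖l ⬝ᵥ v‖ ^ 2 + j * hr J v) (hv : 0 ≤ hr K v)
    (hJ : hr J v = 0) : ‖v‖ ≤ bd * ‖l ⬝ᵥ v‖ := by
  rw [hJ, mul_zero, add_zero] at h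
  exact dom_of_form hμ hbd hc hc0 h hv

end Pool.Agent.Helper6.MONO.W2
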