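import Pool.Agent.Helper12.CW.W2J
import Pool.Agent.Helper93.CW.Cov

/-!
Plan W (MP_c75db0): the window theorem in the star frame for the system of blocks with the types of
the neighbouring syllables.
-/

set_option autoImplicit false
noncomputable section
namespace Pool.Agent.Helper6.MONO.W2

open Matrix

/-- matrix of a block of the star frame at `x` -/
def bN (p q r : ℕ) (b : SBl) (x : ℝ) : Mt := sW (phi p) (Kp q) (Kp r) (zx x) b.wd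

/-- its derivative -/
def bNd (p q r : ℕ) (b : SBl) (x : ℝ) : Mt := sWd (phi p) (Kp q) (Kp r) x b.wd

/-- THE WINDOW THEOREM, star frame, states = (last syllable, next syllable) -/
theorem win_tri {p q r : ℕ} (hp : 3 ≤ p) (hq : 3 ≤ q) (hr : 3 ≤ r) {a b : ℝ} (ha : -2 < a)
    (hab : a < b) (hb : b < 2) (R : Sy × Sy → ℝ → RG) (bd g : ℝ) (u : Sy × Sy → Fin 3 → V3)
    (l : Sy × Sy → V3)
    (hblk : ∀ x ∈ Set.Ioo a b, ∀ β : TB p q r, BOK (R β.src x) (R β.tgt x) (bN p q r β.cur x)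
      (bNd p q r β.cur x))
    (hinn : ∀ x ∈ Set.Ioo a b, ∀ s, TSt p s → ∀ i, u s i ∈ (R s x).In)
    (hout : ∀ x ∈ Set.Ioo a b, ∀ s, TSt p s → ∀ i, ∀ w ∈ (R s x).Out, ‖w‖ ≤ bd * ‖w ⬝ᵥ u s i‖)
    (hfin : ∀ x ∈ Set.Ioo a b, ∀ s, l s ∈ (R s x).Out)
    (hfno : ∀ x ∈ Set.Ioo a b, ∀ s, ∀ v ∈ (R s x).In, ‖v‖ ≤ bd * ‖l s ⬝ᵥ v‖)
    (hG : ∀ s, ∀ x ∈ Set.Ioo a b, ∀ i j, ‖(R s x).G i j‖ ≤ g)
    (hu : ∀ s, TSt p s → LinearIndependent ℂ (u s)) (hun : ∀ s i, ‖u s i‖ ≤ g)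
    (hln : ∀ s, ‖l s‖ ≤ g) : Win p q r a b := by
  have := st_TFIN p
  exact win_star hp hq hr ha hab hb (src := TB.src) (tgt := TB.tgt) (fun β => β.cur.wd) R bd g
    (TSt p) u l (fun x hx => ⟨hblk x hx, hinn x hx, hout x hx, hfin x hx, hfno x hx⟩) hG hu hun hln
    (p + 1) (fun w => by
      obtain ⟨h, t, s, bs, s', h1, h2, h3, h4, h5⟩ := st_COV p q r hp hq hr w
      exact ⟨h, t, s, bs, s', h1, h2, h3, h4, h5⟩)

end Pool.Agent.Helper6.MONO.W2
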