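import Pool.Agent.Helper12.CW.W2V

/-!
Plan W (MP_c75db0): the window theorem with final states; the certificate theorem of the star frame.
-/

set_option autoImplicit false
noncomputable section
namespace Pool.Agent.Helper6.MONO.W2

open Matrix Filter Topology

/-- THE WINDOW CERTIFICATE for a system of block words, with final states -/
theorem win_cmpF {c : Fin 3 → ℝ} {a b : ℝ} (hab : a < b) {S B : Type} {src tgt : B → S}
    (wd : B → List (Fin 3))
    -- blocks and charts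
    (N N' : B → ℝ → Mt)
    (hN : ∀ β, ∀ x ∈ Set.Icc a b, ∀ i j, HasDerivAt (fun x => N β x i j) (N' β x i j) x)
    (T : S → ℝ → Mt) (K : ℝ)
    (hT : ∀ s, ∀ x ∈ Set.Icc a b, ∀ X : V3, ‖X‖ ≤ K * ‖(T s x).mulVec X‖)
    (lnk : ∀ β, ∀ x ∈ Set.Icc a b, ∃ f : ℂ, ‖f‖ = 1 ∧ ∀ X : V3,
      (N β x).mulVec ((T (src β) x).mulVec X) =
        f • (T (tgt β) x).mulVec (gact (wG c (zx x)) (wd β) X))
    (hT2 : ∀ s, ∀ x ∈ Set.Icc a b, ∀ X : V3, ‖(T s x).mulVec X‖ ≤ K * ‖X‖)
    -- regions and gauge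
    (R : S → ℝ → RG)
    (hR : ∀ β, ∀ x ∈ Set.Ioo a b, BOK (R (src β) x) (R (tgt β) x) (N β x) (N' β x))
    (bd g : ℝ) (hG : ∀ s, ∀ x ∈ Set.Ioo a b, ∀ i j, ‖(R s x).G i j‖ ≤ g)
    -- start vectors
    (St : S → Prop) (F u u' : S → Fin 3 → ℝ → V3)
    (hFu : ∀ s, St s → ∀ i, ∀ x ∈ Set.Icc a b, (T s x).mulVec (F s i x) = u s i x)
    (hu : ∀ s, St s → ∀ i, ∀ x ∈ Set.Icc a b, ∀ j,
      HasDerivAt (fun x => u s i x j) (u' s i x j) x)
    (huI : ∀ s, St s → ∀ i, ∀ x ∈ Set.Ioo a b, u s i x ∈ (R s x).In)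
    (huO : ∀ s, St s → ∀ i, ∀ x ∈ Set.Ioo a b,
      ∀ w ∈ (R s x).Out, ‖w‖ ≤ bd * ‖w ⬝ᵥ u s i x‖)
    (hun : ∀ s, St s → ∀ i, ∀ x ∈ Set.Icc a b, ‖u s i x‖ ≤ g ∧ ‖u' s i x‖ ≤ g)
    -- final functionals
    (Fi : S → Prop)
    (l l' : S → ℝ → V3) (hl : ∀ s, Fi s → ∀ x ∈ Set.Icc a b, ∀ j,
      HasDerivAt (fun x => l s x j) (l' s x j) x)
    (hlO : ∀ s, Fi s → ∀ x ∈ Set.Ioo a b, l s x ∈ (R s x).Out)
    (hlI : ∀ s, Fi s → ∀ x ∈ Set.Ioo a b, ∀ v ∈ (R s x).In, ‖v‖ ≤ bd * ‖l s x ⬝ᵥ v‖)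
    (hln : ∀ s, Fi s → ∀ x ∈ Set.Icc a b, ‖l s x‖ ≤ g ∧ ‖l' s x‖ ≤ g)
    {x y : ℝ} (hx : a ≤ x) (hxy : x ≤ y) (hy : y ≤ b) : ∃ C : ℝ, 0 ≤ C ∧
      ∀ s, St s → ∀ bs s', BPath src tgt s bs s' → Fi s' → ∀ i,
        ‖gact (wG c (zx x)) (bs.map wd).flatten (F s i x)‖ ≤
          C * ‖gact (wG c (zx y)) (bs.map wd).flatten (F s i y)‖ := by
  have hxI : x ∈ Set.Icc a b := ⟨hx, hxy.trans hy⟩
  have hyI : y ∈ Set.Icc a b := ⟨hx.trans hxy, hy⟩
  set k : ℝ := 6 * |bd| * (|g| + 3 * |g| ^ 2) with hk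
  refine ⟨|K| * (|bd| * (Real.exp (k * (y - x)) * (3 * |g| * |K|))), by positivity,
    fun s hs bs s' hp hfi i => ?_⟩
  -- the scalar function
  set f : ℝ → ℂ := fun x => l s' x ⬝ᵥ (pN (fun β => N β x) bs).mulVec (u s i x) with hf
  set f' : ℝ → ℂ := fun x => l' s' x ⬝ᵥ (pN (fun β => N β x) bs).mulVec (u s i x) +
    l s' x ⬝ᵥ (pD (fun β => N β x) (fun β => N' β x) bs).mulVec (u s i x) +
    l s' x ⬝ᵥ (pN (fun β => N β x) bs).mulVec (u' s i x) with hf'
  have hder : ∀ x ∈ Set.Icc a b, HasDerivAt f (f' x) x := fun x hx =>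
    lPu_deriv (P := fun x => pN (fun β => N β x) bs) (u := fun x => u s i x) (l := fun x => l s' x)
      (fun i j => pN_deriv N N' bs (fun β i j => hN β x hx i j) i j)
      (fun j => hu s hs i x hx j) (fun j => hl s' hfi x hx j)
  have hpath : ∀ x ∈ Set.Ioo a b, BOK (R s x) (R s' x) (pN (fun β => N β x) bs)
      (pD (fun β => N β x) (fun β => N' β x) bs) := fun x hx =>
    bok_path (fun s => R s x) _ _ (fun β => hR β x hx) hp
  have hg0 : ∀ x : ℝ, x ≤ g → x ≤ |g| := fun x h => h.trans (le_abs_self g)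
  have hineq : ∀ x ∈ Set.Ioo a b, -(k * ‖f x‖ ^ 2) ≤ (f' x * star (f x)).re := by
    intro x hx
    have hx' := Set.Ioo_subset_Icc_self hx
    refine point_ineq (hpath x hx) (huI s hs i x hx) (hlO s' hfi x hx) (abs_nonneg bd)
      (abs_nonneg g) (fun w hw => ?_) (fun v hv => ?_) (fun i j => hg0 _ (hG _ x hx i j))
      (fun i j => hg0 _ (hG _ x hx i j)) (hg0 _ (hun s hs i x hx').1) (hg0 _ (hln s' hfi x hx').1)
      (hg0 _ (hun s hs i x hx').2) (hg0 _ (hln s' hfi x hx').2)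
    · exact (huO s hs i x hx w hw).trans
        (mul_le_mul_of_nonneg_right (le_abs_self bd) (norm_nonneg _))
    · exact (hlI s' hfi x hx v hv).trans
        (mul_le_mul_of_nonneg_right (le_abs_self bd) (norm_nonneg _))
  have hmono := integ hder hineq hx hxy hy
  have hmono' : ‖f x‖ ≤ Real.exp (k * (y - x)) * ‖f y‖ := by
    have e : Real.exp (2 * k * (y - x)) = Real.exp (k * (y - x)) ^ 2 := by
      rw [← Real.exp_nat_mul]
      congr 1
      push_cast
      ring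
    rw [e, ← mul_pow] at hmono
    exact le_of_sq_le_sq hmono (by positivity)
  -- domination by the functional, closed by continuity
  have hdom : ‖(pN (fun β => N β x) bs).mulVec (u s i x)‖ ≤ |bd| * ‖f x‖ := by
    have hev : ∀ y ∈ Set.Ioo a b, ‖(pN (fun β => N β y) bs).mulVec (u s i y)‖ ≤
        |bd| * ‖f y‖ := fun y hy => by
      refine (hlI s' hfi y hy _ ((hpath y hy).inn _ (huI s hs i y hy))).trans ?_
      exact mul_le_mul_of_nonneg_right (le_abs_self bd) (norm_nonneg _)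
    have hc1 : ContinuousAt (fun y => (pN (fun β => N β y) bs).mulVec (u s i y)) x := by
      rw [continuousAt_pi]
      intro j
      have h0 : (fun y => (pN (fun β => N β y) bs).mulVec (u s i y) j) = fun y =>
          pN (fun β => N β y) bs j 0 * u s i y 0 + pN (fun β => N β y) bs j 1 * u s i y 1 +
            pN (fun β => N β y) bs j 2 * u s i y 2 := by
        funext y
        rw [Matrix.mulVec, dotProduct, Fin.sum_univ_three]
      rw [h0]
      have hPc := fun i j => (pN_deriv N N' bs (fun β i j => hN β x hxI i j) i j).continuousAt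
      have huc := fun j => (hu s hs i x hxI j).continuousAt
      exact (((hPc j 0).mul (huc 0)).add ((hPc j 1).mul (huc 1))).add ((hPc j 2).mul (huc 2))
    have hc2 : ContinuousAt f x := (hder x hxI).continuousAt
    have hcl : x ∈ closure (Set.Ioo a b) := by
      rw [closure_Ioo hab.ne]
      exact hxI
    have hne : (𝓝[Set.Ioo a b] x).NeBot := mem_closure_iff_nhdsWithin_neBot.1 hcl
    have t1 : Tendsto (fun y => ‖(pN (fun β => N β y) bs).mulVec (u s i y)‖)
        (𝓝[Set.Ioo a b] x) (𝓝 ‖(pN (fun β => N β x) bs).mulVec (u s i x)‖) :=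
      hc1.norm.tendsto.mono_left nhdsWithin_le_nhds
    have t2 : Tendsto (fun y => |bd| * ‖f y‖) (𝓝[Set.Ioo a b] x) (𝓝 (|bd| * ‖f x‖)) :=
      ((hc2.norm.tendsto).const_mul |bd|).mono_left nhdsWithin_le_nhds
    refine le_of_tendsto_of_tendsto t1 t2 ?_
    filter_upwards [self_mem_nhdsWithin] with y hy
    exact hev y hy
  -- charts
  obtain ⟨e1, he1, hx1⟩ := pN_linkW (c := c) (z := zx x) wd
    (fun β => N β x) (fun s => T s x) (fun β => lnk β x hxI) hp (F s i x)
  obtain ⟨e2, he2, hy1⟩ := pN_linkW (c := c) (z := zx y) wd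
    (fun β => N β y) (fun s => T s y) (fun β => lnk β y hyI) hp (F s i y)
  rw [hFu s hs i x hxI] at hx1
  rw [hFu s hs i y hyI] at hy1
  set X := gact (wG c (zx x)) (bs.map wd).flatten (F s i x) with hX
  set Y := gact (wG c (zx y)) (bs.map wd).flatten (F s i y) with hY
  have n1 : ‖(pN (fun β => N β x) bs).mulVec (u s i x)‖ = ‖(T s' x).mulVec X‖ := by
    rw [hx1, norm_smul, he1, one_mul]
  have n2 : ‖(pN (fun β => N β y) bs).mulVec (u s i y)‖ = ‖(T s' y).mulVec Y‖ := by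
    rw [hy1, norm_smul, he2, one_mul]
  have n3 : ‖f y‖ ≤ 3 * |g| * (|K| * ‖Y‖) := by
    have h1 := dot_le (l s' y) ((pN (fun β => N β y) bs).mulVec (u s i y))
    rw [n2] at h1
    refine h1.trans ?_
    have h2 : ‖(T s' y).mulVec Y‖ ≤ |K| * ‖Y‖ :=
      (hT2 s' y hyI Y).trans (mul_le_mul_of_nonneg_right (le_abs_self K) (norm_nonneg _))
    have h3 := hg0 _ (hln s' hfi y hyI).1
    exact mul_le_mul (by linarith) h2 (norm_nonneg _) (by positivity)
  show ‖X‖ ≤ _ * ‖Y‖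
  calc ‖X‖ ≤ K * ‖(T s' x).mulVec X‖ := hT s' x hxI X
    _ ≤ |K| * ‖(T s' x).mulVec X‖ := mul_le_mul_of_nonneg_right (le_abs_self K) (norm_nonneg _)
    _ ≤ |K| * (|bd| * ‖f x‖) := by
        rw [← n1]
        exact mul_le_mul_of_nonneg_left hdom (abs_nonneg _)
    _ ≤ |K| * (|bd| * (Real.exp (k * (y - x)) * (3 * |g| * (|K| * ‖Y‖)))) := by
        refine mul_le_mul_of_nonneg_left (mul_le_mul_of_nonneg_left (hmono'.trans ?_)
          (abs_nonneg _)) (abs_nonneg _)
        exact mul_le_mul_of_nonneg_left n3 (Real.exp_pos _).le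
    _ = _ := by ring


/-! ### bounds on compact intervals -/

theorem zd_cont : ContinuousOn zd (Set.Ioo (-2) 2) := by
  have e : zd = fun x : ℝ => ((1 / 2 : ℝ) : ℂ) +
      ((-(x / (4 * Real.sqrt (1 - (x / 2) ^ 2))) : ℝ) : ℂ) * Complex.I := by
    funext x
    have ed : zd x = ⟨1 / 2, -(x / (4 * Real.sqrt (1 - (x / 2) ^ 2)))⟩ := rfl
    rw [ed]
    generalize -(x / (4 * Real.sqrt (1 - (x / 2) ^ 2))) = d
    apply Complex.ext <;> simp
  rw [e]
  have h1 : ContinuousOn (fun x : ℝ => -(x / (4 * Real.sqrt (1 - (x / 2) ^ 2))))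
      (Set.Ioo (-2) 2) := by
    refine (ContinuousOn.div continuousOn_id (Continuous.continuousOn (by fun_prop)) ?_).neg
    intro x hx
    have hp : 0 < 1 - (x / 2) ^ 2 := by nlinarith [hx.1, hx.2]
    have := Real.sqrt_pos.2 hp
    positivity
  exact continuousOn_const.add ((Complex.continuous_ofReal.comp_continuousOn h1).mul
    continuousOn_const)

theorem sWd_cont (φ k1 k2 : ℝ) (w : List (Fin 3)) (i j : Fin 3) :
    ContinuousOn (fun x => sWd φ k1 k2 x w i j) (Set.Ioo (-2) 2) := by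
  have hA : ContinuousOn (fun x => sA φ k1 k2 (zx x)) (Set.Ioo (-2) 2) := fun x hx =>
    (sA_deriv φ k1 k2 hx.1 hx.2).continuousAt.continuousWithinAt
  have hB : ContinuousOn (fun x => sB φ k1 k2 (zx x)) (Set.Ioo (-2) 2) := fun x hx =>
    (sB_deriv φ k1 k2 hx.1 hx.2).continuousAt.continuousWithinAt
  have hA' : ContinuousOn (fun x => sAd φ k2 x) (Set.Ioo (-2) 2) := by
    unfold sAd
    exact ((continuousOn_const.mul ((continuousOn_const.mul zd_cont).mul
      continuousOn_const))).div_const _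
  have hB' : ContinuousOn (fun x => sBd φ k2 x) (Set.Ioo (-2) 2) := by
    unfold sBd
    exact (((continuousOn_const.mul ((continuousOn_const.mul zd_cont).mul
      continuousOn_const))).div_const _).neg
  have hL : ∀ n i j : Fin 3, ContinuousOn (fun x => sLd φ k1 k2 x n i j) (Set.Ioo (-2) 2) := by
    intro n i j
    fin_cases n
    · exact continuousOn_const
    · exact continuousOn_const
    · show ContinuousOn (fun x => sI2d (sA φ k1 k2 (zx x)) (sB φ k1 k2 (zx x)) (sAd φ k2 x)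
        (sBd φ k2 x) i j) _
      have sA' := hA.star
      have sB' := hB.star
      have sA'' := hA'.star
      have sB'' := hB'.star
      fin_cases i <;> fin_cases j <;> simp only [sI2d, Fin.zero_eta, Fin.mk_one, Fin.reduceFinMk,
        Matrix.of_apply, Matrix.cons_val', Matrix.cons_val_zero, Matrix.cons_val_one,
        Matrix.cons_val, Matrix.cons_val_fin_one] <;> fun_prop
  have hLc : ∀ n i j : Fin 3, ContinuousOn (fun x => sL φ k1 k2 (zx x) n i j)
      (Set.Ioo (-2) 2) := fun n i j x hx =>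
    (sL_deriv φ k1 k2 hx.1 hx.2 n i j).continuousAt.continuousWithinAt
  induction w generalizing i j with
  | nil => exact continuousOn_const
  | cons n w ih =>
    have hW : ∀ i j, ContinuousOn (fun x => sW φ k1 k2 (zx x) w i j) (Set.Ioo (-2) 2) :=
      fun i j x hx => (sW_deriv φ k1 k2 hx.1 hx.2 w i j).continuousAt.continuousWithinAt
    have e : (fun x => sWd φ k1 k2 x (n :: w) i j) = fun x =>
        (sWd φ k1 k2 x w i 0 * sL φ k1 k2 (zx x) n 0 j +
          sWd φ k1 k2 x w i 1 * sL φ k1 k2 (zx x) n 1 j +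
          sWd φ k1 k2 x w i 2 * sL φ k1 k2 (zx x) n 2 j) +
        (sW φ k1 k2 (zx x) w i 0 * sLd φ k1 k2 x n 0 j +
          sW φ k1 k2 (zx x) w i 1 * sLd φ k1 k2 x n 1 j +
          sW φ k1 k2 (zx x) w i 2 * sLd φ k1 k2 x n 2 j) := by
      funext x
      rw [sWd, Matrix.add_apply, Matrix.mul_apply, Matrix.mul_apply, Fin.sum_univ_three,
        Fin.sum_univ_three]
    rw [e]
    exact ((((ih i 0).mul (hLc n 0 j)).add ((ih i 1).mul (hLc n 1 j))).add
      ((ih i 2).mul (hLc n 2 j))).add ((((hW i 0).mul (hL n 0 j)).add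
      ((hW i 1).mul (hL n 1 j))).add ((hW i 2).mul (hL n 2 j)))

/-- the matrices of the words of a finite list and their derivatives are bounded -/
theorem sW_bound (φ k1 k2 : ℝ) {a b : ℝ} (ha : -2 < a) (hb : b < 2) (ws : List (List (Fin 3))) :
    ∃ C : ℝ, 0 ≤ C ∧ ∀ w ∈ ws, ∀ x ∈ Set.Icc a b, ∀ i j, ‖sW φ k1 k2 (zx x) w i j‖ ≤ C ∧
      ‖sWd φ k1 k2 x w i j‖ ≤ C := by
  have hsub : Set.Icc a b ⊆ Set.Ioo (-2) 2 := fun x hx => ⟨by linarith [hx.1], by linarith [hx.2]⟩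
  have one : ∀ w i j, ∃ C : ℝ, ∀ x ∈ Set.Icc a b, ‖sW φ k1 k2 (zx x) w i j‖ ≤ C ∧
      ‖sWd φ k1 k2 x w i j‖ ≤ C := by
    intro w i j
    have h1 : ContinuousOn (fun x => sW φ k1 k2 (zx x) w i j) (Set.Icc a b) := fun x hx =>
      (sW_deriv φ k1 k2 (hsub hx).1 (hsub hx).2 w i j).continuousAt.continuousWithinAt
    obtain ⟨C1, hC1⟩ := isCompact_Icc.exists_bound_of_continuousOn h1
    obtain ⟨C2, hC2⟩ := isCompact_Icc.exists_bound_of_continuousOn
      ((sWd_cont φ k1 k2 w i j).mono hsub)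
    exact ⟨max C1 C2, fun x hx => ⟨(hC1 x hx).trans (le_max_left _ _),
      (hC2 x hx).trans (le_max_right _ _)⟩⟩
  choose C hC using one
  induction ws with
  | nil => exact ⟨0, le_rfl, fun w hw => absurd hw (List.not_mem_nil)⟩
  | cons w ws ih =>
    obtain ⟨D, hD0, hD⟩ := ih
    refine ⟨D + ∑ i, ∑ j, |C w i j|, by positivity, fun v hv x hx i j => ?_⟩
    have hS : ∀ i j, |C w i j| ≤ ∑ i, ∑ j, |C w i j| := fun i j =>
      (Finset.single_le_sum (f := fun j => |C w i j|) (fun _ _ => abs_nonneg _)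
        (Finset.mem_univ j)).trans (Finset.single_le_sum (f := fun i => ∑ j, |C w i j|)
          (fun _ _ => Finset.sum_nonneg (fun _ _ => abs_nonneg _)) (Finset.mem_univ i))
    rcases List.mem_cons.1 hv with rfl | h
    · have := hC v i j x hx
      have h2 := hS i j
      have h3 := le_abs_self (C v i j)
      exact ⟨by linarith [this.1], by linarith [this.2]⟩
    · have := hD v h x hx i j
      have h2 : 0 ≤ ∑ i, ∑ j, |C w i j| :=
        Finset.sum_nonneg (fun _ _ => Finset.sum_nonneg (fun _ _ => abs_nonneg _))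
      exact ⟨by linarith [this.1], by linarith [this.2]⟩

end Pool.Agent.Helper6.MONO.W2
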