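import Pool.Agent.Helper12.CW.W2K

/-!
Plan W (MP_c75db0), orders at least 10: the window starts at the last point before `m` at which one
of the two threshold inequalities fails; above it `fB` is nonnegative.
-/

set_option autoImplicit false
noncomputable section
namespace Pool.Agent.Helper6.MONO

open QTR W2

/-- plan W with `fB ≥ 0` on the window -/
theorem finWC {p q r : ℕ} (hp : 3 ≤ p) (hpq : p ≤ q) (hqr : q ≤ r)
    (hne : ¬ (p = 3 ∧ q = 3 ∧ r = 3)) {m : ℝ} (hm2 : m ≤ 2) (hmA : xA p q r ≤ m)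
    (h1 : QX p q r m) (h2 : QX q p r m)
    (hW : ∀ x0 : ℝ, xA p q r ≤ x0 → x0 ≤ m → (∀ x : ℝ, x0 < x → x ≤ m → 0 ≤ fB p q r x) →
      Win p q r x0 m) : FinAt p q r := by
  have hq : 3 ≤ q := hp.trans hpq
  have hr : 3 ≤ r := hq.trans hqr
  have hgt := xA_gt hp hq hqr
  set T : Set ℝ := {x : ℝ | x ≤ m ∧ (x < xA p q r ∨ fB p q r x < 0)} with hT
  have hbd : BddAbove T := ⟨m, fun x hx => hx.1⟩
  have hTA : ∀ x : ℝ, x < xA p q r → x ∈ T := fun x hx => ⟨hx.le.trans hmA, Or.inl hx⟩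
  have hne0 : T.Nonempty := ⟨xA p q r - 1, hTA _ (by linarith)⟩
  set x0 : ℝ := sSup T with hx0
  have hxA0 : xA p q r ≤ x0 := by
    by_contra hc
    push Not at hc
    have := le_csSup hbd (hTA ((x0 + xA p q r) / 2) (by linarith))
    linarith
  have hxm : x0 ≤ m := csSup_le hne0 (fun x hx => hx.1)
  refine finAt_nc p q r hp hq hr x0 (fun x1 hx1 => ?_) (fun z z' hz hz' hx hzz => ?_)
  · obtain ⟨x, hx, hx'⟩ := exists_lt_of_lt_csSup hne0 hx1
    exact ⟨x, hx'.le, le_csSup hbd hx, hx.1.trans hm2, hx.2⟩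
  · refine nc_all' hp hq hr (by linarith) hxm hm2 (zf_of_qx hp hpq hqr hne (by linarith) hmA h1 h2)
      (hW x0 hxA0 hxm (fun x hx hxm' => ?_)) hz hz' hx hzz
    by_contra hc
    push Not at hc
    have := le_csSup hbd (show x ∈ T from ⟨hxm', Or.inr hc⟩)
    linarith

end Pool.Agent.Helper6.MONO
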